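import Pool.Agent.EHP56.Defs

/-!
# Average of `log |Re (conj u * z)|` over the unit circle (module A1)

For `‖u‖ = 1` and `z ≠ 0` put `w = z / ‖z‖`.  Then `Re (conj u * z) = (‖z‖/2) (conj u * w + u * conj w)
= (‖z‖/2) conj u conj w (w^2 + u^2)`, so `|Re (conj u z)| = (‖z‖/2) ‖u - b‖ ‖u + b‖` with `b = I w`
(`b^2 = - w^2`, `‖b‖ = 1`).  Taking logarithms (all factors nonzero except for the two points `u = ± b`;
since Lean has `log 0 = 0` treat these points by `circleAverage_congr_codiscreteWithin` or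
an a.e. argument) and using
`circleAverage_log_norm_sub_const₁ : circleAverage (log ‖· - a‖) 0 1 = 0` for `‖a‖ = 1` (in Mathlib) one gets
`log ‖z‖ - log 2`.  Integrability: `MeromorphicOn.circleIntegrable_log_norm` (or `circleIntegrable_log_norm_...`).
-/

namespace EHP56

open Finset

private lemma avgLog_re {u w : ℂ} (hu : ‖u‖ = 1) (hw : ‖w‖ = 1) :
    |((starRingEnd ℂ) u * w).re| = ‖u - Complex.I * w‖ * ‖u - -(Complex.I * w)‖ / 2 := by
  have huu : u * (starRingEnd ℂ) u = 1 := by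
    rw [Complex.mul_conj, Complex.normSq_eq_norm_sq, hu]
    norm_num
  have hww : w * (starRingEnd ℂ) w = 1 := by
    rw [Complex.mul_conj, Complex.normSq_eq_norm_sq, hw]
    norm_num
  have h1 : |((starRingEnd ℂ) u * w).re|
      = ‖(starRingEnd ℂ) u * w + u * (starRingEnd ℂ) w‖ / 2 := by
    have h2 : (((starRingEnd ℂ) u * w).re : ℂ)
        = ((starRingEnd ℂ) u * w + u * (starRingEnd ℂ) w) / 2 := by
      rw [Complex.re_eq_add_conj, map_mul, Complex.conj_conj]
    have h3 := congrArg (fun x : ℂ => ‖x‖) h2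
    simp only [norm_div, Complex.norm_real, Real.norm_eq_abs] at h3
    rw [h3]
    norm_num
  have h4 : ‖(starRingEnd ℂ) u * w + u * (starRingEnd ℂ) w‖
      = ‖u - Complex.I * w‖ * ‖u - -(Complex.I * w)‖ := by
    have h5 : ‖(starRingEnd ℂ) u * w + u * (starRingEnd ℂ) w‖
        = ‖((starRingEnd ℂ) u * w + u * (starRingEnd ℂ) w) * (u * w)‖ := by
      rw [norm_mul, norm_mul u w, hu, hw, mul_one, mul_one]
    have h6 : ((starRingEnd ℂ) u * w + u * (starRingEnd ℂ) w) * (u * w)
        = (u - Complex.I * w) * (u - -(Complex.I * w)) := by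
      linear_combination (w ^ 2) * huu + (u ^ 2) * hww + (w ^ 2) * Complex.I_mul_I
    rw [h5, h6, norm_mul]
  rw [h1, h4]

private lemma avgLog_congr {z : ℂ} (hz : z ≠ 0) :
    (fun u : ℂ => Real.log |((starRingEnd ℂ) u * z).re|)
      =ᶠ[Filter.codiscreteWithin (Metric.sphere 0 |(1 : ℝ)|)]
    (fun u : ℂ => (Real.log ‖z‖ - Real.log 2)
      + (Real.log ‖u - Complex.I * (z / ‖z‖)‖ + Real.log ‖u - -(Complex.I * (z / ‖z‖))‖)) := by
  have hz' : ‖z‖ ≠ 0 := norm_ne_zero_iff.mpr hz
  have hw : ‖z / (‖z‖ : ℂ)‖ = 1 := by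
    rw [norm_div, Complex.norm_real, norm_norm, div_self hz']
  have hfin : ({Complex.I * (z / ‖z‖), -(Complex.I * (z / ‖z‖))} : Set ℂ).Finite :=
    Set.toFinite _
  have hmem := compl_finite_mem_codiscreteWithin (s := Metric.sphere (0 : ℂ) |(1 : ℝ)|) hfin
  filter_upwards [hmem, Filter.self_mem_codiscreteWithin (Metric.sphere (0 : ℂ) |(1 : ℝ)|)]
    with u hu husph
  have hu1 : ‖u‖ = 1 := by
    simpa using husph
  have hne1 : u - Complex.I * (z / ‖z‖) ≠ 0 := by
    intro h
    exact hu (Or.inl (sub_eq_zero.mp h))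
  have hne2 : u - -(Complex.I * (z / ‖z‖)) ≠ 0 := by
    intro h
    exact hu (Or.inr (sub_eq_zero.mp h))
  have h1 : ((starRingEnd ℂ) u * z).re = ‖z‖ * ((starRingEnd ℂ) u * (z / ‖z‖)).re := by
    rw [← Complex.re_ofReal_mul]
    congr 1
    have : (‖z‖ : ℂ) ≠ 0 := by exact_mod_cast hz'
    field_simp
  rw [h1, abs_mul, abs_norm, avgLog_re hu1 hw]
  have n1 : ‖u - Complex.I * (z / ‖z‖)‖ ≠ 0 := norm_ne_zero_iff.mpr hne1
  have n2 : ‖u - -(Complex.I * (z / ‖z‖))‖ ≠ 0 := norm_ne_zero_iff.mpr hne2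
  rw [Real.log_mul hz' (div_ne_zero (mul_ne_zero n1 n2) two_ne_zero),
    Real.log_div (mul_ne_zero n1 n2) two_ne_zero, Real.log_mul n1 n2]
  ring

private lemma avgLog_int2 (a b : ℂ) :
    CircleIntegrable (fun u : ℂ => Real.log ‖u - a‖ + Real.log ‖u - b‖) 0 1 :=
  (circleIntegrable_log_norm_sub_const 1).add (circleIntegrable_log_norm_sub_const 1)

private lemma avgLog_int (a : ℂ) : CircleIntegrable (fun u : ℂ => Real.log ‖u - a‖) 0 1 :=
  circleIntegrable_log_norm_sub_const 1

theorem circleIntegrable_log_re (z : ℂ) :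
    CircleIntegrable (fun u : ℂ => Real.log |((starRingEnd ℂ) u * z).re|) 0 1 := by
  by_cases hz : z = 0
  · subst hz
    have : (fun u : ℂ => Real.log |((starRingEnd ℂ) u * 0).re|) = fun _ => 0 := by
      funext u
      simp
    rw [this]
    exact circleIntegrable_const _ _ _
  · apply CircleIntegrable.congr_codiscreteWithin (avgLog_congr hz).symm
    exact (circleIntegrable_const _ _ _).add ((avgLog_int _).add (avgLog_int _))

theorem circleAverage_log_re (z : ℂ) (hz : z ≠ 0) :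
    Real.circleAverage (fun u : ℂ => Real.log |((starRingEnd ℂ) u * z).re|) 0 1
      = Real.log ‖z‖ - Real.log 2 := by
  have hz' : ‖z‖ ≠ 0 := norm_ne_zero_iff.mpr hz
  have hw : ‖Complex.I * (z / (‖z‖ : ℂ))‖ = 1 := by
    rw [norm_mul, Complex.norm_I, one_mul, norm_div, Complex.norm_real, norm_norm, div_self hz']
  rw [Real.circleAverage_congr_codiscreteWithin (avgLog_congr hz) one_ne_zero,
    Real.circleAverage_fun_add (circleIntegrable_const _ _ _) (avgLog_int2 _ _),
    Real.circleAverage_const, Real.circleAverage_fun_add (avgLog_int _) (avgLog_int _),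
    circleAverage_log_norm_sub_const₁ hw, circleAverage_log_norm_sub_const₁ (by rw [norm_neg, hw]),
    add_zero, add_zero]

end EHP56
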