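import Pool.Agent.EHP56.Normals

/-!
# Radii, normals and chords when the support function is close to one (module A7)

`Z k = z k - cen z`, `ρ k = ‖Z k‖`, `U k = Z k / ρ k`, `H u = supp z u - Re (conj u * cen z)
 = max_j Re (conj u * Z j)`, `|H u - 1| ≤ η` for all unit `u`, `θ = √(5η) ≤ 0.0708`, `η = θ²/5`.

* `ρ k ≤ 1 + η`: take `u = U k` : `H u ≥ Re (conj (U k) Z k) = ρ k`.
* `ρ k ≥ 1 - η`: `H (nrm z k) = Re (conj (nrm z k) * Z k) ≤ ρ k` (`supp_nrm`, `nrm_norm`).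
* `‖Z k - nrm z k‖^2 = ρ k^2 - 2 Re (conj (nrm z k) Z k) + 1 ≤ (1+η)^2 - 2(1-η) + 1 = 4η + η² ≤ 5η`.
* Chords: let `Δ = ‖U i - U j‖`.  Then `‖z i - z j‖^2 = (ρ i - ρ j)^2 + ρ i ρ j Δ^2`.
  Claim: `|ρ i - ρ j| ≤ √θ Δ`.  By symmetry it is enough to bound `ρ j - ρ i`.
  - If `Δ > √θ`: `ρ j - ρ i ≤ 2η = (2/5) θ² ≤ θ ≤ √θ Δ`.
  - If `Δ ≤ √θ`: `0 ≥ Re (conj (nrm z i) (Z j - Z i))` and `Z j - Z i = (ρ j - ρ i) U j + ρ i (U j - U i)`, so
    `(ρ j - ρ i) Re (conj (nrm z i) U j) ≤ - ρ i Re (conj (nrm z i) (U j - U i))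
      ≤ ρ i (Δ²/2 + (θ+η) Δ)` since `- Re (conj (U i) (U j - U i)) = Δ²/2` and
    `‖nrm z i - U i‖ ≤ ‖nrm z i - Z i‖ + ‖Z i - U i‖ ≤ θ + η`.
    `Re (conj (nrm z i) U j) ≥ 1 - (θ+η+Δ)²/2 ≥ 0.94`; so
    `ρ j - ρ i ≤ (1.001/0.94) (√θ/2 + θ + η) Δ ≤ √θ Δ` because `√θ ≤ 0.2661`, `θ + η ≤ 0.0718 ≤ 0.27 √θ`
    (as `θ/√θ = √θ ≤ 0.2661`, and `η/√θ ≤ 0.004`) and `(1.001/0.94)(0.5 + 0.2661 + 0.004) ≤ 0.83`.
    (if `ρ j ≤ ρ i` there is nothing to prove.)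
  Then `‖z i - z j‖^2 ≤ ((1+η)^2 + θ) Δ^2 ≤ (1+θ)^2 Δ^2`, as `2η + η² ≤ θ`.
-/

namespace EHP56

open Finset Pool.Agent.RegPoly

/-- polarisation -/
theorem chord_norm_sub_sq (a b : ℂ) :
    ‖a - b‖ ^ 2 = ‖a‖ ^ 2 + ‖b‖ ^ 2 - 2 * ((starRingEnd ℂ) a * b).re := by
  rw [Complex.sq_norm, Complex.sq_norm, Complex.sq_norm, Complex.normSq_apply, Complex.normSq_apply,
    Complex.normSq_apply]
  simp
  ring

theorem chord_re_le (a b : ℂ) : ((starRingEnd ℂ) a * b).re ≤ ‖a‖ * ‖b‖ := by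
  calc ((starRingEnd ℂ) a * b).re ≤ ‖(starRingEnd ℂ) a * b‖ := Complex.re_le_norm _
    _ = ‖a‖ * ‖b‖ := by rw [norm_mul, Complex.norm_conj]

/-- difference of the radii, first form -/
theorem chord_rad (U V N : ℂ) (ρ σ κ : ℝ) (hU : ‖U‖ = 1) (hV : ‖V‖ = 1) (hρ : 0 ≤ ρ)
    (h : ((starRingEnd ℂ) N * ((σ : ℂ) * V - (ρ : ℂ) * U)).re ≤ 0) (hκ : ‖N - U‖ ≤ κ) :
    (σ - ρ) * ((starRingEnd ℂ) N * V).re ≤ ρ * (‖U - V‖ ^ 2 / 2 + κ * ‖U - V‖) := by
  have h1 : ((starRingEnd ℂ) N * ((σ : ℂ) * V - (ρ : ℂ) * U)).re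
      = (σ - ρ) * ((starRingEnd ℂ) N * V).re + ρ * (((starRingEnd ℂ) U * (V - U)).re
        + ((starRingEnd ℂ) (N - U) * (V - U)).re) := by
    simp
    ring
  have h2 : ((starRingEnd ℂ) U * (V - U)).re = - (‖U - V‖ ^ 2 / 2) := by
    rw [chord_norm_sub_sq, hU, hV]
    have : ((starRingEnd ℂ) U * (V - U)).re = ((starRingEnd ℂ) U * V).re - ‖U‖ ^ 2 := by
      rw [Complex.sq_norm, Complex.normSq_apply]
      simp
      ring
    rw [this, hU]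
    ring
  have h3 : - (κ * ‖U - V‖) ≤ ((starRingEnd ℂ) (N - U) * (V - U)).re := by
    have e := chord_re_le (N - U) (-(V - U))
    have e2 : ((starRingEnd ℂ) (N - U) * (-(V - U))).re = - ((starRingEnd ℂ) (N - U) * (V - U)).re := by
      rw [mul_neg, Complex.neg_re]
    have e3 : ‖-(V - U)‖ = ‖U - V‖ := by rw [neg_sub]
    rw [e2, e3] at e
    have e4 : ‖N - U‖ * ‖U - V‖ ≤ κ * ‖U - V‖ := mul_le_mul_of_nonneg_right hκ (norm_nonneg _)
    linarith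
  rw [h1, h2] at h
  have h4 : ρ * (-(‖U - V‖ ^ 2 / 2) + -(κ * ‖U - V‖))
      ≤ ρ * (-(‖U - V‖ ^ 2 / 2) + ((starRingEnd ℂ) (N - U) * (V - U)).re) :=
    mul_le_mul_of_nonneg_left (by linarith) hρ
  nlinarith

/-- lower bound for the inner product of the normal and a direction -/
theorem chord_inner (U V N : ℂ) (κ : ℝ) (hV : ‖V‖ = 1) (hN : ‖N‖ = 1) (hκ : ‖N - U‖ ≤ κ) :
    1 - (κ + ‖U - V‖) ^ 2 / 2 ≤ ((starRingEnd ℂ) N * V).re := by
  have h1 := chord_norm_sub_sq N V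
  rw [hN, hV] at h1
  have h2 : ‖N - V‖ ≤ κ + ‖U - V‖ := by
    calc ‖N - V‖ = ‖(N - U) + (U - V)‖ := by congr 1; ring
      _ ≤ ‖N - U‖ + ‖U - V‖ := norm_add_le _ _
      _ ≤ _ := by linarith
  have h3 : ‖N - V‖ ^ 2 ≤ (κ + ‖U - V‖) ^ 2 := by
    have := norm_nonneg (N - V)
    nlinarith
  linarith

/-- difference of the radii, with `t = √θ` -/
theorem chord_rad' (U V N : ℂ) (ρ σ t : ℝ) (ht : 0 ≤ t) (ht4 : t ^ 4 ≤ 1 / 200) (hU : ‖U‖ = 1)
    (hV : ‖V‖ = 1) (hN : ‖N‖ = 1) (hρ : 0 ≤ ρ) (hρ1 : ρ ≤ 1 + t ^ 4 / 5)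
    (hρ2 : 1 - t ^ 4 / 5 ≤ ρ) (hσ1 : σ ≤ 1 + t ^ 4 / 5)
    (h : ((starRingEnd ℂ) N * ((σ : ℂ) * V - (ρ : ℂ) * U)).re ≤ 0)
    (hκ : ‖N - U‖ ≤ t ^ 2 + t ^ 4 / 5) :
    σ - ρ ≤ t * ‖U - V‖ := by
  have ht1 : t ≤ 0.2661 := by
    by_contra hcon
    rw [not_le] at hcon
    have : (0.2661 : ℝ) ^ 4 < t ^ 4 := pow_lt_pow_left₀ hcon (by norm_num) (by norm_num)
    norm_num at this
    linarith
  have hD := norm_nonneg (U - V)
  rcases lt_or_ge t ‖U - V‖ with hlt | hle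
  · have h1 : t * t ≤ t * ‖U - V‖ := mul_le_mul_of_nonneg_left hlt.le ht
    have h2 : t ^ 4 ≤ t ^ 2 := by
      have : t ^ 2 ≤ 1 := by nlinarith
      nlinarith [sq_nonneg t]
    nlinarith
  · rcases le_or_gt σ ρ with hs | hs
    · have : 0 ≤ t * ‖U - V‖ := by positivity
      linarith
    · have h1 := chord_rad U V N ρ σ _ hU hV hρ h hκ
      have h2 := chord_inner U V N _ hV hN hκ
      set D := ‖U - V‖ with hDdef
      have hk : t ^ 2 + t ^ 4 / 5 ≤ 0.27 * t := by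
        have e1 : t ^ 2 ≤ 0.2661 * t := by nlinarith
        have e2 : t ^ 4 ≤ 0.019 * t := by
          have e3 : t ^ 3 ≤ 0.2661 ^ 3 := pow_le_pow_left₀ ht ht1 3
          have e4 : t ^ 4 = t * t ^ 3 := by ring
          rw [e4]
          have : t * t ^ 3 ≤ t * 0.2661 ^ 3 := mul_le_mul_of_nonneg_left e3 ht
          norm_num at this ⊢
          linarith
        linarith
      have h3 : (t ^ 2 + t ^ 4 / 5 + D) ^ 2 / 2 ≤ 0.06 := by
        have e1 : t ^ 2 + t ^ 4 / 5 + D ≤ 0.338 := by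
          nlinarith
        have e0 : 0 ≤ t ^ 2 + t ^ 4 / 5 + D := by positivity
        nlinarith
      have h4 : (0.94 : ℝ) ≤ ((starRingEnd ℂ) N * V).re := by linarith
      have h5 : (σ - ρ) * 0.94 ≤ (σ - ρ) * ((starRingEnd ℂ) N * V).re :=
        mul_le_mul_of_nonneg_left h4 (by linarith)
      have h6 : D ^ 2 / 2 + (t ^ 2 + t ^ 4 / 5) * D ≤ 0.77 * t * D := by
        have e1 : D ^ 2 ≤ t * D := by nlinarith
        have e2 : (t ^ 2 + t ^ 4 / 5) * D ≤ 0.27 * t * D := mul_le_mul_of_nonneg_right hk hD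
        linarith
      have h7 : ρ * (D ^ 2 / 2 + (t ^ 2 + t ^ 4 / 5) * D) ≤ 1.001 * (0.77 * t * D) := by
        have e0 : 0 ≤ D ^ 2 / 2 + (t ^ 2 + t ^ 4 / 5) * D := by positivity
        have e1 : ρ ≤ 1.001 := by linarith
        calc ρ * (D ^ 2 / 2 + (t ^ 2 + t ^ 4 / 5) * D)
            ≤ 1.001 * (D ^ 2 / 2 + (t ^ 2 + t ^ 4 / 5) * D) := mul_le_mul_of_nonneg_right e1 e0
          _ ≤ _ := mul_le_mul_of_nonneg_left h6 (by norm_num)
      have h8 : 0 ≤ t * D := by positivity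
      nlinarith

theorem chord {m : ℕ} (hm : 2 ≤ m) (z : Fin (m + 1) → ℂ) (hc : ConvexPos z) (η : ℝ) (hη : 0 ≤ η)
    (hη1 : η ≤ 1 / 1000)
    (hH : ∀ u : ℂ, ‖u‖ = 1 → |supp z u - ((starRingEnd ℂ) u * cen z).re - 1| ≤ η) :
    (∀ k, |‖z k - cen z‖ - 1| ≤ η) ∧ (∀ k, ‖z k - cen z - nrm z k‖ ≤ Real.sqrt (5 * η)) ∧
    ∀ i j, ‖z i - z j‖ ≤ (1 + Real.sqrt (5 * η)) *
      ‖(z i - cen z) / (‖z i - cen z‖ : ℂ) - (z j - cen z) / (‖z j - cen z‖ : ℂ)‖ := by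
  have hsup : ∀ (u : ℂ) (k : Fin (m + 1)), ((starRingEnd ℂ) u * z k).re ≤ supp z u := by
    intro u k
    unfold supp
    exact le_ciSup (f := fun i => ((starRingEnd ℂ) u * z i).re) (Set.finite_range _).bddAbove k
  -- upper bound for the radii
  have hup : ∀ k, ‖z k - cen z‖ ≤ 1 + η := by
    intro k
    rcases eq_or_ne (z k - cen z) 0 with h0 | h0
    · rw [h0, norm_zero]; linarith
    · have hn0 : ‖z k - cen z‖ ≠ 0 := norm_ne_zero_iff.mpr h0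
      have hn0' : (‖z k - cen z‖ : ℂ) ≠ 0 := by exact_mod_cast hn0
      set u : ℂ := (z k - cen z) / (‖z k - cen z‖ : ℂ) with hu
      have hu1 : ‖u‖ = 1 := by
        rw [hu, norm_div, Complex.norm_real, norm_norm, div_self hn0]
      have h1 := abs_le.mp (hH u hu1)
      have h2 := hsup u k
      have h3 : ((starRingEnd ℂ) u * (z k - cen z)).re = ‖z k - cen z‖ := by
        have e : (z k - cen z) = (‖z k - cen z‖ : ℂ) * u := by
          rw [hu, mul_div_cancel₀ _ hn0']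
        have e2 : (starRingEnd ℂ) u * (z k - cen z) = (‖z k - cen z‖ : ℂ) * ((starRingEnd ℂ) u * u) := by
          conv_lhs => rw [e]
          ring
        rw [e2, mul_comm ((starRingEnd ℂ) u) u, Complex.mul_conj, Complex.normSq_eq_norm_sq, hu1]
        simp
      have h4 : ((starRingEnd ℂ) u * (z k - cen z)).re
          = ((starRingEnd ℂ) u * z k).re - ((starRingEnd ℂ) u * cen z).re := by
        rw [mul_sub, Complex.sub_re]
      linarith [h1.2]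
  -- the normals
  have hNk : ∀ k, 1 - η ≤ ((starRingEnd ℂ) (nrm z k) * (z k - cen z)).re := by
    intro k
    have h1 := abs_le.mp (hH (nrm z k) (nrm_norm hm z hc k))
    rw [(supp_nrm hm z hc k).1] at h1
    rw [mul_sub, Complex.sub_re]
    linarith [h1.1]
  have hdn : ∀ k, 1 - η ≤ ‖z k - cen z‖ := by
    intro k
    have h1 := chord_re_le (nrm z k) (z k - cen z)
    rw [nrm_norm hm z hc k, one_mul] at h1
    linarith [hNk k]
  have hrad : ∀ k, |‖z k - cen z‖ - 1| ≤ η := by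
    intro k
    rw [abs_le]
    constructor <;> linarith [hup k, hdn k]
  have hθ0 : 0 ≤ Real.sqrt (5 * η) := Real.sqrt_nonneg _
  have hθ2 : Real.sqrt (5 * η) ^ 2 = 5 * η := Real.sq_sqrt (by linarith)
  have hnr : ∀ k, ‖z k - cen z - nrm z k‖ ≤ Real.sqrt (5 * η) := by
    intro k
    apply Real.le_sqrt_of_sq_le
    rw [norm_sub_rev, chord_norm_sub_sq, nrm_norm hm z hc k]
    have h1 := hNk k
    have h2 := hup k
    have h3 := hdn k
    have h4 : ‖z k - cen z‖ ^ 2 ≤ (1 + η) ^ 2 := by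
      have := norm_nonneg (z k - cen z)
      nlinarith
    nlinarith
  refine ⟨hrad, hnr, ?_⟩
  set θ := Real.sqrt (5 * η) with hθ
  set t := Real.sqrt θ with ht
  have ht0 : 0 ≤ t := Real.sqrt_nonneg _
  have ht2 : t ^ 2 = θ := Real.sq_sqrt hθ0
  have ht4 : t ^ 4 = 5 * η := by
    rw [show t ^ 4 = (t ^ 2) ^ 2 by ring, ht2, hθ2]
  have hpos : ∀ k, 0 < ‖z k - cen z‖ := by
    intro k; linarith [hdn k]
  have hUn : ∀ k, ‖(z k - cen z) / (‖z k - cen z‖ : ℂ)‖ = 1 := by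
    intro k
    rw [norm_div, Complex.norm_real, norm_norm, div_self (hpos k).ne']
  have hZU : ∀ k, z k - cen z = (‖z k - cen z‖ : ℂ) * ((z k - cen z) / (‖z k - cen z‖ : ℂ)) := by
    intro k
    have : (‖z k - cen z‖ : ℂ) ≠ 0 := by exact_mod_cast (hpos k).ne'
    rw [mul_div_cancel₀ _ this]
  have hNU : ∀ k, ‖nrm z k - (z k - cen z) / (‖z k - cen z‖ : ℂ)‖ ≤ θ + η := by
    intro k
    have h1 : ‖(z k - cen z) - (z k - cen z) / (‖z k - cen z‖ : ℂ)‖ ≤ η := by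
      have e : (z k - cen z) - (z k - cen z) / (‖z k - cen z‖ : ℂ)
          = ((‖z k - cen z‖ - 1 : ℝ) : ℂ) * ((z k - cen z) / (‖z k - cen z‖ : ℂ)) := by
        push_cast
        rw [sub_mul, one_mul, ← hZU k]
      rw [e, norm_mul, hUn k, mul_one, Complex.norm_real, Real.norm_eq_abs]
      exact hrad k
    calc ‖nrm z k - (z k - cen z) / (‖z k - cen z‖ : ℂ)‖
        = ‖(nrm z k - (z k - cen z)) + ((z k - cen z) - (z k - cen z) / (‖z k - cen z‖ : ℂ))‖ := by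
          congr 1; ring
      _ ≤ ‖nrm z k - (z k - cen z)‖ + ‖(z k - cen z) - (z k - cen z) / (‖z k - cen z‖ : ℂ)‖ :=
          norm_add_le _ _
      _ ≤ θ + η := by
          have := hnr k
          rw [norm_sub_rev] at this
          linarith
  have hdiff : ∀ i j, ‖z j - cen z‖ - ‖z i - cen z‖
      ≤ t * ‖(z i - cen z) / (‖z i - cen z‖ : ℂ) - (z j - cen z) / (‖z j - cen z‖ : ℂ)‖ := by
    intro i j
    apply chord_rad' _ _ (nrm z i) _ _ t ht0 (by rw [ht4]; linarith) (hUn i) (hUn j)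
      (nrm_norm hm z hc i) (hpos i).le (by rw [ht4]; linarith [hup i]) (by rw [ht4]; linarith [hdn i])
      (by rw [ht4]; linarith [hup j])
    · rw [← hZU i, ← hZU j]
      have := nrm_support hm z hc i j
      rw [show z j - cen z - (z i - cen z) = z j - z i by ring]
      exact this
    · rw [ht4, ht2]
      have := hNU i
      linarith
  intro i j
  set U := (z i - cen z) / (‖z i - cen z‖ : ℂ) with hU
  set V := (z j - cen z) / (‖z j - cen z‖ : ℂ) with hV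
  set ρ := ‖z i - cen z‖ with hρ
  set σ := ‖z j - cen z‖ with hσ
  have hd1 : σ - ρ ≤ t * ‖U - V‖ := hdiff i j
  have hd2 : ρ - σ ≤ t * ‖U - V‖ := by
    have := hdiff j i
    rw [← hU, ← hV, norm_sub_rev V U] at this
    exact this
  have hsq : (ρ - σ) ^ 2 ≤ θ * ‖U - V‖ ^ 2 := by
    rw [← ht2, ← mul_pow]
    apply sq_le_sq'
    · linarith
    · exact hd2
  have hid : ‖z i - z j‖ ^ 2 = (ρ - σ) ^ 2 + ρ * σ * ‖U - V‖ ^ 2 := by
    have e1 : z i - z j = (ρ : ℂ) * U - (σ : ℂ) * V := by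
      rw [← hZU i, ← hZU j]; ring
    have hU1 : ‖U‖ = 1 := hUn i
    have hV1 : ‖V‖ = 1 := hUn j
    rw [e1, chord_norm_sub_sq, chord_norm_sub_sq U V, norm_mul, norm_mul, Complex.norm_real,
      Complex.norm_real, hU1, hV1, Real.norm_eq_abs, Real.norm_eq_abs, mul_one, mul_one, sq_abs, sq_abs]
    have : ((starRingEnd ℂ) ((ρ : ℂ) * U) * ((σ : ℂ) * V)).re = ρ * σ * ((starRingEnd ℂ) U * V).re := by
      rw [map_mul, Complex.conj_ofReal]
      rw [show (ρ : ℂ) * (starRingEnd ℂ) U * ((σ : ℂ) * V) = ((ρ * σ : ℝ) : ℂ) * ((starRingEnd ℂ) U * V) by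
        push_cast; ring]
      rw [Complex.re_ofReal_mul]
    rw [this]
    ring
  have hρσ : ρ * σ ≤ (1 + η) ^ 2 := by
    have := hup i
    have := hup j
    have := (hpos i).le
    have := (hpos j).le
    nlinarith
  have hθ1 : θ ≤ 1 := by nlinarith
  have hfin : ‖z i - z j‖ ^ 2 ≤ ((1 + θ) * ‖U - V‖) ^ 2 := by
    have e1 : ρ * σ * ‖U - V‖ ^ 2 ≤ (1 + η) ^ 2 * ‖U - V‖ ^ 2 :=
      mul_le_mul_of_nonneg_right hρσ (sq_nonneg _)
    have e2 : θ + (1 + η) ^ 2 ≤ (1 + θ) ^ 2 := by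
      have : θ ^ 2 ≤ θ := by nlinarith
      nlinarith
    have e3 : (θ + (1 + η) ^ 2) * ‖U - V‖ ^ 2 ≤ (1 + θ) ^ 2 * ‖U - V‖ ^ 2 :=
      mul_le_mul_of_nonneg_right e2 (sq_nonneg _)
    rw [hid, mul_pow]
    linarith
  exact (pow_le_pow_iff_left₀ (norm_nonneg _) (by positivity) two_ne_zero).mp hfin

end EHP56
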