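import Pool.Agent.EHP56.RootProd

/-!
# Energy of points on the circle in cyclic order (module A8)

`δ i = φ i - 2π i/n`.  For `i > j`: `‖e^{iφ_i} - e^{iφ_j}‖ = 2 sin s`, `s = (φ_i - φ_j)/2 ∈ (0, π)`
(`norm_exp_sub_exp` in RegPoly/Reinhardt), `s0 = π(i-j)/n ∈ (0, π)`, `s - s0 = (δ_i - δ_j)/2`.

* `log sin s ≤ log sin s0 + cot s0 (s - s0) - (s - s0)^2/2` for `s, s0 ∈ (0, π)`: the function
  `log sin s + s^2/2` is concave on `(0, π)` (second derivative `- 1/sin^2 s + 1 ≤ 0`).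
* Sum over ordered pairs: `∑_{i ≠ j} log ‖..‖ ≤ ∑_{i ≠ j} log (2 sin (π|i-j|/n))
  + ∑_{i>j} cot (π(i-j)/n) (δ_i - δ_j) - (1/8) ∑_{i,j} (δ_i - δ_j)^2`.
* The first sum is `n ∑_{d=1}^{n-1} log (2 sin (π d/n)) = n log n` (`sum_log_sin`).
* The cotangent sum vanishes: it equals `∑_i δ_i (∑_{j ≠ i} cot (π(i-j)/n))` and for each `i` the inner sum is
  `∑_{d=1}^{n-1} cot (π d/n) = 0` (`cot (π - x) = - cot x` and period `π`).
-/

namespace EHP56

open Finset

/-- sums of periodic functions over a period are invariant under shifts -/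
private theorem ce_shift (n : ℕ) (F : ℤ → ℝ) (hF : ∀ k, F (k + n) = F k) (c : ℤ) :
    ∑ i ∈ range n, F (i + c) = ∑ i ∈ range n, F i := by
  have step : ∀ c : ℤ, ∑ i ∈ range n, F (i + (c + 1)) = ∑ i ∈ range n, F (i + c) := by
    intro c
    have h1 := Finset.sum_range_succ (fun i : ℕ => F ((i : ℤ) + c)) n
    have h2 := Finset.sum_range_succ' (fun i : ℕ => F ((i : ℤ) + c)) n
    have h3 : F ((n : ℤ) + c) = F (((0 : ℕ) : ℤ) + c) := by
      rw [add_comm, hF]
      simp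
    have h4 : ∑ i ∈ range n, F (((i + 1 : ℕ) : ℤ) + c) = ∑ i ∈ range n, F (i + (c + 1)) := by
      apply Finset.sum_congr rfl
      intro i _
      congr 1
      push_cast
      ring
    rw [h4] at h2
    linarith
  induction c using Int.induction_on with
  | zero => simp
  | succ k ih => rw [step]; exact ih
  | pred k ih =>
    have := step (-(k : ℤ) - 1)
    rw [sub_add_cancel] at this
    rw [← this]
    exact ih

/-- an odd function with period `n` has sum zero over a period -/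
private theorem ce_odd (n : ℕ) (F : ℤ → ℝ) (hF : ∀ k, F (k + n) = F k) (hodd : ∀ k, F (-k) = - F k) :
    ∑ i ∈ range n, F i = 0 := by
  have h1 := Finset.sum_range_reflect (fun i : ℕ => F (i : ℤ)) n
  have h2 : ∑ j ∈ range n, F (((n - 1 - j : ℕ) : ℤ)) = ∑ j ∈ range n, - F ((j : ℤ) + 1) := by
    apply Finset.sum_congr rfl
    intro j hj
    have hj' := mem_range.1 hj
    rw [← hodd, ← hF (-((j : ℤ) + 1))]
    congr 1
    omega
  rw [Finset.sum_neg_distrib, ce_shift n F hF 1] at h2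
  linarith

/-- tangent line inequality for `log sin` with quadratic gain -/
private theorem ce_tangent {s t : ℝ} (hs : 0 < s) (hs' : s < Real.pi) (ht : 0 < t) (ht' : t < Real.pi) :
    Real.log (Real.sin s) ≤ Real.log (Real.sin t) + Real.cos t / Real.sin t * (s - t) - (s - t) ^ 2 / 2 := by
  have hsin : ∀ x ∈ Set.Ioo (0 : ℝ) Real.pi, 0 < Real.sin x := fun x hx => Real.sin_pos_of_pos_of_lt_pi hx.1 hx.2
  -- derivative
  have hd : ∀ x ∈ Set.Ioo (0 : ℝ) Real.pi, HasDerivAt (fun x => Real.log (Real.sin x) + x ^ 2 / 2)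
      (Real.cos x / Real.sin x + x) x := by
    intro x hx
    have h1 := (Real.hasDerivAt_sin x).log (hsin x hx).ne'
    have h2 : HasDerivAt (fun x : ℝ => x ^ 2 / 2) x x := by
      have := (hasDerivAt_pow 2 x).div_const 2
      exact this.congr_deriv (by norm_num)
    exact h1.add h2
  have hd2 : ∀ x ∈ Set.Ioo (0 : ℝ) Real.pi, HasDerivAt (fun x => Real.cos x / Real.sin x + x)
      (-(1 / Real.sin x ^ 2) + 1) x := by
    intro x hx
    have h1 := (Real.hasDerivAt_cos x).div (Real.hasDerivAt_sin x) (hsin x hx).ne'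
    have h2 := h1.add (hasDerivAt_id x)
    have := hsin x hx
    have h3 := Real.sin_sq_add_cos_sq x
    have h4 : -Real.sin x * Real.sin x - Real.cos x * Real.cos x = -1 := by nlinarith
    exact h2.congr_deriv (by rw [h4, neg_div])
  have hanti : AntitoneOn (fun x => Real.cos x / Real.sin x + x) (Set.Ioo (0 : ℝ) Real.pi) := by
    apply antitoneOn_of_deriv_nonpos (convex_Ioo _ _)
    · intro x hx
      exact (hd2 x hx).continuousAt.continuousWithinAt
    · intro x hx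
      rw [interior_Ioo] at hx
      exact (hd2 x hx).differentiableAt.differentiableWithinAt
    · intro x hx
      rw [interior_Ioo] at hx
      rw [(hd2 x hx).deriv]
      have h1 := hsin x hx
      have h2 : Real.sin x ^ 2 ≤ 1 := by nlinarith [Real.sin_le_one x]
      have h3 : 1 ≤ 1 / Real.sin x ^ 2 := by
        rw [le_div_iff₀ (by positivity)]
        linarith
      linarith
  have key : Real.log (Real.sin s) + s ^ 2 / 2 ≤ Real.log (Real.sin t) + t ^ 2 / 2 +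
      (Real.cos t / Real.sin t + t) * (s - t) := by
    rcases lt_trichotomy s t with h | h | h
    · obtain ⟨c, hc, hc'⟩ := exists_hasDerivAt_eq_slope (fun x => Real.log (Real.sin x) + x ^ 2 / 2)
        (fun x => Real.cos x / Real.sin x + x) h
        (fun x hx => (hd x ⟨hs.trans_le hx.1, hx.2.trans_lt ht'⟩).continuousAt.continuousWithinAt)
        (fun x hx => hd x ⟨hs.trans hx.1, hx.2.trans ht'⟩)
      have h1 := hanti (a := c) (b := t) ⟨hs.trans hc.1, hc.2.trans ht'⟩ ⟨ht, ht'⟩ hc.2.le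
      simp only at hc' h1
      have h2 : 0 < t - s := by linarith
      rw [eq_div_iff h2.ne'] at hc'
      nlinarith
    · subst h
      simp
    · obtain ⟨c, hc, hc'⟩ := exists_hasDerivAt_eq_slope (fun x => Real.log (Real.sin x) + x ^ 2 / 2)
        (fun x => Real.cos x / Real.sin x + x) h
        (fun x hx => (hd x ⟨ht.trans_le hx.1, hx.2.trans_lt hs'⟩).continuousAt.continuousWithinAt)
        (fun x hx => hd x ⟨ht.trans hx.1, hx.2.trans hs'⟩)
      have h1 := hanti (a := t) (b := c) ⟨ht, ht'⟩ ⟨ht.trans hc.1, hc.2.trans hs'⟩ hc.1.le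
      simp only at hc' h1
      have h2 : 0 < s - t := by linarith
      rw [eq_div_iff h2.ne'] at hc'
      nlinarith
  nlinarith

private theorem ce_norm (a b : ℝ) :
    ‖Complex.exp ((a : ℂ) * Complex.I) - Complex.exp ((b : ℂ) * Complex.I)‖ =
      2 * |Real.sin ((a - b) / 2)| := by
  have h1 : Complex.exp ((a : ℂ) * Complex.I) - Complex.exp ((b : ℂ) * Complex.I) =
      Complex.exp ((b : ℂ) * Complex.I) * (Complex.exp (Complex.I * ((a - b : ℝ) : ℂ)) - 1) := by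
    rw [mul_sub, ← Complex.exp_add, mul_one]
    congr 2
    push_cast
    ring
  rw [h1, norm_mul, Complex.norm_exp_ofReal_mul_I, one_mul, Complex.norm_exp_I_mul_ofReal_sub_one,
    Real.norm_eq_abs, abs_mul, abs_two]

/-- one pair, in increasing order -/
private theorem ce_pair {n : ℕ} (φ : Fin n → ℝ) (hmono : StrictMono φ)
    (hspan : ∀ i j, φ i - φ j < 2 * Real.pi) (i j : Fin n) (hij : j < i) :
    Real.log ‖Complex.exp ((φ i : ℂ) * Complex.I) - Complex.exp ((φ j : ℂ) * Complex.I)‖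
      ≤ Real.log (2 * |Real.sin (Real.pi * (((i : ℕ) : ℤ) - ((j : ℕ) : ℤ) : ℤ) / n)|)
        + 1 / 2 * (Real.cos (Real.pi * (((i : ℕ) : ℤ) - ((j : ℕ) : ℤ) : ℤ) / n) /
            Real.sin (Real.pi * (((i : ℕ) : ℤ) - ((j : ℕ) : ℤ) : ℤ) / n)) *
          ((φ i - 2 * Real.pi * (i : ℕ) / n) - (φ j - 2 * Real.pi * (j : ℕ) / n))
        - 1 / 8 * ((φ i - 2 * Real.pi * (i : ℕ) / n) - (φ j - 2 * Real.pi * (j : ℕ) / n)) ^ 2 := by
  have hlt : (j : ℕ) < (i : ℕ) := hij
  have hin : (i : ℕ) < n := i.isLt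
  have hn0 : (0 : ℝ) < n := by
    have : 0 < n := by omega
    exact_mod_cast this
  have hltR : ((j : ℕ) : ℝ) < ((i : ℕ) : ℝ) := by exact_mod_cast hlt
  have hinR : ((i : ℕ) : ℝ) < n := by exact_mod_cast hin
  have hj0 : (0 : ℝ) ≤ ((j : ℕ) : ℝ) := Nat.cast_nonneg _
  have hcast : (((((i : ℕ) : ℤ) - ((j : ℕ) : ℤ)) : ℤ) : ℝ) = ((i : ℕ) : ℝ) - ((j : ℕ) : ℝ) := by
    push_cast
    ring
  rw [hcast]
  set t : ℝ := Real.pi * (((i : ℕ) : ℝ) - ((j : ℕ) : ℝ)) / n with ht_def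
  have hpi := Real.pi_pos
  have ht : 0 < t := by
    apply div_pos (mul_pos hpi (by linarith)) hn0
  have ht' : t < Real.pi := by
    rw [ht_def, div_lt_iff₀ hn0]
    exact mul_lt_mul_of_pos_left (by linarith) hpi
  have hs : 0 < (φ i - φ j) / 2 := by
    have := hmono hij
    linarith
  have hs' : (φ i - φ j) / 2 < Real.pi := by
    have := hspan i j
    linarith
  have hsin_s := Real.sin_pos_of_pos_of_lt_pi hs hs'
  have hsin_t := Real.sin_pos_of_pos_of_lt_pi ht ht'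
  rw [ce_norm, abs_of_pos hsin_s, abs_of_pos hsin_t, Real.log_mul two_ne_zero hsin_s.ne',
    Real.log_mul two_ne_zero hsin_t.ne']
  have h1 := ce_tangent hs hs' ht ht'
  have h2 : (φ i - 2 * Real.pi * (i : ℕ) / n) - (φ j - 2 * Real.pi * (j : ℕ) / n) =
      2 * ((φ i - φ j) / 2 - t) := by
    rw [ht_def]
    field_simp
    ring
  rw [h2]
  have h3 : 1 / 2 * (Real.cos t / Real.sin t) * (2 * ((φ i - φ j) / 2 - t)) =
      Real.cos t / Real.sin t * ((φ i - φ j) / 2 - t) := by ring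
  rw [h3]
  linarith

/-- one pair -/
private theorem ce_pair' {n : ℕ} (φ : Fin n → ℝ) (hmono : StrictMono φ)
    (hspan : ∀ i j, φ i - φ j < 2 * Real.pi) (i j : Fin n) :
    Real.log ‖Complex.exp ((φ i : ℂ) * Complex.I) - Complex.exp ((φ j : ℂ) * Complex.I)‖
      ≤ Real.log (2 * |Real.sin (Real.pi * (((i : ℕ) : ℤ) - ((j : ℕ) : ℤ) : ℤ) / n)|)
        + 1 / 2 * (Real.cos (Real.pi * (((i : ℕ) : ℤ) - ((j : ℕ) : ℤ) : ℤ) / n) /
            Real.sin (Real.pi * (((i : ℕ) : ℤ) - ((j : ℕ) : ℤ) : ℤ) / n)) *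
          ((φ i - 2 * Real.pi * (i : ℕ) / n) - (φ j - 2 * Real.pi * (j : ℕ) / n))
        - 1 / 8 * ((φ i - 2 * Real.pi * (i : ℕ) / n) - (φ j - 2 * Real.pi * (j : ℕ) / n)) ^ 2 := by
  rcases lt_trichotomy j i with h | h | h
  · exact ce_pair φ hmono hspan i j h
  · subst h
    simp
  · have h1 := ce_pair φ hmono hspan j i h
    rw [norm_sub_rev]
    refine h1.trans (le_of_eq ?_)
    have h2 : (Real.pi * ((((j : ℕ) : ℤ) - ((i : ℕ) : ℤ) : ℤ) : ℝ) / n) =
        -(Real.pi * ((((i : ℕ) : ℤ) - ((j : ℕ) : ℤ) : ℤ) : ℝ) / n) := by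
      push_cast
      ring
    rw [h2, Real.sin_neg, Real.cos_neg, abs_neg]
    ring

theorem circle_energy {n : ℕ} (hn : 2 ≤ n) (φ : Fin n → ℝ) (hmono : StrictMono φ)
    (hspan : ∀ i j, φ i - φ j < 2 * Real.pi) :
    ∑ i, ∑ j, Real.log ‖Complex.exp ((φ i : ℂ) * Complex.I) - Complex.exp ((φ j : ℂ) * Complex.I)‖
      ≤ (n : ℝ) * Real.log n
        - 1 / 8 * ∑ i : Fin n, ∑ j : Fin n, ((φ i - 2 * Real.pi * (i : ℕ) / n)
          - (φ j - 2 * Real.pi * (j : ℕ) / n)) ^ 2 := by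
  have hn0 : (0 : ℝ) < n := by
    have : 0 < n := by omega
    exact_mod_cast this
  have hpi := Real.pi_pos
  -- the two periodic functions
  set L : ℤ → ℝ := fun k => Real.log (2 * |Real.sin (Real.pi * (k : ℝ) / n)|) with hL
  set C : ℤ → ℝ := fun k => Real.cos (Real.pi * (k : ℝ) / n) / Real.sin (Real.pi * (k : ℝ) / n) with hC
  have hper : ∀ k : ℤ, Real.pi * ((k + (n : ℤ) : ℤ) : ℝ) / n = Real.pi * (k : ℝ) / n + Real.pi := by
    intro k
    push_cast
    field_simp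
  have hLper : ∀ k, L (k + n) = L k := by
    intro k
    simp only [hL]
    rw [hper, Real.sin_add_pi, abs_neg]
  have hCper : ∀ k, C (k + n) = C k := by
    intro k
    simp only [hC]
    rw [hper, Real.sin_add_pi, Real.cos_add_pi, neg_div_neg_eq]
  have hCodd : ∀ k, C (-k) = - C k := by
    intro k
    simp only [hC]
    have : Real.pi * ((-k : ℤ) : ℝ) / n = -(Real.pi * (k : ℝ) / n) := by
      push_cast
      ring
    rw [this, Real.sin_neg, Real.cos_neg, div_neg]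
  have hLeven : ∀ k, L (-k) = L k := by
    intro k
    simp only [hL]
    have : Real.pi * ((-k : ℤ) : ℝ) / n = -(Real.pi * (k : ℝ) / n) := by
      push_cast
      ring
    rw [this, Real.sin_neg, abs_neg]
  -- the sums over a period
  have hLsum : ∑ i ∈ range n, L i = Real.log n := by
    rw [← sum_log_sin n (by omega)]
    rw [Finset.range_eq_Ico, Finset.sum_eq_sum_Ico_succ_bot (by omega)]
    have h0 : L ((0 : ℕ) : ℤ) = 0 := by simp [hL]
    rw [h0, zero_add]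
    apply Finset.sum_congr rfl
    intro d hd
    have hd' := mem_Ico.1 hd
    simp only [hL]
    rw [Int.cast_natCast, abs_of_nonneg]
    apply Real.sin_nonneg_of_nonneg_of_le_pi
    · positivity
    · rw [div_le_iff₀ hn0]
      have : (d : ℝ) ≤ n := by exact_mod_cast hd'.2.le
      exact mul_le_mul_of_nonneg_left this hpi.le
  have hCsum : ∑ i ∈ range n, C i = 0 := ce_odd n C hCper hCodd
  have hLrow : ∀ i : Fin n, ∑ j : Fin n, L (((i : ℕ) : ℤ) - ((j : ℕ) : ℤ)) = Real.log n := by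
    intro i
    rw [Fin.sum_univ_eq_sum_range (fun j : ℕ => L (((i : ℕ) : ℤ) - (j : ℤ))) n, ← hLsum,
      ← ce_shift n L hLper (-((i : ℕ) : ℤ))]
    apply Finset.sum_congr rfl
    intro j _
    rw [← hLeven]
    congr 1
    ring
  have hCrow : ∀ i : Fin n, ∑ j : Fin n, C (((i : ℕ) : ℤ) - ((j : ℕ) : ℤ)) = 0 := by
    intro i
    rw [Fin.sum_univ_eq_sum_range (fun j : ℕ => C (((i : ℕ) : ℤ) - (j : ℤ))) n]
    have h1 : ∑ j ∈ range n, C (((i : ℕ) : ℤ) - (j : ℤ)) = - ∑ j ∈ range n, C ((j : ℤ) + (-((i : ℕ) : ℤ))) := by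
      rw [← Finset.sum_neg_distrib]
      apply Finset.sum_congr rfl
      intro j _
      rw [← hCodd]
      congr 1
      ring
    rw [h1, ce_shift n C hCper, hCsum, neg_zero]
  have hCcol : ∀ j : Fin n, ∑ i : Fin n, C (((i : ℕ) : ℤ) - ((j : ℕ) : ℤ)) = 0 := by
    intro j
    rw [Fin.sum_univ_eq_sum_range (fun i : ℕ => C ((i : ℤ) - ((j : ℕ) : ℤ))) n]
    have h1 := ce_shift n C hCper (-((j : ℕ) : ℤ))
    simp only [← sub_eq_add_neg] at h1
    rw [h1, hCsum]
  set δ : Fin n → ℝ := fun i => φ i - 2 * Real.pi * (i : ℕ) / n with hδ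
  have hpair : ∀ i j : Fin n,
      Real.log ‖Complex.exp ((φ i : ℂ) * Complex.I) - Complex.exp ((φ j : ℂ) * Complex.I)‖
      ≤ L (((i : ℕ) : ℤ) - ((j : ℕ) : ℤ)) + 1 / 2 * C (((i : ℕ) : ℤ) - ((j : ℕ) : ℤ)) * (δ i - δ j)
        - 1 / 8 * (δ i - δ j) ^ 2 := fun i j => ce_pair' φ hmono hspan i j
  have h1 : ∑ i, ∑ j, Real.log ‖Complex.exp ((φ i : ℂ) * Complex.I) - Complex.exp ((φ j : ℂ) * Complex.I)‖
      ≤ ∑ i : Fin n, ∑ j : Fin n, (L (((i : ℕ) : ℤ) - ((j : ℕ) : ℤ)) +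
        1 / 2 * C (((i : ℕ) : ℤ) - ((j : ℕ) : ℤ)) * (δ i - δ j) - 1 / 8 * (δ i - δ j) ^ 2) :=
    Finset.sum_le_sum fun i _ => Finset.sum_le_sum fun j _ => hpair i j
  refine h1.trans (le_of_eq ?_)
  have h2 : ∑ i : Fin n, ∑ j : Fin n, C (((i : ℕ) : ℤ) - ((j : ℕ) : ℤ)) * δ i = 0 := by
    apply Finset.sum_eq_zero
    intro i _
    rw [← Finset.sum_mul, hCrow, zero_mul]
  have h3 : ∑ i : Fin n, ∑ j : Fin n, C (((i : ℕ) : ℤ) - ((j : ℕ) : ℤ)) * δ j = 0 := by
    rw [Finset.sum_comm]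
    apply Finset.sum_eq_zero
    intro j _
    rw [← Finset.sum_mul, hCcol, zero_mul]
  have h4 : ∑ i : Fin n, ∑ j : Fin n, L (((i : ℕ) : ℤ) - ((j : ℕ) : ℤ)) = n * Real.log n := by
    simp only [hLrow, Finset.sum_const, Finset.card_univ, Fintype.card_fin, nsmul_eq_mul]
  have h5 : ∑ i : Fin n, ∑ j : Fin n, (L (((i : ℕ) : ℤ) - ((j : ℕ) : ℤ)) +
        1 / 2 * C (((i : ℕ) : ℤ) - ((j : ℕ) : ℤ)) * (δ i - δ j) - 1 / 8 * (δ i - δ j) ^ 2) =
      ∑ i : Fin n, ∑ j : Fin n, L (((i : ℕ) : ℤ) - ((j : ℕ) : ℤ)) +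
      1 / 2 * (∑ i : Fin n, ∑ j : Fin n, C (((i : ℕ) : ℤ) - ((j : ℕ) : ℤ)) * δ i) -
      1 / 2 * (∑ i : Fin n, ∑ j : Fin n, C (((i : ℕ) : ℤ) - ((j : ℕ) : ℤ)) * δ j) -
      1 / 8 * ∑ i : Fin n, ∑ j : Fin n, (δ i - δ j) ^ 2 := by
    simp only [Finset.mul_sum, ← Finset.sum_add_distrib, ← Finset.sum_sub_distrib]
    apply Finset.sum_congr rfl
    intro i _
    apply Finset.sum_congr rfl
    intro j _
    ring
  rw [h5, h2, h3, h4]
  ring

end EHP56
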