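import Mathlib

/-!
# MP_d975fc_co: regular polygons maximise the product of distances for all large odd `n`

## Overview of the proof

`n` points of diameter at most two.  By `RegPoly.reduction` (helper70) it is enough to treat strictly
convex polygons with Reinhardt's perimeter bound.  Let `S = ∑_{i ≠ j} log |z i - z j|`.

**Macro step** (files `AvgLog ... Macro`).  `log |z| = log 2 + average over |u| = 1 of
log |Re (conj u * z)|`.  In each direction the `n` projections lie in an interval of length
`2 a (u) ≤ 2`, and a one dimensional energy inequality (`energy_1d`) bounds `∑ log |x i - x j|`.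
If `S ≥ n log n` this forces the support function (from the centroid) to be uniformly close to `1`,
then the angles of the vertices to be close to those of a regular polygon, and the edge directions too.

**Local step** (files `Kernel ... Local`).  For a polygon uniformly close to the regular polygon
(positions and edge directions; nothing is assumed on the individual side lengths) of perimeter
at most that of the regular polygon, `S ≤ n log n`.  With `X j d = (z (j+d) - z j)/(χ (j+d) - χ j)`:
`log |X| ≤ (Re X - 1) - g (Re X) + (Im X / Re X)^2 / 2`, `g u = u - 1 - log u`.  The linear terms sum to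
`(n-1) ∑ (Re (r c) - 1) ≤ - (n-1) L0`.  Averaging over index shifts (`smooth`), Jensen's inequality for the
convex function `g`, an estimate for short blocks and the exact Fourier form of the quadratic form
finish the proof.
-/

namespace EHP56

open Finset

/-- `chi n k = exp (2 π i k / n)` -/
noncomputable def chi (n : ℕ) [NeZero n] (k : ZMod n) : ℂ := ZMod.stdAddChar k

/-- `g u = u - 1 - log u`: convex on `(0, ∞)`, nonnegative, zero only at `1` -/
noncomputable def g (u : ℝ) : ℝ := u - 1 - Real.log u

/-- support function of finitely many points: `supp z u = max_i Re (conj u * z i)` -/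
noncomputable def supp {n : ℕ} (z : Fin n → ℂ) (u : ℂ) : ℝ :=
  ⨆ i, ((starRingEnd ℂ) u * z i).re

/-- centroid -/
noncomputable def cen {n : ℕ} (z : Fin n → ℂ) : ℂ := (∑ i, z i) / n

/-- the chord from `j` to `j + d`, divided by the corresponding chord of the regular polygon -/
noncomputable def X {n : ℕ} [NeZero n] (z : ZMod n → ℂ) (j : ZMod n) (d : ℕ) : ℂ :=
  (z (j + (d : ZMod n)) - z j) / (chi n (j + (d : ZMod n)) - chi n j)

/-- average over the index shifts `t < T`, each rotated back -/
noncomputable def smooth {n : ℕ} [NeZero n] (T : ℕ) (z : ZMod n → ℂ) (i : ZMod n) : ℂ :=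
  (∑ t ∈ range T, chi n (-(t : ZMod n)) * z (i + (t : ZMod n))) / T

/-- outward unit normal of the side from `k` to `k + 1` of a counterclockwise polygon -/
noncomputable def nrm {m : ℕ} (z : Fin (m + 1) → ℂ) (k : Fin (m + 1)) : ℂ :=
  (z (k + 1) - z k) / (Complex.I * (‖z (k + 1) - z k‖ : ℂ))

/-- `beta n d = sin (π / n) / sin (π d / n)` -/
noncomputable def beta (n d : ℕ) : ℝ :=
  Real.sin (Real.pi / (n : ℝ)) / Real.sin (Real.pi * (d : ℝ) / (n : ℝ))

/-- `tau n d l = π (2 l + 1 - d) / n` -/
noncomputable def tau (n d l : ℕ) : ℝ := Real.pi * (2 * (l : ℝ) + 1 - (d : ℝ)) / (n : ℝ)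

/-- Fourier coefficient `(1 / n) ∑ f i χ (- i m)` -/
noncomputable def Fh {n : ℕ} [NeZero n] (f : ZMod n → ℂ) (m : ℕ) : ℂ :=
  (∑ i, f i * chi n (-(i * (m : ZMod n)))) / (n : ℂ)

/-- `Sm n m = sin (π m / n) / sin (π / n)` -/
noncomputable def Sm (n m : ℕ) : ℝ :=
  Real.sin (Real.pi * (m : ℝ) / (n : ℝ)) / Real.sin (Real.pi / (n : ℝ))

/-- a polygon close to the regular polygon: vertices `z`, side lengths relative to the regular side `r`,
directions relative to the regular directions `c` -/
structure Loc (n : ℕ) [NeZero n] (ε : ℝ) where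
  z : ZMod n → ℂ
  r : ZMod n → ℝ
  c : ZMod n → ℂ
  r_pos : ∀ k, 0 < r k
  c_norm : ∀ k, ‖c k‖ = 1
  c_close : ∀ k, ‖c k - 1‖ ≤ ε
  z_close : ∀ k, ‖z k - chi n k‖ ≤ ε
  edge : ∀ k, z (k + 1) - z k = (r k : ℂ) * c k * (chi n (k + 1) - chi n k)
  sum_r : ∑ k, r k ≤ (n : ℝ)
  sum_im : ∑ k, r k * (c k).im = 0

namespace Loc

variable {n : ℕ} [NeZero n] {ε : ℝ} (P : Loc n ε)

/-- `q k = r k * Re (c k)` -/
noncomputable def q (k : ZMod n) : ℝ := P.r k * (P.c k).re

/-- `p k = r k * Im (c k)` -/
noncomputable def p (k : ZMod n) : ℝ := P.r k * (P.c k).im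

/-- `ell k = r k (1 - Re (c k))` -/
noncomputable def ell (k : ZMod n) : ℝ := P.r k * (1 - (P.c k).re)

/-- `L0 = ∑ r k (1 - Re (c k))` -/
noncomputable def L0 : ℝ := ∑ k, P.ell k

/-- total length of the `d` sides following `j` -/
noncomputable def R (j : ZMod n) (d : ℕ) : ℝ := ∑ l ∈ range d, P.r (j + (l : ZMod n))

/-- average of `q` over the block of the `d` sides following `j` -/
noncomputable def u (j : ZMod n) (d : ℕ) : ℝ := (∑ l ∈ range d, P.q (j + (l : ZMod n))) / d

/-- sum of `g (Re X)` over the blocks with length in `s` -/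
noncomputable def G (s : Finset ℕ) : ℝ := ∑ d ∈ s, ∑ j, g (X P.z j d).re

/-- sum of `(Im X / Re X)^2` over the blocks with length in `s` -/
noncomputable def N (s : Finset ℕ) : ℝ := ∑ d ∈ s, ∑ j, ((X P.z j d).im / (X P.z j d).re) ^ 2

end Loc

end EHP56
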