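import Pool.Agent.EHP56.Defs

/-!
# One dimensional energy inequality (module A2)

`x_i = c + a cos α_i`.  Write `ρ = 1 - 1/n`.
* `|cos α - cos β| = (1/2) ‖1 - e^{i(α-β)}‖ ‖1 - e^{i(α+β)}‖` (as `‖1 - e^{iφ}‖ = 2 |sin (φ/2)|`).
* `‖1 - e^{iφ}‖ ≤ (2/(1+ρ)) ‖1 - ρ e^{iφ}‖` for `0 ≤ ρ ≤ 1`
  (`‖1 - ρ e^{iφ}‖^2 = (1-ρ)^2 + 4 ρ sin^2 (φ/2)`).
* hence for `i ≠ j`:
  `log |x_i - x_j| ≤ log (a/2) + 2 log (2/(1+ρ)) + log ‖1 - ρ e^{i(α_i-α_j)}‖ + log ‖1 - ρ e^{i(α_i+α_j)}‖`.
* `log ‖1 - ρ e^{iφ}‖ = - ∑_{k ≥ 1} ρ^k cos (k φ) / k` (real part of the logarithm series), hence the FULL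
  double sum (diagonal included) of the last two terms is
  `- ∑_k (2 ρ^k / k) (∑_i cos (k α_i))^2 ≤ - 2 ρ (∑_i cos α_i)^2`
  (`cos k(α-β) + cos k(α+β) = 2 cos kα cos kβ`).
  For the formal proof it may be convenient to use finite sums: for all real `φ`,
  the `HasSum` statement from `Complex.hasSum_taylorSeries_neg_log` and `hasSum` algebra.
* The diagonal terms are each `≥ 2 log (1-ρ) = - 2 log n`.
* So the sum over `i ≠ j` is `≤ n(n-1) log (a/2) + 2n(n-1) log (2/(1+ρ)) - 2ρ(∑ cos α_i)^2 + 2 n log n`, and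
  `2n(n-1) log (2/(1+ρ)) = - 2n(n-1) log (1 - 1/(2n)) ≤ 2n(n-1)/(2n-1) ≤ n`.
The terms with `i = j` on the left side of the theorem are `log 0 = 0`.
-/

namespace EHP56

open Finset

/-- `1 - 2 ρ cos φ + ρ^2 = ‖1 - ρ e^{iφ}‖^2` -/
private noncomputable def e1Q (ρ φ : ℝ) : ℝ := 1 - 2 * ρ * Real.cos φ + ρ ^ 2

private theorem e1Q_eq (ρ φ : ℝ) : e1Q ρ φ = (1 - ρ) ^ 2 + 4 * ρ * Real.sin (φ / 2) ^ 2 := by
  have h1 : Real.cos φ = 1 - 2 * Real.sin (φ / 2) ^ 2 := by
    have h2 := Real.cos_two_mul (φ / 2)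
    have h3 := Real.sin_sq_add_cos_sq (φ / 2)
    have h4 : 2 * (φ / 2) = φ := by ring
    rw [h4] at h2
    linarith
  unfold e1Q
  rw [h1]
  ring

private theorem e1Q_ge {ρ : ℝ} (h0 : 0 ≤ ρ) (φ : ℝ) : (1 - ρ) ^ 2 ≤ e1Q ρ φ := by
  rw [e1Q_eq]
  have : 0 ≤ 4 * ρ * Real.sin (φ / 2) ^ 2 := by positivity
  linarith

private theorem e1Q_pos {ρ : ℝ} (h0 : 0 ≤ ρ) (h1 : ρ < 1) (φ : ℝ) : 0 < e1Q ρ φ := by
  have h2 := e1Q_ge h0 φ
  have h3 : 0 < (1 - ρ) ^ 2 := by
    have : 0 < 1 - ρ := by linarith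
    positivity
  linarith

/-- `4 sin^2 (φ/2) ≤ (2/(1+ρ))^2 ‖1 - ρ e^{iφ}‖^2` -/
private theorem e1Q_sin {ρ : ℝ} (h0 : 0 ≤ ρ) (φ : ℝ) :
    4 * Real.sin (φ / 2) ^ 2 ≤ (2 / (1 + ρ)) ^ 2 * e1Q ρ φ := by
  rw [e1Q_eq, div_pow, div_mul_eq_mul_div, le_div_iff₀ (by positivity)]
  nlinarith [mul_nonneg (sq_nonneg (1 - ρ)) (sub_nonneg.2 (Real.sin_sq_le_one (φ / 2)))]

/-- the logarithm series -/
private theorem e1Q_hasSum {ρ : ℝ} (h0 : 0 ≤ ρ) (h1 : ρ < 1) (φ : ℝ) :
    HasSum (fun k : ℕ => ρ ^ k * Real.cos (k * φ) / k) (-(Real.log (e1Q ρ φ) / 2)) := by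
  have hn : ‖(ρ : ℂ) * Complex.exp (φ * Complex.I)‖ = ρ := by
    rw [norm_mul, Complex.norm_exp_ofReal_mul_I, mul_one, Complex.norm_real, Real.norm_eq_abs,
      abs_of_nonneg h0]
  have h := Complex.hasSum_re (Complex.hasSum_taylorSeries_neg_log (z := (ρ : ℂ) * Complex.exp (φ * Complex.I))
    (by rw [hn]; exact h1))
  have e1 : (-Complex.log (1 - (ρ : ℂ) * Complex.exp (φ * Complex.I))).re =
      -(Real.log (e1Q ρ φ) / 2) := by
    rw [Complex.neg_re, Complex.log_re]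
    congr 1
    have h2 : ‖1 - (ρ : ℂ) * Complex.exp (φ * Complex.I)‖ ^ 2 = e1Q ρ φ := by
      rw [← Complex.normSq_eq_norm_sq, Complex.normSq_apply, Complex.exp_mul_I]
      have hc : Complex.cos φ = (Real.cos φ : ℂ) := (Complex.ofReal_cos φ).symm
      have hs : Complex.sin φ = (Real.sin φ : ℂ) := (Complex.ofReal_sin φ).symm
      rw [hc, hs]
      simp only [Complex.sub_re, Complex.one_re, Complex.mul_re, Complex.ofReal_re, Complex.add_re,
        Complex.ofReal_im, Complex.I_re, Complex.I_im, Complex.sub_im, Complex.one_im,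
        Complex.mul_im, Complex.add_im]
      have h3 := Real.sin_sq_add_cos_sq φ
      unfold e1Q
      linear_combination (ρ ^ 2) * h3
    rw [← h2, Real.log_pow]
    push_cast
    ring
  rw [e1] at h
  have e2 : (fun k : ℕ => (((ρ : ℂ) * Complex.exp (φ * Complex.I)) ^ k / (k : ℂ)).re) =
      fun k : ℕ => ρ ^ k * Real.cos (k * φ) / k := by
    funext k
    have h2 : ((ρ : ℂ) * Complex.exp (φ * Complex.I)) ^ k =
        ((ρ ^ k : ℝ) : ℂ) * Complex.exp (((k * φ : ℝ) : ℂ) * Complex.I) := by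
      rw [mul_pow, ← Complex.exp_nat_mul]
      push_cast
      rw [mul_assoc]
    rw [h2, Complex.div_natCast_re, Complex.re_ofReal_mul, Complex.exp_ofReal_mul_I_re]
  rw [e2] at h
  exact h

theorem energy_1d {n : ℕ} (hn : 2 ≤ n) (x : Fin n → ℝ) (hx : Function.Injective x) (c a : ℝ)
    (ha : 0 < a) (h : ∀ i, |x i - c| ≤ a) :
    ∑ i, ∑ j, Real.log |x i - x j|
      ≤ (n : ℝ) * ((n : ℝ) - 1) * Real.log (a / 2) + n + 2 * n * Real.log n
        - 2 * (1 - 1 / (n : ℝ)) * (∑ i, (x i - c) / a) ^ 2 := by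
  have hn2 : (2 : ℝ) ≤ n := by exact_mod_cast hn
  have hn0 : (0 : ℝ) < n := by linarith
  set ρ : ℝ := 1 - 1 / (n : ℝ) with hρ
  have hρ0 : 0 ≤ ρ := by
    rw [hρ, sub_nonneg, div_le_one hn0]
    linarith
  have hρ1 : ρ < 1 := by
    rw [hρ]
    have : 0 < 1 / (n : ℝ) := by positivity
    linarith
  -- angles
  set α : Fin n → ℝ := fun i => Real.arccos ((x i - c) / a) with hα
  have hcos : ∀ i, Real.cos (α i) = (x i - c) / a := by
    intro i
    have h1 := abs_le.1 (h i)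
    refine Real.cos_arccos ?_ ?_
    · rw [le_div_iff₀ ha]
      linarith [h1.1]
    · rw [div_le_one ha]
      exact h1.2
  set L : Fin n → Fin n → ℝ := fun i j =>
    Real.log (e1Q ρ (α i - α j)) / 2 + Real.log (e1Q ρ (α i + α j)) / 2 with hL
  -- the full double sum
  have hfull : ∑ i, ∑ j, L i j ≤ -(2 * ρ * (∑ i, (x i - c) / a) ^ 2) := by
    have h1 : HasSum (fun k : ℕ => ∑ i, ∑ j, (ρ ^ k * Real.cos (k * (α i - α j)) / k +
        ρ ^ k * Real.cos (k * (α i + α j)) / k)) (∑ i, ∑ j, -(L i j)) := by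
      refine hasSum_sum fun i _ => hasSum_sum fun j _ => ?_
      have h2 := (e1Q_hasSum hρ0 hρ1 (α i - α j)).add (e1Q_hasSum hρ0 hρ1 (α i + α j))
      have h3 : -(L i j) = -(Real.log (e1Q ρ (α i - α j)) / 2) +
          -(Real.log (e1Q ρ (α i + α j)) / 2) := by
        simp only [hL]
        ring
      rw [h3]
      exact h2
    have h2 : (fun k : ℕ => ∑ i, ∑ j, (ρ ^ k * Real.cos (k * (α i - α j)) / k +
        ρ ^ k * Real.cos (k * (α i + α j)) / k)) =
        fun k : ℕ => 2 * ρ ^ k / k * (∑ i, Real.cos (k * α i)) ^ 2 := by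
      funext k
      rw [sq, Finset.sum_mul_sum, Finset.mul_sum]
      refine Finset.sum_congr rfl fun i _ => ?_
      rw [Finset.mul_sum]
      refine Finset.sum_congr rfl fun j _ => ?_
      have h3 : Real.cos (k * (α i - α j)) + Real.cos (k * (α i + α j)) =
          2 * (Real.cos (k * α i) * Real.cos (k * α j)) := by
        rw [mul_sub, mul_add, Real.cos_sub, Real.cos_add]
        ring
      calc ρ ^ k * Real.cos (k * (α i - α j)) / k + ρ ^ k * Real.cos (k * (α i + α j)) / k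
          = ρ ^ k / k * (Real.cos (k * (α i - α j)) + Real.cos (k * (α i + α j))) := by ring
        _ = 2 * ρ ^ k / k * (Real.cos (k * α i) * Real.cos (k * α j)) := by
            rw [h3]
            ring
    rw [h2] at h1
    have h3 := sum_le_hasSum {1} (fun k _ => by positivity) h1
    rw [Finset.sum_singleton] at h3
    simp only [Nat.cast_one, one_mul, pow_one, div_one, Finset.sum_neg_distrib, hcos] at h3
    linarith
  -- pointwise bound
  set B : ℝ := Real.log (a / 2) + 2 * Real.log (2 / (1 + ρ)) with hB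
  have hdiag : ∀ i, -(2 * Real.log n) ≤ L i i := by
    intro i
    have h1 : 1 - ρ = 1 / (n : ℝ) := by rw [hρ]; ring
    have h2 : ∀ φ, -(Real.log n) ≤ Real.log (e1Q ρ φ) / 2 := by
      intro φ
      have h3 : Real.log ((1 - ρ) ^ 2) ≤ Real.log (e1Q ρ φ) :=
        Real.log_le_log (by rw [h1]; positivity) (e1Q_ge hρ0 φ)
      rw [h1, Real.log_pow, one_div, Real.log_inv] at h3
      push_cast at h3
      linarith
    have h4 := h2 (α i - α i)
    have h5 := h2 (α i + α i)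
    simp only [hL]
    linarith
  have hoff : ∀ i j, i ≠ j → Real.log |x i - x j| ≤ B + L i j := by
    intro i j hij
    have hx0 : x i - x j ≠ 0 := sub_ne_zero.2 fun hxe => hij (hx hxe)
    have h1 : x i - x j = a * (Real.cos (α i) - Real.cos (α j)) := by
      rw [hcos, hcos]
      field_simp
      ring
    have h2 : (x i - x j) ^ 2 = (a / 2) ^ 2 * ((4 * Real.sin ((α i - α j) / 2) ^ 2) *
        (4 * Real.sin ((α i + α j) / 2) ^ 2)) := by
      rw [h1, Real.cos_sub_cos]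
      ring
    have h3 : (x i - x j) ^ 2 ≤ (a / 2) ^ 2 * (((2 / (1 + ρ)) ^ 2 * e1Q ρ (α i - α j)) *
        ((2 / (1 + ρ)) ^ 2 * e1Q ρ (α i + α j))) := by
      rw [h2]
      refine mul_le_mul_of_nonneg_left ?_ (sq_nonneg _)
      exact mul_le_mul (e1Q_sin hρ0 _) (e1Q_sin hρ0 _) (by positivity)
        (mul_nonneg (sq_nonneg _) (e1Q_pos hρ0 hρ1 _).le)
    have h4 := Real.log_le_log (by positivity) h3
    have hq1 := e1Q_pos hρ0 hρ1 (α i - α j)
    have hq2 := e1Q_pos hρ0 hρ1 (α i + α j)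
    have hr : 0 < 2 / (1 + ρ) := by positivity
    rw [Real.log_pow, Real.log_mul (by positivity) (by positivity), Real.log_mul (by positivity)
      (by positivity), Real.log_mul (by positivity) hq1.ne', Real.log_mul (by positivity) hq2.ne',
      Real.log_pow, Real.log_pow] at h4
    push_cast at h4
    rw [Real.log_abs]
    simp only [hL, hB]
    linarith
  have hpt : ∀ i j, Real.log |x i - x j| ≤ B + L i j + if i = j then (2 * Real.log n - B) else 0 := by
    intro i j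
    by_cases hij : i = j
    · subst hij
      rw [if_pos rfl, sub_self, abs_zero, Real.log_zero]
      have := hdiag i
      linarith
    · rw [if_neg hij, add_zero]
      exact hoff i j hij
  have hsum : ∑ i, ∑ j, Real.log |x i - x j| ≤
      (n : ℝ) * n * B + ∑ i, ∑ j, L i j + n * (2 * Real.log n - B) := by
    calc ∑ i, ∑ j, Real.log |x i - x j|
        ≤ ∑ i, ∑ j, (B + L i j + if i = j then (2 * Real.log n - B) else 0) :=
          Finset.sum_le_sum fun i _ => Finset.sum_le_sum fun j _ => hpt i j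
      _ = (n : ℝ) * n * B + ∑ i, ∑ j, L i j + n * (2 * Real.log n - B) := by
          simp only [Finset.sum_add_distrib, Finset.sum_const, Finset.card_univ, Fintype.card_fin,
            nsmul_eq_mul, Finset.sum_ite_eq, Finset.mem_univ, if_true]
          ring
  -- `2 n (n-1) log (2/(1+ρ)) ≤ n`
  have hlog : (n : ℝ) * ((n : ℝ) - 1) * (2 * Real.log (2 / (1 + ρ))) ≤ n := by
    have h1 : 2 / (1 + ρ) = 1 + 1 / (2 * (n : ℝ) - 1) := by
      rw [hρ]
      have h2 : 2 * (n : ℝ) - 1 ≠ 0 := by linarith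
      have h3 : 1 + (1 - 1 / (n : ℝ)) = (2 * n - 1) / n := by
        field_simp
        ring
      rw [h3]
      field_simp
      ring
    have h2 : Real.log (2 / (1 + ρ)) ≤ 1 / (2 * (n : ℝ) - 1) := by
      rw [h1]
      have := Real.log_le_sub_one_of_pos (show (0 : ℝ) < 1 + 1 / (2 * (n : ℝ) - 1) by
        have : (0 : ℝ) < 2 * (n : ℝ) - 1 := by linarith
        positivity)
      linarith
    have h3 : (0 : ℝ) < 2 * (n : ℝ) - 1 := by linarith
    calc (n : ℝ) * ((n : ℝ) - 1) * (2 * Real.log (2 / (1 + ρ)))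
        ≤ (n : ℝ) * ((n : ℝ) - 1) * (2 * (1 / (2 * (n : ℝ) - 1))) := by
          refine mul_le_mul_of_nonneg_left ?_ (mul_nonneg hn0.le (by linarith))
          linarith
      _ = (n : ℝ) * (2 * ((n : ℝ) - 1) / (2 * (n : ℝ) - 1)) := by ring
      _ ≤ (n : ℝ) * 1 := by
          refine mul_le_mul_of_nonneg_left ?_ hn0.le
          rw [div_le_one h3]
          linarith
      _ = n := mul_one _
  have hB' : (n : ℝ) * n * B + n * (2 * Real.log n - B) = (n : ℝ) * ((n : ℝ) - 1) * Real.log (a / 2)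
      + (n : ℝ) * ((n : ℝ) - 1) * (2 * Real.log (2 / (1 + ρ))) + 2 * n * Real.log n := by
    rw [hB]
    ring
  linarith

end EHP56
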