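import Pool.Agent.EHP56.Defs

/-!
# From the quadratic mean to a uniform bound for the angles (module A9)

`δ i = φ i - 2π i/n`, `b =` mean of the `δ i`.  `∑_{i,j} (δ_i - δ_j)^2 = 2n ∑_i (δ_i - b)^2`, so
`∑_i (δ_i - b)^2 ≤ κ n/2`.  Let `t = |δ_{i0} - b| > 0`.

Case `δ_{i0} - b = t`.  For `0 ≤ l < n` let `i' = i0 + l` (if `< n`) or `i0 + l - n`.  In the first case
`φ_{i'} ≥ φ_{i0}` so `δ_{i'} ≥ δ_{i0} - 2π l/n`; in the second `φ_{i'} > φ_{i0} - 2π`, so
`δ_{i'} = φ_{i'} - 2π(i0 + l - n)/n > φ_{i0} - 2π(i0+l)/n = δ_{i0} - 2π l/n` as well.  So for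
`l ≤ t n/(4π)` one has `δ_{i'} - b ≥ t/2`.  All `|δ_i - δ_j| < 2π`, so `t < 2π` and `t n/(4π) < n/2`:
the indices `i'` are distinct, and their number is at least `t n/(4π)`.  Hence
`(t n/(4π)) (t^2/4) ≤ κ n/2`, i.e. `t^3 ≤ 8π κ ≤ 100 κ`.

Case `δ_{i0} - b = -t`: the same with `i0 - l`.
(There is a lot of room: `8π = 25.2`.  One may also apply the first case to the reversed sequence
`i ↦ - φ (n-1-i)`.)
-/

namespace EHP56

open Finset

private lemma equi_core {n : ℕ} (hn : 1 ≤ n) (e : Fin n → ℝ) (f : ℕ → Fin n)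
    (hf : ∀ a < n, ∀ b < n, f a = f b → a = b) (t κ : ℝ) (ht : 0 < t) (ht2 : t < 4 * Real.pi)
    (hlow : ∀ l : ℕ, l < n → t - 2 * Real.pi * (l : ℝ) / n ≤ e (f l))
    (hS : ∑ i, e i ^ 2 ≤ κ * n / 2) : t ^ 3 ≤ 100 * κ := by
  have hpi := Real.pi_pos
  have hn0 : (0 : ℝ) < n := by exact_mod_cast hn
  set m := ⌊t * n / (4 * Real.pi)⌋₊ + 1 with hm
  have hx0 : 0 ≤ t * n / (4 * Real.pi) := by positivity
  have hxm : t * n / (4 * Real.pi) < m := by
    rw [hm]; push_cast; exact Nat.lt_floor_add_one _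
  have hmn : m ≤ n := by
    have h1 : t * n / (4 * Real.pi) < n := by
      rw [div_lt_iff₀ (by positivity)]
      nlinarith
    have h2 : ⌊t * n / (4 * Real.pi)⌋₊ < n := by
      rw [Nat.floor_lt hx0]; exact h1
    omega
  have hterm : ∀ l ∈ range m, (t / 2) ^ 2 ≤ e (f l) ^ 2 := by
    intro l hl
    rw [mem_range] at hl
    have hl' : (l : ℝ) ≤ t * n / (4 * Real.pi) := by
      have : l ≤ ⌊t * n / (4 * Real.pi)⌋₊ := by omega
      exact le_trans (by exact_mod_cast this) (Nat.floor_le hx0)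
    have h1 := hlow l (by omega)
    have h2 : 2 * Real.pi * (l : ℝ) / n ≤ t / 2 := by
      rw [le_div_iff₀ (by positivity)] at hl'
      rw [div_le_iff₀ hn0]
      nlinarith
    have h3 : t / 2 ≤ e (f l) := by linarith
    exact pow_le_pow_left₀ (by positivity) h3 2
  have hsum : (m : ℝ) * (t / 2) ^ 2 ≤ ∑ i, e i ^ 2 := by
    have h1 : ∑ l ∈ range m, (t / 2) ^ 2 ≤ ∑ l ∈ range m, e (f l) ^ 2 := sum_le_sum hterm
    have h2 : ∑ l ∈ range m, e (f l) ^ 2 = ∑ i ∈ (range m).image f, e i ^ 2 := by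
      rw [sum_image]
      intro a ha b hb hab
      rw [Finset.mem_coe, mem_range] at ha hb
      exact hf a (by omega) b (by omega) hab
    have h3 : ∑ i ∈ (range m).image f, e i ^ 2 ≤ ∑ i, e i ^ 2 :=
      sum_le_sum_of_subset_of_nonneg (subset_univ _) (fun i _ _ => sq_nonneg _)
    rw [sum_const, card_range, nsmul_eq_mul] at h1
    linarith
  have h4 : t * n / (4 * Real.pi) * (t / 2) ^ 2 ≤ κ * n / 2 := by
    have : t * n / (4 * Real.pi) * (t / 2) ^ 2 ≤ (m : ℝ) * (t / 2) ^ 2 :=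
      mul_le_mul_of_nonneg_right hxm.le (by positivity)
    linarith
  have h5 : t ^ 3 * n ≤ 8 * Real.pi * κ * n := by
    have h6 : t * n / (4 * Real.pi) * (t / 2) ^ 2 = t ^ 3 * n / (16 * Real.pi) := by
      field_simp; ring
    rw [h6, div_le_iff₀ (by positivity)] at h4
    nlinarith
  have h7 : t ^ 3 ≤ 8 * Real.pi * κ := le_of_mul_le_mul_right h5 hn0
  have h8 : 0 < κ := by
    have : 0 < 8 * Real.pi * κ := lt_of_lt_of_le (by positivity) h7
    by_contra hc
    push Not at hc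
    nlinarith
  have h9 := Real.pi_lt_four
  nlinarith

theorem equidist {n : ℕ} (hn : 1 ≤ n) (φ : Fin n → ℝ) (hmono : StrictMono φ)
    (hspan : ∀ i j, φ i - φ j < 2 * Real.pi) (κ : ℝ)
    (h : ∑ i : Fin n, ∑ j : Fin n, ((φ i - 2 * Real.pi * (i : ℕ) / n)
          - (φ j - 2 * Real.pi * (j : ℕ) / n)) ^ 2 ≤ κ * (n : ℝ) ^ 2) :
    ∃ b : ℝ, ∀ i : Fin n, |φ i - 2 * Real.pi * (i : ℕ) / n - b| ^ 3 ≤ 100 * κ := by
  have hpi := Real.pi_pos
  have hn0 : (0 : ℝ) < n := by exact_mod_cast hn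
  set δ : Fin n → ℝ := fun i => φ i - 2 * Real.pi * (i : ℕ) / n with hδ
  set b : ℝ := (∑ i, δ i) / n with hb
  have hbn : ∑ i, δ i = n * b := by rw [hb]; field_simp
  have hS : ∑ i, (δ i - b) ^ 2 ≤ κ * n / 2 := by
    have h1 : ∑ i : Fin n, ∑ j : Fin n, (δ i - δ j) ^ 2 = 2 * n * ∑ i, (δ i - b) ^ 2 := by
      have e1 : ∀ i j : Fin n, (δ i - δ j) ^ 2
          = (δ i - b) ^ 2 + (δ j - b) ^ 2 - 2 * ((δ i - b) * (δ j - b)) := by
        intro i j; ring
      simp_rw [e1, sum_sub_distrib, sum_add_distrib]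
      have e2 : ∑ j : Fin n, (δ j - b) = 0 := by
        rw [sum_sub_distrib, hbn]; simp
      simp_rw [← mul_sum, e2]
      simp only [sum_const, card_univ, Fintype.card_fin, nsmul_eq_mul, ← mul_sum, mul_zero,
        sub_zero]
      ring
    have h2 : 2 * n * ∑ i, (δ i - b) ^ 2 ≤ κ * (n : ℝ) ^ 2 := by rw [← h1]; exact h
    have h3 : (∑ i, (δ i - b) ^ 2) * n ≤ (κ * n / 2) * n := by nlinarith
    exact le_of_mul_le_mul_right h3 hn0
  have hκ : 0 ≤ κ := by
    have h1 : 0 ≤ ∑ i, (δ i - b) ^ 2 := sum_nonneg (fun i _ => sq_nonneg _)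
    by_contra hc
    push Not at hc
    nlinarith
  have hdiff : ∀ i j, |δ i - δ j| < 2 * Real.pi := by
    have key : ∀ i j : Fin n, i ≤ j → |δ i - δ j| < 2 * Real.pi := by
      intro i j hij
      have h1 : φ i ≤ φ j := hmono.monotone hij
      have h2 := hspan j i
      have h3 : (i : ℝ) ≤ (j : ℝ) := by exact_mod_cast hij
      have h4 : (j : ℝ) - i < n := by
        have : (j : ℕ) < n := j.2
        have h5 : ((j : ℕ) : ℝ) < n := by exact_mod_cast this
        have h6 : (0 : ℝ) ≤ (i : ℕ) := Nat.cast_nonneg _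
        linarith
      have h7 : δ i - δ j = (φ i - φ j) + 2 * Real.pi * (((j : ℕ) : ℝ) - (i : ℕ)) / n := by
        simp only [hδ]; ring
      have h8 : 0 ≤ 2 * Real.pi * (((j : ℕ) : ℝ) - (i : ℕ)) / n := by
        apply div_nonneg _ hn0.le
        apply mul_nonneg (by positivity)
        linarith
      have h9 : 2 * Real.pi * (((j : ℕ) : ℝ) - (i : ℕ)) / n < 2 * Real.pi := by
        rw [div_lt_iff₀ hn0]
        exact mul_lt_mul_of_pos_left h4 (by positivity)
      rw [h7, abs_lt]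
      constructor <;> linarith
    intro i j
    rcases le_total i j with hij | hij
    · exact key i j hij
    · rw [abs_sub_comm]; exact key j i hij
  have hdb : ∀ i, |δ i - b| ≤ 2 * Real.pi := by
    intro i
    have h1 : δ i - b = (∑ j, (δ i - δ j)) / n := by
      rw [sum_sub_distrib, hb]
      simp
      field_simp
    rw [h1, abs_div, abs_of_pos hn0, div_le_iff₀ hn0]
    calc |∑ j, (δ i - δ j)| ≤ ∑ j, |δ i - δ j| := abs_sum_le_sum_abs _ _
      _ ≤ ∑ _j : Fin n, 2 * Real.pi := sum_le_sum (fun j _ => (hdiff i j).le)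
      _ = 2 * Real.pi * n := by simp; ring
  refine ⟨b, fun i0 => ?_⟩
  change |δ i0 - b| ^ 3 ≤ 100 * κ
  have hi0 := i0.2
  rcases lt_trichotomy (δ i0 - b) 0 with hneg | h0 | hpos
  · -- the negative case
    have habs : |δ i0 - b| = b - δ i0 := by rw [abs_of_neg hneg]; ring
    have hle := hdb i0
    rw [habs] at hle ⊢
    refine equi_core hn (fun i => b - δ i) (fun l => ⟨(i0 + n - l) % n, Nat.mod_lt _ (by omega)⟩)
      ?_ _ κ (by linarith) (by linarith) ?_ ?_
    · intro a ha c hc hac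
      simp only [Fin.mk.injEq] at hac
      rcases Nat.lt_or_ge (i0 + n - a) n with h1 | h1
      · rcases Nat.lt_or_ge (i0 + n - c) n with h2 | h2
        · rw [Nat.mod_eq_of_lt h1, Nat.mod_eq_of_lt h2] at hac; omega
        · rw [Nat.mod_eq_of_lt h1, Nat.mod_eq_sub_mod h2, Nat.mod_eq_of_lt (by omega)] at hac
          omega
      · rcases Nat.lt_or_ge (i0 + n - c) n with h2 | h2
        · rw [Nat.mod_eq_of_lt h2, Nat.mod_eq_sub_mod h1, Nat.mod_eq_of_lt (by omega)] at hac
          omega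
        · rw [Nat.mod_eq_sub_mod h1, Nat.mod_eq_of_lt (by omega), Nat.mod_eq_sub_mod h2,
            Nat.mod_eq_of_lt (by omega)] at hac
          omega
    · intro l hl
      simp only [hδ]
      rcases Nat.lt_or_ge i0 l with h1 | h1
      · have e1 : (i0 + n - l) % n = i0 + n - l := Nat.mod_eq_of_lt (by omega)
        have e2 : (((i0 + n - l : ℕ)) : ℝ) = (i0 : ℕ) + n - l := by
          rw [Nat.cast_sub (by omega)]; push_cast; ring
        have e3 := hspan ⟨(i0 + n - l) % n, Nat.mod_lt _ (by omega)⟩ i0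
        have e4 : 2 * Real.pi * (((i0 : ℕ) : ℝ) + n - l) / n
            = 2 * Real.pi * ((i0 : ℕ) : ℝ) / n + 2 * Real.pi - 2 * Real.pi * (l : ℝ) / n := by
          field_simp
        simp only [e1, e2] at e3 ⊢
        rw [e4]
        linarith
      · have e1 : (i0 + n - l) % n = i0 - l := by
          rw [Nat.mod_eq_sub_mod (by omega), Nat.mod_eq_of_lt (by omega)]; omega
        have e2 : (((i0 - l : ℕ)) : ℝ) = (i0 : ℕ) - l := by
          rw [Nat.cast_sub (by omega)]
        have e3 : φ ⟨(i0 + n - l) % n, Nat.mod_lt _ (by omega)⟩ ≤ φ i0 := by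
          apply hmono.monotone
          rw [Fin.le_def]
          simp only [e1]
          omega
        have e4 : 2 * Real.pi * (((i0 : ℕ) : ℝ) - l) / n
            = 2 * Real.pi * ((i0 : ℕ) : ℝ) / n - 2 * Real.pi * (l : ℝ) / n := by
          field_simp
        simp only [e1, e2] at e3 ⊢
        rw [e4]
        linarith
    · calc ∑ i, (b - δ i) ^ 2 = ∑ i, (δ i - b) ^ 2 := by
            apply sum_congr rfl; intro i _; ring
        _ ≤ _ := hS
  · rw [h0]; simp; linarith
  · -- the positive case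
    have habs : |δ i0 - b| = δ i0 - b := abs_of_pos hpos
    have hle := hdb i0
    rw [habs] at hle ⊢
    refine equi_core hn (fun i => δ i - b) (fun l => ⟨(i0 + l) % n, Nat.mod_lt _ (by omega)⟩)
      ?_ _ κ (by linarith) (by linarith) ?_ hS
    · intro a ha c hc hac
      simp only [Fin.mk.injEq] at hac
      rcases Nat.lt_or_ge (i0 + a) n with h1 | h1
      · rcases Nat.lt_or_ge (i0 + c) n with h2 | h2
        · rw [Nat.mod_eq_of_lt h1, Nat.mod_eq_of_lt h2] at hac; omega
        · rw [Nat.mod_eq_of_lt h1, Nat.mod_eq_sub_mod h2, Nat.mod_eq_of_lt (by omega)] at hac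
          omega
      · rcases Nat.lt_or_ge (i0 + c) n with h2 | h2
        · rw [Nat.mod_eq_of_lt h2, Nat.mod_eq_sub_mod h1, Nat.mod_eq_of_lt (by omega)] at hac
          omega
        · rw [Nat.mod_eq_sub_mod h1, Nat.mod_eq_of_lt (by omega), Nat.mod_eq_sub_mod h2,
            Nat.mod_eq_of_lt (by omega)] at hac
          omega
    · intro l hl
      simp only [hδ]
      rcases Nat.lt_or_ge (i0 + l) n with h1 | h1
      · have e1 : (i0 + l) % n = i0 + l := Nat.mod_eq_of_lt h1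
        have e3 : φ i0 ≤ φ ⟨(i0 + l) % n, Nat.mod_lt _ (by omega)⟩ := by
          apply hmono.monotone
          rw [Fin.le_def]
          simp only [e1]
          omega
        have e4 : 2 * Real.pi * (((i0 : ℕ) : ℝ) + l) / n
            = 2 * Real.pi * ((i0 : ℕ) : ℝ) / n + 2 * Real.pi * (l : ℝ) / n := by
          field_simp
        simp only [e1, Nat.cast_add] at e3 ⊢
        rw [e4]
        linarith
      · have e1 : (i0 + l) % n = i0 + l - n := by
          rw [Nat.mod_eq_sub_mod h1, Nat.mod_eq_of_lt (by omega)]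
        have e2 : (((i0 + l - n : ℕ)) : ℝ) = (i0 : ℕ) + l - n := by
          rw [Nat.cast_sub (by omega)]; push_cast; ring
        have e3 := hspan i0 ⟨(i0 + l) % n, Nat.mod_lt _ (by omega)⟩
        have e4 : 2 * Real.pi * (((i0 : ℕ) : ℝ) + l - n) / n
            = 2 * Real.pi * ((i0 : ℕ) : ℝ) / n + 2 * Real.pi * (l : ℝ) / n - 2 * Real.pi := by
          field_simp
        simp only [e1, e2] at e3 ⊢
        rw [e4]
        linarith

end EHP56
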