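import Pool.Agent.EHP56.LocalCore

/-!
# Removing the normalisation `∑ Im (r c) = 0` (module B8)

Let `ε0, N` be from `local_core` and `ε = ε0/4` (also `ε ≤ 1/10`).  Put `s = ∑ r k c k`; `‖s - ∑ r‖ ≤ ε ∑ r`, so `s ≠ 0`
(`∑ r > 0`); let `ω = conj s/‖s‖`, a unit number with `‖ω - 1‖ ≤ 2 ε` (`‖conj s/‖s‖ - 1‖`: `‖s/S - 1‖ ≤ ε`, `S = ∑ r`, so
`‖s/‖s‖ - 1‖ ≤ 2 ε`).  Then `z' = ω z`, `c' = ω c`, `r' = r` satisfy the definition of `Loc n ε0`:
`‖c' - 1‖ ≤ ε + 2ε`, `‖z' - χ‖ ≤ ‖z - χ‖ + ‖ω - 1‖ ‖χ‖ ≤ 3ε`, `∑ r Im c' = Im (ω s) = 0`; and `X z' j d = ω X z j d`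
has the same norm.
-/

namespace EHP56

open Finset

namespace LocalAux

lemma norm_chi (n : ℕ) [NeZero n] (k : ZMod n) : ‖chi n k‖ = 1 := by
  unfold chi
  exact AddChar.norm_apply _ _

/-- the rotation -/
lemma exists_rot {n : ℕ} [NeZero n] (r : ZMod n → ℝ) (c : ZMod n → ℂ) (ε : ℝ) (hε : ε ≤ 1 / 10)
    (hr : ∀ k, 0 < r k) (hc : ∀ k, ‖c k - 1‖ ≤ ε) :
    ∃ ω : ℂ, ‖ω‖ = 1 ∧ ‖ω - 1‖ ≤ 2 * ε ∧ ∑ k, r k * (ω * c k).im = 0 := by
  set s : ℂ := ∑ k, (r k : ℂ) * c k with hs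
  set S : ℝ := ∑ k, r k with hS
  have hSpos : 0 < S := Finset.sum_pos (fun k _ => hr k) ⟨0, Finset.mem_univ _⟩
  have hdiff : ‖s - (S : ℂ)‖ ≤ ε * S := by
    have e1 : s - (S : ℂ) = ∑ k, (r k : ℂ) * (c k - 1) := by
      rw [hs, hS]
      push_cast
      rw [← Finset.sum_sub_distrib]
      exact Finset.sum_congr rfl (fun k _ => by ring)
    rw [e1]
    calc ‖∑ k, (r k : ℂ) * (c k - 1)‖ ≤ ∑ k, ‖(r k : ℂ) * (c k - 1)‖ := norm_sum_le _ _
      _ ≤ ∑ k, ε * r k := by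
          apply Finset.sum_le_sum
          intro k _
          rw [norm_mul, Complex.norm_real, Real.norm_of_nonneg (hr k).le, mul_comm]
          exact mul_le_mul_of_nonneg_right (hc k) (hr k).le
      _ = ε * S := by rw [hS, Finset.mul_sum]
  have hn1 : |‖s‖ - S| ≤ ε * S := by
    have h := abs_norm_sub_norm_le s (S : ℂ)
    rw [Complex.norm_real, Real.norm_of_nonneg hSpos.le] at h
    exact h.trans hdiff
  have hspos : 0 < ‖s‖ := by
    have h1 := (abs_le.mp hn1).1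
    nlinarith
  have hs0 : (‖s‖ : ℂ) ≠ 0 := by
    exact_mod_cast hspos.ne'
  have hS0 : (S : ℂ) ≠ 0 := by
    exact_mod_cast hSpos.ne'
  refine ⟨(starRingEnd ℂ) s / (‖s‖ : ℂ), ?_, ?_, ?_⟩
  · rw [norm_div, RCLike.norm_conj, Complex.norm_real, norm_norm, div_self hspos.ne']
  · -- conj (s/‖s‖ - 1)
    have e1 : (starRingEnd ℂ) s / (‖s‖ : ℂ) - 1 = (starRingEnd ℂ) (s / (‖s‖ : ℂ) - 1) := by
      rw [map_sub, map_div₀, Complex.conj_ofReal, map_one]
    rw [e1, RCLike.norm_conj]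
    -- s/‖s‖ - 1 = (s - S)/S + s (S - ‖s‖)/(‖s‖ S)
    have e2 : s / (‖s‖ : ℂ) - 1 = (s - (S : ℂ)) / (S : ℂ) + s / (‖s‖ : ℂ) * (((S - ‖s‖ : ℝ) : ℂ) / (S : ℂ)) := by
      push_cast
      field_simp
      ring
    rw [e2]
    have b1 : ‖(s - (S : ℂ)) / (S : ℂ)‖ ≤ ε := by
      rw [norm_div, Complex.norm_real, Real.norm_of_nonneg hSpos.le, div_le_iff₀ hSpos]
      exact hdiff
    have b2 : ‖s / (‖s‖ : ℂ) * (((S - ‖s‖ : ℝ) : ℂ) / (S : ℂ))‖ ≤ ε := by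
      rw [norm_mul, norm_div, norm_div, Complex.norm_real, Complex.norm_real, Complex.norm_real,
        norm_norm, div_self hspos.ne', one_mul, Real.norm_of_nonneg hSpos.le, div_le_iff₀ hSpos,
        Real.norm_eq_abs, abs_sub_comm]
      exact hn1
    calc _ ≤ ‖(s - (S : ℂ)) / (S : ℂ)‖ + ‖s / (‖s‖ : ℂ) * (((S - ‖s‖ : ℝ) : ℂ) / (S : ℂ))‖ :=
          norm_add_le _ _
      _ ≤ ε + ε := add_le_add b1 b2
      _ = 2 * ε := by ring
  · have e1 : ∑ k, r k * ((starRingEnd ℂ) s / (‖s‖ : ℂ) * c k).im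
        = ((starRingEnd ℂ) s / (‖s‖ : ℂ) * s).im := by
      rw [hs, Finset.mul_sum, Complex.im_sum]
      rw [← hs]
      apply Finset.sum_congr rfl
      intro k _
      rw [← Complex.im_ofReal_mul]
      congr 1
      ring
    rw [e1]
    have e2 : (starRingEnd ℂ) s / (‖s‖ : ℂ) * s = (‖s‖ : ℂ) := by
      rw [div_mul_eq_mul_div, mul_comm ((starRingEnd ℂ) s) s, Complex.mul_conj, Complex.normSq_eq_norm_sq]
      push_cast
      rw [pow_two, mul_div_assoc, div_self hs0, mul_one]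
    rw [e2, Complex.ofReal_im]

end LocalAux

theorem local_thm : ∃ ε : ℝ, 0 < ε ∧ ∃ N : ℕ, ∀ (n : ℕ) [NeZero n], N ≤ n →
    ∀ (z : ZMod n → ℂ) (r : ZMod n → ℝ) (c : ZMod n → ℂ), (∀ k, 0 < r k) → (∀ k, ‖c k‖ = 1) →
    (∀ k, ‖c k - 1‖ ≤ ε) → (∀ k, ‖z k - chi n k‖ ≤ ε) →
    (∀ k, z (k + 1) - z k = (r k : ℂ) * c k * (chi n (k + 1) - chi n k)) → ∑ k, r k ≤ (n : ℝ) →
    ∑ d ∈ Ico 1 n, ∑ j, Real.log ‖X z j d‖ ≤ 0 := by
  obtain ⟨ε0, hε0, N, hN⟩ := local_core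
  refine ⟨min (ε0 / 4) (1 / 10), lt_min (by positivity) (by norm_num), N, ?_⟩
  intro n _ hn z r c hr hcn hcc hzc hedge hsum
  set ε : ℝ := min (ε0 / 4) (1 / 10) with hε
  have hε1 : ε ≤ ε0 / 4 := min_le_left _ _
  have hε2 : ε ≤ 1 / 10 := min_le_right _ _
  obtain ⟨ω, hω1, hω2, hω3⟩ := LocalAux.exists_rot r c ε hε2 hr hcc
  have hε3 : 3 * ε ≤ ε0 := by linarith
  let P : Loc n ε0 :=
    { z := fun k => ω * z k
      r := r
      c := fun k => ω * c k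
      r_pos := hr
      c_norm := fun k => by
        show ‖ω * c k‖ = 1
        rw [norm_mul, hω1, hcn k, one_mul]
      c_close := fun k => by
        show ‖ω * c k - 1‖ ≤ ε0
        have e1 : ω * c k - 1 = ω * (c k - 1) + (ω - 1) := by ring
        rw [e1]
        calc ‖ω * (c k - 1) + (ω - 1)‖ ≤ ‖ω * (c k - 1)‖ + ‖ω - 1‖ := norm_add_le _ _
          _ ≤ ε + 2 * ε := by
              rw [norm_mul, hω1, one_mul]
              exact add_le_add (hcc k) hω2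
          _ ≤ ε0 := by linarith
      z_close := fun k => by
        show ‖ω * z k - chi n k‖ ≤ ε0
        have e1 : ω * z k - chi n k = ω * (z k - chi n k) + (ω - 1) * chi n k := by ring
        rw [e1]
        calc ‖ω * (z k - chi n k) + (ω - 1) * chi n k‖
            ≤ ‖ω * (z k - chi n k)‖ + ‖(ω - 1) * chi n k‖ := norm_add_le _ _
          _ ≤ ε + 2 * ε := by
              rw [norm_mul, norm_mul, hω1, one_mul, LocalAux.norm_chi, mul_one]
              exact add_le_add (hzc k) hω2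
          _ ≤ ε0 := by linarith
      edge := fun k => by
        show ω * z (k + 1) - ω * z k = (r k : ℂ) * (ω * c k) * (chi n (k + 1) - chi n k)
        rw [← mul_sub, hedge k]
        ring
      sum_r := hsum
      sum_im := hω3 }
  have h := hN n hn P
  have hX : ∀ j d, ‖X P.z j d‖ = ‖X z j d‖ := by
    intro j d
    have e1 : X P.z j d = ω * X z j d := by
      show (ω * z (j + (d : ZMod n)) - ω * z j) / (chi n (j + (d : ZMod n)) - chi n j) = ω * X z j d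
      unfold X
      rw [← mul_sub, mul_div_assoc]
    rw [e1, norm_mul, hω1, one_mul]
  calc ∑ d ∈ Ico 1 n, ∑ j, Real.log ‖X z j d‖ = ∑ d ∈ Ico 1 n, ∑ j, Real.log ‖X P.z j d‖ := by
        apply Finset.sum_congr rfl
        intro d _
        apply Finset.sum_congr rfl
        intro j _
        rw [hX]
    _ ≤ 0 := h

end EHP56
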