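import Pool.Agent.EHP56.Defs

/-!
# The kernel representation of the relative chords (module B0)

`χ = chi n` is an additive character: `χ (a + b) = χ a χ b`, `‖χ a‖ = 1`, `χ k = exp (2 π i k/n)`
(`ZMod.stdAddChar_coe`), `χ d - 1 = 2 i sin (π d/n) e^{iπ d/n}`.

* `X_eq_kernel`: for any `f`, `f (j+d) - f j = ∑_{l<d} (f (j+l+1) - f (j+l)) = ∑_{l<d} X f (j+l) 1 χ (j+l) (χ 1 - 1)`, so
  `X f j d = ∑_{l<d} X f (j+l) 1 χ l (χ 1 - 1)/(χ d - 1)` and
  `χ l (χ 1 - 1)/(χ d - 1) = β_d e^{i τ_{d,l}}`, `β_d = sin (π/n)/sin (π d/n)`, `τ_{d,l} = π(2l+1-d)/n`.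
* `kernel_sum`: take `f = χ` (all `X = 1`) : `∑_{l<d} β_d e^{i τ} = 1`; real and imaginary parts.
* `X_symm`: `X f (j+d) (n-d) = X f j d`.
* `X_sum`: `∑_j X f j d = ∑_k X f k 1`.
* `beta_le`: `sin (π d/n) ≥ 2d/n` for `2d ≤ n`, `sin (π/n) ≤ π/n`; and `sin (π d/n) ≤ d sin (π/n)` gives `β ≥ 1/d`.
  `100 d ≤ n`: with `x = π d/n ≤ 0.032`, `d β ≤ x/sin x ≤ 1 + x^2/5.9 ≤ 1 + 2 (d/n)^2`.
* `Loc.X_close`: `X z j d - 1 = ((z (j+d) - χ (j+d)) - (z j - χ j))/(χ (j+d) - χ j)`, norm `≤ 2ε/(2 sin (π d/n))`.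
* `Loc.X_re_pos`: for `4 d ≤ n`, `Re X = β ∑ r Re (c e^{iτ})`, `|τ| ≤ π/4`, so
  `Re (c e^{iτ}) ≥ cos τ - ε > 0`.  For `n ≤ 4d`, `4d ≤ 3n`: `‖X - 1‖ ≤ √2 ε < 1`.  For `4d > 3n` use `X_symm`.
-/

namespace EHP56

open Finset

variable {n : ℕ} [NeZero n]

theorem chi_zero : chi n 0 = 1 := by
  unfold chi
  exact AddChar.map_zero_eq_one _

theorem chi_add (a b : ZMod n) : chi n (a + b) = chi n a * chi n b := by
  unfold chi
  exact AddChar.map_add_eq_mul _ a b

theorem chi_norm (a : ZMod n) : ‖chi n a‖ = 1 := by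
  unfold chi
  exact AddChar.norm_apply _ a

theorem chi_natCast (k : ℕ) :
    chi n (k : ZMod n) = Complex.exp (2 * (Real.pi : ℂ) * Complex.I * (k : ℂ) / (n : ℂ)) := by
  unfold chi
  have h := ZMod.stdAddChar_coe (N := n) (k : ℤ)
  push_cast at h
  exact h

theorem chi_sub_one (d : ℕ) :
    chi n (d : ZMod n) - 1 = 2 * Complex.I * (Real.sin (Real.pi * d / n) : ℂ)
      * Complex.exp (((Real.pi * d / n : ℝ) : ℂ) * Complex.I) := by
  have hn : (n : ℂ) ≠ 0 := by exact_mod_cast NeZero.ne n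
  rw [chi_natCast]
  set x : ℂ := ((Real.pi * d / n : ℝ) : ℂ) with hx
  have e1 : 2 * (Real.pi : ℂ) * Complex.I * (d : ℂ) / (n : ℂ) = x * Complex.I + x * Complex.I := by
    rw [hx]; push_cast; ring
  have e2 : (Real.sin (Real.pi * d / n) : ℂ) = Complex.sin x := by
    rw [hx, Complex.ofReal_sin]
  rw [e1, Complex.exp_add, e2, Complex.sin]
  have h1 : Complex.exp (-x * Complex.I) * Complex.exp (x * Complex.I) = 1 := by
    rw [← Complex.exp_add]; simp
  have hI := Complex.I_mul_I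
  linear_combination h1 - ((Complex.exp (-x * Complex.I) - Complex.exp (x * Complex.I))
    * Complex.exp (x * Complex.I)) * hI

theorem chi_sub (j : ZMod n) (d : ℕ) :
    chi n (j + (d : ZMod n)) - chi n j = chi n j * (chi n (d : ZMod n) - 1) := by
  rw [chi_add]; ring

theorem sin_nonneg_of_le {d : ℕ} (h2 : d ≤ n) : 0 ≤ Real.sin (Real.pi * d / n) := by
  have hn : (0 : ℝ) < n := by exact_mod_cast Nat.pos_of_ne_zero (NeZero.ne n)
  apply Real.sin_nonneg_of_nonneg_of_le_pi
  · positivity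
  · rw [div_le_iff₀ hn]
    have : (d : ℝ) ≤ n := by exact_mod_cast h2
    nlinarith [Real.pi_pos]

theorem norm_chi_sub (j : ZMod n) (d : ℕ) (hd : d ≤ n) :
    ‖chi n (j + (d : ZMod n)) - chi n j‖ = 2 * Real.sin (Real.pi * d / n) := by
  rw [chi_sub, norm_mul, chi_norm, one_mul, chi_sub_one, norm_mul, norm_mul, norm_mul,
    Complex.norm_exp_ofReal_mul_I, Complex.norm_I, Complex.norm_real, Real.norm_eq_abs,
    abs_of_nonneg (sin_nonneg_of_le hd)]
  norm_num

theorem sin_pos_of_lt {d : ℕ} (h1 : 1 ≤ d) (h2 : d < n) : 0 < Real.sin (Real.pi * d / n) := by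
  have hn : (0 : ℝ) < n := by exact_mod_cast Nat.pos_of_ne_zero (NeZero.ne n)
  have hd : (0 : ℝ) < d := by exact_mod_cast h1
  apply Real.sin_pos_of_pos_of_lt_pi
  · positivity
  · rw [div_lt_iff₀ hn]
    have : (d : ℝ) < n := by exact_mod_cast h2
    nlinarith [Real.pi_pos]

theorem chi_sub_ne (j : ZMod n) {d : ℕ} (h1 : 1 ≤ d) (h2 : d < n) :
    chi n (j + (d : ZMod n)) - chi n j ≠ 0 := by
  rw [← norm_pos_iff, norm_chi_sub j d h2.le]
  have := sin_pos_of_lt h1 h2
  linarith

theorem telescope (f : ZMod n → ℂ) (j : ZMod n) (d : ℕ) :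
    f (j + (d : ZMod n)) - f j
      = ∑ l ∈ range d, (f (j + (l : ZMod n) + 1) - f (j + (l : ZMod n))) := by
  have h := Finset.sum_range_sub (fun l : ℕ => f (j + (l : ZMod n))) d
  simp only [Nat.cast_zero, add_zero] at h
  rw [← h]
  apply Finset.sum_congr rfl
  intro l _
  rw [Nat.cast_add, Nat.cast_one, add_assoc]

theorem edge_eq (hn : 2 ≤ n) (f : ZMod n → ℂ) (k : ZMod n) :
    f (k + 1) - f k = X f k 1 * (chi n (k + 1) - chi n k) := by
  unfold X
  have h := chi_sub_ne k (le_refl 1) (show 1 < n by omega)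
  rw [Nat.cast_one] at h ⊢
  rw [div_mul_cancel₀ _ h]

theorem kernel_weight (d l : ℕ) (h1 : 1 ≤ d) (h2 : d < n) :
    chi n (l : ZMod n) * (chi n ((1 : ℕ) : ZMod n) - 1) / (chi n (d : ZMod n) - 1)
      = (beta n d : ℂ) * Complex.exp ((tau n d l : ℂ) * Complex.I) := by
  have hn : (n : ℂ) ≠ 0 := by exact_mod_cast NeZero.ne n
  have hs : Real.sin (Real.pi * d / n) ≠ 0 := (sin_pos_of_lt h1 h2).ne'
  have hs' : ((Real.sin (Real.pi * d / n) : ℝ) : ℂ) ≠ 0 := by exact_mod_cast hs
  have hne : chi n (d : ZMod n) - 1 ≠ 0 := by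
    have h := chi_sub_ne (n := n) 0 h1 h2
    rwa [zero_add, chi_zero] at h
  rw [div_eq_iff hne, chi_sub_one, chi_sub_one, chi_natCast]
  have hb : (beta n d : ℂ) * (Real.sin (Real.pi * d / n) : ℂ) = (Real.sin (Real.pi / n) : ℂ) := by
    unfold beta
    rw [← Complex.ofReal_mul, div_mul_cancel₀ _ hs]
  have e : Complex.exp (2 * (Real.pi : ℂ) * Complex.I * (l : ℂ) / (n : ℂ))
      * Complex.exp (((Real.pi * ((1 : ℕ) : ℝ) / n : ℝ) : ℂ) * Complex.I)
      = Complex.exp ((tau n d l : ℂ) * Complex.I)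
        * Complex.exp (((Real.pi * d / n : ℝ) : ℂ) * Complex.I) := by
    rw [← Complex.exp_add, ← Complex.exp_add]
    congr 1
    unfold tau
    push_cast
    field_simp
    ring
  have e1 : (Real.sin (Real.pi * ((1 : ℕ) : ℝ) / n) : ℂ) = (Real.sin (Real.pi / n) : ℂ) := by
    rw [Nat.cast_one, mul_one]
  rw [e1]
  linear_combination (2 * Complex.I * (Real.sin (Real.pi / n) : ℂ)) * e
    - (2 * Complex.I * Complex.exp ((tau n d l : ℂ) * Complex.I)
        * Complex.exp (((Real.pi * d / n : ℝ) : ℂ) * Complex.I)) * hb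

theorem X_eq_kernel (f : ZMod n → ℂ) (j : ZMod n) {d : ℕ} (h1 : 1 ≤ d) (h2 : d < n) :
    X f j d = ∑ l ∈ range d, (beta n d : ℂ) * Complex.exp ((tau n d l : ℂ) * Complex.I)
      * X f (j + (l : ZMod n)) 1 := by
  have hj : chi n j ≠ 0 := by
    rw [← norm_pos_iff, chi_norm]; norm_num
  have hne : chi n (d : ZMod n) - 1 ≠ 0 := by
    have h := chi_sub_ne (n := n) 0 h1 h2
    rwa [zero_add, chi_zero] at h
  have e0 : X f j d = (f (j + (d : ZMod n)) - f j) / (chi n (j + (d : ZMod n)) - chi n j) := rfl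
  rw [e0, telescope f j d, Finset.sum_div]
  apply Finset.sum_congr rfl
  intro l _
  rw [edge_eq (by omega) f (j + (l : ZMod n)), chi_sub j d, ← kernel_weight d l h1 h2]
  have e1 : chi n (j + (l : ZMod n) + 1) - chi n (j + (l : ZMod n))
      = chi n j * (chi n (l : ZMod n) * (chi n ((1 : ℕ) : ZMod n) - 1)) := by
    rw [Nat.cast_one, chi_add, chi_add]; ring
  rw [e1]
  field_simp

theorem X_chi (j : ZMod n) {d : ℕ} (h1 : 1 ≤ d) (h2 : d < n) : X (chi n) j d = 1 := by
  unfold X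
  exact div_self (chi_sub_ne j h1 h2)

theorem kernel_one {d : ℕ} (h1 : 1 ≤ d) (h2 : d < n) :
    ∑ l ∈ range d, (beta n d : ℂ) * Complex.exp ((tau n d l : ℂ) * Complex.I) = 1 := by
  have h := X_eq_kernel (chi n) 0 h1 h2
  rw [X_chi 0 h1 h2] at h
  rw [h]
  apply Finset.sum_congr rfl
  intro l _
  rw [X_chi _ (le_refl 1) (by omega), mul_one]

theorem kernel_cos {d : ℕ} (h1 : 1 ≤ d) (h2 : d < n) :
    ∑ l ∈ range d, beta n d * Real.cos (tau n d l) = 1 := by
  have h := congrArg Complex.re (kernel_one h1 h2)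
  rw [Complex.re_sum, Complex.one_re] at h
  rw [← h]
  apply Finset.sum_congr rfl
  intro l _
  rw [Complex.re_ofReal_mul, Complex.exp_ofReal_mul_I_re]

theorem beta_pos {d : ℕ} (h1 : 1 ≤ d) (h2 : d < n) : 0 < beta n d := by
  unfold beta
  apply div_pos _ (sin_pos_of_lt h1 h2)
  have := sin_pos_of_lt (n := n) (le_refl 1) (by omega)
  rwa [Nat.cast_one, mul_one] at this

theorem kernel_sin {d : ℕ} (h1 : 1 ≤ d) (h2 : d < n) :
    ∑ l ∈ range d, Real.sin (tau n d l) = 0 := by
  have h := congrArg Complex.im (kernel_one h1 h2)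
  rw [Complex.im_sum, Complex.one_im] at h
  have h3 : beta n d * ∑ l ∈ range d, Real.sin (tau n d l) = 0 := by
    rw [Finset.mul_sum, ← h]
    apply Finset.sum_congr rfl
    intro l _
    rw [Complex.im_ofReal_mul, Complex.exp_ofReal_mul_I_im]
  exact (mul_eq_zero.mp h3).resolve_left (beta_pos h1 h2).ne'

theorem X_symm (f : ZMod n → ℂ) (j : ZMod n) {d : ℕ} (h : d ≤ n) :
    X f (j + (d : ZMod n)) (n - d) = X f j d := by
  unfold X
  have e : j + (d : ZMod n) + ((n - d : ℕ) : ZMod n) = j := by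
    rw [Nat.cast_sub h, ZMod.natCast_self]; ring
  rw [e, ← neg_sub (f (j + (d : ZMod n))) (f j), ← neg_sub (chi n (j + (d : ZMod n))) (chi n j),
    neg_div_neg_eq]

theorem X_sum (f : ZMod n → ℂ) {d : ℕ} (h1 : 1 ≤ d) (h2 : d < n) :
    ∑ j, X f j d = ∑ k, X f k 1 := by
  have e : ∀ l : ℕ, ∑ j : ZMod n, X f (j + (l : ZMod n)) 1 = ∑ k, X f k 1 := by
    intro l
    exact Equiv.sum_comp (Equiv.addRight (l : ZMod n)) (fun k => X f k 1)
  calc ∑ j, X f j d = ∑ j, ∑ l ∈ range d, (beta n d : ℂ) * Complex.exp ((tau n d l : ℂ) * Complex.I)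
      * X f (j + (l : ZMod n)) 1 := by
        apply Finset.sum_congr rfl
        intro j _
        exact X_eq_kernel f j h1 h2
    _ = ∑ l ∈ range d, ∑ j, (beta n d : ℂ) * Complex.exp ((tau n d l : ℂ) * Complex.I)
      * X f (j + (l : ZMod n)) 1 := Finset.sum_comm
    _ = ∑ l ∈ range d, (beta n d : ℂ) * Complex.exp ((tau n d l : ℂ) * Complex.I)
      * ∑ k, X f k 1 := by
        apply Finset.sum_congr rfl
        intro l _
        rw [← Finset.mul_sum, e]
    _ = ∑ k, X f k 1 := by rw [← Finset.sum_mul, kernel_one h1 h2, one_mul]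

theorem sin_nat_mul_le (d : ℕ) (x : ℝ) (hx : 0 ≤ x) (hx1 : x ≤ Real.pi) :
    |Real.sin (d * x)| ≤ d * Real.sin x := by
  have hs : 0 ≤ Real.sin x := Real.sin_nonneg_of_nonneg_of_le_pi hx hx1
  induction d with
  | zero => simp
  | succ d ih =>
    have e : ((d + 1 : ℕ) : ℝ) * x = d * x + x := by push_cast; ring
    rw [e, Real.sin_add]
    calc |Real.sin (d * x) * Real.cos x + Real.cos (d * x) * Real.sin x|
        ≤ |Real.sin (d * x) * Real.cos x| + |Real.cos (d * x) * Real.sin x| := abs_add_le _ _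
      _ ≤ |Real.sin (d * x)| * 1 + 1 * |Real.sin x| := by
          rw [abs_mul, abs_mul]
          apply add_le_add
          · exact mul_le_mul_of_nonneg_left (Real.abs_cos_le_one _) (abs_nonneg _)
          · exact mul_le_mul_of_nonneg_right (Real.abs_cos_le_one _) (abs_nonneg _)
      _ ≤ ((d + 1 : ℕ) : ℝ) * Real.sin x := by
          rw [abs_of_nonneg hs]; push_cast; linarith

theorem beta_lower {d : ℕ} (h1 : 1 ≤ d) (h2 : d < n) : 1 ≤ (d : ℝ) * beta n d := by
  have hn : (1 : ℝ) ≤ n := by exact_mod_cast Nat.pos_of_ne_zero (NeZero.ne n)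
  unfold beta
  rw [← mul_div_assoc, le_div_iff₀ (sin_pos_of_lt h1 h2), one_mul]
  have h := sin_nat_mul_le d (Real.pi / n) (by positivity) (by
    rw [div_le_iff₀ (by linarith)]
    nlinarith [Real.pi_pos])
  have e : (d : ℝ) * (Real.pi / n) = Real.pi * d / n := by ring
  rw [e] at h
  exact (le_abs_self _).trans h

theorem sin_lower_two {d : ℕ} (h2 : 2 * d ≤ n) :
    2 * (d : ℝ) / n ≤ Real.sin (Real.pi * d / n) := by
  have hn : (0 : ℝ) < n := by exact_mod_cast Nat.pos_of_ne_zero (NeZero.ne n)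
  have h := Real.mul_le_sin (x := Real.pi * d / n) (by positivity) (by
    rw [div_le_div_iff₀ hn (by norm_num)]
    have : 2 * (d : ℝ) ≤ n := by exact_mod_cast h2
    nlinarith [Real.pi_pos])
  calc 2 * (d : ℝ) / n = 2 / Real.pi * (Real.pi * d / n) := by
        have := Real.pi_pos.ne'
        field_simp
    _ ≤ _ := h

theorem beta_upper {d : ℕ} (h1 : 1 ≤ d) (h2 : 2 * d ≤ n) : (d : ℝ) * beta n d ≤ Real.pi / 2 := by
  have hn : (0 : ℝ) < n := by exact_mod_cast Nat.pos_of_ne_zero (NeZero.ne n)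
  have hd : (0 : ℝ) < d := by exact_mod_cast h1
  have hlt : d < n := by omega
  unfold beta
  rw [← mul_div_assoc, div_le_iff₀ (sin_pos_of_lt h1 hlt)]
  have h3 := sin_lower_two (n := n) h2
  have h4 : Real.sin (Real.pi / n) ≤ Real.pi / n := Real.sin_le (by positivity)
  calc (d : ℝ) * Real.sin (Real.pi / n) ≤ d * (Real.pi / n) :=
        mul_le_mul_of_nonneg_left h4 hd.le
    _ = Real.pi / 2 * (2 * (d : ℝ) / n) := by ring
    _ ≤ _ := mul_le_mul_of_nonneg_left h3 (by positivity)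

theorem beta_upper_small {d : ℕ} (h1 : 1 ≤ d) (h2 : 100 * d ≤ n) :
    (d : ℝ) * beta n d ≤ 1 + 2 * ((d : ℝ) / n) ^ 2 := by
  have hn : (0 : ℝ) < n := by exact_mod_cast Nat.pos_of_ne_zero (NeZero.ne n)
  have hd : (0 : ℝ) < d := by exact_mod_cast h1
  have hlt : d < n := by omega
  unfold beta
  rw [← mul_div_assoc, div_le_iff₀ (sin_pos_of_lt h1 hlt)]
  set y : ℝ := (d : ℝ) / n with hy
  have hy0 : 0 < y := by positivity
  have hy1 : y ≤ 1 / 100 := by
    rw [hy, div_le_iff₀ hn]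
    have : 100 * (d : ℝ) ≤ n := by exact_mod_cast h2
    linarith
  have e : Real.pi * d / n = Real.pi * y := by rw [hy]; ring
  have h4 : Real.sin (Real.pi / n) ≤ Real.pi / n := Real.sin_le (by positivity)
  have h5 : (d : ℝ) * Real.sin (Real.pi / n) ≤ Real.pi * y := by
    calc (d : ℝ) * Real.sin (Real.pi / n) ≤ d * (Real.pi / n) :=
          mul_le_mul_of_nonneg_left h4 hd.le
      _ = Real.pi * y := by rw [hy]; ring
  rw [e]
  set x : ℝ := Real.pi * y with hx
  have hx0 : 0 < x := by positivity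
  have hpi := Real.pi_lt_d4
  have hpi' := Real.pi_gt_d4
  have hx1 : x ≤ 1 / 30 := by rw [hx]; nlinarith
  have h6 : x - x ^ 3 / 6 ≤ Real.sin x := by
    have := Real.sin_gt_sub_cube hx0
    have h3 : 0 < x ^ 3 := by positivity
    linarith
  have hxy : x ^ 2 ≤ 10 * y ^ 2 := by
    rw [hx, mul_pow]
    apply mul_le_mul_of_nonneg_right _ (by positivity)
    nlinarith
  calc (d : ℝ) * Real.sin (Real.pi / n) ≤ x := h5
    _ ≤ (1 + 2 * y ^ 2) * (x - x ^ 3 / 6) := by
        have h7 : (1 + 2 * y ^ 2) * (x - x ^ 3 / 6) - x = x * (2 * y ^ 2 * (1 - x ^ 2 / 6) - x ^ 2 / 6) := by ring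
        have h8 : 0 ≤ 2 * y ^ 2 * (1 - x ^ 2 / 6) - x ^ 2 / 6 := by
          have h9 : x ^ 2 ≤ 1 / 100 := by nlinarith
          nlinarith [sq_nonneg y]
        have := mul_nonneg hx0.le h8
        linarith
    _ ≤ (1 + 2 * y ^ 2) * Real.sin x := mul_le_mul_of_nonneg_left h6 (by positivity)

namespace Loc

variable {ε : ℝ} (P : Loc n ε)

theorem X_one (hn : 2 ≤ n) (k : ZMod n) : X P.z k 1 = (P.r k : ℂ) * P.c k := by
  have h := chi_sub_ne k (le_refl 1) (show 1 < n by omega)
  unfold X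
  rw [Nat.cast_one] at h ⊢
  rw [P.edge k, mul_div_assoc, div_self h, mul_one]

theorem X_re (j : ZMod n) {d : ℕ} (h1 : 1 ≤ d) (h2 : d < n) :
    (X P.z j d).re = beta n d * ∑ l ∈ range d, (P.q (j + (l : ZMod n)) * Real.cos (tau n d l)
      - P.p (j + (l : ZMod n)) * Real.sin (tau n d l)) := by
  rw [X_eq_kernel P.z j h1 h2, Complex.re_sum, Finset.mul_sum]
  apply Finset.sum_congr rfl
  intro l _
  rw [P.X_one (by omega), mul_assoc, Complex.re_ofReal_mul, Complex.mul_re,
    Complex.exp_ofReal_mul_I_re, Complex.exp_ofReal_mul_I_im, Complex.re_ofReal_mul,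
    Complex.im_ofReal_mul]
  unfold q p
  ring

theorem X_im (j : ZMod n) {d : ℕ} (h1 : 1 ≤ d) (h2 : d < n) :
    (X P.z j d).im = beta n d * ∑ l ∈ range d, (P.q (j + (l : ZMod n)) * Real.sin (tau n d l)
      + P.p (j + (l : ZMod n)) * Real.cos (tau n d l)) := by
  rw [X_eq_kernel P.z j h1 h2, Complex.im_sum, Finset.mul_sum]
  apply Finset.sum_congr rfl
  intro l _
  rw [P.X_one (by omega), mul_assoc, Complex.im_ofReal_mul, Complex.mul_im,
    Complex.exp_ofReal_mul_I_re, Complex.exp_ofReal_mul_I_im, Complex.re_ofReal_mul,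
    Complex.im_ofReal_mul]
  unfold q p
  ring

theorem X_close (j : ZMod n) {d : ℕ} (h1 : 1 ≤ d) (h2 : d < n) :
    ‖X P.z j d - 1‖ ≤ ε / Real.sin (Real.pi * d / n) := by
  have hne := chi_sub_ne j h1 h2
  have hs := sin_pos_of_lt h1 h2
  have e : X P.z j d - 1 = ((P.z (j + (d : ZMod n)) - chi n (j + (d : ZMod n))) - (P.z j - chi n j))
      / (chi n (j + (d : ZMod n)) - chi n j) := by
    unfold X
    rw [eq_div_iff hne, sub_mul, div_mul_cancel₀ _ hne]
    ring
  rw [e, norm_div, norm_chi_sub j d h2.le, div_le_div_iff₀ (by linarith) hs]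
  have h3 : ‖(P.z (j + (d : ZMod n)) - chi n (j + (d : ZMod n))) - (P.z j - chi n j)‖ ≤ ε + ε :=
    (norm_sub_le _ _).trans (add_le_add (P.z_close _) (P.z_close _))
  nlinarith

theorem eps_nonneg (P : Loc n ε) : 0 ≤ ε := (norm_nonneg _).trans (P.z_close 0)

theorem X_close_macro (j : ZMod n) {d D : ℕ} (h0 : 1 ≤ D) (h1 : D ≤ d) (h2 : d ≤ n - D) (h3 : D ≤ n) :
    ‖X P.z j d - 1‖ ≤ ε * n / (2 * D) := by
  have hn : (0 : ℝ) < n := by exact_mod_cast Nat.pos_of_ne_zero (NeZero.ne n)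
  have hD : (0 : ℝ) < D := by exact_mod_cast h0
  have hε := P.eps_nonneg
  have hd1 : 1 ≤ d := by omega
  have hd2 : d < n := by omega
  have h := P.X_close j hd1 hd2
  have hs : 2 * (D : ℝ) / n ≤ Real.sin (Real.pi * d / n) := by
    rcases le_total (2 * d) n with hc | hc
    · refine le_trans ?_ (sin_lower_two hc)
      apply div_le_div_of_nonneg_right _ hn.le
      have : (D : ℝ) ≤ d := by exact_mod_cast h1
      linarith
    · have e : Real.sin (Real.pi * d / n) = Real.sin (Real.pi * ((n - d : ℕ) : ℝ) / n) := by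
        rw [Nat.cast_sub hd2.le]
        have e2 : Real.pi * ((n : ℝ) - d) / n = Real.pi - Real.pi * d / n := by
          field_simp
        rw [e2, Real.sin_pi_sub]
      rw [e]
      refine le_trans ?_ (sin_lower_two (by omega))
      apply div_le_div_of_nonneg_right _ hn.le
      have : (D : ℝ) ≤ ((n - d : ℕ) : ℝ) := by
        have : D ≤ n - d := by omega
        exact_mod_cast this
      linarith
  refine h.trans ?_
  have h5 : 0 < 2 * (D : ℝ) / n := by positivity
  calc ε / Real.sin (Real.pi * d / n) ≤ ε / (2 * (D : ℝ) / n) :=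
        div_le_div_of_nonneg_left hε h5 hs
    _ = ε * n / (2 * D) := by field_simp

theorem X_re_pos (hε : ε ≤ 1 / 100) (j : ZMod n) {d : ℕ} (h1 : 1 ≤ d) (h2 : d < n) :
    0 < (X P.z j d).re := by
  have hn : (0 : ℝ) < n := by exact_mod_cast Nat.pos_of_ne_zero (NeZero.ne n)
  have hε0 := P.eps_nonneg
  -- short blocks
  have hshort : ∀ (j : ZMod n) (d : ℕ), 1 ≤ d → 4 * d ≤ n → 0 < (X P.z j d).re := by
    intro j d h1 h4
    have h2 : d < n := by omega
    rw [P.X_re j h1 h2]
    apply mul_pos (beta_pos h1 h2)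
    apply Finset.sum_pos
    · intro l hl
      rw [Finset.mem_range] at hl
      have hr := P.r_pos (j + (l : ZMod n))
      have hc := P.c_close (j + (l : ZMod n))
      have hre : 1 - (P.c (j + (l : ZMod n))).re ≤ ε := by
        have := Complex.abs_re_le_norm (P.c (j + (l : ZMod n)) - 1)
        rw [Complex.sub_re, Complex.one_re] at this
        have h5 := neg_abs_le ((P.c (j + (l : ZMod n))).re - 1)
        linarith
      have him : |(P.c (j + (l : ZMod n))).im| ≤ ε := by
        have := Complex.abs_im_le_norm (P.c (j + (l : ZMod n)) - 1)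
        rw [Complex.sub_im, Complex.one_im, sub_zero] at this
        linarith
      have htau : |tau n d l| ≤ Real.pi / 4 := by
        unfold tau
        rw [abs_div, abs_mul, abs_of_pos Real.pi_pos, abs_of_pos hn, div_le_div_iff₀ hn (by norm_num)]
        have h6 : |2 * (l : ℝ) + 1 - d| ≤ d := by
          rw [abs_le]
          have : (l : ℝ) + 1 ≤ d := by exact_mod_cast hl
          have h0 : (0 : ℝ) ≤ l := by positivity
          constructor <;> linarith
        have h7 : 4 * (d : ℝ) ≤ n := by exact_mod_cast h4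
        nlinarith [Real.pi_pos, mul_le_mul_of_nonneg_left h6 Real.pi_pos.le]
      have hcos : 1 / 2 ≤ Real.cos (tau n d l) := by
        rw [← Real.cos_abs]
        have h8 : Real.cos (Real.pi / 3) ≤ Real.cos |tau n d l| :=
          Real.cos_le_cos_of_nonneg_of_le_pi (abs_nonneg _) (by linarith [Real.pi_pos])
            (by linarith [Real.pi_pos])
        rwa [Real.cos_pi_div_three] at h8
      have hsin : |Real.sin (tau n d l)| ≤ 1 := Real.abs_sin_le_one _
      have hps : (P.c (j + (l : ZMod n))).im * Real.sin (tau n d l) ≤ ε := by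
        calc (P.c (j + (l : ZMod n))).im * Real.sin (tau n d l)
            ≤ |(P.c (j + (l : ZMod n))).im * Real.sin (tau n d l)| := le_abs_self _
          _ = |(P.c (j + (l : ZMod n))).im| * |Real.sin (tau n d l)| := abs_mul _ _
          _ ≤ ε * 1 := mul_le_mul him hsin (abs_nonneg _) hε0
          _ = ε := mul_one _
      unfold q p
      have h9 : 0 < (P.c (j + (l : ZMod n))).re * Real.cos (tau n d l)
          - (P.c (j + (l : ZMod n))).im * Real.sin (tau n d l) := by
        have h10 : (1 - ε) * (1 / 2) ≤ (P.c (j + (l : ZMod n))).re * Real.cos (tau n d l) := by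
          apply mul_le_mul _ hcos (by norm_num)
          · linarith
          · linarith
        nlinarith
      nlinarith [mul_pos hr h9]
    · exact ⟨0, Finset.mem_range.mpr (by omega)⟩
  rcases le_or_gt (4 * d) n with hc | hc
  · exact hshort j d h1 hc
  · rcases le_or_gt (4 * (n - d)) n with hc2 | hc2
    · rw [← X_symm P.z j h2.le]
      exact hshort _ _ (by omega) hc2
    · have h := P.X_close j h1 h2
      have hs : 1 / 2 ≤ Real.sin (Real.pi * d / n) := by
        rcases le_total (2 * d) n with hc3 | hc3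
        · refine le_trans ?_ (sin_lower_two hc3)
          rw [div_le_div_iff₀ (by norm_num) hn]
          have : (n : ℝ) < 4 * d := by exact_mod_cast hc
          linarith
        · have e : Real.sin (Real.pi * d / n) = Real.sin (Real.pi * ((n - d : ℕ) : ℝ) / n) := by
            rw [Nat.cast_sub h2.le]
            have e2 : Real.pi * ((n : ℝ) - d) / n = Real.pi - Real.pi * d / n := by
              field_simp
            rw [e2, Real.sin_pi_sub]
          rw [e]
          refine le_trans ?_ (sin_lower_two (by omega))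
          rw [div_le_div_iff₀ (by norm_num) hn]
          have : (n : ℝ) < 4 * ((n - d : ℕ) : ℝ) := by exact_mod_cast hc2
          linarith
      have h5 : ‖X P.z j d - 1‖ ≤ 1 / 50 := by
        refine h.trans ?_
        rw [div_le_div_iff₀ (by linarith) (by norm_num)]
        linarith
      have h6 := Complex.abs_re_le_norm (X P.z j d - 1)
      rw [Complex.sub_re, Complex.one_re] at h6
      have h7 := neg_abs_le ((X P.z j d).re - 1)
      linarith

end Loc

end EHP56
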