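import Pool.Agent.EHP56.RootProd
import Pool.Agent.EHP56.Kernel
import Pool.Agent.RegPoly.FiveSeven

/-!
# Double sums and the product of distances (module C1)

* `sum_log_eq`: `log ‖z i - z j‖` is symmetric, zero on the diagonal; `pairProd z = ∏_{i<j} ‖z i - z j‖`, all factors positive.
* `sum_log_X`: reindex `(i, j) ↦ (j, d)` with `i = j + d`, `0 ≤ d < n` (`d = 0` gives `log 0 = 0`); for `1 ≤ d < n`
  `log ‖z (j+d) - z j‖ = log ‖X z j d‖ + log ‖χ (j+d) - χ j‖` (`z` injective), and
  `∑_d ∑_j log ‖χ (j+d) - χ j‖ = n ∑_d log ‖χ d - 1‖ = n log n` (`sum_log_chi`).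
* `log_pairProd_reg`: `reg n i = R χ(i)` with `R = 1/cos (π/(2n))`; `2 log pairProd = n(n-1) log R + ∑_{i,j} log ‖χ i - χ j‖`
  `= n(n-1) log R + n log n`.
-/

namespace EHP56

open Finset Pool.Agent.RegPoly

private lemma ps_rangeR {n : ℕ} [NeZero n] (g : ZMod n → ℝ) :
    ∑ a, g a = ∑ m ∈ range n, g (m : ZMod n) := by
  symm
  refine sum_nbij' (fun m => (m : ZMod n)) (fun a => a.val) ?_ ?_ ?_ ?_ ?_
  · intro m _; exact mem_univ _
  · intro a _; exact mem_range.2 (ZMod.val_lt a)
  · intro m hm; exact ZMod.val_natCast_of_lt (mem_range.1 hm)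
  · intro a _; exact ZMod.natCast_zmod_val a
  · intro m _; rfl

theorem sum_log_eq {n : ℕ} (z : Fin n → ℂ) (hz : Function.Injective z) :
    ∑ i, ∑ j, Real.log ‖z i - z j‖ = 2 * Real.log (pairProd z) := by
  have hne : ∀ i j : Fin n, i < j → ‖z i - z j‖ ≠ 0 := by
    intro i j hij h
    rw [norm_eq_zero, sub_eq_zero] at h
    exact hij.ne (hz h)
  have hlog : Real.log (pairProd z) = ∑ i : Fin n, ∑ j ∈ Finset.Ioi i, Real.log ‖z i - z j‖ := by
    unfold pairProd
    rw [Real.log_prod]
    · apply Finset.sum_congr rfl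
      intro i _
      rw [Real.log_prod]
      intro j hj
      exact hne i j (Finset.mem_Ioi.1 hj)
    · intro i _
      exact Finset.prod_ne_zero_iff.2 (fun j hj => hne i j (Finset.mem_Ioi.1 hj))
  have hA : ∀ i : Fin n, ∑ j ∈ Finset.Ioi i, Real.log ‖z i - z j‖
      = ∑ j, if i < j then Real.log ‖z i - z j‖ else 0 := by
    intro i
    rw [← Finset.sum_filter]
    apply Finset.sum_congr _ (fun _ _ => rfl)
    ext j
    simp
  have hsplit : ∀ i j : Fin n, Real.log ‖z i - z j‖
      = (if i < j then Real.log ‖z i - z j‖ else 0) + (if j < i then Real.log ‖z j - z i‖ else 0) := by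
    intro i j
    rcases lt_trichotomy i j with h | h | h
    · rw [if_pos h, if_neg (not_lt.2 h.le), add_zero]
    · subst h
      simp
    · rw [if_neg (not_lt.2 h.le), if_pos h, zero_add, norm_sub_rev]
  calc ∑ i, ∑ j, Real.log ‖z i - z j‖
      = ∑ i, ∑ j, ((if i < j then Real.log ‖z i - z j‖ else 0)
          + (if j < i then Real.log ‖z j - z i‖ else 0)) :=
        Finset.sum_congr rfl (fun i _ => Finset.sum_congr rfl (fun j _ => hsplit i j))
    _ = (∑ i, ∑ j, if i < j then Real.log ‖z i - z j‖ else 0)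
          + ∑ i, ∑ j, (if j < i then Real.log ‖z j - z i‖ else 0) := by
        simp only [Finset.sum_add_distrib]
    _ = (∑ i, ∑ j, if i < j then Real.log ‖z i - z j‖ else 0)
          + ∑ j, ∑ i, (if j < i then Real.log ‖z j - z i‖ else 0) := by
        rw [Finset.sum_comm (f := fun i j : Fin n => if j < i then Real.log ‖z j - z i‖ else 0)]
    _ = 2 * Real.log (pairProd z) := by
        rw [hlog, ← Finset.sum_congr rfl (fun i _ => (hA i).symm)]
        ring

theorem sum_log_X {n : ℕ} [NeZero n] (z : ZMod n → ℂ) (hz : Function.Injective z) :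
    ∑ i, ∑ j, Real.log ‖z i - z j‖
      = (n : ℝ) * Real.log n + ∑ d ∈ Ico 1 n, ∑ j, Real.log ‖X z j d‖ := by
  have hn : 1 ≤ n := NeZero.one_le
  have h1 : ∑ i, ∑ j, Real.log ‖z i - z j‖
      = ∑ d : ZMod n, ∑ j, Real.log ‖z (j + d) - z j‖ := by
    rw [Finset.sum_comm]
    rw [Finset.sum_comm (f := fun d j : ZMod n => Real.log ‖z (j + d) - z j‖)]
    apply Finset.sum_congr rfl
    intro j _
    exact (Equiv.sum_comp (Equiv.addLeft j) (fun i => Real.log ‖z i - z j‖)).symm
  rw [h1, ps_rangeR]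
  have h2 : range n = insert 0 (Ico 1 n) := by
    ext d
    simp only [mem_range, mem_insert, mem_Ico]
    omega
  rw [h2, Finset.sum_insert (by simp)]
  have h3 : ∑ j : ZMod n, Real.log ‖z (j + ((0 : ℕ) : ZMod n)) - z j‖ = 0 := by
    apply Finset.sum_eq_zero
    intro j _
    simp
  rw [h3, zero_add]
  have h4 : ∀ d ∈ Ico 1 n, ∑ j : ZMod n, Real.log ‖z (j + (d : ZMod n)) - z j‖
      = (n : ℝ) * Real.log (2 * Real.sin (Real.pi * (d : ℝ) / n)) + ∑ j, Real.log ‖X z j d‖ := by
    intro d hd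
    obtain ⟨hd1, hd2⟩ := mem_Ico.1 hd
    have h5 : ∀ j : ZMod n, Real.log ‖z (j + (d : ZMod n)) - z j‖
        = Real.log (2 * Real.sin (Real.pi * (d : ℝ) / n)) + Real.log ‖X z j d‖ := by
      intro j
      have hc := chi_sub_ne j hd1 hd2
      have hzne : z (j + (d : ZMod n)) - z j ≠ 0 := by
        intro h
        rw [sub_eq_zero] at h
        have h6 := hz h
        have h7 : (d : ZMod n) = 0 := by
          have : j + (d : ZMod n) = j + 0 := by rw [h6, add_zero]
          exact add_left_cancel this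
        apply hc
        rw [h7, add_zero, sub_self]
      unfold X
      rw [norm_div, Real.log_div (norm_ne_zero_iff.2 hzne) (norm_ne_zero_iff.2 hc),
        norm_chi_sub j d hd2.le]
      ring
    rw [Finset.sum_congr rfl (fun j _ => h5 j), Finset.sum_add_distrib, Finset.sum_const,
      Finset.card_univ, ZMod.card, nsmul_eq_mul]
  rw [Finset.sum_congr rfl h4, Finset.sum_add_distrib, ← Finset.mul_sum, sum_log_sin n hn]

private lemma ps_cos_pos {n : ℕ} (hn : 2 ≤ n) : 0 < Real.cos (Real.pi / (2 * (n : ℝ))) := by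
  apply Real.cos_pos_of_mem_Ioo
  have hn' : (2 : ℝ) ≤ n := by exact_mod_cast hn
  constructor
  · have : 0 < Real.pi / (2 * (n : ℝ)) := by
      have := Real.pi_pos
      positivity
    linarith [Real.pi_pos]
  · rw [div_lt_div_iff₀ (by positivity) (by norm_num)]
    nlinarith [Real.pi_pos]

private lemma ps_reg_dist_pos {n : ℕ} (hn : 2 ≤ n) (i j : Fin n) (h : i < j) :
    0 < ‖reg n i - reg n j‖ := by
  have hv : i.val < j.val := h
  rw [reg_dist hn i j hv.le]
  have hc := ps_cos_pos hn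
  have hn0 : (0 : ℝ) < n := by positivity
  have h1 : (i.val : ℝ) < j.val := by exact_mod_cast hv
  have h2 : (j.val : ℝ) < n := by exact_mod_cast j.isLt
  have h3 : (0 : ℝ) ≤ i.val := by positivity
  have hs : 0 < Real.sin (Real.pi * ((j.val : ℝ) - i.val) / n) := by
    apply Real.sin_pos_of_pos_of_lt_pi
    · have := Real.pi_pos
      have : 0 < (j.val : ℝ) - i.val := by linarith
      positivity
    · rw [div_lt_iff₀ hn0]
      exact mul_lt_mul_of_pos_left (by linarith) Real.pi_pos
  positivity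

theorem pairProd_reg_pos {n : ℕ} (hn : 2 ≤ n) : 0 < pairProd (reg n) := by
  unfold pairProd
  apply Finset.prod_pos
  intro i _
  apply Finset.prod_pos
  intro j hj
  exact ps_reg_dist_pos hn i j (Finset.mem_Ioi.1 hj)

theorem log_pairProd_reg {n : ℕ} (hn : 2 ≤ n) :
    2 * Real.log (pairProd (reg n))
      = (n : ℝ) * Real.log n
        + (n : ℝ) * ((n : ℝ) - 1) * Real.log (1 / Real.cos (Real.pi / (2 * (n : ℝ)))) := by
  have hinj : Function.Injective (reg n) := by
    intro i j hij
    rcases lt_trichotomy i j with h | h | h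
    · have := ps_reg_dist_pos hn i j h
      rw [hij, sub_self, norm_zero] at this
      exact absurd this (lt_irrefl _)
    · exact h
    · have := ps_reg_dist_pos hn j i h
      rw [hij, sub_self, norm_zero] at this
      exact absurd this (lt_irrefl _)
  rw [← sum_log_eq (reg n) hinj]
  have hc := ps_cos_pos hn
  obtain ⟨m, rfl⟩ : ∃ m, n = m + 1 := ⟨n - 1, by omega⟩
  have h1 := sum_log_X (n := m + 1) (reg (m + 1) : ZMod (m + 1) → ℂ) hinj
  refine h1.trans ?_
  have hreg : ∀ i : ZMod (m + 1), (reg (m + 1) : ZMod (m + 1) → ℂ) i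
      = ((1 / Real.cos (Real.pi / (2 * ((m + 1 : ℕ) : ℝ))) : ℝ) : ℂ) * chi (m + 1) i := by
    intro i
    have h2 : i = ((ZMod.val i : ℕ) : ZMod (m + 1)) := (ZMod.natCast_zmod_val i).symm
    conv_rhs => rw [h2, chi_natCast]
    rfl
  have hX : ∀ d ∈ Ico 1 (m + 1), ∑ j, Real.log ‖X (n := m + 1) (reg (m + 1)) j d‖
      = ((m + 1 : ℕ) : ℝ) * Real.log (1 / Real.cos (Real.pi / (2 * ((m + 1 : ℕ) : ℝ)))) := by
    intro d hd
    obtain ⟨hd1, hd2⟩ := mem_Ico.1 hd
    have h3 : ∀ j : ZMod (m + 1), ‖X (n := m + 1) (reg (m + 1)) j d‖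
        = 1 / Real.cos (Real.pi / (2 * ((m + 1 : ℕ) : ℝ))) := by
      intro j
      have hcne := chi_sub_ne j hd1 hd2
      unfold X
      rw [hreg, hreg, ← mul_sub, mul_div_assoc, div_self hcne, mul_one, Complex.norm_real,
        Real.norm_eq_abs, abs_of_pos (by positivity)]
    rw [Finset.sum_congr rfl (fun j _ => by rw [h3 j]), Finset.sum_const, Finset.card_univ,
      ZMod.card, nsmul_eq_mul]
  rw [Finset.sum_congr rfl hX, Finset.sum_const, Nat.card_Ico, nsmul_eq_mul]
  push_cast
  ring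

end EHP56
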