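import Pool.Agent.EHP56.Macro
import Pool.Agent.EHP56.Local
import Pool.Agent.EHP56.PairSum

/-!
# The theorem for all large `n` (module C3)

`R = 1/cos (π/(2n))`.  By `reduction` (RegPoly) it is enough to treat strictly convex `z` of diameter at most two with
`∑ ‖z (k+1) - z k‖ ≤ 4 n sin (π/(2n)) = n · 2 R sin (π/n)`.  Suppose `pairProd z > pairProd (reg n)`.  Then
`S = 2 log pairProd z ≥ 2 log pairProd (reg n) ≥ n log n`, so `macro_step` applies with `ε = ε0/10`, `ε0` from `local_thm`.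
`w k = u (z k - b)/R`, `r k = ‖z (k+1) - z k‖/(2 R sin (π/n))`, `c k = u nrm z k conj (e^{2πi(k+1/2)/n})` satisfy the hypotheses of
`local_thm` (`χ (k+1) - χ k = 2 i sin (π/n) e^{2πi(k+1/2)/n}`, `z (k+1) - z k = i ‖z (k+1) - z k‖ nrm z k`), hence
`∑_d ∑_j log ‖X w j d‖ ≤ 0`, so by `sum_log_X`: `∑_{i,j} log ‖w i - w j‖ ≤ n log n`, and
`S = ∑_{i,j} log ‖w i - w j‖ + n(n-1) log R ≤ n log n + n(n-1) log R = 2 log pairProd (reg n)`; contradiction.
-/

namespace EHP56

open Finset Pool.Agent.RegPoly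

lemma fin_chi_val (n : ℕ) [NeZero n] (k : ZMod n) :
    chi n k = Complex.exp (2 * (Real.pi : ℂ) * Complex.I * ((k.val : ℕ) : ℂ) / (n : ℂ)) := by
  unfold chi
  rw [ZMod.stdAddChar_apply, ZMod.toCircle_apply]

lemma fin_chi_one (n : ℕ) [NeZero n] (hn : 2 ≤ n) :
    chi n 1 = Complex.exp (((Real.pi / n : ℝ) : ℂ) * Complex.I)
      * Complex.exp (((Real.pi / n : ℝ) : ℂ) * Complex.I) := by
  have : Fact (1 < n) := ⟨by omega⟩
  rw [fin_chi_val, ZMod.val_one n, ← Complex.exp_add]
  congr 1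
  push_cast
  ring

/-- `χ (k+1) - χ k = 2 i sin (π/n) e^{iπ/n} χ k` -/
lemma fin_chi_succ (n : ℕ) [NeZero n] (hn : 2 ≤ n) (k : ZMod n) :
    chi n (k + 1) - chi n k = chi n k * Complex.exp (((Real.pi / n : ℝ) : ℂ) * Complex.I)
      * (2 * Complex.I * ((Real.sin (Real.pi / n) : ℝ) : ℂ)) := by
  have h1 : chi n (k + 1) = chi n k * chi n 1 := by
    unfold chi
    exact AddChar.map_add_eq_mul _ _ _
  rw [h1, fin_chi_one n hn]
  set x : ℝ := Real.pi / n with hx
  have h2 : 2 * Complex.I * ((Real.sin x : ℝ) : ℂ)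
      = Complex.exp ((x : ℂ) * Complex.I) - Complex.exp (-((x : ℂ) * Complex.I)) := by
    rw [Complex.ofReal_sin, Complex.sin]
    have hI : Complex.I * Complex.I = -1 := Complex.I_mul_I
    rw [show -(x : ℂ) * Complex.I = -((x : ℂ) * Complex.I) by ring]
    linear_combination (Complex.exp (-((x : ℂ) * Complex.I)) - Complex.exp ((x : ℂ) * Complex.I)) * hI
  have h3 : Complex.exp ((x : ℂ) * Complex.I) * Complex.exp (-((x : ℂ) * Complex.I)) = 1 := by
    rw [← Complex.exp_add]; simp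
  rw [h2]
  linear_combination (chi n k) * h3

/-- norms scale -/
lemma fin_sum_scale {n : ℕ} [NeZero n] (z w : ZMod n → ℂ) (hz : Function.Injective z) (R : ℝ) (hR : 0 < R)
    (h : ∀ i j, ‖w i - w j‖ = ‖z i - z j‖ / R) :
    ∑ i, ∑ j, Real.log ‖z i - z j‖
      = ∑ i, ∑ j, Real.log ‖w i - w j‖ + (n : ℝ) * ((n : ℝ) - 1) * Real.log R := by
  have key : ∀ i : ZMod n, ∑ j, Real.log ‖z i - z j‖
      = ∑ j, Real.log ‖w i - w j‖ + ((n : ℝ) - 1) * Real.log R := by
    intro i
    have h1 : ∀ j, Real.log ‖z i - z j‖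
        = Real.log ‖w i - w j‖ + (Real.log R - (if i = j then Real.log R else 0)) := by
      intro j
      by_cases hij : i = j
      · subst hij; simp
      · rw [if_neg hij, h, Real.log_div (norm_pos_iff.mpr (sub_ne_zero.mpr (fun he => hij (hz he)))).ne' hR.ne']
        ring
    rw [Finset.sum_congr rfl (fun j _ => h1 j), Finset.sum_add_distrib, Finset.sum_sub_distrib]
    simp only [Finset.sum_const, Finset.card_univ, ZMod.card, nsmul_eq_mul, Finset.sum_ite_eq, Finset.mem_univ, if_true]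
    ring
  rw [Finset.sum_congr rfl (fun i _ => key i), Finset.sum_add_distrib]
  simp only [Finset.sum_const, Finset.card_univ, ZMod.card, nsmul_eq_mul]
  ring

/-- the core: convex polygons -/
lemma fin_core : ∃ N : ℕ, ∀ m : ℕ, N ≤ m → ∀ z : Fin (m + 1) → ℂ, (∀ i j, ‖z i - z j‖ ≤ 2) →
    ConvexPos z →
    ∑ k, ‖z (k + 1) - z k‖
        ≤ (2 * 2) * (((m + 1 : ℕ) : ℝ) * Real.sin (Real.pi / (2 * ((m + 1 : ℕ) : ℝ)))) →
    pairProd z ≤ pairProd (reg (m + 1)) := by
  obtain ⟨ε0, hε0, N0, hloc⟩ := local_thm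
  obtain ⟨N1, hmac⟩ := macro_step (ε0 / 10) (by positivity)
  refine ⟨N0 + N1 + ⌈40 / ε0⌉₊ + 4, fun m hm z hd hc hper => ?_⟩
  let n : ℕ := m + 1
  have hn : n = m + 1 := rfl
  have : NeZero n := ⟨by omega⟩
  have hn2 : 2 ≤ n := by omega
  have hn0 : (0 : ℝ) < n := by positivity
  have hnR : ((n : ℕ) : ℝ) = (m : ℝ) + 1 := by rw [hn]; push_cast; ring
  have hnbig : 40 / ε0 ≤ (n : ℝ) := by
    have h1 := Nat.le_ceil (40 / ε0)
    have h2 : ((⌈40 / ε0⌉₊ : ℕ) : ℝ) ≤ (n : ℝ) := by exact_mod_cast (by omega)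
    linarith
  have hnbig' : 40 / (n : ℝ) ≤ ε0 := by
    rw [div_le_iff₀ hn0]
    rw [div_le_iff₀ hε0] at hnbig
    linarith
  have hn4 : (4 : ℝ) ≤ n := by
    have : 4 ≤ n := by omega
    exact_mod_cast this
  by_contra hlt
  rw [not_le] at hlt
  have hregpos := pairProd_reg_pos (n := n) hn2
  have hzpos : 0 < pairProd z := hregpos.trans hlt
  have hinj := injective_of_pairProd_pos z hzpos
  -- cos
  set x : ℝ := Real.pi / (2 * (n : ℝ)) with hx
  have hx0 : 0 < x := by positivity
  have hx1 : x ≤ 2 / n := by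
    rw [hx, div_le_div_iff₀ (by positivity) hn0]
    nlinarith [Real.pi_le_four]
  have hx2 : x < 1 := by
    have : 2 / (n : ℝ) ≤ 2 / 4 := div_le_div_of_nonneg_left (by norm_num) (by norm_num) hn4
    linarith
  have hcos : 0 < Real.cos x := Real.cos_pos_of_mem_Ioo ⟨by linarith [Real.pi_pos], by linarith [Real.pi_gt_three]⟩
  have hcos1 : Real.cos x ≤ 1 := Real.cos_le_one x
  have hcos2 : 1 - x ^ 2 / 2 ≤ Real.cos x := Real.one_sub_sq_div_two_le_cos
  set R : ℝ := 1 / Real.cos x with hR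
  have hRpos : 0 < R := by positivity
  have hR1 : 1 ≤ R := by
    rw [hR, le_div_iff₀ hcos]; linarith
  have hlogreg := log_pairProd_reg (n := n) hn2
  rw [← hx, ← hR] at hlogreg
  have hlogR : 0 ≤ Real.log R := Real.log_nonneg hR1
  have hS := sum_log_eq z hinj
  have hlog : Real.log (pairProd (reg n)) < Real.log (pairProd z) := Real.log_lt_log hregpos hlt
  have hSge : ((m : ℝ) + 1) * Real.log ((m : ℝ) + 1) ≤ ∑ i, ∑ j, Real.log ‖z i - z j‖ := by
    rw [hS, ← hnR]
    have h1 : 0 ≤ (n : ℝ) * ((n : ℝ) - 1) * Real.log R := by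
      have : 0 ≤ (n : ℝ) - 1 := by linarith
      positivity
    linarith
  obtain ⟨b, u, hu, hzc, hnc⟩ := hmac m (by omega) z hc hd hSge
  -- sine
  set s : ℝ := Real.sin (Real.pi / n) with hs
  have hspos : 0 < s := by
    apply Real.sin_pos_of_pos_of_lt_pi (by positivity)
    rw [div_lt_iff₀ hn0]
    nlinarith [Real.pi_pos]
  have hRs : 2 * R * s = 4 * Real.sin x := by
    have h1 : Real.pi / (n : ℝ) = 2 * x := by rw [hx]; field_simp
    rw [hs, h1, Real.sin_two_mul, hR]
    field_simp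
    ring
  -- the polygon over `ZMod n`
  let zz : ZMod n → ℂ := fun k => z k
  let w : ZMod n → ℂ := fun k => u * (zz k - b) / R
  let r : ZMod n → ℝ := fun k => ‖zz (k + 1) - zz k‖ / (2 * R * s)
  let e : ℂ := Complex.exp (((Real.pi / n : ℝ) : ℂ) * Complex.I)
  let nz : ZMod n → ℂ := fun k => nrm (m := m) z k
  let c : ZMod n → ℂ := fun k => u * nz k * (starRingEnd ℂ) (chi n k * e)
  have hzz : Function.Injective zz := hinj
  have hne1 : ∀ k : ZMod n, k + 1 ≠ k := by
    intro k h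
    have : Fact (1 < n) := ⟨by omega⟩
    have : (1 : ZMod n) = 0 := by
      have := congrArg (fun y => y - k) h
      simpa using this
    exact one_ne_zero this
  have hLpos : ∀ k : ZMod n, 0 < ‖zz (k + 1) - zz k‖ := fun k =>
    norm_pos_iff.mpr (sub_ne_zero.mpr (fun he => hne1 k (hzz he)))
  have hnz : ∀ k : ZMod n, nz k = (zz (k + 1) - zz k) / (Complex.I * (‖zz (k + 1) - zz k‖ : ℂ)) := fun k => rfl
  have hnz1 : ∀ k : ZMod n, ‖nz k‖ = 1 := by
    intro k
    rw [hnz, norm_div, norm_mul, Complex.norm_I, one_mul, Complex.norm_real, norm_norm]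
    exact div_self (hLpos k).ne'
  have he1 : ‖e‖ = 1 := Complex.norm_exp_ofReal_mul_I _
  have hchi1 : ∀ k : ZMod n, ‖chi n k‖ = 1 := LocalAux.norm_chi n
  have hexpk : ∀ k : ZMod n, Complex.exp (2 * (Real.pi : ℂ) * Complex.I * ((Fin.val (n := m + 1) k : ℕ) : ℂ) / ((m : ℂ) + 1))
      = chi n k := by
    intro k
    rw [fin_chi_val]
    have : ((n : ℕ) : ℂ) = (m : ℂ) + 1 := by rw [hn]; push_cast; ring
    rw [this]
    rfl
  have he2 : ‖e - 1‖ ≤ ε0 / 10 := by
    have h1 := macro_exp_close (Real.pi / n) 0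
    rw [Complex.ofReal_zero, zero_mul, Complex.exp_zero, sub_zero, abs_of_pos (by positivity)] at h1
    have h2 : Real.pi / n ≤ 4 / n := div_le_div_of_nonneg_right Real.pi_le_four hn0.le
    have h3 : 4 / (n : ℝ) = (40 / n) / 10 := by ring
    have : ‖e - 1‖ ≤ Real.pi / n := h1
    linarith
  have hRinv : |1 / R - 1| ≤ ε0 / 10 := by
    have h1 : 1 / R = Real.cos x := by rw [hR]; field_simp
    rw [h1, abs_of_nonpos (by linarith)]
    have h2 : x ^ 2 / 2 ≤ x := by nlinarith
    have h3 : 4 / (n : ℝ) = (40 / n) / 10 := by ring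
    have h4 : 2 / (n : ℝ) ≤ 4 / n := div_le_div_of_nonneg_right (by norm_num) hn0.le
    linarith
  have hwz : ∀ i j, ‖w i - w j‖ = ‖zz i - zz j‖ / R := by
    intro i j
    have : w i - w j = u * (zz i - zz j) / (R : ℂ) := by
      simp only [w]; ring
    rw [this, norm_div, norm_mul, hu, one_mul, Complex.norm_real, Real.norm_eq_abs, abs_of_pos hRpos]
  have hmain := hloc n (by omega) w r c
    (fun k => by
      have := hLpos k
      simp only [r]
      positivity)
    (fun k => by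
      simp only [c]
      rw [norm_mul, norm_mul, hu, hnz1, RCLike.norm_conj, norm_mul, hchi1, he1]
      norm_num)
    (fun k => by
      have hunit : chi n k * e * (starRingEnd ℂ) (chi n k * e) = 1 := by
        rw [Complex.mul_conj, Complex.normSq_eq_norm_sq, norm_mul, hchi1, he1]
        norm_num
      have h1 : c k - 1 = (u * nz k - chi n k * e) * (starRingEnd ℂ) (chi n k * e) := by
        simp only [c]
        rw [sub_mul, hunit]
      rw [h1, norm_mul, RCLike.norm_conj, norm_mul (chi n k) e, hchi1, he1, mul_one, mul_one]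
      have h2 : u * nz k - chi n k * e = (u * nz k - chi n k) - chi n k * (e - 1) := by ring
      rw [h2]
      refine le_trans (norm_sub_le _ _) ?_
      rw [norm_mul, hchi1, one_mul]
      have h3 := hnc k
      rw [hexpk k] at h3
      have h4 : ‖u * nz k - chi n k‖ ≤ ε0 / 10 := h3
      linarith)
    (fun k => by
      have h3 := hzc k
      rw [hexpk k] at h3
      have h4 : ‖u * (zz k - b) - chi n k‖ ≤ ε0 / 10 := h3
      have h1 : w k - chi n k = (u * (zz k - b) - chi n k) / (R : ℂ) + chi n k * (((1 / R - 1 : ℝ)) : ℂ) := by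
        have hRc : (R : ℂ) ≠ 0 := by exact_mod_cast hRpos.ne'
        simp only [w]
        push_cast
        field_simp
        ring
      rw [h1]
      refine le_trans (norm_add_le _ _) ?_
      rw [norm_div, norm_mul, hchi1, one_mul, Complex.norm_real, Complex.norm_real, Real.norm_eq_abs, Real.norm_eq_abs,
        abs_of_pos hRpos]
      have h5 : ‖u * (zz k - b) - chi n k‖ / R ≤ ε0 / 10 := by
        rw [div_le_iff₀ hRpos]
        nlinarith
      linarith)
    (fun k => by
      rw [fin_chi_succ n hn2]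
      have hunit : chi n k * e * (starRingEnd ℂ) (chi n k * e) = 1 := by
        rw [Complex.mul_conj, Complex.normSq_eq_norm_sq, norm_mul, hchi1, he1]
        norm_num
      have hRc : (R : ℂ) ≠ 0 := by exact_mod_cast hRpos.ne'
      have hsc : (s : ℂ) ≠ 0 := by exact_mod_cast hspos.ne'
      have hLc : ((‖zz (k + 1) - zz k‖ : ℝ) : ℂ) ≠ 0 := by exact_mod_cast (hLpos k).ne'
      have hI : Complex.I ≠ 0 := Complex.I_ne_zero
      have h1 : ((r k : ℝ) : ℂ) * c k * (chi n k * e * (2 * Complex.I * (s : ℂ)))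
          = ((r k : ℝ) : ℂ) * (u * nz k) * (2 * Complex.I * (s : ℂ)) * (chi n k * e * (starRingEnd ℂ) (chi n k * e)) := by
        simp only [c]; ring
      change w (k + 1) - w k = ((r k : ℝ) : ℂ) * c k * (chi n k * e * (2 * Complex.I * (s : ℂ)))
      rw [h1, hunit, mul_one, hnz]
      simp only [w, r]
      push_cast
      field_simp
      ring)
    (by
      have h1 : ∑ k : ZMod n, r k = (∑ k : ZMod n, ‖zz (k + 1) - zz k‖) / (2 * R * s) := by
        simp only [r]
        rw [Finset.sum_div]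
      rw [h1, div_le_iff₀ (by positivity), hRs]
      have h2 : ∑ k : ZMod n, ‖zz (k + 1) - zz k‖ ≤ (2 * 2) * ((n : ℝ) * Real.sin x) := hper
      linarith)
  have hwinj : Function.Injective w := by
    intro i j hij
    have h1 := hwz i j
    rw [hij, sub_self, norm_zero] at h1
    have h2 : ‖zz i - zz j‖ = 0 := by
      have := h1.symm
      rw [div_eq_zero_iff] at this
      rcases this with h | h
      · exact h
      · exact absurd h hRpos.ne'
    exact hzz (sub_eq_zero.mp (norm_eq_zero.mp h2))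
  have hX := sum_log_X w hwinj
  have hsc := fin_sum_scale zz w hzz R hRpos hwz
  have hS' : ∑ i : ZMod n, ∑ j : ZMod n, Real.log ‖zz i - zz j‖ = 2 * Real.log (pairProd z) := hS
  linarith

theorem final : ∃ N : ℕ, ∀ n : ℕ, N ≤ n → ∀ z : Fin n → ℂ, (∀ i j, ‖z i - z j‖ ≤ 2) →
    pairProd z ≤ pairProd (reg n) := by
  obtain ⟨N, hN⟩ := fin_core
  refine ⟨N + 2, fun n hn => ?_⟩
  obtain ⟨m, rfl⟩ : ∃ m, n = m + 1 := ⟨n - 1, by omega⟩
  exact reduction m (by omega) 2 (by norm_num) (pairProd (reg (m + 1)))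
    (pairProd_reg_pos (n := m + 1) (by omega)).le
    (fun z hd hc hper => hN m (by omega) z hd hc hper)

end EHP56
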