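import Pool.Agent.EHP56.Defs

/-!
# Scalar inequalities for `g u = u - 1 - log u` (module B-1)

* `sq_le_g`: `h u = (7/2) g u - (u-1)^2` has `h' = (u-1)(7/(2u) - 2)`: decreasing on `(0,1]`, increasing on
  `[1, 7/4]`, decreasing on `[7/4, 21/10]`, `h 1 = 0`, `h (21/10) = 0.043 > 0` (`log 2.1 ≤ 0.742`).
* `lin_le_g`: `g 2 = 1 - log 2 ≥ 0.3068`, `g' ≥ 1/2` on `[2, ∞)`.
* `g_le_sq`: `g u = ∫_1^u (1 - 1/s) ds`; `(u-1)^2 - g u` has derivative `(u-1)(2 - 1/u)`, so it is `≥ 0` for `u ≥ 1/2`.
* `g_small`: `g` is decreasing on `(0, 1]`, `g (1/2) = log 2 - 1/2 ≥ 0.19`.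
* `g_lower`: `t ≥ 0`: `log (1+t) ≤ t - t^2/2 + t^3/3`; `t < 0`: `g (1+t) ≥ t^2/2`.
* `g_compare`: if `1/2 ≤ u ≤ 2` then `g u ≤ (u-1)^2 ≤ 2 (x-1)^2 + 2 (x-u)^2 ≤ 7 g x + 2 (x-u)^2`.
  If `u > 2`: `g u ≤ g x + |x-u|`, `|x - u| ≤ u/100 ≤ (u-1)/50 ≤ (7/100) g u`.
  If `u < 1/2` and `x ≤ u`: `g u ≤ g x`; if `x > u`: `g u - g x ≤ log (x/u) ≤ 1/100 ≤ g u/19`.
-/

namespace EHP56

open Finset

private theorem gf_inc {F F' : ℝ → ℝ} {a b : ℝ} (hab : a ≤ b)
    (hd : ∀ x ∈ Set.Icc a b, HasDerivAt F (F' x) x) (hs : ∀ x ∈ Set.Icc a b, 0 ≤ F' x) :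
    F a ≤ F b := by
  have h : MonotoneOn F (Set.Icc a b) := by
    refine monotoneOn_of_deriv_nonneg (convex_Icc a b)
      (fun x hx => (hd x hx).continuousAt.continuousWithinAt) (fun x hx => ?_) fun x hx => ?_
    · exact (hd x (interior_subset hx)).differentiableAt.differentiableWithinAt
    · rw [(hd x (interior_subset hx)).deriv]
      exact hs x (interior_subset hx)
  exact h (Set.left_mem_Icc.2 hab) (Set.right_mem_Icc.2 hab) hab

private theorem gf_dec {F F' : ℝ → ℝ} {a b : ℝ} (hab : a ≤ b)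
    (hd : ∀ x ∈ Set.Icc a b, HasDerivAt F (F' x) x) (hs : ∀ x ∈ Set.Icc a b, F' x ≤ 0) :
    F b ≤ F a := by
  have h := gf_inc (F := fun x => -F x) (F' := fun x => -F' x) hab (fun x hx => (hd x hx).neg)
    (fun x hx => by linarith [hs x hx])
  linarith

private theorem gf_deriv {x : ℝ} (hx : 0 < x) : HasDerivAt g (1 - 1 / x) x := by
  have h := ((hasDerivAt_id x).sub_const 1).sub (Real.hasDerivAt_log hx.ne')
  rw [← one_div] at h
  exact h

theorem g_nonneg {u : ℝ} (hu : 0 < u) : 0 ≤ g u := by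
  unfold g
  linarith [Real.log_le_sub_one_of_pos hu]

theorem g_convex : ConvexOn ℝ (Set.Ioi (0 : ℝ)) g := by
  have h1 : ConvexOn ℝ (Set.Ioi (0 : ℝ)) fun u : ℝ => u := convexOn_id (convex_Ioi 0)
  have h2 : ConvexOn ℝ (Set.Ioi (0 : ℝ)) fun u : ℝ => -Real.log u :=
    strictConcaveOn_log_Ioi.concaveOn.neg
  have h3 := (h1.add h2).add_const (-1)
  refine h3.congr fun u _ => ?_
  simp only [g, Pi.add_apply]
  ring

private theorem g_one : g 1 = 0 := by simp [g]

theorem g_lower {t : ℝ} (ht : |t| ≤ 1 / 2) : (1 / 2 - |t|) * t ^ 2 ≤ g (1 + t) := by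
  obtain ⟨h1, h2⟩ := abs_le.1 ht
  rcases le_total 0 t with h | h
  · rw [abs_of_nonneg h]
    have key := gf_inc (F := fun s => g (1 + s) - (1 / 2 - s) * s ^ 2)
      (F' := fun s => (1 - 1 / (1 + s)) - ((0 - 1) * s ^ 2 + (1 / 2 - s) * (2 * s))) h
      (fun s hs => ?_) (fun s hs => ?_)
    · simp only [add_zero, g_one] at key
      linarith
    · have d1 : HasDerivAt (fun s : ℝ => g (1 + s)) (1 - 1 / (1 + s)) s := by
        have h3 : (0 : ℝ) < 1 + s := by linarith [hs.1]
        exact (gf_deriv h3).comp_const_add 1 s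
      have d2 : HasDerivAt (fun s : ℝ => (1 / 2 - s) * s ^ 2)
          ((0 - 1) * s ^ 2 + (1 / 2 - s) * (2 * s)) s := by
        have e1 : HasDerivAt (fun s : ℝ => 1 / 2 - s) (0 - 1) s :=
          (hasDerivAt_const s (1 / 2 : ℝ)).sub (hasDerivAt_id s)
        have e2 : HasDerivAt (fun s : ℝ => s ^ 2) (2 * s) s := by
          simpa using hasDerivAt_pow 2 s
        exact e1.mul e2
      exact d1.sub d2
    · have h3 : (0 : ℝ) < 1 + s := by linarith [hs.1]
      have h4 : 1 / (1 + s) ≤ 1 - s + s ^ 2 := by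
        rw [div_le_iff₀ h3]
        nlinarith [mul_nonneg hs.1 (mul_nonneg hs.1 hs.1)]
      nlinarith [sq_nonneg s]
  · rw [abs_of_nonpos h]
    have key := gf_dec (F := fun s => g (1 + s) - (1 / 2 + s) * s ^ 2)
      (F' := fun s => (1 - 1 / (1 + s)) - ((0 + 1) * s ^ 2 + (1 / 2 + s) * (2 * s))) h
      (fun s hs => ?_) (fun s hs => ?_)
    · simp only [add_zero, g_one] at key
      linarith
    · have d1 : HasDerivAt (fun s : ℝ => g (1 + s)) (1 - 1 / (1 + s)) s := by
        have h3 : (0 : ℝ) < 1 + s := by linarith [hs.1]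
        exact (gf_deriv h3).comp_const_add 1 s
      have d2 : HasDerivAt (fun s : ℝ => (1 / 2 + s) * s ^ 2)
          ((0 + 1) * s ^ 2 + (1 / 2 + s) * (2 * s)) s := by
        have e1 : HasDerivAt (fun s : ℝ => 1 / 2 + s) (0 + 1) s :=
          (hasDerivAt_const s (1 / 2 : ℝ)).add (hasDerivAt_id s)
        have e2 : HasDerivAt (fun s : ℝ => s ^ 2) (2 * s) s := by
          simpa using hasDerivAt_pow 2 s
        exact e1.mul e2
      exact d1.sub d2
    · have h3 : (0 : ℝ) < 1 + s := by linarith [hs.1]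
      have h4 : 1 - s ≤ 1 / (1 + s) := by
        rw [le_div_iff₀ h3]
        nlinarith [sq_nonneg s]
      nlinarith [sq_nonneg s]

private theorem gf_log21 : Real.log (21 / 10) ≤ 7432 / 10000 := by
  have h1 : Real.log (21 / 10) = Real.log 2 + Real.log (105 / 100) := by
    rw [← Real.log_mul (by norm_num) (by norm_num)]
    norm_num
  have h2 := Real.log_le_sub_one_of_pos (by norm_num : (0 : ℝ) < 105 / 100)
  have h3 := Real.log_two_lt_d9
  rw [h1]
  linarith

private theorem gf_hderiv {u : ℝ} (hu : 0 < u) :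
    HasDerivAt (fun s => 7 / 2 * g s - (s - 1) ^ 2) (7 / 2 * (1 - 1 / u) - 2 * (u - 1)) u := by
  have e2 : HasDerivAt (fun s : ℝ => (s - 1) ^ 2) (2 * (u - 1)) u := by
    have h := ((hasDerivAt_id u).sub_const 1).fun_pow 2
    simpa using h
  exact ((gf_deriv hu).const_mul _).sub e2

theorem sq_le_g {u : ℝ} (h0 : 0 < u) (h2 : u ≤ 21 / 10) : (u - 1) ^ 2 ≤ 7 / 2 * g u := by
  have hval : (0 : ℝ) ≤ 7 / 2 * g (21 / 10) - (21 / 10 - 1) ^ 2 := by
    unfold g
    linarith [gf_log21]
  have hfac : ∀ s : ℝ, 0 < s → 7 / 2 * (1 - 1 / s) - 2 * (s - 1) = (s - 1) * (7 - 4 * s) / (2 * s) := by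
    intro s hs
    field_simp
    ring
  rcases le_total u 1 with h | h
  · have key := gf_dec h (fun s hs => gf_hderiv (lt_of_lt_of_le h0 hs.1)) (fun s hs => ?_)
    · simp only [g_one] at key
      linarith
    · have hs0 : 0 < s := lt_of_lt_of_le h0 hs.1
      rw [hfac s hs0]
      refine div_nonpos_of_nonpos_of_nonneg ?_ (by linarith)
      exact mul_nonpos_of_nonpos_of_nonneg (by linarith [hs.2]) (by linarith [hs.2])
  · rcases le_total u (7 / 4) with h' | h'
    · have key := gf_inc h (fun s hs => gf_hderiv (by linarith [hs.1])) (fun s hs => ?_)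
      · simp only [g_one] at key
        linarith
      · have hs0 : 0 < s := by linarith [hs.1]
        rw [hfac s hs0]
        exact div_nonneg (mul_nonneg (by linarith [hs.1]) (by linarith [hs.2])) (by linarith)
    · have key := gf_dec h2 (fun s hs => gf_hderiv (by linarith [hs.1])) (fun s hs => ?_)
      · linarith
      · have hs0 : 0 < s := by linarith [hs.1]
        rw [hfac s hs0]
        refine div_nonpos_of_nonpos_of_nonneg ?_ (by linarith)
        exact mul_nonpos_of_nonneg_of_nonpos (by linarith [hs.1]) (by linarith [hs.1])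

theorem lin_le_g {u : ℝ} (h : 2 ≤ u) : u - 1 ≤ 7 / 2 * g u := by
  have h1 : Real.log u = Real.log 2 + Real.log (u / 2) := by
    rw [← Real.log_mul (by norm_num) (by positivity)]
    congr 1
    ring
  have h2 := Real.log_le_sub_one_of_pos (by linarith : (0 : ℝ) < u / 2)
  have h3 := Real.log_two_lt_d9
  unfold g
  rw [h1]
  linarith

theorem g_le_sq {u : ℝ} (h : 1 / 2 ≤ u) : g u ≤ (u - 1) ^ 2 := by
  have hd : ∀ s : ℝ, 0 < s → HasDerivAt (fun s => (s - 1) ^ 2 - g s)
      (2 * (s - 1) - (1 - 1 / s)) s := by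
    intro s hs
    have e2 : HasDerivAt (fun s : ℝ => (s - 1) ^ 2) (2 * (s - 1)) s := by
      have h := ((hasDerivAt_id s).sub_const 1).fun_pow 2
      simpa using h
    exact e2.sub (gf_deriv hs)
  have hfac : ∀ s : ℝ, 0 < s → 2 * (s - 1) - (1 - 1 / s) = (s - 1) * (2 * s - 1) / s := by
    intro s hs
    field_simp
  rcases le_total u 1 with h' | h'
  · have key := gf_dec h' (fun s hs => hd s (by linarith [hs.1])) (fun s hs => ?_)
    · simp only [g_one] at key
      linarith
    · have hs0 : 0 < s := by linarith [hs.1]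
      rw [hfac s hs0]
      refine div_nonpos_of_nonpos_of_nonneg ?_ hs0.le
      exact mul_nonpos_of_nonpos_of_nonneg (by linarith [hs.2]) (by linarith [hs.1])
  · have key := gf_inc h' (fun s hs => hd s (by linarith [hs.1])) (fun s hs => ?_)
    · simp only [g_one] at key
      linarith
    · have hs0 : 0 < s := by linarith [hs.1]
      rw [hfac s hs0]
      exact div_nonneg (mul_nonneg (by linarith [hs.1]) (by linarith [hs.1])) hs0.le

theorem g_small {u : ℝ} (h0 : 0 < u) (h : u ≤ 1 / 2) : 19 / 100 ≤ g u := by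
  have h1 : Real.log u = -Real.log 2 + Real.log (2 * u) := by
    rw [Real.log_mul (by norm_num) h0.ne']
    ring
  have h2 := Real.log_le_sub_one_of_pos (by linarith : (0 : ℝ) < 2 * u)
  have h3 := Real.log_two_gt_d9
  unfold g
  rw [h1]
  linarith

theorem g_compare {u x : ℝ} (hu : 0 < u) (h : |x - u| ≤ u / 100) :
    g u ≤ 8 * g x + (if 1 / 2 ≤ u ∧ u ≤ 2 then 2 * (x - u) ^ 2 else 0) := by
  obtain ⟨h1, h2⟩ := abs_le.1 h
  have hx : 0 < x := by linarith
  have hgx := g_nonneg hx
  have hgu := g_nonneg hu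
  -- difference of the values
  have hdiff : g u - g x = (u - x) + (Real.log x - Real.log u) := by
    unfold g
    ring
  split_ifs with hc
  · have h3 := g_le_sq hc.1
    have h4 := sq_le_g hx (by linarith [hc.2])
    nlinarith [sq_nonneg (x - 1 + (x - u))]
  · rw [add_zero]
    rcases lt_or_ge u (1 / 2) with hu1 | hu1
    · have hlog : Real.log x - Real.log u ≤ x / u - 1 := by
        rw [← Real.log_div hx.ne' hu.ne']
        exact Real.log_le_sub_one_of_pos (div_pos hx hu)
      have h5 : x / u - 1 ≤ 1 / 100 := by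
        rw [div_sub_one hu.ne', div_le_iff₀ hu]
        linarith
      rcases le_total x u with hxu | hxu
      · have h6 : x / u - 1 = -((u - x) / u) := by
          field_simp
          ring
        have h7 : u - x ≤ (u - x) / u := by
          rw [le_div_iff₀ hu]
          nlinarith
        linarith
      · have h6 := g_small hu hu1.le
        linarith
    · have hu2 : 2 < u := by
        by_contra hcon
        exact hc ⟨hu1, not_lt.1 hcon⟩
      rcases le_total x u with hxu | hxu
      · have h3 := lin_le_g hu2.le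
        have h4 : Real.log x ≤ Real.log u := Real.log_le_log hx hxu
        linarith
      · have hlog : Real.log x - Real.log u ≤ x / u - 1 := by
          rw [← Real.log_div hx.ne' hu.ne']
          exact Real.log_le_sub_one_of_pos (div_pos hx hu)
        have h6 : x / u - 1 = (x - u) / u := by
          field_simp
        have h7 : (x - u) / u ≤ x - u := by
          rw [div_le_iff₀ hu]
          nlinarith
        linarith

end EHP56
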