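import Pool.Agent.EHP56.Kernel
import Pool.Agent.EHP56.GFun

/-!
# First bound for the sum of the logarithms (module B1)

For `1 ≤ d < n`, `x = Re X > 0`: `log ‖X‖ = log x + (1/2) log (1 + (Im X/x)^2) ≤ (x - 1) - g x + (1/2)(Im X/x)^2`.
`∑_j Re X j d = ∑_k q k` (`X_sum`, `X_one`), so `∑_d ∑_j (Re X - 1) = (n-1)(∑ q - n) ≤ (n-1)(∑ q - ∑ r) = -(n-1) L0`.
-/

namespace EHP56

open Finset

variable {n : ℕ} [NeZero n]

private theorem first_log {w : ℂ} (hw : 0 < w.re) :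
    Real.log ‖w‖ ≤ (w.re - 1) - g w.re + 1 / 2 * (w.im / w.re) ^ 2 := by
  have h0 : 0 < 1 + (w.im / w.re) ^ 2 := by positivity
  have h1 : ‖w‖ ^ 2 = w.re ^ 2 * (1 + (w.im / w.re) ^ 2) := by
    rw [← Complex.normSq_eq_norm_sq, Complex.normSq_apply]
    field_simp
  have h2 : 2 * Real.log ‖w‖ = 2 * Real.log w.re + Real.log (1 + (w.im / w.re) ^ 2) := by
    have h3 : Real.log (‖w‖ ^ 2) = Real.log (w.re ^ 2 * (1 + (w.im / w.re) ^ 2)) := by rw [h1]
    rw [Real.log_mul (by positivity) h0.ne', Real.log_pow, Real.log_pow] at h3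
    exact_mod_cast h3
  have h4 := Real.log_le_sub_one_of_pos h0
  unfold g
  linarith

theorem Loc.first {ε : ℝ} (P : Loc n ε) (hn : 2 ≤ n) (hε : ε ≤ 1 / 100) :
    ∑ d ∈ Ico 1 n, ∑ j, Real.log ‖X P.z j d‖
      ≤ -((n : ℝ) - 1) * P.L0 - P.G (Ico 1 n) + 1 / 2 * P.N (Ico 1 n) := by
  have hsum : ∀ d ∈ Ico 1 n, ∑ j, ((X P.z j d).re - 1) ≤ -P.L0 := by
    intro d hd
    obtain ⟨h1, h2⟩ := mem_Ico.1 hd
    have e1 : ∑ j, (X P.z j d).re = ∑ k, P.q k := by
      have h := congrArg Complex.re (X_sum P.z h1 h2)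
      rw [Complex.re_sum, Complex.re_sum] at h
      rw [h]
      refine Finset.sum_congr rfl fun k _ => ?_
      rw [P.X_one hn k, Complex.re_ofReal_mul]
      rfl
    have e2 : ∑ _j : ZMod n, (1 : ℝ) = n := by
      rw [Finset.sum_const, Finset.card_univ, ZMod.card, nsmul_eq_mul, mul_one]
    have e3 : P.L0 = ∑ k, P.r k - ∑ k, P.q k := by
      unfold Loc.L0 Loc.ell Loc.q
      rw [← Finset.sum_sub_distrib]
      exact Finset.sum_congr rfl fun k _ => by ring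
    rw [Finset.sum_sub_distrib, e1, e2, e3]
    linarith [P.sum_r]
  have hmain : ∑ d ∈ Ico 1 n, ∑ j, Real.log ‖X P.z j d‖
      ≤ ∑ d ∈ Ico 1 n, (-P.L0 - ∑ j, g (X P.z j d).re
        + 1 / 2 * ∑ j, ((X P.z j d).im / (X P.z j d).re) ^ 2) := by
    refine Finset.sum_le_sum fun d hd => ?_
    obtain ⟨h1, h2⟩ := mem_Ico.1 hd
    have h3 : ∑ j, Real.log ‖X P.z j d‖
        ≤ ∑ j, (((X P.z j d).re - 1) - g (X P.z j d).re
          + 1 / 2 * ((X P.z j d).im / (X P.z j d).re) ^ 2) :=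
      Finset.sum_le_sum fun j _ => first_log (P.X_re_pos hε j h1 h2)
    rw [Finset.sum_add_distrib, Finset.sum_sub_distrib, ← Finset.mul_sum] at h3
    linarith [hsum d hd]
  refine hmain.trans (le_of_eq ?_)
  rw [Finset.sum_add_distrib, Finset.sum_sub_distrib, ← Finset.mul_sum, Finset.sum_const,
    Nat.card_Ico, nsmul_eq_mul, Nat.cast_sub (by omega), Nat.cast_one]
  unfold Loc.G Loc.N
  ring

end EHP56
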