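import Pool.Agent.EHP56.Kernel

/-!
# Fourier identities (module B6a)

`f i = ∑_{m<n} Fh f m χ (i m)` (inversion).  For `1 ≤ d < n`:
`X f j d = ∑_m Fh f m χ ((m-1) j) (χ (m d) - 1)/(χ d - 1)`.

* `four1`: Parseval in `j`: `∑_j ‖X f j d‖² = n ∑_m ‖Fh f m‖² ‖χ (m d) - 1‖²/‖χ d - 1‖²`, and
  `∑_{d=1}^{n-1} ‖(χ (m d) - 1)/(χ d - 1)‖² = m (n - m)`, because `(χ (md) - 1)/(χ d - 1) = ∑_{l<m} χ (l d)` and
  `∑_{d=0}^{n-1} ‖∑_{l<m} χ (l d)‖² = n m`, the term `d = 0` being `m²`.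
* `four2`: `∑_j (X f j d)² = n ∑_{m+m'≡2} Fh m Fh m' (χ (md) - 1)(χ (m'd) - 1)/(χ d - 1)²`.
  `m = 1`: `n (Fh 1)²`; `m = 0, 2`: zero; `3 ≤ m ≤ n-1`: `m' = n + 2 - m`, `χ (m' d) = χ (-(m-2) d)`, and
  `(χ (md) - 1)(χ (-(m-2)d) - 1)/(χ d - 1)² = - χ (-(m-2) d) χ(-d)... ` : with `a = m`, `b = m - 2`,
  `(χ(ad) - 1)/(χ d - 1) = ∑_{l<a} χ (l d)`, `(χ(-bd) - 1)/(χ d - 1) = - ∑_{l=1}^{b} χ (- l d)`; so the sum over
  `d = 1..n-1` of the product is `- (∑_{d=0}^{n-1} ∑_{l<a, 1≤l'≤b} χ ((l - l') d) - a b) = -(n b - a b) = - (m-2)(n-m)`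
  (the number of pairs `l = l'` is `b` because `b ≤ a - 1`).
* `four3`, `four4`: the case `d = 1`: `(χ m - 1)/(χ 1 - 1) = Sm m e^{iπ(m-1)/n}`, and for `m' = n+2-m`,
  `(χ m' - 1)/(χ 1 - 1) = (χ (-(m-2)) - 1)/(χ 1 - 1) = - Sm (m-2) e^{-iπ(m-1)/n}`.
* `four5`: `∑_k X f k 1 = n Fh f 1`.
-/

namespace EHP56

open Finset

variable {n : ℕ} [NeZero n]

/-! ### auxiliary lemmas -/

private lemma fr_n0 : (n : ℂ) ≠ 0 := Nat.cast_ne_zero.2 (NeZero.ne n)

private lemma fr_chi0 : chi n 0 = 1 := by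
  unfold chi
  exact AddChar.map_zero_eq_one _

private lemma fr_add (a b : ZMod n) : chi n (a + b) = chi n a * chi n b := by
  unfold chi
  exact AddChar.map_add_eq_mul _ a b

private lemma fr_sum (a : ZMod n) : ∑ j : ZMod n, chi n (j * a) = if a = 0 then (n : ℂ) else 0 := by
  have h := AddChar.sum_mulShift a (ZMod.isPrimitive_stdAddChar n)
  rw [ZMod.card] at h
  unfold chi
  rw [h]
  split_ifs <;> simp

private lemma fr_conj (a : ZMod n) : (starRingEnd ℂ) (chi n a) = chi n (-a) := by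
  unfold chi
  exact (AddChar.map_neg_eq_conj _ a).symm

private lemma fr_chi_ne {d : ZMod n} (hd : d ≠ 0) : chi n d - 1 ≠ 0 := by
  intro h
  apply hd
  have h1 : ZMod.stdAddChar d = ZMod.stdAddChar (0 : ZMod n) := by
    rw [AddChar.map_zero_eq_one]
    exact sub_eq_zero.1 h
  exact ZMod.injective_stdAddChar h1

/-- Fourier coefficient indexed by `ZMod n` -/
private noncomputable def FF (f : ZMod n → ℂ) (a : ZMod n) : ℂ :=
  (∑ i, f i * chi n (-(i * a))) / (n : ℂ)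

private lemma fr_Fh (f : ZMod n → ℂ) (m : ℕ) : Fh f m = FF f (m : ZMod n) := rfl

private lemma fr_inv (f : ZMod n → ℂ) (i : ZMod n) : f i = ∑ a, FF f a * chi n (i * a) := by
  have h1 : ∀ a, FF f a * chi n (i * a) = ∑ k, f k / n * chi n (a * (i - k)) := by
    intro a
    rw [FF, div_mul_eq_mul_div, sum_mul, sum_div]
    refine sum_congr rfl fun k _ => ?_
    rw [mul_assoc, ← fr_add, show -(k * a) + i * a = a * (i - k) by ring]
    ring
  rw [sum_congr rfl fun a _ => h1 a, sum_comm]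
  have h2 : ∀ k, ∑ a, f k / n * chi n (a * (i - k)) = if k = i then f i else 0 := by
    intro k
    rw [← mul_sum, fr_sum]
    by_cases hk : k = i
    · subst hk
      rw [sub_self, if_pos rfl, if_pos rfl, div_mul_cancel₀ _ fr_n0]
    · rw [if_neg hk, if_neg (sub_ne_zero.2 (fun h => hk h.symm)), mul_zero]
  rw [sum_congr rfl fun k _ => h2 k]
  simp

/-- the multiplier -/
private noncomputable def KK (a d : ZMod n) : ℂ := (chi n (d * a) - 1) / (chi n d - 1)

private lemma fr_KK_zero (a : ZMod n) : KK a (0 : ZMod n) = 0 := by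
  rw [KK, fr_chi0, sub_self, div_zero]

private lemma fr_KK0 (d : ZMod n) : KK (0 : ZMod n) d = 0 := by
  rw [KK, mul_zero, fr_chi0, sub_self, zero_div]

private lemma fr_X (f : ZMod n → ℂ) (j : ZMod n) (d : ℕ) :
    X f j d = ∑ a, (FF f a * KK a (d : ZMod n)) * chi n (j * (a - 1)) := by
  set D : ZMod n := (d : ZMod n) with hD
  have hj : chi n j ≠ 0 := by
    intro h
    have := chi_norm j
    rw [h, norm_zero] at this
    exact zero_ne_one this
  have h0 : X f j d = (f (j + D) - f j) / (chi n (j + D) - chi n j) := rfl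
  rw [h0, fr_inv f (j + D), fr_inv f j, ← sum_sub_distrib, sum_div]
  refine sum_congr rfl fun a _ => ?_
  have h1 : chi n ((j + D) * a) = chi n (j * (a - 1)) * chi n j * chi n (D * a) := by
    rw [← fr_add, ← fr_add]
    congr 1
    ring
  have h2 : chi n (j * a) = chi n (j * (a - 1)) * chi n j := by
    rw [← fr_add]
    congr 1
    ring
  rw [h1, h2, fr_add, KK]
  by_cases h3 : chi n D - 1 = 0
  · rw [h3, div_zero, show chi n j * chi n D - chi n j = chi n j * (chi n D - 1) by ring, h3, mul_zero,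
      div_zero]
    ring
  · rw [show chi n j * chi n D - chi n j = chi n j * (chi n D - 1) by ring]
    field_simp

private lemma fr_parseval (c : ZMod n → ℂ) :
    ∑ j, ‖∑ a, c a * chi n (j * (a - 1))‖ ^ 2 = (n : ℝ) * ∑ a, ‖c a‖ ^ 2 := by
  have h : ((∑ j, ‖∑ a, c a * chi n (j * (a - 1))‖ ^ 2 : ℝ) : ℂ) = ((n : ℝ) * ∑ a, ‖c a‖ ^ 2 : ℝ) := by
    push_cast
    have h1 : ∀ j, ((‖∑ a, c a * chi n (j * (a - 1))‖ : ℝ) : ℂ) ^ 2 =
        ∑ a, ∑ b, (starRingEnd ℂ) (c a) * c b * chi n (j * (b - a)) := by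
      intro j
      rw [← Complex.conj_mul', map_sum, sum_mul_sum]
      refine sum_congr rfl fun a _ => sum_congr rfl fun b _ => ?_
      rw [map_mul, fr_conj, show j * (b - a) = -(j * (a - 1)) + j * (b - 1) by ring, fr_add]
      ring
    rw [sum_congr rfl fun j _ => h1 j, sum_comm, mul_sum]
    refine sum_congr rfl fun a _ => ?_
    rw [sum_comm]
    have h2 : ∀ b, ∑ j, (starRingEnd ℂ) (c a) * c b * chi n (j * (b - a)) =
        if b = a then (n : ℂ) * ‖c a‖ ^ 2 else 0 := by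
      intro b
      rw [← mul_sum, fr_sum]
      by_cases hb : b = a
      · subst hb
        rw [sub_self, if_pos rfl, if_pos rfl, Complex.conj_mul']
        ring
      · rw [if_neg hb, if_neg (sub_ne_zero.2 hb), mul_zero]
    rw [sum_congr rfl fun b _ => h2 b]
    simp
  exact_mod_cast h

private lemma fr_square (c : ZMod n → ℂ) :
    ∑ j, (∑ a, c a * chi n (j * (a - 1))) ^ 2 = (n : ℂ) * ∑ a, c a * c (2 - a) := by
  have h1 : ∀ j, (∑ a, c a * chi n (j * (a - 1))) ^ 2 =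
      ∑ a, ∑ b, c a * c b * chi n (j * (a + b - 2)) := by
    intro j
    rw [sq, sum_mul_sum]
    refine sum_congr rfl fun a _ => sum_congr rfl fun b _ => ?_
    rw [show j * (a + b - 2) = j * (a - 1) + j * (b - 1) by ring, fr_add]
    ring
  rw [sum_congr rfl fun j _ => h1 j, sum_comm, mul_sum]
  refine sum_congr rfl fun a _ => ?_
  rw [sum_comm]
  have h2 : ∀ b, ∑ j, c a * c b * chi n (j * (a + b - 2)) =
      if b = 2 - a then (n : ℂ) * (c a * c (2 - a)) else 0 := by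
    intro b
    rw [← mul_sum, fr_sum]
    by_cases hb : b = 2 - a
    · subst hb
      rw [if_pos (by ring), if_pos rfl]
      ring
    · rw [if_neg hb, if_neg, mul_zero]
      intro h
      exact hb (by linear_combination h)
  rw [sum_congr rfl fun b _ => h2 b]
  simp

private lemma fr_range (g : ZMod n → ℂ) : ∑ a, g a = ∑ m ∈ range n, g (m : ZMod n) := by
  symm
  refine sum_nbij' (fun m => (m : ZMod n)) (fun a => a.val) ?_ ?_ ?_ ?_ ?_
  · intro m _
    exact mem_univ _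
  · intro a _
    exact mem_range.2 (ZMod.val_lt a)
  · intro m hm
    exact ZMod.val_cast_of_lt (mem_range.1 hm)
  · intro a _
    exact ZMod.natCast_zmod_val a
  · intro m _
    rfl

private lemma fr_rangeR (g : ZMod n → ℝ) : ∑ a, g a = ∑ m ∈ range n, g (m : ZMod n) := by
  symm
  refine sum_nbij' (fun m => (m : ZMod n)) (fun a => a.val) ?_ ?_ ?_ ?_ ?_
  · intro m _
    exact mem_univ _
  · intro a _
    exact mem_range.2 (ZMod.val_lt a)
  · intro m hm
    exact ZMod.val_cast_of_lt (mem_range.1 hm)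
  · intro a _
    exact ZMod.natCast_zmod_val a
  · intro m _
    rfl

/-- geometric sum -/
private lemma fr_geom (m : ℕ) {d : ZMod n} (hd : d ≠ 0) :
    KK (m : ZMod n) d = ∑ l ∈ range m, chi n (d * l) := by
  rw [KK, div_eq_iff (fr_chi_ne hd)]
  induction m with
  | zero => simp [fr_chi0]
  | succ m ih =>
    rw [sum_range_succ, add_mul, ← ih]
    have : chi n (d * ((m + 1 : ℕ) : ZMod n)) = chi n (d * m) * chi n d := by
      rw [← fr_add]
      congr 1
      push_cast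
      ring
    rw [this]
    ring

private lemma fr_geom_neg (b : ℕ) {d : ZMod n} (hd : d ≠ 0) :
    KK (-(b : ZMod n)) d = - ∑ l ∈ range b, chi n (d * (-((l : ZMod n) + 1))) := by
  rw [KK, div_eq_iff (fr_chi_ne hd)]
  induction b with
  | zero => simp [fr_chi0]
  | succ b ih =>
    rw [sum_range_succ, neg_add, add_mul, ← ih]
    have : chi n (d * (-((b + 1 : ℕ) : ZMod n))) * chi n d = chi n (d * (-(b : ZMod n))) := by
      rw [← fr_add]
      congr 1
      push_cast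
      ring
    have h2 : ((b + 1 : ℕ) : ZMod n) = (b : ZMod n) + 1 := by push_cast; rfl
    rw [h2] at this ⊢
    linear_combination this

omit [NeZero n] in
private lemma fr_cast_inj {a b : ℕ} (ha : a < n) (hb : b < n) :
    ((a : ZMod n) = (b : ZMod n)) ↔ a = b := by
  constructor
  · intro h
    have h1 := congrArg ZMod.val h
    rwa [ZMod.val_cast_of_lt ha, ZMod.val_cast_of_lt hb] at h1
  · rintro rfl
    rfl

private lemma fr_K1 {m : ℕ} (hm : m < n) :
    ∑ d : ZMod n, ‖KK (m : ZMod n) d‖ ^ 2 = (m : ℝ) * ((n : ℝ) - m) := by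
  have h : ((∑ d : ZMod n, ‖KK (m : ZMod n) d‖ ^ 2 : ℝ) : ℂ) = ((m : ℝ) * ((n : ℝ) - m) : ℝ) := by
    push_cast
    have h0 : ∑ d : ZMod n, ((‖∑ l ∈ range m, chi n (d * l)‖ : ℝ) : ℂ) ^ 2 = n * m := by
      have h1 : ∀ d : ZMod n, ((‖∑ l ∈ range m, chi n (d * l)‖ : ℝ) : ℂ) ^ 2 =
          ∑ a ∈ range m, ∑ b ∈ range m, chi n (d * ((b : ZMod n) - a)) := by
        intro d
        rw [← Complex.conj_mul', map_sum, sum_mul_sum]
        refine sum_congr rfl fun a _ => sum_congr rfl fun b _ => ?_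
        rw [fr_conj, ← fr_add]
        congr 1
        ring
      rw [sum_congr rfl fun d _ => h1 d, sum_comm]
      have h2 : ∀ a ∈ range m, ∑ d : ZMod n, ∑ b ∈ range m, chi n (d * ((b : ZMod n) - a)) = n := by
        intro a ha
        rw [sum_comm]
        have h3 : ∀ b ∈ range m, ∑ d : ZMod n, chi n (d * ((b : ZMod n) - a)) =
            if b = a then (n : ℂ) else 0 := by
          intro b hb
          rw [fr_sum]
          refine if_congr ?_ rfl rfl
          rw [sub_eq_zero]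
          exact fr_cast_inj ((mem_range.1 hb).trans hm) ((mem_range.1 ha).trans hm)
        rw [sum_congr rfl h3, sum_ite_eq', if_pos ha]
      rw [sum_congr rfl h2, sum_const, card_range, nsmul_eq_mul]
      ring
    rw [← add_sum_erase univ _ (mem_univ (0 : ZMod n))] at h0 ⊢
    rw [fr_KK_zero]
    have h4 : ∀ d ∈ univ.erase (0 : ZMod n), ((‖KK (m : ZMod n) d‖ : ℝ) : ℂ) ^ 2 =
        ((‖∑ l ∈ range m, chi n (d * l)‖ : ℝ) : ℂ) ^ 2 := by
      intro d hd
      rw [fr_geom m (ne_of_mem_erase hd)]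
    rw [sum_congr rfl h4]
    have h5 : ((‖∑ l ∈ range m, chi n ((0 : ZMod n) * l)‖ : ℝ) : ℂ) ^ 2 = m ^ 2 := by
      have : ∑ l ∈ range m, chi n ((0 : ZMod n) * l) = m := by
        simp [fr_chi0]
      rw [this]
      simp
    rw [h5] at h0
    simp only [norm_zero, Complex.ofReal_zero]
    linear_combination h0
  exact_mod_cast h

private lemma fr_K2 {m : ℕ} (h3 : 3 ≤ m) (hm : m < n) :
    ∑ d : ZMod n, KK (m : ZMod n) d * KK (2 - (m : ZMod n)) d = - (((m : ℂ) - 2) * ((n : ℂ) - m)) := by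
  obtain ⟨b, rfl⟩ : ∃ b, m = b + 2 := ⟨m - 2, by omega⟩
  have e1 : (2 : ZMod n) - ((b + 2 : ℕ) : ZMod n) = -(b : ZMod n) := by
    push_cast
    ring
  rw [e1]
  have h0 : ∑ d : ZMod n, (∑ l ∈ range (b + 2), chi n (d * l)) *
      (∑ l ∈ range b, chi n (d * (-((l : ZMod n) + 1)))) = n * b := by
    have h1 : ∀ d : ZMod n, (∑ l ∈ range (b + 2), chi n (d * l)) *
        (∑ l ∈ range b, chi n (d * (-((l : ZMod n) + 1)))) =
        ∑ a ∈ range (b + 2), ∑ c ∈ range b, chi n (d * ((a : ZMod n) - ((c + 1 : ℕ) : ZMod n))) := by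
      intro d
      rw [sum_mul_sum]
      refine sum_congr rfl fun a _ => sum_congr rfl fun c _ => ?_
      rw [← fr_add]
      congr 1
      push_cast
      ring
    rw [sum_congr rfl fun d _ => h1 d, sum_comm]
    have h2 : ∀ a ∈ range (b + 2), ∑ d : ZMod n, ∑ c ∈ range b,
        chi n (d * ((a : ZMod n) - ((c + 1 : ℕ) : ZMod n))) =
        ∑ c ∈ range b, if a = c + 1 then (n : ℂ) else 0 := by
      intro a ha
      rw [sum_comm]
      refine sum_congr rfl fun c hc => ?_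
      rw [fr_sum]
      refine if_congr ?_ rfl rfl
      rw [sub_eq_zero]
      have := mem_range.1 hc
      have := mem_range.1 ha
      exact fr_cast_inj (by omega) (by omega)
    rw [sum_congr rfl h2, sum_comm]
    have h4 : ∀ c ∈ range b, ∑ a ∈ range (b + 2), (if a = c + 1 then (n : ℂ) else 0) = n := by
      intro c hc
      have := mem_range.1 hc
      rw [sum_ite_eq', if_pos (mem_range.2 (by omega))]
    rw [sum_congr rfl h4, sum_const, card_range, nsmul_eq_mul]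
    ring
  rw [← add_sum_erase univ _ (mem_univ (0 : ZMod n))] at h0 ⊢
  rw [fr_KK_zero, zero_mul, zero_add]
  have h5 : ∀ d ∈ univ.erase (0 : ZMod n), KK ((b + 2 : ℕ) : ZMod n) d * KK (-(b : ZMod n)) d =
      - ((∑ l ∈ range (b + 2), chi n (d * l)) *
      (∑ l ∈ range b, chi n (d * (-((l : ZMod n) + 1))))) := by
    intro d hd
    rw [fr_geom _ (ne_of_mem_erase hd), fr_geom_neg _ (ne_of_mem_erase hd)]
    ring
  rw [sum_congr rfl h5, sum_neg_distrib]
  have h6 : (∑ l ∈ range (b + 2), chi n ((0 : ZMod n) * l)) *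
      (∑ l ∈ range b, chi n ((0 : ZMod n) * (-((l : ZMod n) + 1)))) = (b + 2) * b := by
    simp [fr_chi0]
  rw [h6] at h0
  push_cast
  linear_combination (-1 : ℂ) * h0

private lemma fr_Ico (g : ZMod n → ℝ) (h : g 0 = 0) :
    ∑ d ∈ Ico 1 n, g (d : ZMod n) = ∑ d, g d := by
  rw [fr_rangeR, range_eq_Ico, sum_eq_sum_Ico_succ_bot (Nat.pos_of_ne_zero (NeZero.ne n))]
  simp [h]

private lemma fr_IcoC (g : ZMod n → ℂ) (h : g 0 = 0) :
    ∑ d ∈ Ico 1 n, g (d : ZMod n) = ∑ d, g d := by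
  rw [fr_range, range_eq_Ico, sum_eq_sum_Ico_succ_bot (Nat.pos_of_ne_zero (NeZero.ne n))]
  simp [h]

omit [NeZero n] in
private lemma fr_range3 (hn : 3 ≤ n) (g : ℕ → ℂ) (h0 : g 0 = 0) (h2 : g 2 = 0) :
    ∑ m ∈ range n, g m = g 1 + ∑ m ∈ Ico 3 n, g m := by
  rw [range_eq_Ico, sum_eq_sum_Ico_succ_bot (by omega), sum_eq_sum_Ico_succ_bot (by omega),
    sum_eq_sum_Ico_succ_bot (by omega), h0, h2]
  ring

omit [NeZero n] in
private lemma fr_cast_sub (m : ℕ) (h : m ≤ n) : ((n + 2 - m : ℕ) : ZMod n) = 2 - (m : ZMod n) := by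
  rw [Nat.cast_sub (by omega)]
  push_cast
  simp

theorem four1 (hn : 3 ≤ n) (f : ZMod n → ℂ) :
    ∑ d ∈ Ico 1 n, ∑ j, ‖X f j d‖ ^ 2
      = (n : ℝ) * ∑ m ∈ range n, (m : ℝ) * ((n : ℝ) - m) * ‖Fh f m‖ ^ 2 := by
  have h1 : ∀ d : ℕ, ∑ j, ‖X f j d‖ ^ 2 =
      (n : ℝ) * ∑ a, ‖FF f a‖ ^ 2 * ‖KK a (d : ZMod n)‖ ^ 2 := by
    intro d
    have h2 := fr_parseval fun a => FF f a * KK a (d : ZMod n)
    rw [sum_congr rfl fun j _ => by rw [fr_X]]
    rw [h2]
    congr 1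
    refine sum_congr rfl fun a _ => ?_
    rw [norm_mul, mul_pow]
  rw [sum_congr rfl fun d _ => h1 d, ← mul_sum, sum_comm, fr_rangeR]
  congr 1
  refine sum_congr rfl fun m hm => ?_
  rw [← mul_sum, fr_Ico (fun d => ‖KK (m : ZMod n) d‖ ^ 2) (by rw [fr_KK_zero]; simp),
    fr_K1 (mem_range.1 hm), fr_Fh]
  ring

theorem four2 (hn : 3 ≤ n) (f : ZMod n → ℂ) :
    ∑ d ∈ Ico 1 n, ∑ j, (X f j d) ^ 2
      = (n : ℂ) * ((n : ℂ) - 1) * Fh f 1 ^ 2
        - n * ∑ m ∈ Ico 3 n, ((m : ℂ) - 2) * ((n : ℂ) - m) * (Fh f m * Fh f (n + 2 - m)) := by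
  have h1 : ∀ d : ℕ, ∑ j, (X f j d) ^ 2 =
      (n : ℂ) * ∑ a, FF f a * FF f (2 - a) * (KK a (d : ZMod n) * KK (2 - a) (d : ZMod n)) := by
    intro d
    have h2 := fr_square fun a => FF f a * KK a (d : ZMod n)
    rw [sum_congr rfl fun j _ => by rw [fr_X]]
    rw [h2]
    congr 1
    refine sum_congr rfl fun a _ => ?_
    ring
  rw [sum_congr rfl fun d _ => h1 d, ← mul_sum, sum_comm]
  have h2 : ∀ a : ZMod n, ∑ d ∈ Ico 1 n, FF f a * FF f (2 - a) *
      (KK a (d : ZMod n) * KK (2 - a) (d : ZMod n)) =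
      FF f a * FF f (2 - a) * ∑ d : ZMod n, (KK a d * KK (2 - a) d) := by
    intro a
    rw [← mul_sum, fr_IcoC (fun d => KK a d * KK (2 - a) d) (by rw [fr_KK_zero]; simp)]
  rw [sum_congr rfl fun a _ => h2 a, fr_range, fr_range3 hn]
  · have h3 : ∑ d : ZMod n, (KK ((1 : ℕ) : ZMod n) d * KK (2 - ((1 : ℕ) : ZMod n)) d) = n - 1 := by
      rw [← add_sum_erase univ _ (mem_univ (0 : ZMod n)), fr_KK_zero]
      have h4 : ∀ d ∈ univ.erase (0 : ZMod n),
          KK ((1 : ℕ) : ZMod n) d * KK (2 - ((1 : ℕ) : ZMod n)) d = 1 := by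
        intro d hd
        have h5 : (2 : ZMod n) - ((1 : ℕ) : ZMod n) = ((1 : ℕ) : ZMod n) := by
          push_cast
          ring
        rw [h5, fr_geom _ (ne_of_mem_erase hd)]
        simp [fr_chi0]
      rw [sum_congr rfl h4, sum_const, card_erase_of_mem (mem_univ _), card_univ, ZMod.card,
        nsmul_eq_mul, Nat.cast_sub (by omega)]
      push_cast
      ring
    have h6 : (2 : ZMod n) - ((1 : ℕ) : ZMod n) = ((1 : ℕ) : ZMod n) := by
      push_cast
      ring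
    have h7 : ∀ m ∈ Ico 3 n, FF f (m : ZMod n) * FF f (2 - (m : ZMod n)) *
        ∑ d : ZMod n, (KK (m : ZMod n) d * KK (2 - (m : ZMod n)) d) =
        - (((m : ℂ) - 2) * ((n : ℂ) - m) * (Fh f m * Fh f (n + 2 - m))) := by
      intro m hm
      rw [mem_Ico] at hm
      rw [fr_K2 hm.1 hm.2, fr_Fh, fr_Fh, fr_cast_sub m hm.2.le]
      ring
    rw [h3, h6, sum_congr rfl h7, sum_neg_distrib, fr_Fh]
    ring
  · simp [fr_KK0]
  · simp [fr_KK0]

private lemma fr_Kone (m : ℕ) (hn : 3 ≤ n) : KK (m : ZMod n) ((1 : ℕ) : ZMod n) =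
    (Sm n m : ℂ) * Complex.exp (((Real.pi * (m - 1) / n : ℝ) : ℂ) * Complex.I) := by
  have hs : Real.sin (Real.pi * ((1 : ℕ) : ℝ) / n) ≠ 0 :=
    (sin_pos_of_lt (n := n) (d := 1) le_rfl (by omega)).ne'
  have hs' : ((Real.sin (Real.pi * ((1 : ℕ) : ℝ) / n) : ℝ) : ℂ) ≠ 0 := Complex.ofReal_ne_zero.2 hs
  have h1 : ((1 : ℕ) : ZMod n) * (m : ZMod n) = (m : ZMod n) := by simp
  have h2 : chi n ((1 : ℕ) : ZMod n) - 1 ≠ 0 := by
    rw [chi_sub_one]
    exact mul_ne_zero (mul_ne_zero (mul_ne_zero two_ne_zero Complex.I_ne_zero) hs') (Complex.exp_ne_zero _)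
  rw [KK, h1, div_eq_iff h2, chi_sub_one, chi_sub_one]
  have h3 : Complex.exp (((Real.pi * (m - 1) / n : ℝ) : ℂ) * Complex.I) *
      Complex.exp (((Real.pi * ((1 : ℕ) : ℝ) / n : ℝ) : ℂ) * Complex.I) =
      Complex.exp (((Real.pi * m / n : ℝ) : ℂ) * Complex.I) := by
    rw [← Complex.exp_add]
    congr 1
    push_cast
    ring
  rw [← h3]
  have h4 : (Sm n m : ℂ) * ((Real.sin (Real.pi * ((1 : ℕ) : ℝ) / n) : ℝ) : ℂ) =
      ((Real.sin (Real.pi * m / n) : ℝ) : ℂ) := by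
    rw [Sm, ← Complex.ofReal_mul]
    congr 1
    rw [Nat.cast_one, mul_one] at hs ⊢
    exact div_mul_cancel₀ _ hs
  rw [← h4]
  ring

theorem four3 (hn : 3 ≤ n) (f : ZMod n → ℂ) :
    ∑ k, ‖X f k 1‖ ^ 2 = (n : ℝ) * ∑ m ∈ range n, Sm n m ^ 2 * ‖Fh f m‖ ^ 2 := by
  have h2 := fr_parseval fun a => FF f a * KK a ((1 : ℕ) : ZMod n)
  rw [sum_congr rfl fun j _ => by rw [fr_X]]
  rw [h2, fr_rangeR]
  congr 1
  refine sum_congr rfl fun m hm => ?_
  rw [fr_Kone m hn, fr_Fh, norm_mul, norm_mul, Complex.norm_exp_ofReal_mul_I, Complex.norm_real,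
    mul_one, mul_pow, Real.norm_eq_abs, sq_abs]
  ring

theorem four4 (hn : 3 ≤ n) (f : ZMod n → ℂ) :
    ∑ k, (X f k 1) ^ 2
      = (n : ℂ) * Fh f 1 ^ 2
        - n * ∑ m ∈ Ico 3 n, (Sm n m : ℂ) * (Sm n (m - 2) : ℂ) * (Fh f m * Fh f (n + 2 - m)) := by
  have h2 := fr_square fun a => FF f a * KK a ((1 : ℕ) : ZMod n)
  rw [sum_congr rfl fun j _ => by rw [fr_X]]
  rw [h2, fr_range, fr_range3 hn]
  · have h6 : (2 : ZMod n) - ((1 : ℕ) : ZMod n) = ((1 : ℕ) : ZMod n) := by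
      push_cast
      ring
    have h8 : KK ((1 : ℕ) : ZMod n) ((1 : ℕ) : ZMod n) = 1 := by
      have h9 : ((1 : ℕ) : ZMod n) ≠ 0 := by
        intro h
        have := (fr_cast_inj (n := n) (a := 1) (b := 0) (by omega) (by omega)).1 (by simpa using h)
        omega
      rw [fr_geom _ h9]
      simp [fr_chi0]
    have h7 : ∀ m ∈ Ico 3 n, FF f (m : ZMod n) * KK (m : ZMod n) ((1 : ℕ) : ZMod n) *
        (FF f (2 - (m : ZMod n)) * KK (2 - (m : ZMod n)) ((1 : ℕ) : ZMod n)) =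
        - ((Sm n m : ℂ) * (Sm n (m - 2) : ℂ) * (Fh f m * Fh f (n + 2 - m))) := by
      intro m hm
      rw [mem_Ico] at hm
      obtain ⟨b, rfl⟩ : ∃ b, m = b + 2 := ⟨m - 2, by omega⟩
      have e1 : (2 : ZMod n) - ((b + 2 : ℕ) : ZMod n) = -(b : ZMod n) := by
        push_cast
        ring
      have e2 : KK (-(b : ZMod n)) ((1 : ℕ) : ZMod n) =
          - (chi n (-(b : ZMod n)) * KK (b : ZMod n) ((1 : ℕ) : ZMod n)) := by
        rw [KK, KK]
        have : chi n (-(b : ZMod n)) * chi n (((1 : ℕ) : ZMod n) * (b : ZMod n)) = 1 := by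
          rw [← fr_add]
          simp [fr_chi0]
        rw [← mul_div_assoc, mul_sub, this, neg_div', neg_sub]
        simp
      have e3 : chi n (-(b : ZMod n)) *
          (Complex.exp (((Real.pi * ((b + 2 : ℕ) - 1) / n : ℝ) : ℂ) * Complex.I) *
          Complex.exp (((Real.pi * (b - 1) / n : ℝ) : ℂ) * Complex.I)) = 1 := by
        have e4 : chi n (-(b : ZMod n)) * chi n (b : ZMod n) = 1 := by
          rw [← fr_add]
          simp [fr_chi0]
        rw [← e4, chi_natCast, ← Complex.exp_add]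
        congr 2
        push_cast
        ring
      rw [fr_Fh, fr_Fh, fr_cast_sub _ hm.2.le, e1, e2, fr_Kone _ hn, fr_Kone _ hn]
      rw [show b + 2 - 2 = b by omega]
      linear_combination (-(FF f ((b + 2 : ℕ) : ZMod n) * FF f (-(b : ZMod n)) * (Sm n (b + 2) : ℂ) *
        (Sm n b : ℂ))) * e3
    rw [h6, h8, sum_congr rfl h7, sum_neg_distrib, fr_Fh]
    ring
  · simp [fr_KK0]
  · simp [fr_KK0]

theorem four5 (hn : 3 ≤ n) (f : ZMod n → ℂ) : ∑ k, X f k 1 = (n : ℂ) * Fh f 1 := by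
  rw [sum_congr rfl fun j _ => by rw [fr_X], sum_comm]
  have h2 : ∀ a : ZMod n, ∑ j, FF f a * KK a ((1 : ℕ) : ZMod n) * chi n (j * (a - 1)) =
      if a = 1 then (n : ℂ) * (FF f a * KK a ((1 : ℕ) : ZMod n)) else 0 := by
    intro a
    rw [← mul_sum, fr_sum]
    by_cases ha : a = 1
    · rw [if_pos (sub_eq_zero.2 ha), if_pos ha]
      ring
    · rw [if_neg (sub_ne_zero.2 ha), if_neg ha, mul_zero]
  have h8 : KK (1 : ZMod n) ((1 : ℕ) : ZMod n) = 1 := by
    have h9 : ((1 : ℕ) : ZMod n) ≠ 0 := by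
      intro h
      have := (fr_cast_inj (n := n) (a := 1) (b := 0) (by omega) (by omega)).1 (by simpa using h)
      omega
    have := fr_geom 1 h9
    rw [Nat.cast_one] at this ⊢
    rw [this]
    simp [fr_chi0]
  rw [sum_congr rfl fun a _ => h2 a, sum_ite_eq', if_pos (mem_univ _), h8, mul_one, fr_Fh,
    Nat.cast_one]

end EHP56
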