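import Pool.Agent.EHP56.Smooth

/-!
# Long blocks change little under smoothing (module B4)

Let `h = z - χ`, `y j d = X j d - 1 = (h (j+d) - h j)/(χ (j+d) - χ j)`.  By `X_smooth`
`X z j d - X (smooth T z) j d = (1/T) ∑_{t<T} (y j d - y (j+t) d)`, so
`‖X z j d - X (smooth T z) j d‖² ≤ (1/T) ∑_t ‖y j d - y (j+t) d‖²`.  With `i = j + d`:
`y j d - y (j+t) d = [(h i - h (i+t)) - (h j - h (j+t))]/(χ i - χ j) + (χ t - 1) y (j+t) d`
(because `χ (i+t) - χ (j+t) = χ t (χ i - χ j)`).  Here `‖h (i+t) - h i‖ = ‖y i t‖ ‖χ t - 1‖ ≤ (2π t/n) ‖y i t‖`, and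
`‖χ i - χ j‖ = 2 sin (πd/n) ≥ 4 D/n` for `D ≤ d ≤ n - D`.  So, summing over `j` and the at most `n` values of `d`,
`∑_d ∑_j ‖y j d - y (j+t) d‖² ≤ 3 · 2 · n · (n²/(16 D²)) (4π²/n²) ∑_i t² ‖y i t‖² + 3 (2πT/n)² ∑_d ∑_j ‖y j d‖²`.

For `1 ≤ t < T` (the term `t = 0` vanishes) and `x = Re X i t > 0`: `t² ‖y i t‖² ≤ 8 T² (g x + (Im X/x)²)`:
`‖y‖² = (x-1)² + (Im X)²`.
If `x ≤ 2`: `(x-1)² ≤ (7/2) g x`, `(Im X)² ≤ 4 (Im X/x)²`, `t ≤ T`.
If `x > 2`: `t x ≤ (t β_t) R i t ≤ 1.001 R i T ≤ 2.01 T` (`X_re`: `Re X = β ∑ r Re (c e^{iτ}) ≤ β R`), so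
`t² (x-1)² ≤ t (t x)(x-1) ≤ T (2.01 T)(7/2) g x`, `t² (Im X)² = (t x)² (Im X/x)² ≤ 4.05 T² (Im X/x)²`.
Sum over `t < T` and divide by `T`: `C (n T/D²)(G (Ico 1 T) + N (Ico 1 T)) + 120 (T/n)² ∑∑ ‖y‖²`.
-/

namespace EHP56

open Finset

variable {n : ℕ} [NeZero n]

private theorem md_avg (T : ℕ) (hT : 1 ≤ T) (a : ℕ → ℂ) :
    ‖(∑ t ∈ range T, a t) / (T : ℂ)‖ ^ 2 ≤ (∑ t ∈ range T, ‖a t‖ ^ 2) / (T : ℝ) := by
  have hT0 : (0 : ℝ) < T := by exact_mod_cast hT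
  have h1 : ‖∑ t ∈ range T, a t‖ ≤ ∑ t ∈ range T, ‖a t‖ := norm_sum_le _ _
  have h2 : (∑ t ∈ range T, ‖a t‖) ^ 2 ≤ (T : ℝ) * ∑ t ∈ range T, ‖a t‖ ^ 2 := by
    have := sq_sum_le_card_mul_sum_sq (s := range T) (f := fun t => ‖a t‖)
    rwa [Finset.card_range] at this
  rw [norm_div, Complex.norm_natCast, div_pow, div_le_div_iff₀ (by positivity) hT0]
  have h3 : ‖∑ t ∈ range T, a t‖ ^ 2 ≤ (T : ℝ) * ∑ t ∈ range T, ‖a t‖ ^ 2 :=
    (pow_le_pow_left₀ (norm_nonneg _) h1 2).trans h2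
  calc ‖∑ t ∈ range T, a t‖ ^ 2 * T ≤ ((T : ℝ) * ∑ t ∈ range T, ‖a t‖ ^ 2) * T :=
        mul_le_mul_of_nonneg_right h3 hT0.le
    _ = _ := by ring

private theorem md_hX (z : ZMod n → ℂ) (j : ZMod n) {d : ℕ} (h1 : 1 ≤ d) (h2 : d < n) :
    (X z j d - 1) * (chi n (j + (d : ZMod n)) - chi n j)
      = (z (j + (d : ZMod n)) - chi n (j + (d : ZMod n))) - (z j - chi n j) := by
  have hne := chi_sub_ne j h1 h2
  unfold X
  rw [sub_mul, div_mul_cancel₀ _ hne]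
  ring

private theorem md_sin_le {t : ℕ} (ht : t ≤ n) :
    2 * Real.sin (Real.pi * t / n) ≤ 2 * Real.pi * t / n := by
  have : Real.sin (Real.pi * t / n) ≤ Real.pi * t / n := Real.sin_le (by positivity)
  calc 2 * Real.sin (Real.pi * t / n) ≤ 2 * (Real.pi * t / n) := by linarith
    _ = _ := by ring

private theorem md_h (z : ZMod n → ℂ) (i : ZMod n) {t : ℕ} (ht : t < n) :
    ‖(z (i + (t : ZMod n)) - chi n (i + (t : ZMod n))) - (z i - chi n i)‖
      ≤ (2 * Real.pi * t / n) * ‖X z i t - 1‖ := by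
  rcases Nat.eq_zero_or_pos t with h0 | h0
  · subst h0
    simp
  · rw [← md_hX z i h0 ht, norm_mul, norm_chi_sub i t ht.le, mul_comm]
    exact mul_le_mul_of_nonneg_right (md_sin_le ht.le) (norm_nonneg _)

private theorem md_low {d D : ℕ} (h0 : 1 ≤ D) (h1 : D ≤ d) (h2 : d ≤ n - D) (h3 : D ≤ n) (j : ZMod n) :
    4 * (D : ℝ) / n ≤ ‖chi n (j + (d : ZMod n)) - chi n j‖ := by
  have hn : (0 : ℝ) < n := by exact_mod_cast Nat.pos_of_ne_zero (NeZero.ne n)
  have hd2 : d < n := by omega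
  have hs : 2 * (D : ℝ) / n ≤ Real.sin (Real.pi * d / n) := by
    rcases le_total (2 * d) n with hc | hc
    · refine le_trans ?_ (sin_lower_two hc)
      apply div_le_div_of_nonneg_right _ hn.le
      have : (D : ℝ) ≤ d := by exact_mod_cast h1
      linarith
    · have e : Real.sin (Real.pi * d / n) = Real.sin (Real.pi * ((n - d : ℕ) : ℝ) / n) := by
        rw [Nat.cast_sub hd2.le]
        have e2 : Real.pi * ((n : ℝ) - d) / n = Real.pi - Real.pi * d / n := by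
          field_simp
        rw [e2, Real.sin_pi_sub]
      rw [e]
      refine le_trans ?_ (sin_lower_two (by omega))
      apply div_le_div_of_nonneg_right _ hn.le
      have : (D : ℝ) ≤ ((n - d : ℕ) : ℝ) := by
        have : D ≤ n - d := by omega
        exact_mod_cast this
      linarith
  rw [norm_chi_sub j d hd2.le]
  calc 4 * (D : ℝ) / n = 2 * (2 * (D : ℝ) / n) := by ring
    _ ≤ _ := by linarith

private theorem md_step (z : ZMod n → ℂ) {d D t : ℕ} (h0 : 1 ≤ D) (h1 : D ≤ d) (h2 : d ≤ n - D)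
    (h3 : D ≤ n) (ht : t < n) (j : ZMod n) :
    ‖X z j d - X z (j + (t : ZMod n)) d‖ ^ 2
      ≤ 3 * (Real.pi * t / (2 * D)) ^ 2
          * (‖X z (j + (d : ZMod n)) t - 1‖ ^ 2 + ‖X z j t - 1‖ ^ 2)
        + 3 * (2 * Real.pi * t / n) ^ 2 * ‖X z (j + (t : ZMod n)) d - 1‖ ^ 2 := by
  have hn : (0 : ℝ) < n := by exact_mod_cast Nat.pos_of_ne_zero (NeZero.ne n)
  have hD : (0 : ℝ) < D := by exact_mod_cast h0
  have hd1 : 1 ≤ d := by omega
  have hd2 : d < n := by omega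
  have hA := md_low h0 h1 h2 h3 j
  have hA0 : 0 < 4 * (D : ℝ) / n := by positivity
  have hne := chi_sub_ne j hd1 hd2
  set A : ℂ := chi n (j + (d : ZMod n)) - chi n j with hAdef
  have e1 := md_hX z j hd1 hd2
  have e2 := md_hX z (j + (t : ZMod n)) hd1 hd2
  have e3 : chi n (j + (t : ZMod n) + (d : ZMod n)) - chi n (j + (t : ZMod n))
      = chi n (t : ZMod n) * A := by
    rw [hAdef, show j + (t : ZMod n) + (d : ZMod n) = (j + (d : ZMod n)) + (t : ZMod n) by ring,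
      chi_add (j + (d : ZMod n)), chi_add j (t : ZMod n)]
    ring
  rw [e3, show j + (t : ZMod n) + (d : ZMod n) = (j + (d : ZMod n)) + (t : ZMod n) by ring] at e2
  have h4 := md_h z (j + (d : ZMod n)) ht
  have h5 := md_h z j ht
  set a := (z (j + (d : ZMod n) + (t : ZMod n)) - chi n (j + (d : ZMod n) + (t : ZMod n)))
    - (z (j + (d : ZMod n)) - chi n (j + (d : ZMod n))) with ha
  set b := (z (j + (t : ZMod n)) - chi n (j + (t : ZMod n))) - (z j - chi n j) with hb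
  have e4 : X z j d - X z (j + (t : ZMod n)) d
      = (b - a) / A + (chi n (t : ZMod n) - 1) * (X z (j + (t : ZMod n)) d - 1) := by
    rw [eq_comm, div_add' _ _ _ hne, div_eq_iff hne]
    have e1' : (X z j d - 1) * A = (z (j + (d : ZMod n)) - chi n (j + (d : ZMod n))) - (z j - chi n j) := e1
    linear_combination (-1 : ℂ) * e1' + e2
  have h6 : ‖chi n (t : ZMod n) - 1‖ ≤ 2 * Real.pi * t / n := by
    have := norm_chi_sub (n := n) 0 t ht.le
    rw [zero_add, chi_zero] at this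
    rw [this]
    exact md_sin_le ht.le
  set p := ‖X z (j + (d : ZMod n)) t - 1‖
  set q := ‖X z j t - 1‖
  set w := ‖X z (j + (t : ZMod n)) d - 1‖
  have hp : 0 ≤ p := norm_nonneg _
  have hq : 0 ≤ q := norm_nonneg _
  have hw : 0 ≤ w := norm_nonneg _
  set s : ℝ := 2 * Real.pi * t / n with hs
  have hs0 : 0 ≤ s := by positivity
  have h7 : ‖(b - a) / A‖ ≤ (Real.pi * t / (2 * D)) * p + (Real.pi * t / (2 * D)) * q := by
    rw [norm_div]
    calc ‖b - a‖ / ‖A‖ ≤ (s * q + s * p) / (4 * (D : ℝ) / n) := by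
          apply div_le_div₀ (by positivity) _ hA0 hA
          exact (norm_sub_le _ _).trans (add_le_add h5 h4)
      _ = _ := by
          rw [hs]
          field_simp
          ring
  have h8 : ‖(chi n (t : ZMod n) - 1) * (X z (j + (t : ZMod n)) d - 1)‖ ≤ s * w := by
    rw [norm_mul]
    exact mul_le_mul_of_nonneg_right h6 hw
  have h9 : ‖X z j d - X z (j + (t : ZMod n)) d‖
      ≤ (Real.pi * t / (2 * D)) * p + (Real.pi * t / (2 * D)) * q + s * w := by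
    rw [e4]
    exact (norm_add_le _ _).trans (add_le_add h7 h8)
  set m : ℝ := Real.pi * t / (2 * D) with hm
  have hm0 : 0 ≤ m := by positivity
  calc ‖X z j d - X z (j + (t : ZMod n)) d‖ ^ 2 ≤ (m * p + m * q + s * w) ^ 2 :=
        pow_le_pow_left₀ (norm_nonneg _) h9 2
    _ ≤ 3 * m ^ 2 * (p ^ 2 + q ^ 2) + 3 * s ^ 2 * w ^ 2 := by
        nlinarith [sq_nonneg (m * p - m * q), sq_nonneg (m * p - s * w), sq_nonneg (m * q - s * w)]

/-- sum over the starting points -/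
private theorem md_sum (z : ZMod n → ℂ) {d D t : ℕ} (h0 : 1 ≤ D) (h1 : D ≤ d) (h2 : d ≤ n - D)
    (h3 : D ≤ n) (ht : t < n) :
    ∑ j, ‖X z j d - X z (j + (t : ZMod n)) d‖ ^ 2
      ≤ 6 * (Real.pi / (2 * D)) ^ 2 * ((t : ℝ) ^ 2 * ∑ i, ‖X z i t - 1‖ ^ 2)
        + 3 * (2 * Real.pi * t / n) ^ 2 * ∑ j, ‖X z j d - 1‖ ^ 2 := by
  have h := Finset.sum_le_sum (s := (Finset.univ : Finset (ZMod n)))
    (fun j _ => md_step z h0 h1 h2 h3 ht j)
  refine h.trans (le_of_eq ?_)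
  rw [Finset.sum_add_distrib, ← Finset.mul_sum, ← Finset.mul_sum, Finset.sum_add_distrib,
    sum_shift (fun j => ‖X z j t - 1‖ ^ 2) (d : ZMod n),
    sum_shift (fun j => ‖X z j d - 1‖ ^ 2) (t : ZMod n)]
  ring

private theorem md_re_le {ε : ℝ} (P : Loc n ε) (j : ZMod n) {d : ℕ} (h1 : 1 ≤ d) (h2 : d < n) :
    (X P.z j d).re ≤ beta n d * P.R j d := by
  rw [P.X_re j h1 h2]
  refine mul_le_mul_of_nonneg_left (Finset.sum_le_sum fun l _ => ?_) (beta_pos h1 h2).le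
  have hc : (P.c (j + (l : ZMod n))).re ^ 2 + (P.c (j + (l : ZMod n))).im ^ 2 = 1 := by
    have h := P.c_norm (j + (l : ZMod n))
    have h2 : ‖P.c (j + (l : ZMod n))‖ ^ 2 = 1 := by rw [h]; norm_num
    rw [← Complex.normSq_eq_norm_sq, Complex.normSq_apply] at h2
    nlinarith
  have hr := P.r_pos (j + (l : ZMod n))
  have hsc := Real.sin_sq_add_cos_sq (tau n d l)
  unfold Loc.q Loc.p
  set a := (P.c (j + (l : ZMod n))).re
  set b := (P.c (j + (l : ZMod n))).im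
  set s := Real.sin (tau n d l)
  set c := Real.cos (tau n d l)
  have h6 : a * c - b * s ≤ 1 := by
    nlinarith [sq_nonneg (a - c), sq_nonneg (b + s)]
  calc P.r (j + (l : ZMod n)) * a * c - P.r (j + (l : ZMod n)) * b * s
      = P.r (j + (l : ZMod n)) * (a * c - b * s) := by ring
    _ ≤ P.r (j + (l : ZMod n)) * 1 := mul_le_mul_of_nonneg_left h6 hr.le
    _ = _ := mul_one _

private theorem md_R_mono {ε : ℝ} (P : Loc n ε) (j : ZMod n) {t T : ℕ} (h : t ≤ T) :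
    P.R j t ≤ P.R j T := by
  unfold Loc.R
  exact Finset.sum_le_sum_of_subset_of_nonneg (Finset.range_mono h) fun i _ _ => (P.r_pos _).le

/-- short blocks -/
private theorem md_short {ε : ℝ} (P : Loc n ε) (hε : ε ≤ 1 / 100) {T t : ℕ} (hR : ∀ j, P.R j T ≤ 2 * T)
    (h1 : 1 ≤ t) (h2 : t < T) (hTn : 100 * T ≤ n) (i : ZMod n) :
    (t : ℝ) ^ 2 * ‖X P.z i t - 1‖ ^ 2
      ≤ 8 * (T : ℝ) ^ 2 * (g (X P.z i t).re + ((X P.z i t).im / (X P.z i t).re) ^ 2) := by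
  have htn : t < n := by omega
  have hn : (0 : ℝ) < n := by exact_mod_cast Nat.pos_of_ne_zero (NeZero.ne n)
  have ht0 : (1 : ℝ) ≤ t := by exact_mod_cast h1
  have htT : (t : ℝ) ≤ T := by exact_mod_cast h2.le
  have hx0 := P.X_re_pos hε i h1 htn
  have hxu := md_re_le P i h1 htn
  have hnorm : ‖X P.z i t - 1‖ ^ 2 = ((X P.z i t).re - 1) ^ 2 + (X P.z i t).im ^ 2 := by
    rw [← Complex.normSq_eq_norm_sq, Complex.normSq_apply, Complex.sub_re, Complex.sub_im,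
      Complex.one_re, Complex.one_im]
    ring
  rw [hnorm]
  set x := (X P.z i t).re with hx
  set v := (X P.z i t).im with hv
  have hg := g_nonneg hx0
  have hvx : v ^ 2 = x ^ 2 * (v / x) ^ 2 := by
    field_simp
  set w := (v / x) ^ 2 with hw
  have hw0 : 0 ≤ w := sq_nonneg _
  have hT0 : (0 : ℝ) < T := by linarith
  rcases le_or_gt x 2 with hc | hc
  · have h3 := sq_le_g hx0 (by linarith : x ≤ 21 / 10)
    have h4 : v ^ 2 ≤ 4 * w := by
      rw [hvx]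
      apply mul_le_mul_of_nonneg_right _ hw0
      nlinarith
    have h5 : (t : ℝ) ^ 2 ≤ (T : ℝ) ^ 2 := pow_le_pow_left₀ (by linarith) htT 2
    calc (t : ℝ) ^ 2 * ((x - 1) ^ 2 + v ^ 2) ≤ (T : ℝ) ^ 2 * (8 * (g x + w)) := by
          apply mul_le_mul h5 _ (by positivity) (by positivity)
          linarith
      _ = _ := by ring
  · have hβ := beta_upper_small h1 (by omega : 100 * t ≤ n)
    have hβ0 := beta_pos h1 htn
    have hy : (t : ℝ) / n ≤ 1 / 100 := by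
      rw [div_le_iff₀ hn]
      have : 100 * (t : ℝ) ≤ n := by
        have : 100 * t ≤ n := by omega
        exact_mod_cast this
      linarith
    have hy0 : 0 ≤ (t : ℝ) / n := by positivity
    have h3 : (t : ℝ) * x ≤ 201 / 100 * T := by
      have hRt : P.R i t ≤ 2 * T := (md_R_mono P i h2.le).trans (hR i)
      calc (t : ℝ) * x ≤ t * (beta n t * P.R i t) := mul_le_mul_of_nonneg_left hxu (by linarith)
        _ ≤ t * (beta n t * (2 * T)) := by
            apply mul_le_mul_of_nonneg_left _ (by linarith)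
            exact mul_le_mul_of_nonneg_left hRt hβ0.le
        _ = (t * beta n t) * (2 * T) := by ring
        _ ≤ (201 / 200) * (2 * T) := by
            apply mul_le_mul_of_nonneg_right _ (by positivity)
            nlinarith
        _ = _ := by ring
    have h4 := lin_le_g hc.le
    have h5 : (t : ℝ) ^ 2 * (x - 1) ^ 2 ≤ 8 * (T : ℝ) ^ 2 * g x := by
      calc (t : ℝ) ^ 2 * (x - 1) ^ 2 ≤ (t : ℝ) ^ 2 * (x * (x - 1)) := by
            apply mul_le_mul_of_nonneg_left _ (by positivity)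
            nlinarith
        _ = t * ((t * x) * (x - 1)) := by ring
        _ ≤ T * ((201 / 100 * T) * (7 / 2 * g x)) := by
            apply mul_le_mul htT _ (by
              apply mul_nonneg
              · positivity
              · linarith) hT0.le
            apply mul_le_mul h3 h4 (by linarith) (by positivity)
        _ ≤ 8 * (T : ℝ) ^ 2 * g x := by nlinarith [mul_nonneg (sq_nonneg (T : ℝ)) hg]
    have h6 : (t : ℝ) ^ 2 * v ^ 2 ≤ 8 * (T : ℝ) ^ 2 * w := by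
      calc (t : ℝ) ^ 2 * v ^ 2 = (t * x) ^ 2 * w := by rw [hvx]; ring
        _ ≤ (201 / 100 * T) ^ 2 * w := by
            apply mul_le_mul_of_nonneg_right _ hw0
            exact pow_le_pow_left₀ (by positivity) h3 2
        _ ≤ 8 * (T : ℝ) ^ 2 * w := by nlinarith [mul_nonneg (sq_nonneg (T : ℝ)) hw0]
    calc (t : ℝ) ^ 2 * ((x - 1) ^ 2 + v ^ 2) = (t : ℝ) ^ 2 * (x - 1) ^ 2 + (t : ℝ) ^ 2 * v ^ 2 := by ring
      _ ≤ 8 * (T : ℝ) ^ 2 * g x + 8 * (T : ℝ) ^ 2 * w := add_le_add h5 h6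
      _ = _ := by ring

theorem macro_diff : ∃ C : ℝ, 0 < C ∧ ∀ (n : ℕ) [NeZero n] (ε : ℝ) (P : Loc n ε) (T D : ℕ),
    0 ≤ ε → ε ≤ 1 / 100 → 1 ≤ T → T ≤ D → 100 * D ≤ n → (∀ j, P.R j T ≤ 2 * T) →
    ∑ d ∈ Icc D (n - D), ∑ j, ‖X P.z j d - X (smooth T P.z) j d‖ ^ 2
      ≤ C * ((n : ℝ) * T / (D : ℝ) ^ 2 * (P.G (Ico 1 T) + P.N (Ico 1 T))
        + ((T : ℝ) / n) ^ 2 * ∑ d ∈ Icc D (n - D), ∑ j, ‖X P.z j d - 1‖ ^ 2) := by
  refine ⟨120, by norm_num, ?_⟩
  intro n _ ε P T D _ hε hT hTD hDn hR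
  have hn : (0 : ℝ) < n := by exact_mod_cast Nat.pos_of_ne_zero (NeZero.ne n)
  have hD1 : 1 ≤ D := by omega
  have hD : (0 : ℝ) < D := by exact_mod_cast hD1
  have hT0 : (0 : ℝ) < T := by exact_mod_cast hT
  have hpi : Real.pi ^ 2 ≤ 10 := by
    have h1 := Real.pi_lt_d2
    have h2 := Real.pi_pos
    nlinarith
  -- one block
  have hone : ∀ d ∈ Icc D (n - D), ∑ j, ‖X P.z j d - X (smooth T P.z) j d‖ ^ 2
      ≤ (∑ t ∈ range T, ∑ j, ‖X P.z j d - X P.z (j + (t : ZMod n)) d‖ ^ 2) / (T : ℝ) := by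
    intro d hd
    rw [Finset.mem_Icc] at hd
    have hd1 : 1 ≤ d := by omega
    have hd2 : d < n := by omega
    rw [Finset.sum_comm, Finset.sum_div]
    refine Finset.sum_le_sum fun j _ => ?_
    have e : X P.z j d - X (smooth T P.z) j d
        = (∑ t ∈ range T, (X P.z j d - X P.z (j + (t : ZMod n)) d)) / (T : ℂ) := by
      rw [X_smooth T hT P.z j hd1 hd2, Finset.sum_sub_distrib, Finset.sum_const, Finset.card_range,
        nsmul_eq_mul]
      have hTc : (T : ℂ) ≠ 0 := by exact_mod_cast hT0.ne'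
      field_simp
    rw [e]
    exact md_avg T hT _
  set S : ℝ := ∑ d ∈ Icc D (n - D), ∑ j, ‖X P.z j d - 1‖ ^ 2 with hS
  have hS0 : 0 ≤ S := Finset.sum_nonneg fun d _ => Finset.sum_nonneg fun j _ => sq_nonneg _
  -- one shift
  have hshift : ∀ t ∈ range T, ∑ d ∈ Icc D (n - D), ∑ j, ‖X P.z j d - X P.z (j + (t : ZMod n)) d‖ ^ 2
      ≤ n * (6 * (Real.pi / (2 * D)) ^ 2 * ((t : ℝ) ^ 2 * ∑ i, ‖X P.z i t - 1‖ ^ 2))
        + 3 * (2 * Real.pi * T / n) ^ 2 * S := by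
    intro t ht
    rw [Finset.mem_range] at ht
    have htn : t < n := by omega
    have htT : (t : ℝ) ≤ T := by exact_mod_cast ht.le
    have hB : 0 ≤ 6 * (Real.pi / (2 * D)) ^ 2 * ((t : ℝ) ^ 2 * ∑ i, ‖X P.z i t - 1‖ ^ 2) := by
      have : 0 ≤ ∑ i, ‖X P.z i t - 1‖ ^ 2 := Finset.sum_nonneg fun i _ => sq_nonneg _
      positivity
    calc ∑ d ∈ Icc D (n - D), ∑ j, ‖X P.z j d - X P.z (j + (t : ZMod n)) d‖ ^ 2
        ≤ ∑ d ∈ Icc D (n - D), (6 * (Real.pi / (2 * D)) ^ 2 * ((t : ℝ) ^ 2 * ∑ i, ‖X P.z i t - 1‖ ^ 2)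
            + 3 * (2 * Real.pi * T / n) ^ 2 * ∑ j, ‖X P.z j d - 1‖ ^ 2) := by
          refine Finset.sum_le_sum fun d hd => ?_
          rw [Finset.mem_Icc] at hd
          refine (md_sum P.z hD1 hd.1 hd.2 (by omega) htn).trans ?_
          gcongr
      _ = ((Icc D (n - D)).card : ℝ) * (6 * (Real.pi / (2 * D)) ^ 2 * ((t : ℝ) ^ 2 * ∑ i, ‖X P.z i t - 1‖ ^ 2))
            + 3 * (2 * Real.pi * T / n) ^ 2 * S := by
          rw [Finset.sum_add_distrib, Finset.sum_const, nsmul_eq_mul, ← Finset.mul_sum]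
      _ ≤ _ := by
          refine add_le_add ?_ le_rfl
          refine mul_le_mul_of_nonneg_right ?_ hB
          rw [Nat.card_Icc]
          have : n - D + 1 - D ≤ n := by omega
          exact_mod_cast this
  -- short blocks
  have hmass : ∑ t ∈ range T, ((t : ℝ) ^ 2 * ∑ i, ‖X P.z i t - 1‖ ^ 2)
      ≤ 8 * (T : ℝ) ^ 2 * (P.G (Ico 1 T) + P.N (Ico 1 T)) := by
    have e : ∑ t ∈ range T, ((t : ℝ) ^ 2 * ∑ i, ‖X P.z i t - 1‖ ^ 2)
        = ∑ t ∈ Ico 1 T, ((t : ℝ) ^ 2 * ∑ i, ‖X P.z i t - 1‖ ^ 2) := by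
      rw [Finset.range_eq_Ico, Finset.sum_eq_sum_Ico_succ_bot (by omega)]
      simp
    rw [e]
    unfold Loc.G Loc.N
    rw [← Finset.sum_add_distrib, Finset.mul_sum]
    refine Finset.sum_le_sum fun t ht => ?_
    rw [Finset.mem_Ico] at ht
    rw [← Finset.sum_add_distrib, Finset.mul_sum, Finset.mul_sum]
    exact Finset.sum_le_sum fun i _ => md_short P hε hR ht.1 ht.2 (by omega) i
  set W : ℝ := P.G (Ico 1 T) + P.N (Ico 1 T) with hW
  calc ∑ d ∈ Icc D (n - D), ∑ j, ‖X P.z j d - X (smooth T P.z) j d‖ ^ 2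
      ≤ ∑ d ∈ Icc D (n - D), (∑ t ∈ range T, ∑ j, ‖X P.z j d - X P.z (j + (t : ZMod n)) d‖ ^ 2) / (T : ℝ) :=
        Finset.sum_le_sum hone
    _ = (∑ t ∈ range T, ∑ d ∈ Icc D (n - D), ∑ j, ‖X P.z j d - X P.z (j + (t : ZMod n)) d‖ ^ 2) / (T : ℝ) := by
        rw [← Finset.sum_div, Finset.sum_comm]
    _ ≤ (∑ t ∈ range T, (n * (6 * (Real.pi / (2 * D)) ^ 2 * ((t : ℝ) ^ 2 * ∑ i, ‖X P.z i t - 1‖ ^ 2))
        + 3 * (2 * Real.pi * T / n) ^ 2 * S)) / (T : ℝ) := by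
        refine div_le_div_of_nonneg_right (Finset.sum_le_sum hshift) hT0.le
    _ = (n * (6 * (Real.pi / (2 * D)) ^ 2 * ∑ t ∈ range T, ((t : ℝ) ^ 2 * ∑ i, ‖X P.z i t - 1‖ ^ 2))
        + T * (3 * (2 * Real.pi * T / n) ^ 2 * S)) / (T : ℝ) := by
        rw [Finset.sum_add_distrib, ← Finset.mul_sum, ← Finset.mul_sum, Finset.sum_const,
          Finset.card_range, nsmul_eq_mul]
    _ ≤ (n * (6 * (Real.pi / (2 * D)) ^ 2 * (8 * (T : ℝ) ^ 2 * W))
        + T * (3 * (2 * Real.pi * T / n) ^ 2 * S)) / (T : ℝ) := by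
        gcongr
    _ = Real.pi ^ 2 * (12 * ((n : ℝ) * T / (D : ℝ) ^ 2 * W + ((T : ℝ) / n) ^ 2 * S)) := by
        field_simp
        ring
    _ ≤ 10 * (12 * ((n : ℝ) * T / (D : ℝ) ^ 2 * W + ((T : ℝ) / n) ^ 2 * S)) := by
        refine mul_le_mul_of_nonneg_right hpi ?_
        have hW0 : 0 ≤ W := by
          have h8 : 0 ≤ 8 * (T : ℝ) ^ 2 * W := by
            refine le_trans ?_ hmass
            refine Finset.sum_nonneg fun t _ => ?_
            have : 0 ≤ ∑ i, ‖X P.z i t - 1‖ ^ 2 := Finset.sum_nonneg fun i _ => sq_nonneg _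
            positivity
          by_contra hneg
          push_neg at hneg
          have : 8 * (T : ℝ) ^ 2 * W < 0 := mul_neg_of_pos_of_neg (by positivity) hneg
          linarith
        positivity
    _ = _ := by ring

end EHP56
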