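import Pool.Agent.EHP56.MicroBlock

/-!
# Short blocks: the sum (module B3)

Blocks `1 ≤ d < D`, `G = P.G (Ico 1 D)`, `x = Re X j d`, `u = P.u j d`, `Γ = gam P j`, `Gu = ∑_{1≤d<D} ∑_j g (u j d)`.

1. `Γ(m)² ≤ 7 D m g (u j m)` for `1 ≤ m < D`: `Γ m = m (u-1)` (`gam_eq`), `m u ≤ R j m ≤ R j D ≤ 2D`;
   if `u ≤ 2`: `m (u-1)² ≤ D (7/2) g u` (`sq_le_g`); if `u > 2`: `m (u-1)² ≤ (m u)(u-1) ≤ 2D (7/2) g u` (`lin_le_g`).
2. `∑_j ellsum P j d = d L0`.
3. `g_compare` (with `block_close`) and `block_xi` (if `1/2 ≤ u ≤ 2`, `R ≤ 1.01 d u ≤ 2.02 d`):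
   `g u ≤ 8 g x + (3200/n⁴)(d² Γ(d)² + d ∑_{m<d} Γ(m)²) + (202 d/n²) ellsum`.
   `∑_{d<D} (d² Γ(d)² + d ∑_{m<d} Γ(m)²) ≤ 2 D² ∑_{m<D} Γ(m)² ≤ 14 D⁴ ∑_{1≤m<D} g (u j m)`.  Hence
   `Gu ≤ 8 G + 44800 (D/n)⁴ Gu + 202 (D³/n²) L0`, and `(D/n)⁴ ≤ 10⁻⁸` gives `Gu ≤ 16 G + n L0`.
4. If `u < 1/2` or `u > 2` then `g x ≥ 1/43` (`g_small`, `lin_le_g`, `g_compare`), so by `block_im'`
   `(Im X/x)² ≤ 43 (40 (D/n)² + 10 ε²) g x`.
   If `1/2 ≤ u ≤ 2`, by `block_im`: `(Im X/x)² ≤ (800/n²)(Γ(d)² + (1/d) ∑_{m<d} Γ(m)²) + (10/d) ellsum`.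
   `∑_{d<D} (Γ(d)² + (1/d)∑_{m<d} Γ(m)²) ≤ ∑_{1≤m<D} Γ(m)² (1 + D/m) ≤ 14 D² ∑_m g (u j m)`.
   So `N ≤ 43 (40 (D/n)² + 10 ε²) G + 11200 (D/n)² Gu + 10 D L0 ≤ C (D/n + ε²)(n L0 + G)`.
-/

namespace EHP56

open Finset

section

variable {n : ℕ} [NeZero n] {ε : ℝ}

theorem L0_nonneg (P : Loc n ε) : 0 ≤ P.L0 :=
  Finset.sum_nonneg fun k _ => ell_nonneg P k

theorem ellsum_nonneg (P : Loc n ε) (j : ZMod n) (d : ℕ) : 0 ≤ ellsum P j d :=
  Finset.sum_nonneg fun _ _ => ell_nonneg P _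

theorem sum_ellsum (P : Loc n ε) (d : ℕ) : ∑ j, ellsum P j d = d * P.L0 := by
  unfold ellsum
  rw [Finset.sum_comm]
  have h : ∀ l ∈ range d, ∑ j : ZMod n, P.ell (j + (l : ZMod n)) = P.L0 := by
    intro l _
    exact Equiv.sum_comp (Equiv.addRight (l : ZMod n)) (fun k => P.ell k)
  rw [Finset.sum_congr rfl h, Finset.sum_const, Finset.card_range, nsmul_eq_mul]

theorem R_mono (P : Loc n ε) (j : ZMod n) {m D : ℕ} (h : m ≤ D) : P.R j m ≤ P.R j D := by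
  unfold Loc.R
  apply Finset.sum_le_sum_of_subset_of_nonneg
  · exact Finset.range_mono h
  · intro i _ _
    exact (P.r_pos _).le

theorem gam_sq (P : Loc n ε) (hε0 : 0 ≤ ε) (hε : ε ≤ 1 / 100) (j : ZMod n) {m D : ℕ} (h1 : 1 ≤ m)
    (h2 : m ≤ D) (hR : P.R j D ≤ 2 * D) :
    gam P j m ^ 2 ≤ 7 * D * m * g (P.u j m) := by
  have hu := u_pos P hε j h1
  have hm : (1 : ℝ) ≤ m := by exact_mod_cast h1
  have hmD : (m : ℝ) ≤ D := by exact_mod_cast h2
  rw [gam_eq P j h1]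
  have hRu := (R_le_u P hε0 hε j h1).1
  have hRm := R_mono P j h2
  set u := P.u j m with hu'
  have hg : 0 ≤ g u := g_nonneg hu
  rcases le_or_gt u 2 with h | h
  · have hsq := sq_le_g hu (by linarith : u ≤ 21 / 10)
    have e1 : ((m : ℝ) * (u - 1)) ^ 2 = m * (m * (u - 1) ^ 2) := by ring
    rw [e1]
    have e2 : (m : ℝ) * (u - 1) ^ 2 ≤ D * (7 / 2 * g u) :=
      mul_le_mul hmD hsq (sq_nonneg _) (by linarith)
    have e3 : (m : ℝ) * (m * (u - 1) ^ 2) ≤ m * (D * (7 / 2 * g u)) :=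
      mul_le_mul_of_nonneg_left e2 (by linarith)
    have e4 : 0 ≤ (m : ℝ) * (D * g u) := by positivity
    nlinarith
  · have hlin := lin_le_g h.le
    have e1 : ((m : ℝ) * (u - 1)) ^ 2 = m * ((m * (u - 1)) * (u - 1)) := by ring
    rw [e1]
    have e2 : ((m : ℝ) * (u - 1)) * (u - 1) ≤ (2 * D) * (7 / 2 * g u) := by
      apply mul_le_mul _ hlin (by linarith) (by linarith)
      nlinarith
    have e3 : (m : ℝ) * ((m * (u - 1)) * (u - 1)) ≤ m * ((2 * D) * (7 / 2 * g u)) :=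
      mul_le_mul_of_nonneg_left e2 (by linarith)
    nlinarith

/-- `S j = ∑_{1 ≤ m < D} g (u j m)` -/
noncomputable def Su (P : Loc n ε) (D : ℕ) (j : ZMod n) : ℝ := ∑ m ∈ Ico 1 D, g (P.u j m)

theorem Su_nonneg (P : Loc n ε) (hε : ε ≤ 1 / 100) (D : ℕ) (j : ZMod n) : 0 ≤ Su P D j := by
  apply Finset.sum_nonneg
  intro m hm
  rw [Finset.mem_Ico] at hm
  exact g_nonneg (u_pos P hε j hm.1)

theorem sum_gam_sq (P : Loc n ε) (hε0 : 0 ≤ ε) (hε : ε ≤ 1 / 100) (j : ZMod n) {d D : ℕ} (h1 : 1 ≤ d)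
    (h2 : d ≤ D) (hR : P.R j D ≤ 2 * D) :
    ∑ m ∈ range d, gam P j m ^ 2 ≤ 7 * D * d * Su P D j := by
  have h0 : ∑ m ∈ range d, gam P j m ^ 2 = ∑ m ∈ Ico 1 d, gam P j m ^ 2 := by
    rw [Finset.range_eq_Ico, Finset.sum_eq_sum_Ico_succ_bot (by omega)]
    have : gam P j 0 = 0 := by unfold gam; simp
    rw [this]; simp
  rw [h0]
  have h3 : ∑ m ∈ Ico 1 d, gam P j m ^ 2 ≤ ∑ m ∈ Ico 1 d, 7 * D * d * g (P.u j m) := by
    apply Finset.sum_le_sum
    intro m hm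
    rw [Finset.mem_Ico] at hm
    have h4 := gam_sq P hε0 hε j hm.1 (by omega : m ≤ D) hR
    have hg : 0 ≤ g (P.u j m) := g_nonneg (u_pos P hε j hm.1)
    have hmd : (m : ℝ) ≤ d := by exact_mod_cast hm.2.le
    have hD : (0 : ℝ) ≤ D := Nat.cast_nonneg D
    have h5 : 7 * (D : ℝ) * m * g (P.u j m) ≤ 7 * D * d * g (P.u j m) := by
      apply mul_le_mul_of_nonneg_right _ hg
      nlinarith
    linarith
  refine h3.trans ?_
  rw [← Finset.mul_sum]
  apply mul_le_mul_of_nonneg_left _ (by positivity)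
  unfold Su
  apply Finset.sum_le_sum_of_subset_of_nonneg
  · intro x hx
    rw [Finset.mem_Ico] at hx ⊢
    omega
  · intro m hm _
    rw [Finset.mem_Ico] at hm
    exact g_nonneg (u_pos P hε j hm.1)

theorem re_pos (P : Loc n ε) (hε0 : 0 ≤ ε) (hε : ε ≤ 1 / 100) (j : ZMod n) {d : ℕ} (h1 : 1 ≤ d)
    (h2 : 100 * d ≤ n) : 0 < (X P.z j d).re := by
  have h := block_close P hε0 hε j h1 h2
  have hu := u_pos P hε j h1
  rw [abs_le] at h
  linarith [h.1]

/-- pointwise form of step 3 -/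
theorem micro_g (P : Loc n ε) (hε0 : 0 ≤ ε) (hε : ε ≤ 1 / 100) (j : ZMod n) {d D : ℕ} (h1 : 1 ≤ d)
    (h2 : d < D) (hD : 100 * D ≤ n) (hR : P.R j D ≤ 2 * D) :
    g (P.u j d) ≤ 8 * g (X P.z j d).re
      + 3200 / (n : ℝ) ^ 4 * (7 * D ^ 4 * g (P.u j d) + 7 * D ^ 3 * Su P D j)
      + 202 * D / (n : ℝ) ^ 2 * ellsum P j d := by
  have hn : (0 : ℝ) < n := by exact_mod_cast Nat.pos_of_ne_zero (NeZero.ne n)
  have h3 : 100 * d ≤ n := by omega
  have hu := u_pos P hε j h1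
  have hgu := g_nonneg hu
  have hc := block_close P hε0 hε j h1 h3
  have hcmp := g_compare hu hc
  have hS := Su_nonneg P hε D j
  have hell := ellsum_nonneg P j d
  have hd1 : (1 : ℝ) ≤ d := by exact_mod_cast h1
  have hdD : (d : ℝ) ≤ D := by exact_mod_cast h2.le
  have hD1 : (1 : ℝ) ≤ D := by linarith
  have hp1 : 0 ≤ 3200 / (n : ℝ) ^ 4 * (7 * D ^ 4 * g (P.u j d) + 7 * D ^ 3 * Su P D j) := by
    positivity
  have hp2 : 0 ≤ 202 * D / (n : ℝ) ^ 2 * ellsum P j d := by positivity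
  split_ifs at hcmp with hcase
  · have hxi := block_xi P hε0 hε j h1 h3
    have hRu := (R_le_u P hε0 hε j h1).2
    have hR2 : P.R j d ≤ 202 / 100 * d := by nlinarith [hcase.2]
    have hgs := gam_sq P hε0 hε j h1 h2.le hR
    have hsg := sum_gam_sq P hε0 hε j h1 h2.le hR
    have a1 : (d : ℝ) ^ 2 * gam P j d ^ 2 ≤ 7 * D ^ 4 * g (P.u j d) := by
      have b1 : (d : ℝ) ^ 2 * gam P j d ^ 2 ≤ (D : ℝ) ^ 2 * (7 * D * D * g (P.u j d)) := by
        apply mul_le_mul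
        · exact pow_le_pow_left₀ (by linarith) hdD 2
        · refine hgs.trans ?_
          apply mul_le_mul_of_nonneg_right _ hgu
          nlinarith
        · positivity
        · positivity
      nlinarith
    have a2 : (d : ℝ) * ∑ m ∈ range d, gam P j m ^ 2 ≤ 7 * D ^ 3 * Su P D j := by
      have b1 : (d : ℝ) * ∑ m ∈ range d, gam P j m ^ 2 ≤ (D : ℝ) * (7 * D * D * Su P D j) := by
        apply mul_le_mul hdD
        · refine hsg.trans ?_
          apply mul_le_mul_of_nonneg_right _ hS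
          nlinarith
        · exact Finset.sum_nonneg fun _ _ => sq_nonneg _
        · positivity
      nlinarith
    have a3 : P.R j d * ellsum P j d ≤ 202 / 100 * D * ellsum P j d := by
      apply mul_le_mul_of_nonneg_right _ hell
      linarith
    have c1 : 1600 / (n : ℝ) ^ 4 * ((d : ℝ) ^ 2 * gam P j d ^ 2 + d * ∑ m ∈ range d, gam P j m ^ 2)
        ≤ 1600 / (n : ℝ) ^ 4 * (7 * D ^ 4 * g (P.u j d) + 7 * D ^ 3 * Su P D j) := by
      apply mul_le_mul_of_nonneg_left _ (by positivity)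
      linarith
    have c2 : 50 / (n : ℝ) ^ 2 * (P.R j d * ellsum P j d)
        ≤ 50 / (n : ℝ) ^ 2 * (202 / 100 * D * ellsum P j d) := by
      apply mul_le_mul_of_nonneg_left a3 (by positivity)
    have c3 : 50 / (n : ℝ) ^ 2 * (202 / 100 * D * ellsum P j d)
        = 1 / 2 * (202 * D / (n : ℝ) ^ 2 * ellsum P j d) := by ring
    have c4 : 1600 / (n : ℝ) ^ 4 * (7 * D ^ 4 * g (P.u j d) + 7 * D ^ 3 * Su P D j)
        = 1 / 2 * (3200 / (n : ℝ) ^ 4 * (7 * D ^ 4 * g (P.u j d) + 7 * D ^ 3 * Su P D j)) := by ring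
    linarith
  · linarith

/-- pointwise form of step 4 -/
theorem micro_im (P : Loc n ε) (hε0 : 0 ≤ ε) (hε : ε ≤ 1 / 100) (j : ZMod n) {d D : ℕ} (h1 : 1 ≤ d)
    (h2 : d < D) (hD : 100 * D ≤ n) (hR : P.R j D ≤ 2 * D) :
    ((X P.z j d).im / (X P.z j d).re) ^ 2
      ≤ 43 * (40 * ((D : ℝ) / n) ^ 2 + 10 * ε ^ 2) * g (X P.z j d).re
      + 800 / (n : ℝ) ^ 2 * (7 * D ^ 2 * g (P.u j d) + 7 * D * Su P D j)
      + 10 / d * ellsum P j d := by
  have hn : (0 : ℝ) < n := by exact_mod_cast Nat.pos_of_ne_zero (NeZero.ne n)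
  have h3 : 100 * d ≤ n := by omega
  have hu := u_pos P hε j h1
  have hgu := g_nonneg hu
  have hx := re_pos P hε0 hε j h1 h3
  have hgx := g_nonneg hx
  have hS := Su_nonneg P hε D j
  have hell := ellsum_nonneg P j d
  have hd1 : (1 : ℝ) ≤ d := by exact_mod_cast h1
  have hdD : (d : ℝ) ≤ D := by exact_mod_cast h2.le
  have hD1 : (1 : ℝ) ≤ D := by linarith
  have hd0 : (0 : ℝ) < d := by linarith
  have hp0 : 0 ≤ 43 * (40 * ((D : ℝ) / n) ^ 2 + 10 * ε ^ 2) * g (X P.z j d).re := by positivity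
  have hp1 : 0 ≤ 800 / (n : ℝ) ^ 2 * (7 * D ^ 2 * g (P.u j d) + 7 * D * Su P D j) := by
    positivity
  have hp2 : 0 ≤ 10 / d * ellsum P j d := by positivity
  by_cases hcase : 1 / 2 ≤ P.u j d ∧ P.u j d ≤ 2
  · have him := block_im P hε0 hε j h1 h3
    have hgs := gam_sq P hε0 hε j h1 h2.le hR
    have hsg := sum_gam_sq P hε0 hε j h1 h2.le hR
    have hu2 : 1 / 4 ≤ P.u j d ^ 2 := by nlinarith [hcase.1]
    have a1 : gam P j d ^ 2 ≤ 7 * D ^ 2 * g (P.u j d) := by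
      refine hgs.trans ?_
      apply mul_le_mul_of_nonneg_right _ hgu
      nlinarith
    have a2 : 1 / (d : ℝ) * ∑ m ∈ range d, gam P j m ^ 2 ≤ 7 * D * Su P D j := by
      calc 1 / (d : ℝ) * ∑ m ∈ range d, gam P j m ^ 2 ≤ 1 / (d : ℝ) * (7 * D * d * Su P D j) := by
            apply mul_le_mul_of_nonneg_left hsg (by positivity)
        _ = 7 * D * Su P D j := by field_simp
    have a0 : 0 ≤ gam P j d ^ 2 + 1 / (d : ℝ) * ∑ m ∈ range d, gam P j m ^ 2 := by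
      have : 0 ≤ ∑ m ∈ range d, gam P j m ^ 2 := Finset.sum_nonneg fun _ _ => sq_nonneg _
      positivity
    have c1 : 200 / ((n : ℝ) ^ 2 * P.u j d ^ 2) ≤ 800 / (n : ℝ) ^ 2 := by
      rw [div_le_div_iff₀ (by positivity) (by positivity)]
      have : 0 < (n : ℝ) ^ 2 := by positivity
      nlinarith
    have c2 : 5 / ((d : ℝ) * P.u j d) ≤ 10 / d := by
      rw [div_le_div_iff₀ (by positivity) hd0]
      nlinarith [hcase.1]
    have c3 : 200 / ((n : ℝ) ^ 2 * P.u j d ^ 2)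
        * (gam P j d ^ 2 + 1 / (d : ℝ) * ∑ m ∈ range d, gam P j m ^ 2)
        ≤ 800 / (n : ℝ) ^ 2 * (7 * D ^ 2 * g (P.u j d) + 7 * D * Su P D j) := by
      apply mul_le_mul c1 _ a0 (by positivity)
      linarith
    have c4 : 5 / ((d : ℝ) * P.u j d) * ellsum P j d ≤ 10 / d * ellsum P j d :=
      mul_le_mul_of_nonneg_right c2 hell
    linarith
  · have hc := block_close P hε0 hε j h1 h3
    have hcmp := g_compare hu hc
    rw [if_neg hcase] at hcmp
    have hgx43 : 1 / 43 ≤ g (X P.z j d).re := by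
      rcases lt_or_ge (P.u j d) (1 / 2) with h | h
      · have := g_small hu h.le
        linarith
      · have h' : 2 < P.u j d := by
          by_contra hh
          exact hcase ⟨h, not_lt.mp hh⟩
        have := lin_le_g h'.le
        linarith
    have him := block_im' P hε0 hε j h1 h3
    have hdn : ((d : ℝ) / n) ^ 2 ≤ ((D : ℝ) / n) ^ 2 := by
      apply pow_le_pow_left₀ (by positivity)
      exact div_le_div_of_nonneg_right hdD hn.le
    have hA : 0 ≤ 40 * ((D : ℝ) / n) ^ 2 + 10 * ε ^ 2 := by positivity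
    have : 40 * ((D : ℝ) / n) ^ 2 + 10 * ε ^ 2
        ≤ 43 * (40 * ((D : ℝ) / n) ^ 2 + 10 * ε ^ 2) * g (X P.z j d).re := by
      nlinarith
    linarith

end

theorem micro : ∃ C : ℝ, 0 < C ∧ ∀ (n : ℕ) [NeZero n] (ε : ℝ) (P : Loc n ε) (D : ℕ),
    0 ≤ ε → ε ≤ 1 / 100 → 1 ≤ D → 100 * D ≤ n → (∀ j, P.R j D ≤ 2 * D) →
    P.N (Ico 1 D) ≤ C * ((D : ℝ) / n + ε ^ 2) * (n * P.L0 + P.G (Ico 1 D)) := by
  refine ⟨2000, by norm_num, ?_⟩
  intro n _ ε P D hε0 hε hD1 hD hR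
  have hn : (0 : ℝ) < n := by exact_mod_cast Nat.pos_of_ne_zero (NeZero.ne n)
  have hDr : (1 : ℝ) ≤ D := by exact_mod_cast hD1
  have hDn : 100 * (D : ℝ) ≤ n := by exact_mod_cast hD
  have hL0 := L0_nonneg P
  set μ : ℝ := (D : ℝ) / n with hμ
  have hμ0 : 0 ≤ μ := by positivity
  have hμ1 : μ ≤ 1 / 100 := by
    rw [hμ, div_le_div_iff₀ hn (by norm_num)]
    linarith
  have hDμ : (D : ℝ) = μ * n := by
    rw [hμ]; field_simp
  -- the three sums
  set Gx : ℝ := P.G (Ico 1 D) with hGx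
  have hGx' : Gx = ∑ j, ∑ d ∈ Ico 1 D, g (X P.z j d).re := by
    rw [hGx]; unfold Loc.G; rw [Finset.sum_comm]
  have hGx0 : 0 ≤ Gx := by
    rw [hGx']
    apply Finset.sum_nonneg; intro j _
    apply Finset.sum_nonneg; intro d hd
    rw [Finset.mem_Ico] at hd
    exact g_nonneg (re_pos P hε0 hε j hd.1 (by omega))
  set Gu : ℝ := ∑ j, Su P D j with hGu
  have hGu0 : 0 ≤ Gu := Finset.sum_nonneg fun j _ => Su_nonneg P hε D j
  -- sums of ellsum
  have hcard : ((Ico 1 D).card : ℝ) ≤ D := by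
    rw [Nat.card_Ico]
    have : D - 1 ≤ D := Nat.sub_le D 1
    exact_mod_cast this
  have hE : ∑ j, ∑ d ∈ Ico 1 D, ellsum P j d ≤ D * (D * P.L0) := by
    rw [Finset.sum_comm]
    calc ∑ d ∈ Ico 1 D, ∑ j, ellsum P j d ≤ ∑ d ∈ Ico 1 D, (D * P.L0) := by
          apply Finset.sum_le_sum
          intro d hd
          rw [Finset.mem_Ico] at hd
          rw [sum_ellsum]
          apply mul_le_mul_of_nonneg_right _ hL0
          exact_mod_cast hd.2.le
      _ = (Ico 1 D).card * (D * P.L0) := by rw [Finset.sum_const, nsmul_eq_mul]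
      _ ≤ D * (D * P.L0) := by
          apply mul_le_mul_of_nonneg_right hcard (by positivity)
  have hE' : ∑ j, ∑ d ∈ Ico 1 D, 10 / (d : ℝ) * ellsum P j d ≤ 10 * (D * P.L0) := by
    rw [Finset.sum_comm]
    calc ∑ d ∈ Ico 1 D, ∑ j, 10 / (d : ℝ) * ellsum P j d = ∑ d ∈ Ico 1 D, (10 * P.L0) := by
          apply Finset.sum_congr rfl
          intro d hd
          rw [Finset.mem_Ico] at hd
          have hd0 : (d : ℝ) ≠ 0 := by
            have : (1 : ℝ) ≤ d := by exact_mod_cast hd.1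
            linarith
          rw [← Finset.mul_sum, sum_ellsum]
          field_simp
      _ = (Ico 1 D).card * (10 * P.L0) := by rw [Finset.sum_const, nsmul_eq_mul]
      _ ≤ D * (10 * P.L0) := by
          apply mul_le_mul_of_nonneg_right hcard (by positivity)
      _ = 10 * (D * P.L0) := by ring
  -- step 3 summed
  have h3 : Gu ≤ 8 * Gx + 44800 * μ ^ 4 * Gu + 202 * μ ^ 2 * (D * P.L0) := by
    have hpt : ∀ j, Su P D j ≤ 8 * (∑ d ∈ Ico 1 D, g (X P.z j d).re)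
        + 3200 / (n : ℝ) ^ 4 * (7 * D ^ 4 * Su P D j + D * (7 * D ^ 3 * Su P D j))
        + 202 * D / (n : ℝ) ^ 2 * (∑ d ∈ Ico 1 D, ellsum P j d) := by
      intro j
      have hS := Su_nonneg P hε D j
      calc Su P D j = ∑ d ∈ Ico 1 D, g (P.u j d) := rfl
        _ ≤ ∑ d ∈ Ico 1 D, (8 * g (X P.z j d).re
            + 3200 / (n : ℝ) ^ 4 * (7 * D ^ 4 * g (P.u j d) + 7 * D ^ 3 * Su P D j)
            + 202 * D / (n : ℝ) ^ 2 * ellsum P j d) := by
            apply Finset.sum_le_sum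
            intro d hd
            rw [Finset.mem_Ico] at hd
            exact micro_g P hε0 hε j hd.1 hd.2 hD (hR j)
        _ = 8 * (∑ d ∈ Ico 1 D, g (X P.z j d).re)
            + 3200 / (n : ℝ) ^ 4 * (7 * D ^ 4 * Su P D j + (Ico 1 D).card * (7 * D ^ 3 * Su P D j))
            + 202 * D / (n : ℝ) ^ 2 * (∑ d ∈ Ico 1 D, ellsum P j d) := by
            rw [Finset.sum_add_distrib, Finset.sum_add_distrib, ← Finset.mul_sum, ← Finset.mul_sum,
              ← Finset.mul_sum, Finset.sum_add_distrib, ← Finset.mul_sum, Finset.sum_const,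
              nsmul_eq_mul]
            rfl
        _ ≤ _ := by
            have : (Ico 1 D).card * (7 * (D : ℝ) ^ 3 * Su P D j) ≤ D * (7 * D ^ 3 * Su P D j) :=
              mul_le_mul_of_nonneg_right hcard (by positivity)
            gcongr
    calc Gu = ∑ j, Su P D j := rfl
      _ ≤ ∑ j, (8 * (∑ d ∈ Ico 1 D, g (X P.z j d).re)
        + 3200 / (n : ℝ) ^ 4 * (7 * D ^ 4 * Su P D j + D * (7 * D ^ 3 * Su P D j))
        + 202 * D / (n : ℝ) ^ 2 * (∑ d ∈ Ico 1 D, ellsum P j d)) :=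
          Finset.sum_le_sum fun j _ => hpt j
      _ = 8 * Gx + 3200 / (n : ℝ) ^ 4 * (14 * D ^ 4 * Gu)
          + 202 * D / (n : ℝ) ^ 2 * (∑ j, ∑ d ∈ Ico 1 D, ellsum P j d) := by
          rw [Finset.sum_add_distrib, Finset.sum_add_distrib, ← Finset.mul_sum, ← Finset.mul_sum,
            ← Finset.mul_sum, hGx', hGu]
          congr 2
          rw [Finset.mul_sum, Finset.mul_sum, Finset.mul_sum]
          apply Finset.sum_congr rfl
          intro j _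
          ring
      _ ≤ 8 * Gx + 3200 / (n : ℝ) ^ 4 * (14 * D ^ 4 * Gu)
          + 202 * D / (n : ℝ) ^ 2 * (D * (D * P.L0)) := by
          gcongr
      _ = _ := by
          rw [hμ]; field_simp; ring
  have hμ2 : μ ^ 2 ≤ μ / 100 := by nlinarith
  have hμ4 : μ ^ 4 ≤ 1 / 100000000 := by
    calc μ ^ 4 ≤ (1 / 100) ^ 4 := pow_le_pow_left₀ hμ0 hμ1 4
      _ = 1 / 100000000 := by norm_num
  have h3' : Gu ≤ 16 * Gx + n * P.L0 := by
    have a1 : 44800 * μ ^ 4 * Gu ≤ 1 / 2 * Gu := by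
      apply mul_le_mul_of_nonneg_right _ hGu0
      linarith
    have a2 : 202 * μ ^ 2 * (D * P.L0) ≤ 1 / 2 * (n * P.L0) := by
      have b1 : μ ^ 2 ≤ 1 / 10000 := by nlinarith
      have b2 : (D : ℝ) * P.L0 ≤ 1 / 100 * (n * P.L0) := by
        have : (D : ℝ) * P.L0 ≤ (1 / 100 * n) * P.L0 :=
          mul_le_mul_of_nonneg_right (by linarith) hL0
        linarith
      have b3 : 0 ≤ (D : ℝ) * P.L0 := by positivity
      have b4 : 0 ≤ (n : ℝ) * P.L0 := by positivity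
      calc 202 * μ ^ 2 * (D * P.L0) ≤ 202 * (1 / 10000) * (1 / 100 * (n * P.L0)) := by
            apply mul_le_mul _ b2 b3 (by norm_num)
            linarith
        _ ≤ _ := by linarith
    linarith
  -- step 4 summed
  have h4 : P.N (Ico 1 D) ≤ 43 * (40 * μ ^ 2 + 10 * ε ^ 2) * Gx + 11200 * μ ^ 2 * Gu
      + 10 * (D * P.L0) := by
    have hpt : ∀ j, ∑ d ∈ Ico 1 D, ((X P.z j d).im / (X P.z j d).re) ^ 2
        ≤ 43 * (40 * μ ^ 2 + 10 * ε ^ 2) * (∑ d ∈ Ico 1 D, g (X P.z j d).re)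
        + 800 / (n : ℝ) ^ 2 * (7 * D ^ 2 * Su P D j + D * (7 * D * Su P D j))
        + (∑ d ∈ Ico 1 D, 10 / (d : ℝ) * ellsum P j d) := by
      intro j
      have hS := Su_nonneg P hε D j
      calc ∑ d ∈ Ico 1 D, ((X P.z j d).im / (X P.z j d).re) ^ 2
          ≤ ∑ d ∈ Ico 1 D, (43 * (40 * μ ^ 2 + 10 * ε ^ 2) * g (X P.z j d).re
            + 800 / (n : ℝ) ^ 2 * (7 * D ^ 2 * g (P.u j d) + 7 * D * Su P D j)
            + 10 / (d : ℝ) * ellsum P j d) := by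
            apply Finset.sum_le_sum
            intro d hd
            rw [Finset.mem_Ico] at hd
            exact micro_im P hε0 hε j hd.1 hd.2 hD (hR j)
        _ = 43 * (40 * μ ^ 2 + 10 * ε ^ 2) * (∑ d ∈ Ico 1 D, g (X P.z j d).re)
            + 800 / (n : ℝ) ^ 2 * (7 * D ^ 2 * Su P D j + (Ico 1 D).card * (7 * D * Su P D j))
            + (∑ d ∈ Ico 1 D, 10 / (d : ℝ) * ellsum P j d) := by
            rw [Finset.sum_add_distrib, Finset.sum_add_distrib, ← Finset.mul_sum, ← Finset.mul_sum,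
              Finset.sum_add_distrib, ← Finset.mul_sum, Finset.sum_const,
              nsmul_eq_mul]
            rfl
        _ ≤ _ := by
            have : (Ico 1 D).card * (7 * (D : ℝ) * Su P D j) ≤ D * (7 * D * Su P D j) :=
              mul_le_mul_of_nonneg_right hcard (by positivity)
            gcongr
    calc P.N (Ico 1 D) = ∑ j, ∑ d ∈ Ico 1 D, ((X P.z j d).im / (X P.z j d).re) ^ 2 := by
          unfold Loc.N; rw [Finset.sum_comm]
      _ ≤ ∑ j, (43 * (40 * μ ^ 2 + 10 * ε ^ 2) * (∑ d ∈ Ico 1 D, g (X P.z j d).re)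
        + 800 / (n : ℝ) ^ 2 * (7 * D ^ 2 * Su P D j + D * (7 * D * Su P D j))
        + (∑ d ∈ Ico 1 D, 10 / (d : ℝ) * ellsum P j d)) :=
          Finset.sum_le_sum fun j _ => hpt j
      _ = 43 * (40 * μ ^ 2 + 10 * ε ^ 2) * Gx + 800 / (n : ℝ) ^ 2 * (14 * D ^ 2 * Gu)
          + (∑ j, ∑ d ∈ Ico 1 D, 10 / (d : ℝ) * ellsum P j d) := by
          rw [Finset.sum_add_distrib, Finset.sum_add_distrib, ← Finset.mul_sum, ← Finset.mul_sum,
            hGx', hGu]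
          congr 2
          rw [Finset.mul_sum, Finset.mul_sum, Finset.mul_sum]
          apply Finset.sum_congr rfl
          intro j _
          ring
      _ ≤ 43 * (40 * μ ^ 2 + 10 * ε ^ 2) * Gx + 800 / (n : ℝ) ^ 2 * (14 * D ^ 2 * Gu)
          + 10 * (D * P.L0) := by
          linarith
      _ = _ := by
          rw [hμ]; field_simp; ring
  -- conclusion
  have hε2 : 0 ≤ ε ^ 2 := sq_nonneg _
  have hnL : 0 ≤ (n : ℝ) * P.L0 := by positivity
  have f1 : 43 * (40 * μ ^ 2 + 10 * ε ^ 2) * Gx ≤ (18 * μ + 430 * ε ^ 2) * Gx := by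
    apply mul_le_mul_of_nonneg_right _ hGx0
    linarith
  have f2 : 11200 * μ ^ 2 * Gu ≤ 112 * μ * (16 * Gx + n * P.L0) := by
    apply mul_le_mul _ h3' hGu0 (by positivity)
    linarith
  have f3 : 10 * ((D : ℝ) * P.L0) = 10 * μ * (n * P.L0) := by
    rw [hDμ]; ring
  have g1 : 0 ≤ μ * Gx := by positivity
  have g2 : 0 ≤ ε ^ 2 * Gx := by positivity
  have g3 : 0 ≤ μ * (n * P.L0) := by positivity
  have g4 : 0 ≤ ε ^ 2 * (n * P.L0) := by positivity
  nlinarith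

end EHP56
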