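import Pool.Agent.EHP56.Fourier

/-!
# The quadratic form (module B6b)

Write `E = ∑∑ ‖X‖²` (`four1`), `Q = Re ∑∑ X²` (`four2`), `e = ∑_k ‖X k 1‖²` (`four3`), `s = Re ∑_k (X k 1)²` (`four4`).
`∑∑ (Re X)² = (E + Q)/2`, `∑∑ (Im X)² = (E - Q)/2`, `∑_k (Im X k 1)² = (e - s)/2`.  The claim is
`0 ≤ (1/2)(- E/20 + Q + (9/20)(n-1)(e - s))`.  The hypothesis and `four5` say `Fh f 1` is real, so
`(Fh f 1)² = ‖Fh f 1‖² ≥ 0`.  Insert the formulas, divide by `n/2`; coefficient of `‖Fh m‖²`: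

* `m = 1`: `-(n-1)/20 + (n-1) + (9/20)(n-1)(1 - 1) ≥ 0`.  `m = 0`: `0`.
* `m = 2`: `- 2(n-2)/20 + (9/20)(n-1) (Sm 2)²`, `Sm 2 = 2 cos (π/n)`, `(Sm 2)² ≥ 3`: `≥ 0`.
* `3 ≤ m ≤ n-1`, `m' = n+2-m` (an involution of `Ico 3 n`).  Put `a = m-2 ≥ 1`, `b = n-m ≥ 1`, `a + b = n - 2`, `X = (9/20)(n-1)`,
  `S = Sm m = Sm b`, `S' = Sm m' = Sm (m-2) = Sm a`.  The part of the sum is
  `∑_m [A_m ‖Fh m‖² + 2 B_m Re (Fh m Fh m')]` with `A_m = X S² - (1/20) m b`, `2 B_m = X S S' - a b`, `A_{m'} = X S'² - (1/20) m' a`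
  (`m = a+2`, `m' = b+2`), `B_{m'} = B_m`.
  [coefficient of `Re (Fh m Fh m')` is `- a b + X S S' = 2 B_m`; hence pairing `m` with `m'`: it is
  `(1/2) ∑_m [A_m ‖Fh m‖² + A_{m'} ‖Fh m'‖² + 4 B_m Re (Fh m Fh m')]`, which is `≥ 0` if `A_m, A_{m'} ≥ 0` and
  `(2 B_m)² ≤ A_m A_{m'}`.]
  `(X S S' - ab)² ≤ (X S² - (a+2)b/20)(X S'² - (b+2)a/20)` follows from
  (I) `a b ≤ X S S'` and (II) `(a+2) b S'/S + (b+2) a S/S' ≤ 20 a b`:
  `LHS = X²S²S'² - 2ab X S S' + a²b²`, `RHS ≥ X²S²S'² - (X/20)((a+2) b S'² + (b+2) a S²)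
   = X²S²S'² - (X S S'/20)((a+2) b S'/S + (b+2) a S/S') ≥ X²S²S'² - X S S' ab`, and `a²b² ≤ ab X S S'`.
  (`A_m ≥ 0`: from (I), (II): `(a+2) b/20 ≤ ab S/S' ≤ X S²`.)
* (II): by symmetry `a ≤ b`.  `S = Sm b = Sm (a+2)`, `Sm a ≤ Sm (a+2) ≤ ((a+2)/a) Sm a ≤ 3 Sm a` (`sin x/x` decreasing on `(0,π)`,
  `sin (π(a+2)/n) - sin (πa/n) = 2 cos (π(a+1)/n) sin (π/n) ≥ 0`).  So `(a+2) S'/S ≤ 3a` and `(b+2) S/S' ≤ 3b · 3 = 9 b`; total `≤ 12 ab`.
* (I): by symmetry `a ≤ b`, i.e. `2a + 2 ≤ n`; need `a (n-2-a) ≤ (9/20)(n-1) Sm a Sm (a+2)`.  `Sm k ≥ 2k/π` for `2k ≤ n` (`sin x ≥ 2x/π`,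
  `sin (π/n) ≤ π/n`); for `2(a+2) > n` use `Sm (a+2) = Sm (n-2-a) ≥ Sm a`.  For `a ≥ 4`, `2(a+2) ≤ n`:
  `Sm a Sm (a+2) ≥ (4/π²) a (a+2) ≥ 0.405 · 6 a`.  For `a ≤ 3`: `Sm k ≥ 0.9 k` for `k ≤ 5`, `n ≥ 100` (`sin x ≥ x - x³/6`).
-/

namespace EHP56

open Finset

/-! ### the numbers `Sm n k` -/

private lemma sinp {n : ℕ} (hn : 100 ≤ n) : 0 < Real.sin (Real.pi / (n : ℝ)) := by
  have hn' : (100 : ℝ) ≤ n := by exact_mod_cast hn
  apply Real.sin_pos_of_pos_of_lt_pi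
  · positivity
  · rw [div_lt_iff₀ (by linarith)]
    nlinarith [Real.pi_pos]

private lemma Sm_zero' {n : ℕ} : Sm n 0 = 0 := by
  simp [Sm]

private lemma Sm_one' {n : ℕ} (hn : 100 ≤ n) : Sm n 1 = 1 := by
  simp only [Sm, Nat.cast_one, mul_one]
  exact div_self (sinp hn).ne'

private lemma Sm_add_two' {n : ℕ} (hn : 100 ≤ n) (k : ℕ) :
    Sm n (k + 2) = Sm n k + 2 * Real.cos (Real.pi * ((k : ℝ) + 1) / n) := by
  have hs := (sinp hn).ne'
  have hn0 : (n : ℝ) ≠ 0 := by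
    have : (100 : ℝ) ≤ n := by exact_mod_cast hn
    linarith
  have e1 : Real.pi * (((k + 2 : ℕ) : ℝ)) / n = Real.pi * ((k : ℝ) + 1) / n + Real.pi / n := by
    push_cast; field_simp; ring
  have e2 : Real.pi * (k : ℝ) / n = Real.pi * ((k : ℝ) + 1) / n - Real.pi / n := by
    field_simp; ring
  unfold Sm
  rw [e1, e2, Real.sin_add, Real.sin_sub]
  field_simp
  ring

private lemma Sm_refl' {n : ℕ} (hn : 100 ≤ n) {k : ℕ} (hk : k ≤ n) : Sm n (n - k) = Sm n k := by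
  have hn0 : (n : ℝ) ≠ 0 := by
    have : (100 : ℝ) ≤ n := by exact_mod_cast hn
    linarith
  unfold Sm
  congr 1
  rw [Nat.cast_sub hk]
  have : Real.pi * ((n : ℝ) - k) / n = Real.pi - Real.pi * k / n := by field_simp
  rw [this, Real.sin_pi_sub]

private lemma Sm_ge_one {n : ℕ} (hn : 100 ≤ n) {k : ℕ} (hk : 1 ≤ k) (hk2 : 2 * k ≤ n) : 1 ≤ Sm n k := by
  have hn' : (100 : ℝ) ≤ n := by exact_mod_cast hn
  have hk' : (1 : ℝ) ≤ k := by exact_mod_cast hk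
  have hk2' : 2 * (k : ℝ) ≤ n := by exact_mod_cast hk2
  have hpi := Real.pi_pos
  unfold Sm
  rw [one_le_div (sinp hn)]
  apply Real.sin_le_sin_of_le_of_le_pi_div_two
  · have : 0 < Real.pi / (n : ℝ) := by positivity
    linarith
  · rw [div_le_iff₀ (by linarith)]
    nlinarith
  · apply div_le_div_of_nonneg_right _ (by linarith)
    nlinarith

private lemma Sm_ge {n : ℕ} (hn : 100 ≤ n) {k : ℕ} (hk2 : 2 * k ≤ n) : 2 * (k : ℝ) / Real.pi ≤ Sm n k := by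
  have hn' : (100 : ℝ) ≤ n := by exact_mod_cast hn
  have hk2' : 2 * (k : ℝ) ≤ n := by exact_mod_cast hk2
  have hpi := Real.pi_pos
  have h1 : 2 / Real.pi * (Real.pi * k / n) ≤ Real.sin (Real.pi * k / n) := by
    apply Real.mul_le_sin (by positivity)
    rw [div_le_iff₀ (by linarith)]
    nlinarith
  have h2 : Real.sin (Real.pi / n) ≤ Real.pi / n := Real.sin_le (by positivity)
  unfold Sm
  rw [le_div_iff₀ (sinp hn)]
  calc 2 * (k : ℝ) / Real.pi * Real.sin (Real.pi / n) ≤ 2 * (k : ℝ) / Real.pi * (Real.pi / n) :=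
        mul_le_mul_of_nonneg_left h2 (by positivity)
    _ = 2 / Real.pi * (Real.pi * k / n) := by field_simp
    _ ≤ _ := h1

private lemma cos_ge' {n : ℕ} (hn : 100 ≤ n) {k : ℕ} (hk : k ≤ 5) :
    98 / 100 ≤ Real.cos (Real.pi * ((k : ℝ) + 1) / n) := by
  have hn' : (100 : ℝ) ≤ n := by exact_mod_cast hn
  have hk' : (k : ℝ) ≤ 5 := by exact_mod_cast hk
  have hk0 : (0 : ℝ) ≤ k := by positivity
  have hpi := Real.pi_pos
  have hpi2 := Real.pi_lt_d2
  have h1 := Real.one_sub_sq_div_two_le_cos (x := Real.pi * ((k : ℝ) + 1) / n)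
  have h2 : Real.pi * ((k : ℝ) + 1) / n ≤ 19 / 100 := by
    rw [div_le_iff₀ (by linarith)]
    nlinarith
  have h3 : 0 ≤ Real.pi * ((k : ℝ) + 1) / n := by positivity
  nlinarith

private lemma Sm_step {n : ℕ} (hn : 100 ≤ n) {k : ℕ} (hk : k ≤ 5) : Sm n k + 196 / 100 ≤ Sm n (k + 2) := by
  rw [Sm_add_two' hn]
  have := cos_ge' hn hk
  linarith

/-- the estimates (I), (II) in the case `a ≤ b` -/
private lemma key {n : ℕ} (hn : 100 ≤ n) {a b : ℕ} (ha : 1 ≤ a) (hab : a ≤ b) (h : a + b + 2 = n) :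
    1 ≤ Sm n a ∧ Sm n a ≤ Sm n (a + 2) ∧ Sm n (a + 2) ≤ 3 * Sm n a ∧
      (a : ℝ) * b ≤ 9 / 20 * ((n : ℝ) - 1) * (Sm n (a + 2) * Sm n a) := by
  have hn' : (100 : ℝ) ≤ n := by exact_mod_cast hn
  have ha' : (1 : ℝ) ≤ a := by exact_mod_cast ha
  have hab' : (a : ℝ) ≤ b := by exact_mod_cast hab
  have h' : (a : ℝ) + b + 2 = n := by exact_mod_cast h
  have hpi := Real.pi_pos
  have h1 : 1 ≤ Sm n a := Sm_ge_one hn ha (by omega)
  have hc0 : 0 ≤ Real.cos (Real.pi * ((a : ℝ) + 1) / n) := by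
    apply Real.cos_nonneg_of_mem_Icc
    constructor
    · have : 0 ≤ Real.pi * ((a : ℝ) + 1) / n := by positivity
      linarith
    · rw [div_le_iff₀ (by linarith)]
      nlinarith
  have h2 : Sm n a ≤ Sm n (a + 2) := by
    rw [Sm_add_two' hn]
    linarith
  have h3 : Sm n (a + 2) ≤ 3 * Sm n a := by
    rw [Sm_add_two' hn]
    have := Real.cos_le_one (Real.pi * ((a : ℝ) + 1) / n)
    linarith
  refine ⟨h1, h2, h3, ?_⟩
  have h4 : (a : ℝ) ≤ 9 / 20 * (Sm n (a + 2) * Sm n a) := by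
    by_cases h6 : 6 ≤ a
    · have h6' : (6 : ℝ) ≤ a := by exact_mod_cast h6
      have h5 := Sm_ge hn (k := a) (by omega)
      have h7 : 2 * (a : ℝ) / Real.pi * (2 * (a : ℝ) / Real.pi) ≤ Sm n (a + 2) * Sm n a := by
        apply mul_le_mul (h5.trans h2) h5 (by positivity) (by linarith)
      have h8 : (a : ℝ) ≤ 9 / 20 * (2 * (a : ℝ) / Real.pi * (2 * (a : ℝ) / Real.pi)) := by
        have hpi2 := Real.pi_lt_d2
        have e : 9 / 20 * (2 * (a : ℝ) / Real.pi * (2 * (a : ℝ) / Real.pi)) =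
          9 / 5 * (a : ℝ) ^ 2 / Real.pi ^ 2 := by field_simp; ring
        rw [e, le_div_iff₀ (by positivity)]
        have h9 : Real.pi ^ 2 ≤ 10 := by nlinarith
        nlinarith
      linarith
    · have h5 : a ≤ 5 := by omega
      have hs0 := Sm_step hn (k := 0) (by norm_num)
      have hs1 := Sm_step hn (k := 1) (by norm_num)
      have hs2 := Sm_step hn (k := 2) (by norm_num)
      have hs3 := Sm_step hn (k := 3) (by norm_num)
      have hs4 := Sm_step hn (k := 4) (by norm_num)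
      have hs5 := Sm_step hn (k := 5) (by norm_num)
      rw [Sm_zero'] at hs0
      rw [Sm_one' hn] at hs1
      norm_num at hs0 hs1 hs2 hs3 hs4 hs5
      have ha5 : a = 1 ∨ a = 2 ∨ a = 3 ∨ a = 4 ∨ a = 5 := by omega
      rcases ha5 with rfl | rfl | rfl | rfl | rfl
      · rw [Sm_one' hn]
        norm_num
        linarith
      · norm_num
        nlinarith
      · norm_num
        nlinarith
      · norm_num
        nlinarith
      · norm_num
        nlinarith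
  have hb : (b : ℝ) ≤ n - 1 := by linarith
  calc (a : ℝ) * b ≤ (9 / 20 * (Sm n (a + 2) * Sm n a)) * (n - 1) :=
        mul_le_mul h4 hb (by positivity) (by nlinarith)
    _ = _ := by ring

/-- the two estimates, symmetric form -/
private lemma key2 {n : ℕ} (hn : 100 ≤ n) {a b : ℕ} (ha : 1 ≤ a) (hb : 1 ≤ b) (h : a + b + 2 = n) :
    0 < Sm n (a + 2) ∧ 0 < Sm n a ∧
      (a : ℝ) * b ≤ 9 / 20 * ((n : ℝ) - 1) * (Sm n (a + 2) * Sm n a) ∧
      ((a : ℝ) + 2) * b * Sm n a ^ 2 + ((b : ℝ) + 2) * a * Sm n (a + 2) ^ 2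
        ≤ 20 * (a * b) * (Sm n (a + 2) * Sm n a) := by
  have ha' : (1 : ℝ) ≤ a := by exact_mod_cast ha
  have hb' : (1 : ℝ) ≤ b := by exact_mod_cast hb
  have alg : ∀ x y S T : ℝ, 1 ≤ x → 1 ≤ y → 1 ≤ T → T ≤ S → S ≤ 3 * T →
      (x + 2) * y * T ^ 2 + (y + 2) * x * S ^ 2 ≤ 20 * (x * y) * (S * T) := by
    intro x y S T hx hy hT hTS hS3
    have hST : 0 ≤ S * T := by nlinarith
    have e1 : (x + 2) * y * T ^ 2 ≤ 3 * (x * y) * (S * T) := by
      have : T ^ 2 ≤ S * T := by nlinarith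
      calc (x + 2) * y * T ^ 2 ≤ (3 * x) * y * T ^ 2 := by
            apply mul_le_mul_of_nonneg_right _ (by positivity)
            nlinarith
        _ ≤ (3 * x) * y * (S * T) := mul_le_mul_of_nonneg_left this (by positivity)
        _ = _ := by ring
    have e2 : (y + 2) * x * S ^ 2 ≤ 9 * (x * y) * (S * T) := by
      have : S ^ 2 ≤ 3 * (S * T) := by nlinarith
      calc (y + 2) * x * S ^ 2 ≤ (3 * y) * x * S ^ 2 := by
            apply mul_le_mul_of_nonneg_right _ (by positivity)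
            nlinarith
        _ ≤ (3 * y) * x * (3 * (S * T)) := mul_le_mul_of_nonneg_left this (by positivity)
        _ = _ := by ring
    have e3 : 0 ≤ (x * y) * (S * T) := by positivity
    linarith
  rcases le_total a b with hab | hab
  · obtain ⟨h1, h2, h3, h4⟩ := key hn ha hab h
    exact ⟨by linarith, by linarith, h4, alg a b _ _ ha' hb' h1 h2 h3⟩
  · obtain ⟨h1, h2, h3, h4⟩ := key hn hb hab (by omega)
    have e1 : Sm n (b + 2) = Sm n a := by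
      rw [← Sm_refl' hn (k := a) (by omega)]
      congr 1
      omega
    have e2 : Sm n b = Sm n (a + 2) := by
      rw [← Sm_refl' hn (k := a + 2) (by omega)]
      congr 1
      omega
    rw [e1, e2] at h3 h4
    rw [e1, e2] at h2
    rw [e2] at h1
    refine ⟨by linarith, by linarith, ?_, ?_⟩
    · calc (a : ℝ) * b = b * a := by ring
        _ ≤ _ := h4
        _ = _ := by ring
    · have := alg b a _ _ hb' ha' h1 h2 h3
      calc ((a : ℝ) + 2) * b * Sm n a ^ 2 + ((b : ℝ) + 2) * a * Sm n (a + 2) ^ 2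
          = ((b : ℝ) + 2) * a * Sm n (a + 2) ^ 2 + ((a : ℝ) + 2) * b * Sm n a ^ 2 := by ring
        _ ≤ _ := this
        _ = _ := by ring

/-- positivity of the 2 x 2 blocks -/
private lemma block {X a b S T x y c : ℝ} (ha : 0 < a) (hb : 0 < b) (hS : 0 < S) (hT : 0 < T)
    (hX : 0 < X) (h1 : a * b ≤ X * (S * T))
    (h2 : (a + 2) * b * T ^ 2 + (b + 2) * a * S ^ 2 ≤ 20 * (a * b) * (S * T))
    (hx : 0 ≤ x) (hy : 0 ≤ y) (hc : |c| ≤ x * y) :
    0 ≤ (X * S ^ 2 - (a + 2) * b / 20) * x ^ 2 + (X * T ^ 2 - (b + 2) * a / 20) * y ^ 2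
      + 2 * (X * (S * T) - a * b) * c := by
  set A := X * S ^ 2 - (a + 2) * b / 20 with hA
  set B := X * T ^ 2 - (b + 2) * a / 20 with hB
  set C := X * (S * T) - a * b with hC
  have hC0 : 0 ≤ C := by rw [hC]; linarith
  have hST : 0 < S * T := by positivity
  have hab : 0 < a * b := by positivity
  have hA0 : 0 ≤ A := by
    have h3 : (a + 2) * b * T ^ 2 ≤ 20 * (a * b) * (S * T) := by
      have : 0 ≤ (b + 2) * a * S ^ 2 := by positivity
      linarith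
    have h4 : (a + 2) * b * T ^ 2 ≤ 20 * (X * (S * T)) * (S * T) := by
      have : 20 * (a * b) * (S * T) ≤ 20 * (X * (S * T)) * (S * T) := by
        apply mul_le_mul_of_nonneg_right _ hST.le
        linarith
      linarith
    have h5 : 0 ≤ (20 * A) * T ^ 2 := by
      rw [hA]
      nlinarith
    have hT2 : 0 < T ^ 2 := by positivity
    have := nonneg_of_mul_nonneg_left h5 hT2
    linarith
  have hB0 : 0 ≤ B := by
    have h3 : (b + 2) * a * S ^ 2 ≤ 20 * (a * b) * (S * T) := by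
      have : 0 ≤ (a + 2) * b * T ^ 2 := by positivity
      linarith
    have h4 : (b + 2) * a * S ^ 2 ≤ 20 * (X * (S * T)) * (S * T) := by
      have : 20 * (a * b) * (S * T) ≤ 20 * (X * (S * T)) * (S * T) := by
        apply mul_le_mul_of_nonneg_right _ hST.le
        linarith
      linarith
    have h5 : 0 ≤ (20 * B) * S ^ 2 := by
      rw [hB]
      nlinarith
    have hS2 : 0 < S ^ 2 := by positivity
    have := nonneg_of_mul_nonneg_left h5 hS2
    linarith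
  have hCAB : C ^ 2 ≤ A * B := by
    have e1 : A * B = X ^ 2 * (S * T) ^ 2 - X / 20 * ((a + 2) * b * T ^ 2 + (b + 2) * a * S ^ 2)
        + (a + 2) * b * ((b + 2) * a) / 400 := by
      rw [hA, hB]; ring
    have e2 : X / 20 * ((a + 2) * b * T ^ 2 + (b + 2) * a * S ^ 2) ≤ X / 20 * (20 * (a * b) * (S * T)) :=
      mul_le_mul_of_nonneg_left h2 (by positivity)
    have e3 : (a * b) * (a * b) ≤ (a * b) * (X * (S * T)) := mul_le_mul_of_nonneg_left h1 hab.le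
    have e4 : 0 ≤ (a + 2) * b * ((b + 2) * a) / 400 := by positivity
    have e5 : C ^ 2 = X ^ 2 * (S * T) ^ 2 - 2 * (a * b) * (X * (S * T)) + (a * b) * (a * b) := by
      rw [hC]; ring
    rw [e1, e5]
    nlinarith
  have hxy : 0 ≤ x * y := mul_nonneg hx hy
  have hmain : 2 * C * (x * y) ≤ A * x ^ 2 + B * y ^ 2 := by
    apply abs_le_of_sq_le_sq' _ (by positivity) |>.2
    have e1 : (2 * C * (x * y)) ^ 2 ≤ 4 * (A * B) * (x * y) ^ 2 := by
      calc (2 * C * (x * y)) ^ 2 = 4 * C ^ 2 * (x * y) ^ 2 := by ring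
        _ ≤ 4 * (A * B) * (x * y) ^ 2 := by
          apply mul_le_mul_of_nonneg_right _ (by positivity)
          linarith
    nlinarith [sq_nonneg (A * x ^ 2 - B * y ^ 2)]
  have hc1 : -(x * y) ≤ c := (abs_le.mp hc).1
  have : 2 * C * (-(x * y)) ≤ 2 * C * c := mul_le_mul_of_nonneg_left hc1 (by positivity)
  linarith

theorem qform {n : ℕ} [NeZero n] (hn : 100 ≤ n) (f : ZMod n → ℂ)
    (him : ∑ k, (X f k 1).im = 0) :
    0 ≤ 475 / 1000 * (∑ d ∈ Ico 1 n, ∑ j, (X f j d).re ^ 2)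
      - 525 / 1000 * (∑ d ∈ Ico 1 n, ∑ j, (X f j d).im ^ 2)
      + 45 / 100 * ((n : ℝ) - 1) * ∑ k, (X f k 1).im ^ 2 := by
  have hn' : (100 : ℝ) ≤ n := by exact_mod_cast hn
  have hre : ∀ z : ℂ, z.re ^ 2 = (‖z‖ ^ 2 + (z ^ 2).re) / 2 := by
    intro z
    rw [← Complex.normSq_eq_norm_sq, Complex.normSq_apply, pow_two z, Complex.mul_re]
    ring
  have him2 : ∀ z : ℂ, z.im ^ 2 = (‖z‖ ^ 2 - (z ^ 2).re) / 2 := by
    intro z
    rw [← Complex.normSq_eq_norm_sq, Complex.normSq_apply, pow_two z, Complex.mul_re]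
    ring
  set E : ℝ := ∑ d ∈ Ico 1 n, ∑ j, ‖X f j d‖ ^ 2 with hE
  set Q : ℝ := (∑ d ∈ Ico 1 n, ∑ j, (X f j d) ^ 2).re with hQ
  set e : ℝ := ∑ k, ‖X f k 1‖ ^ 2 with he
  set s : ℝ := (∑ k, (X f k 1) ^ 2).re with hs
  have r1 : ∑ d ∈ Ico 1 n, ∑ j, (X f j d).re ^ 2 = (E + Q) / 2 := by
    rw [hE, hQ, Complex.re_sum]
    simp only [Complex.re_sum, hre, ← Finset.sum_div, Finset.sum_add_distrib]
  have r2 : ∑ d ∈ Ico 1 n, ∑ j, (X f j d).im ^ 2 = (E - Q) / 2 := by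
    rw [hE, hQ, Complex.re_sum]
    simp only [Complex.re_sum, him2, ← Finset.sum_div, Finset.sum_sub_distrib]
  have r3 : ∑ k, (X f k 1).im ^ 2 = (e - s) / 2 := by
    rw [he, hs, Complex.re_sum]
    simp only [him2, ← Finset.sum_div, Finset.sum_sub_distrib]
  rw [r1, r2, r3]
  -- `Fh f 1` is real
  have hF1 : (Fh f 1).im = 0 := by
    have h5 := congrArg Complex.im (four5 (by omega) f)
    rw [Complex.im_sum, him] at h5
    have : ((n : ℂ) * Fh f 1).im = (n : ℝ) * (Fh f 1).im := by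
      rw [← Complex.ofReal_natCast, Complex.im_ofReal_mul]
    rw [this] at h5
    rcases mul_eq_zero.mp h5.symm with h | h
    · exfalso; linarith
    · exact h
  have hF1sq : (Fh f 1 ^ 2).re = ‖Fh f 1‖ ^ 2 := by
    rw [← Complex.normSq_eq_norm_sq, Complex.normSq_apply, pow_two, Complex.mul_re, hF1]
    ring
  -- notation
  set F : ℕ → ℂ := fun m => Fh f m with hFdef
  set R : ℕ → ℝ := fun m => (Fh f m * Fh f (n + 2 - m)).re with hR
  have hEv : E = (n : ℝ) * ∑ m ∈ range n, (m : ℝ) * ((n : ℝ) - m) * ‖Fh f m‖ ^ 2 := four1 (by omega) f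
  have hev : e = (n : ℝ) * ∑ m ∈ range n, Sm n m ^ 2 * ‖Fh f m‖ ^ 2 := four3 (by omega) f
  have hQv : Q = (n : ℝ) * ((n : ℝ) - 1) * ‖Fh f 1‖ ^ 2
      - n * ∑ m ∈ Ico 3 n, ((m : ℝ) - 2) * ((n : ℝ) - m) * R m := by
    rw [hQ, four2 (by omega) f, Complex.sub_re]
    congr 1
    · have : (n : ℂ) * ((n : ℂ) - 1) = (((n : ℝ) * ((n : ℝ) - 1) : ℝ) : ℂ) := by push_cast; ring
      rw [this, Complex.re_ofReal_mul, hF1sq]
    · rw [← Complex.ofReal_natCast, Complex.re_ofReal_mul, Complex.re_sum]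
      congr 1
      apply Finset.sum_congr rfl
      intro m _
      have : ((m : ℂ) - 2) * ((((n : ℝ)) : ℂ) - m) = ((((m : ℝ) - 2) * ((n : ℝ) - m) : ℝ) : ℂ) := by
        push_cast; ring
      rw [this, Complex.re_ofReal_mul]
  have hsv : s = (n : ℝ) * ‖Fh f 1‖ ^ 2
      - n * ∑ m ∈ Ico 3 n, Sm n m * Sm n (m - 2) * R m := by
    rw [hs, four4 (by omega) f, Complex.sub_re]
    congr 1
    · rw [← Complex.ofReal_natCast, Complex.re_ofReal_mul, hF1sq]
    · rw [← Complex.ofReal_natCast, Complex.re_ofReal_mul, Complex.re_sum]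
      congr 1
      apply Finset.sum_congr rfl
      intro m _
      rw [← Complex.ofReal_mul, Complex.re_ofReal_mul]
  -- splitting of `range n`
  have hsplit : ∀ g : ℕ → ℝ, ∑ m ∈ range n, g m = g 0 + g 1 + g 2 + ∑ m ∈ Ico 3 n, g m := by
    intro g
    rw [Finset.range_eq_Ico, ← Finset.sum_Ico_consecutive g (Nat.zero_le 3) (by omega : 3 ≤ n)]
    congr 1
    simp [Finset.sum_range_succ]
  set P : ℕ → ℝ := fun m => (9 / 20 * ((n : ℝ) - 1) * Sm n m ^ 2 - (m : ℝ) * ((n : ℝ) - m) / 20) * ‖Fh f m‖ ^ 2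
    + (9 / 20 * ((n : ℝ) - 1) * (Sm n m * Sm n (m - 2)) - ((m : ℝ) - 2) * ((n : ℝ) - m)) * R m with hP
  have hPsum : 0 ≤ ∑ m ∈ Ico 3 n, P m := by
    have hrefl : ∑ m ∈ Ico 3 n, P (n + 2 - m) = ∑ m ∈ Ico 3 n, P m := by
      have := Finset.sum_Ico_reflect P 3 (m := n) (n := n + 2) (by omega)
      rw [this]
      (congr 2; omega)
    have h2 : 2 * ∑ m ∈ Ico 3 n, P m = ∑ m ∈ Ico 3 n, (P m + P (n + 2 - m)) := by
      have hd : ∑ m ∈ Ico 3 n, (P m + P (n + 2 - m))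
          = ∑ m ∈ Ico 3 n, P m + ∑ m ∈ Ico 3 n, P (n + 2 - m) := Finset.sum_add_distrib
      rw [hd, hrefl]; ring
    have h3 : 0 ≤ ∑ m ∈ Ico 3 n, (P m + P (n + 2 - m)) := by
      apply Finset.sum_nonneg
      intro m hm
      rw [Finset.mem_Ico] at hm
      obtain ⟨a, rfl⟩ : ∃ a, m = a + 2 := ⟨m - 2, by omega⟩
      obtain ⟨b, hb⟩ : ∃ b, n = a + b + 2 := ⟨n - a - 2, by omega⟩
      have ha1 : 1 ≤ a := by omega
      have hb1 : 1 ≤ b := by omega
      have hnr : (n : ℝ) = a + b + 2 := by rw [hb]; push_cast; ring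
      obtain ⟨k1, k2, k3, k4⟩ := key2 hn ha1 hb1 hb.symm
      have e1 : n + 2 - (a + 2) = b + 2 := by omega
      have e2 : a + 2 - 2 = a := by omega
      have e3 : b + 2 - 2 = b := by omega
      have e4 : Sm n (b + 2) = Sm n a := by
        rw [← Sm_refl' hn (k := a) (by omega)]
        congr 1
        omega
      have e5 : Sm n b = Sm n (a + 2) := by
        rw [← Sm_refl' hn (k := a + 2) (by omega)]
        congr 1
        omega
      have e6 : n + 2 - (b + 2) = a + 2 := by omega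
      have hRc : |R (a + 2)| ≤ ‖Fh f (a + 2)‖ * ‖Fh f (b + 2)‖ := by
        rw [hR]
        simp only [e1]
        rw [← norm_mul]
        exact Complex.abs_re_le_norm _
      have hRs : R (b + 2) = R (a + 2) := by
        rw [hR]
        simp only [e1, e6]
        rw [mul_comm]
      have hbl := block (X := 9 / 20 * ((n : ℝ) - 1)) (a := a) (b := b) (by exact_mod_cast ha1)
        (by exact_mod_cast hb1) k1 k2 (by linarith) k3 k4 (norm_nonneg (Fh f (a + 2)))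
        (norm_nonneg (Fh f (b + 2))) hRc
      rw [e1]
      simp only [hP]
      rw [e2, e3, e4, e5, hRs]
      refine hbl.trans (le_of_eq ?_)
      push_cast
      rw [hnr]
      ring
    linarith
  have hS2 : 3 ≤ Sm n 2 ^ 2 := by
    have := Sm_step hn (k := 0) (by norm_num)
    rw [Sm_zero'] at this
    norm_num at this
    nlinarith
  -- the final formula
  have hfin : 475 / 1000 * ((E + Q) / 2) - 525 / 1000 * ((E - Q) / 2)
      + 45 / 100 * ((n : ℝ) - 1) * ((e - s) / 2) =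
      (n : ℝ) / 2 * (19 / 20 * ((n : ℝ) - 1) * ‖Fh f 1‖ ^ 2
        + (9 / 20 * ((n : ℝ) - 1) * Sm n 2 ^ 2 - 2 * ((n : ℝ) - 2) / 20) * ‖Fh f 2‖ ^ 2
        + ∑ m ∈ Ico 3 n, P m) := by
    have hPs : ∑ m ∈ Ico 3 n, P m =
        9 / 20 * ((n : ℝ) - 1) * (∑ m ∈ Ico 3 n, Sm n m ^ 2 * ‖Fh f m‖ ^ 2)
        - 1 / 20 * (∑ m ∈ Ico 3 n, (m : ℝ) * ((n : ℝ) - m) * ‖Fh f m‖ ^ 2)
        + 9 / 20 * ((n : ℝ) - 1) * (∑ m ∈ Ico 3 n, Sm n m * Sm n (m - 2) * R m)
        - ∑ m ∈ Ico 3 n, ((m : ℝ) - 2) * ((n : ℝ) - m) * R m := by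
      rw [Finset.mul_sum, Finset.mul_sum, Finset.mul_sum, ← Finset.sum_sub_distrib,
        ← Finset.sum_add_distrib, ← Finset.sum_sub_distrib]
      apply Finset.sum_congr rfl
      intro m _
      simp only [hP]
      ring
    rw [hPs, hEv, hev, hQv, hsv, hsplit, hsplit, Sm_zero', Sm_one' hn]
    push_cast
    ring
  rw [hfin]
  have h1 : 0 ≤ 19 / 20 * ((n : ℝ) - 1) * ‖Fh f 1‖ ^ 2 := by
    have : 0 ≤ (n : ℝ) - 1 := by linarith
    positivity
  have h2 : 0 ≤ (9 / 20 * ((n : ℝ) - 1) * Sm n 2 ^ 2 - 2 * ((n : ℝ) - 2) / 20) * ‖Fh f 2‖ ^ 2 := by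
    apply mul_nonneg _ (by positivity)
    nlinarith
  have h3 : (0 : ℝ) ≤ (n : ℝ) / 2 := by positivity
  apply mul_nonneg h3
  linarith

end EHP56
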