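import Pool.Agent.EHP56.Kernel

/-!
# Window sums of the side lengths (module B0c)

`z (j+T) - z j = ∑_{l<T} r c χ (j+l) (χ 1 - 1)` (all at `j+l`), and `‖z (j+T) - z j - (χ (j+T) - χ j)‖ ≤ 2ε`.
With `s1 = ‖χ 1 - 1‖ = 2 sin (π/n) ≥ 4/n`, `R = R j T`:
`‖z (j+T) - z j - R χ j (χ 1 - 1)‖ ≤ s1 ∑ r (‖c - 1‖ + ‖χ l - 1‖) ≤ s1 R (ε + 2πT/n)`.  So
`|R s1 - ‖χ T - 1‖| ≤ 2ε + s1 R (ε + 2πT/n)`.  And `‖χ T - 1‖ = 2 sin (πT/n)` satisfies
`T s1 (1 - (πT/n)^2/6) ≤ 2 sin (πT/n) ≤ T s1` (`sin x ≥ x - x^3/6`, `sin (π/n) ≤ π/n`).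
Divide by `T s1` (`2ε/(T s1) ≤ ε n/(2T) ≤ 1/2`):
`R/T (1 - ε - 2πT/n) ≤ 1 + 1/2`, so `R/T ≤ 1.5/(1 - 0.01 - 0.063) ≤ 2`; then
`|R/T - 1| ≤ ε n/(2T) + 2 (ε + 2πT/n) + 2 (T/n)^2 ≤ 20 (ε n/T + T/n + ε)`.
-/

namespace EHP56

open Finset

variable {n : ℕ} [NeZero n]

private theorem window_norm_chi_sub_one (l : ℕ) (hl : l ≤ n) :
    ‖chi n (l : ZMod n) - 1‖ ≤ 2 * (Real.pi * l / n) := by
  have h := norm_chi_sub (n := n) 0 l hl
  rw [zero_add, chi_zero] at h
  rw [h]
  have : Real.sin (Real.pi * l / n) ≤ Real.pi * l / n := Real.sin_le (by positivity)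
  linarith

private theorem window_step {ε : ℝ} (P : Loc n ε) (j : ZMod n) (T : ℕ) (hTn : T < n) (hT : 1 ≤ T) :
    |P.R j T * (2 * Real.sin (Real.pi / n)) - 2 * Real.sin (Real.pi * T / n)|
      ≤ 2 * ε + (2 * Real.sin (Real.pi / n)) * P.R j T * (ε + 2 * (Real.pi * T / n)) := by
  have hn : (0 : ℝ) < n := by exact_mod_cast Nat.pos_of_ne_zero (NeZero.ne n)
  have hn2 : 2 ≤ n := by omega
  set w : ℂ := chi n ((1 : ℕ) : ZMod n) - 1 with hw
  have hwn : ‖w‖ = 2 * Real.sin (Real.pi / n) := by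
    have h := norm_chi_sub (n := n) 0 1 (by omega)
    rw [zero_add, chi_zero, Nat.cast_one (R := ℝ), mul_one] at h
    exact h
  have hRpos : 0 ≤ P.R j T := by
    unfold Loc.R
    exact Finset.sum_nonneg fun l _ => (P.r_pos _).le
  -- telescoping
  have htel : P.z (j + (T : ZMod n)) - P.z j
      = ∑ l ∈ range T, (P.r (j + (l : ZMod n)) : ℂ) * (P.c (j + (l : ZMod n))
          * chi n (l : ZMod n)) * (chi n j * w) := by
    rw [telescope P.z j T]
    apply Finset.sum_congr rfl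
    intro l _
    rw [P.edge (j + (l : ZMod n))]
    have h1 : chi n (j + (l : ZMod n) + 1) - chi n (j + (l : ZMod n))
        = chi n j * chi n (l : ZMod n) * w := by
      rw [hw, Nat.cast_one, chi_add, chi_add]; ring
    rw [h1]; ring
  have hR : ((P.R j T : ℝ) : ℂ) = ∑ l ∈ range T, (P.r (j + (l : ZMod n)) : ℂ) := by
    unfold Loc.R
    push_cast
    rfl
  have hdiff : P.z (j + (T : ZMod n)) - P.z j - ((P.R j T : ℝ) : ℂ) * (chi n j * w)
      = ∑ l ∈ range T, (P.r (j + (l : ZMod n)) : ℂ) * (P.c (j + (l : ZMod n))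
          * chi n (l : ZMod n) - 1) * (chi n j * w) := by
    rw [htel, hR, Finset.sum_mul, ← Finset.sum_sub_distrib]
    apply Finset.sum_congr rfl
    intro l _
    ring
  have hbound : ‖P.z (j + (T : ZMod n)) - P.z j - ((P.R j T : ℝ) : ℂ) * (chi n j * w)‖
      ≤ (2 * Real.sin (Real.pi / n)) * P.R j T * (ε + 2 * (Real.pi * T / n)) := by
    rw [hdiff]
    refine (norm_sum_le _ _).trans ?_
    have hterm : ∀ l ∈ range T, ‖(P.r (j + (l : ZMod n)) : ℂ) * (P.c (j + (l : ZMod n))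
          * chi n (l : ZMod n) - 1) * (chi n j * w)‖
        ≤ P.r (j + (l : ZMod n)) * ((ε + 2 * (Real.pi * T / n)) * (2 * Real.sin (Real.pi / n))) := by
      intro l hl
      rw [Finset.mem_range] at hl
      have hr := (P.r_pos (j + (l : ZMod n))).le
      rw [norm_mul, norm_mul, norm_mul, chi_norm, one_mul, hwn, Complex.norm_real,
        Real.norm_eq_abs, abs_of_nonneg hr, mul_assoc]
      apply mul_le_mul_of_nonneg_left _ hr
      apply mul_le_mul_of_nonneg_right _ (by rw [← hwn]; exact norm_nonneg _)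
      have e : P.c (j + (l : ZMod n)) * chi n (l : ZMod n) - 1
          = (P.c (j + (l : ZMod n)) - 1) * chi n (l : ZMod n) + (chi n (l : ZMod n) - 1) := by ring
      rw [e]
      refine (norm_add_le _ _).trans ?_
      rw [norm_mul, chi_norm, mul_one]
      have h2 := P.c_close (j + (l : ZMod n))
      have h3 := window_norm_chi_sub_one (n := n) l (by omega)
      have h4 : 2 * (Real.pi * l / n) ≤ 2 * (Real.pi * T / n) := by
        have : (l : ℝ) ≤ T := by exact_mod_cast hl.le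
        have h5 : Real.pi * l / n ≤ Real.pi * T / n :=
          div_le_div_of_nonneg_right (mul_le_mul_of_nonneg_left this Real.pi_pos.le) hn.le
        linarith
      linarith
    refine (Finset.sum_le_sum hterm).trans ?_
    rw [← Finset.sum_mul]
    have : ∑ l ∈ range T, P.r (j + (l : ZMod n)) = P.R j T := rfl
    rw [this]
    apply le_of_eq
    ring
  have hzz : ‖(P.z (j + (T : ZMod n)) - P.z j) - (chi n (j + (T : ZMod n)) - chi n j)‖ ≤ 2 * ε := by
    have e : (P.z (j + (T : ZMod n)) - P.z j) - (chi n (j + (T : ZMod n)) - chi n j)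
        = (P.z (j + (T : ZMod n)) - chi n (j + (T : ZMod n))) - (P.z j - chi n j) := by ring
    rw [e]
    have h1 := P.z_close (j + (T : ZMod n))
    have h2 := P.z_close j
    have h3 := norm_sub_le (P.z (j + (T : ZMod n)) - chi n (j + (T : ZMod n))) (P.z j - chi n j)
    linarith
  have hA : ‖((P.R j T : ℝ) : ℂ) * (chi n j * w)‖ = P.R j T * (2 * Real.sin (Real.pi / n)) := by
    rw [norm_mul, norm_mul, chi_norm, one_mul, hwn, Complex.norm_real, Real.norm_eq_abs,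
      abs_of_nonneg hRpos]
  have hB := norm_chi_sub (n := n) j T hTn.le
  rw [← hA, ← hB]
  refine (abs_norm_sub_norm_le _ _).trans ?_
  have e : ((P.R j T : ℝ) : ℂ) * (chi n j * w) - (chi n (j + (T : ZMod n)) - chi n j)
      = ((P.z (j + (T : ZMod n)) - P.z j) - (chi n (j + (T : ZMod n)) - chi n j))
        - (P.z (j + (T : ZMod n)) - P.z j - ((P.R j T : ℝ) : ℂ) * (chi n j * w)) := by ring
  rw [e]
  refine (norm_sub_le _ _).trans ?_
  linarith

theorem Loc.window {ε : ℝ} (P : Loc n ε) (hε0 : 0 ≤ ε) (hε : ε ≤ 1 / 100) (T : ℕ) (hT : 1 ≤ T)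
    (hTn : 100 * T ≤ n) (hεT : ε * n ≤ T) (j : ZMod n) :
    P.R j T ≤ 2 * T ∧ |P.R j T / T - 1| ≤ 20 * (ε * n / T + (T : ℝ) / n + ε) := by
  have hn : (0 : ℝ) < n := by exact_mod_cast Nat.pos_of_ne_zero (NeZero.ne n)
  have hT0 : (0 : ℝ) < T := by exact_mod_cast hT
  have hlt : T < n := by omega
  have hstep := window_step P j T hlt hT
  set σ : ℝ := 2 * Real.sin (Real.pi / n) with hσ
  set S : ℝ := 2 * Real.sin (Real.pi * T / n) with hS
  set ρ : ℝ := P.R j T / T with hρ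
  have hRρ : P.R j T = ρ * T := by rw [hρ]; field_simp
  have hσ1 : 4 / (n : ℝ) ≤ σ := by
    have h := sin_lower_two (n := n) (d := 1) (by omega)
    rw [Nat.cast_one, mul_one, mul_one] at h
    rw [hσ]
    have e : (4 : ℝ) / n = 2 * (2 / n) := by ring
    rw [e]
    linarith
  have hσ0 : 0 < σ := lt_of_lt_of_le (by positivity) hσ1
  have hρ0 : 0 ≤ ρ := by
    rw [hρ]
    apply div_nonneg _ hT0.le
    unfold Loc.R
    exact Finset.sum_nonneg fun l _ => (P.r_pos _).le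
  set y : ℝ := (T : ℝ) / n with hy
  have hy0 : 0 < y := by positivity
  have hy1 : y ≤ 1 / 100 := by
    rw [hy, div_le_iff₀ hn]
    have : 100 * (T : ℝ) ≤ n := by exact_mod_cast hTn
    linarith
  set e : ℝ := ε * n / T with he
  have he0 : 0 ≤ e := by positivity
  have he1 : e ≤ 1 := by
    rw [he, div_le_iff₀ hT0]
    linarith
  -- upper and lower bounds for `S`
  have hS1 : S ≤ T * σ := by
    have h := sin_nat_mul_le T (Real.pi / n) (by positivity) (by
      rw [div_le_iff₀ hn]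
      have : (1 : ℝ) ≤ n := by exact_mod_cast Nat.pos_of_ne_zero (NeZero.ne n)
      nlinarith [Real.pi_pos])
    have e1 : (T : ℝ) * (Real.pi / n) = Real.pi * T / n := by ring
    rw [e1] at h
    have h2 := (le_abs_self _).trans h
    rw [hS, hσ]
    linarith
  have hS2 : T * σ * (1 - 2 * y ^ 2) ≤ S := by
    have h := beta_upper_small (n := n) hT hTn
    unfold beta at h
    have hsp := sin_pos_of_lt hT hlt
    rw [← mul_div_assoc, div_le_iff₀ hsp] at h
    have h3 : T * σ ≤ (1 + 2 * y ^ 2) * S := by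
      rw [hS, hσ]
      have : (T : ℝ) * Real.sin (Real.pi / n) ≤ (1 + 2 * y ^ 2) * Real.sin (Real.pi * T / n) := h
      linarith
    have h4 : T * σ * (1 - 2 * y ^ 2) ≤ (1 + 2 * y ^ 2) * S * (1 - 2 * y ^ 2) := by
      apply mul_le_mul_of_nonneg_right h3
      nlinarith
    have h5 : (1 + 2 * y ^ 2) * S * (1 - 2 * y ^ 2) ≤ S := by
      have hSpos : 0 < S := by rw [hS]; linarith
      have : (1 + 2 * y ^ 2) * S * (1 - 2 * y ^ 2) = S * (1 - 4 * y ^ 4) := by ring
      rw [this]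
      nlinarith [mul_nonneg hSpos.le (by positivity : (0 : ℝ) ≤ 4 * y ^ 4)]
    linarith
  set δ : ℝ := ε + 2 * (Real.pi * T / n) with hδ
  have hδy : δ = ε + 2 * (Real.pi * y) := by rw [hδ, hy]; ring
  have hpi := Real.pi_lt_d4
  have hpi0 := Real.pi_pos
  have hδ1 : δ ≤ 0.0729 := by
    rw [hδy]
    nlinarith
  have hδ0 : 0 ≤ δ := by rw [hδy]; positivity
  -- `2 ε ≤ T σ e / 2`
  have h2ε : 2 * ε ≤ T * σ * (e / 2) := by
    have h6 : T * σ * (e / 2) = σ * (ε * n) / 2 := by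
      rw [he]; field_simp
    rw [h6]
    have h7 : 4 ≤ σ * n := by
      have := mul_le_mul_of_nonneg_right hσ1 hn.le
      have e2 : 4 / (n : ℝ) * n = 4 := by field_simp
      rw [e2] at this
      exact this
    nlinarith
  have hTσ : 0 < T * σ := by positivity
  rw [hRρ] at hstep
  have hmain := abs_le.mp hstep
  obtain ⟨hl, hu⟩ := hmain
  -- upper bound
  have hup : ρ ≤ 1 + e / 2 + ρ * δ := by
    have h8 : (T * σ) * ρ ≤ (T * σ) * (1 + e / 2 + ρ * δ) := by nlinarith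
    exact le_of_mul_le_mul_left h8 hTσ
  have hlo : 1 - 2 * y ^ 2 - e / 2 - ρ * δ ≤ ρ := by
    have h8 : (T * σ) * (1 - 2 * y ^ 2 - e / 2 - ρ * δ) ≤ (T * σ) * ρ := by nlinarith
    exact le_of_mul_le_mul_left h8 hTσ
  have hρ2 : ρ ≤ 2 := by
    by_contra hc
    push Not at hc
    nlinarith [mul_nonneg hρ0 (sub_nonneg.mpr hδ1)]
  refine ⟨by rw [hRρ]; nlinarith, ?_⟩
  have hρδ : ρ * δ ≤ 2 * δ := mul_le_mul_of_nonneg_right hρ2 hδ0
  have hπy : Real.pi * y ≤ 4 * y := by nlinarith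
  have hyy : 2 * y ^ 2 ≤ y := by nlinarith
  rw [abs_le]
  constructor
  · have : 2 * δ = 2 * ε + 4 * (Real.pi * y) := by rw [hδy]; ring
    nlinarith
  · have : 2 * δ = 2 * ε + 4 * (Real.pi * y) := by rw [hδy]; ring
    nlinarith

end EHP56
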