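import Pool.Agent.EHP56.First
import Pool.Agent.EHP56.Window
import Pool.Agent.EHP56.Micro
import Pool.Agent.EHP56.MacroDiff
import Pool.Agent.EHP56.QForm

/-!
# The local theorem (module B7)

`C3` from `micro`, `C4` from `macro_diff`.  Choose `δ > 0` with `δ ≤ 1/100`, `C3 δ ≤ 0.02`; then `δ' > 0` with `δ' ≤ δ`,
`δ' ≤ 10⁻⁵`, `416 C4 δ' ≤ 0.01 δ²`, `208 C4 δ'² ≤ 0.00145`, `364 C4 δ'² ≤ 0.03`; then `ε > 0` with `C3 ε² ≤ 0.02`, `ε ≤ 10⁻⁶ δ'`; `N` with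
`δ' N ≥ 2`, `N ≥ 101`.  `D = ⌊δ n⌋`, `T = ⌊δ' n⌋`; so `δ n/2 ≤ D ≤ δ n`, `δ' n/2 ≤ T ≤ δ' n`, `n T/D² ≤ 4δ'/δ²`.

`Xs = X (smooth T P.z)`, `G1 = P.G (Ico 1 D)`, `N1 = P.N (Ico 1 D)`, `G2, N2` the same for `Icc D (n-D)`; by `X_symm` the blocks
`Ioo (n-D) n` give `G1, N1` again.  So `Gtot = 2 G1 + G2`, `Ntot = 2 N1 + N2`, all `≥ 0`.
`R_s = ∑_{d∈Ico 1 n} ∑_j (Re Xs - 1)²`, `I_s = ∑∑ (Im Xs)²`, `J = ∑_k (Im Xs k 1)²`, `Δ = ∑_{d∈Icc D (n-D)} ∑_j ‖X - Xs‖²`.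

(a) `first`: target `≤ -(n-1) L0 - Gtot + N1 + N2/2`.
(b) `micro` (with `Loc.window` for `D`): `N1 ≤ C3 (D/n + ε²)(n L0 + G1) ≤ 0.04 (n L0 + G1)`.
(c) `X_close_macro`: `|X - 1| ≤ ε/δ ≤ 1/1000`, so `N2 ≤ 1.01 ∑∑_{macro} (Im X)²`.
(d) `(Im X)² ≤ 1.01 (Im Xs)² + 101 ‖X - Xs‖²`, so `N2 ≤ 1.0201 I_s + 103 Δ`.
(e) `macro_diff`: `Δ ≤ C4 [(nT/D²)(G1 + N1) + (T/n)² M]`, `M = ∑∑_{macro} ‖X - 1‖² ≤ (7/2) G2 + 2 I_s + 2 Δ` (`sq_le_g`), so
    `Δ ≤ 2 C4 (nT/D²)(G1+N1) + 2 C4 (T/n)² ((7/2) G2 + 2 I_s)`, whence `52 Δ ≤ 0.01 (G1 + N1) + 0.03 G2 + 0.00145 I_s`.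
(f) `jensen` and `smooth_close` (`κ = 20 (ε n/T + T/n + ε) ≤ 1/4000`, so `|Xs - 1| ≤ 1/1000`) and `g_lower`: `0.499 R_s ≤ Gtot`.
(g) `qform` for `f = smooth T z - χ` (`X f = Xs - 1`) and `smooth_im`: `0.525 I_s ≤ 0.475 R_s + 0.45 (n-1) J`, `J ≤ 2.001 L0`.
Sum: `target ≤ -(n-1) L0 - Gtot + N1 + 0.51005 I_s + 52 Δ`; by (g), (f) `0.5115 I_s ≤ 0.878 (n-1) L0 + 0.9275 Gtot`, so
`target ≤ - 0.122 (n-1) L0 - 0.0725 (2 G1 + G2) + 0.01 G1 + 0.03 G2 + 1.01 N1 ≤ 0` by (b) and `n ≤ 1.01 (n-1)`.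
-/

namespace EHP56

open Finset

namespace LCore

variable {n : ℕ} [NeZero n]

lemma sum_symm (f : ZMod n → ℂ) (φ : ℂ → ℝ) {d : ℕ} (h : d ≤ n) :
    ∑ j, φ (X f j (n - d)) = ∑ j, φ (X f j d) := by
  rw [← Equiv.sum_comp (Equiv.addRight (d : ZMod n)) (fun j => φ (X f j (n - d)))]
  apply Finset.sum_congr rfl
  intro j _
  simp only [Equiv.coe_addRight]
  rw [X_symm f j h]

lemma split (F : ℕ → ℝ) (n D : ℕ) (hD : 1 ≤ D) (h2 : 2 * D ≤ n) (hF : ∀ d, d ≤ n → F (n - d) = F d) :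
    ∑ d ∈ Ico 1 n, F d = 2 * ∑ d ∈ Ico 1 D, F d + ∑ d ∈ Icc D (n - D), F d := by
  have e1 : ∑ d ∈ Ico 1 n, F d = ∑ d ∈ Ico 1 D, F d + ∑ d ∈ Ico D n, F d :=
    (Finset.sum_Ico_consecutive F hD (by omega)).symm
  have e2 : ∑ d ∈ Ico D n, F d = ∑ d ∈ Ico D (n - D + 1), F d + ∑ d ∈ Ico (n - D + 1) n, F d :=
    (Finset.sum_Ico_consecutive F (by omega) (by omega)).symm
  have e3 : Icc D (n - D) = Ico D (n - D + 1) := by
    ext x; simp only [Finset.mem_Icc, Finset.mem_Ico]; omega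
  have e4 : ∑ d ∈ Ico (n - D + 1) n, F d = ∑ d ∈ Ico 1 D, F d := by
    have h := Finset.sum_Ico_reflect F 1 (m := D) (n := n) (by omega)
    have h5 : n + 1 - D = n - D + 1 := by omega
    have h6 : n + 1 - 1 = n := by omega
    rw [h5, h6] at h
    rw [← h]
    apply Finset.sum_congr rfl
    intro d hd
    rw [Finset.mem_Ico] at hd
    exact hF d (by omega)
  rw [e1, e2, e3, e4]
  ring

lemma X_sub_chi (f : ZMod n → ℂ) (j : ZMod n) {d : ℕ} (h1 : 1 ≤ d) (h2 : d < n) :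
    X (fun i => f i - chi n i) j d = X f j d - 1 := by
  have hne := chi_sub_ne j h1 h2
  unfold X
  rw [eq_sub_iff_add_eq, div_add_one hne]
  congr 1
  ring

lemma sq_im_le (a b : ℂ) : a.im ^ 2 ≤ 101 / 100 * b.im ^ 2 + 101 * ‖a - b‖ ^ 2 := by
  have h1 : (a - b).im ^ 2 ≤ ‖a - b‖ ^ 2 := by
    rw [← sq_abs]
    exact pow_le_pow_left₀ (abs_nonneg _) (Complex.abs_im_le_norm _) 2
  have h2 : a.im = b.im + (a - b).im := by rw [Complex.sub_im]; ring
  rw [h2]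
  nlinarith [sq_nonneg (b.im / 10 - 10 * (a - b).im)]

lemma norm_sub_one_sq (a b : ℂ) (h : 0 < a.re) (h2 : a.re ≤ 21 / 10) :
    ‖a - 1‖ ^ 2 ≤ 7 / 2 * g a.re + 2 * b.im ^ 2 + 2 * ‖a - b‖ ^ 2 := by
  have h1 : (a - b).im ^ 2 ≤ ‖a - b‖ ^ 2 := by
    rw [← sq_abs]
    exact pow_le_pow_left₀ (abs_nonneg _) (Complex.abs_im_le_norm _) 2
  have h3 : a.im = b.im + (a - b).im := by rw [Complex.sub_im]; ring
  have h4 : ‖a - 1‖ ^ 2 = (a.re - 1) ^ 2 + a.im ^ 2 := by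
    rw [← Complex.normSq_eq_norm_sq, Complex.normSq_apply]
    simp only [Complex.sub_re, Complex.one_re, Complex.sub_im, Complex.one_im]
    ring
  have h5 := sq_le_g h h2
  rw [h4, h3]
  nlinarith [sq_nonneg (b.im - (a - b).im)]

lemma core {ε : ℝ} (P : Loc n ε) (C3 C4 : ℝ) (hC4 : 0 < C4) (D T : ℕ) (hn : 101 ≤ n)
    (hT : 1 ≤ T) (hTD : T ≤ D) (hD : 100 * D ≤ n) (hε : ε ≤ 1 / 100)
    (h3 : C3 * ((D : ℝ) / n + ε ^ 2) ≤ 1 / 25)
    (h4 : C4 * ((n : ℝ) * T / (D : ℝ) ^ 2) ≤ 1 / 10400)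
    (h5 : C4 * ((T : ℝ) / n) ^ 2 ≤ 1 / 200000)
    (h6 : ε * n / (2 * D) ≤ 1 / 1000) (hεT : ε * n ≤ T)
    (h7 : 20 * (ε * n / T + (T : ℝ) / n + ε) ≤ 1 / 4000)
    (hmicro : P.N (Ico 1 D) ≤ C3 * ((D : ℝ) / n + ε ^ 2) * (n * P.L0 + P.G (Ico 1 D)))
    (hmd : ∑ d ∈ Icc D (n - D), ∑ j, ‖X P.z j d - X (smooth T P.z) j d‖ ^ 2
      ≤ C4 * ((n : ℝ) * T / (D : ℝ) ^ 2 * (P.G (Ico 1 T) + P.N (Ico 1 T))
        + ((T : ℝ) / n) ^ 2 * ∑ d ∈ Icc D (n - D), ∑ j, ‖X P.z j d - 1‖ ^ 2)) :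
    ∑ d ∈ Ico 1 n, ∑ j, Real.log ‖X P.z j d‖ ≤ 0 := by
  have hε0 := P.eps_nonneg
  have hD1 : 1 ≤ D := hT.trans hTD
  have hTn : 100 * T ≤ n := by omega
  have hn2 : 2 ≤ n := by omega
  have hnR : (101 : ℝ) ≤ n := by exact_mod_cast hn
  have hL0 : 0 ≤ P.L0 := by
    unfold Loc.L0
    exact Finset.sum_nonneg (fun k _ => ell_nonneg P k)
  -- first
  have hfirst := P.first hn2 hε
  have hg0 : ∀ d ∈ Ico 1 n, ∀ j, 0 ≤ g (X P.z j d).re := by
    intro d hd j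
    rw [Finset.mem_Ico] at hd
    exact g_nonneg (P.X_re_pos hε j hd.1 hd.2)
  have hmac : ∀ d, d ∈ Icc D (n - D) → d ∈ Ico 1 n := by
    intro d hd
    rw [Finset.mem_Icc] at hd
    rw [Finset.mem_Ico]
    omega
  have hmic : ∀ d, d ∈ Ico 1 D → d ∈ Ico 1 n := by
    intro d hd
    rw [Finset.mem_Ico] at hd ⊢
    omega
  -- splitting
  have hG : P.G (Ico 1 n) = 2 * P.G (Ico 1 D) + P.G (Icc D (n - D)) := by
    unfold Loc.G
    exact split (fun d => ∑ j, g (X P.z j d).re) n D hD1 (by omega)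
      (fun d hd => sum_symm P.z (fun w => g w.re) hd)
  have hN : P.N (Ico 1 n) = 2 * P.N (Ico 1 D) + P.N (Icc D (n - D)) := by
    unfold Loc.N
    exact split (fun d => ∑ j, ((X P.z j d).im / (X P.z j d).re) ^ 2) n D hD1 (by omega)
      (fun d hd => sum_symm P.z (fun w => (w.im / w.re) ^ 2) hd)
  have hG1 : 0 ≤ P.G (Ico 1 D) := by
    unfold Loc.G
    exact Finset.sum_nonneg (fun d hd => Finset.sum_nonneg (fun j _ => hg0 d (hmic d hd) j))
  have hG2 : 0 ≤ P.G (Icc D (n - D)) := by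
    unfold Loc.G
    exact Finset.sum_nonneg (fun d hd => Finset.sum_nonneg (fun j _ => hg0 d (hmac d hd) j))
  have hN1 : 0 ≤ P.N (Ico 1 D) := by
    unfold Loc.N
    exact Finset.sum_nonneg (fun d _ => Finset.sum_nonneg (fun j _ => sq_nonneg _))
  have hGT : P.G (Ico 1 T) ≤ P.G (Ico 1 D) := by
    unfold Loc.G
    apply Finset.sum_le_sum_of_subset_of_nonneg (Finset.Ico_subset_Ico_right hTD)
    intro d hd _
    exact Finset.sum_nonneg (fun j _ => hg0 d (hmic d hd) j)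
  have hNT : P.N (Ico 1 T) ≤ P.N (Ico 1 D) := by
    unfold Loc.N
    apply Finset.sum_le_sum_of_subset_of_nonneg (Finset.Ico_subset_Ico_right hTD)
    intro d hd _
    exact Finset.sum_nonneg (fun j _ => sq_nonneg _)
  -- micro
  have hN1le : P.N (Ico 1 D) ≤ 1 / 25 * (n * P.L0 + P.G (Ico 1 D)) := by
    refine hmicro.trans ?_
    apply mul_le_mul_of_nonneg_right h3
    positivity
  -- macro closeness
  have hclose : ∀ d ∈ Icc D (n - D), ∀ j, ‖X P.z j d - 1‖ ≤ 1 / 1000 := by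
    intro d hd j
    rw [Finset.mem_Icc] at hd
    exact (P.X_close_macro j hD1 hd.1 hd.2 (by omega)).trans h6
  set Is := ∑ d ∈ Ico 1 n, ∑ j, (X (smooth T P.z) j d).im ^ 2 with hIs
  set Rs := ∑ d ∈ Ico 1 n, ∑ j, ((X (smooth T P.z) j d).re - 1) ^ 2 with hRs
  set Δ := ∑ d ∈ Icc D (n - D), ∑ j, ‖X P.z j d - X (smooth T P.z) j d‖ ^ 2 with hΔ
  set M := ∑ d ∈ Icc D (n - D), ∑ j, ‖X P.z j d - 1‖ ^ 2 with hM
  have hIm : ∑ d ∈ Icc D (n - D), ∑ j, (X (smooth T P.z) j d).im ^ 2 ≤ Is := by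
    apply Finset.sum_le_sum_of_subset_of_nonneg
    · intro d hd; exact hmac d hd
    · intro d _ _
      exact Finset.sum_nonneg (fun j _ => sq_nonneg _)
  have hN2 : P.N (Icc D (n - D)) ≤ 10201 / 10000 * Is + 103 * Δ := by
    have h : P.N (Icc D (n - D)) ≤ 10201 / 10000 *
        ∑ d ∈ Icc D (n - D), ∑ j, (X (smooth T P.z) j d).im ^ 2 + 103 * Δ := by
      unfold Loc.N
      rw [hΔ, Finset.mul_sum, Finset.mul_sum, ← Finset.sum_add_distrib]
      apply Finset.sum_le_sum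
      intro d hd
      rw [Finset.mul_sum, Finset.mul_sum, ← Finset.sum_add_distrib]
      apply Finset.sum_le_sum
      intro j _
      have hc := hclose d hd j
      have hre : 999 / 1000 ≤ (X P.z j d).re := by
        have h6 := Complex.abs_re_le_norm (X P.z j d - 1)
        rw [Complex.sub_re, Complex.one_re] at h6
        have h7 := neg_abs_le ((X P.z j d).re - 1)
        linarith
      have h8 := sq_im_le (X P.z j d) (X (smooth T P.z) j d)
      have h9 : ((X P.z j d).im / (X P.z j d).re) ^ 2 ≤ 10021 / 10000 * (X P.z j d).im ^ 2 := by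
        rw [div_pow, div_le_iff₀ (by positivity)]
        have h10 : (998 / 1000 : ℝ) ≤ (X P.z j d).re ^ 2 := by nlinarith
        nlinarith [sq_nonneg (X P.z j d).im]
      nlinarith [sq_nonneg (X (smooth T P.z) j d).im, sq_nonneg ‖X P.z j d - X (smooth T P.z) j d‖]
    linarith
  have hM2 : M ≤ 7 / 2 * P.G (Icc D (n - D)) + 2 * Is + 2 * Δ := by
    have h : M ≤ 7 / 2 * P.G (Icc D (n - D))
        + 2 * ∑ d ∈ Icc D (n - D), ∑ j, (X (smooth T P.z) j d).im ^ 2 + 2 * Δ := by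
      unfold Loc.G
      rw [hM, hΔ, Finset.mul_sum, Finset.mul_sum, Finset.mul_sum, ← Finset.sum_add_distrib,
        ← Finset.sum_add_distrib]
      apply Finset.sum_le_sum
      intro d hd
      rw [Finset.mul_sum, Finset.mul_sum, Finset.mul_sum, ← Finset.sum_add_distrib,
        ← Finset.sum_add_distrib]
      apply Finset.sum_le_sum
      intro j _
      have hc := hclose d hd j
      have h6 := Complex.abs_re_le_norm (X P.z j d - 1)
      rw [Complex.sub_re, Complex.one_re] at h6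
      have h7 := neg_abs_le ((X P.z j d).re - 1)
      have h8 := le_abs_self ((X P.z j d).re - 1)
      exact norm_sub_one_sq _ _ (by linarith) (by linarith)
    linarith
  have hΔ0 : 0 ≤ Δ := Finset.sum_nonneg (fun d _ => Finset.sum_nonneg (fun j _ => sq_nonneg _))
  have hM0 : 0 ≤ M := Finset.sum_nonneg (fun d _ => Finset.sum_nonneg (fun j _ => sq_nonneg _))
  have hIs0 : 0 ≤ Is := Finset.sum_nonneg (fun d _ => Finset.sum_nonneg (fun j _ => sq_nonneg _))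
  have hΔ1 : Δ ≤ 1 / 10400 * (P.G (Ico 1 D) + P.N (Ico 1 D)) + 1 / 200000 * M := by
    refine hmd.trans ?_
    have a1 : C4 * ((n : ℝ) * T / (D : ℝ) ^ 2) * (P.G (Ico 1 T) + P.N (Ico 1 T))
        ≤ 1 / 10400 * (P.G (Ico 1 D) + P.N (Ico 1 D)) := by
      calc C4 * ((n : ℝ) * T / (D : ℝ) ^ 2) * (P.G (Ico 1 T) + P.N (Ico 1 T))
          ≤ C4 * ((n : ℝ) * T / (D : ℝ) ^ 2) * (P.G (Ico 1 D) + P.N (Ico 1 D)) := by
            apply mul_le_mul_of_nonneg_left (by linarith) (by positivity)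
        _ ≤ 1 / 10400 * (P.G (Ico 1 D) + P.N (Ico 1 D)) :=
            mul_le_mul_of_nonneg_right h4 (by linarith)
    have a2 : C4 * ((T : ℝ) / n) ^ 2 * M ≤ 1 / 200000 * M := mul_le_mul_of_nonneg_right h5 hM0
    linarith
  -- smoothing
  have hκ : ∀ k, |P.R k T / T - 1| ≤ 1 / 4000 := fun k =>
    (P.window hε0 hε T hT hTn hεT k).2.trans h7
  have hεs : ε ≤ 1 / 80000 := by
    have h8 : 0 ≤ ε * n / T := by positivity
    have h9 : 0 ≤ (T : ℝ) / n := by positivity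
    linarith
  have hsm : ∀ d ∈ Ico 1 n, ∀ j, ‖X (smooth T P.z) j d - 1‖ ≤ 1 / 1000 := by
    intro d hd j
    rw [Finset.mem_Ico] at hd
    refine (P.smooth_close hn2 T hT (1 / 4000) hκ j hd.1 hd.2).trans ?_
    linarith
  have hRG : 499 / 1000 * Rs ≤ P.G (Ico 1 n) := by
    unfold Loc.G
    rw [hRs, Finset.mul_sum]
    apply Finset.sum_le_sum
    intro d hd
    have hd' := hd
    rw [Finset.mem_Ico] at hd'
    refine le_trans ?_ (jensen T hT P.z hd'.1 hd'.2 (fun j => P.X_re_pos hε j hd'.1 hd'.2))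
    rw [Finset.mul_sum]
    apply Finset.sum_le_sum
    intro j _
    have h6 := (Complex.abs_re_le_norm (X (smooth T P.z) j d - 1)).trans (hsm d hd j)
    rw [Complex.sub_re, Complex.one_re] at h6
    have h8 := g_lower (t := (X (smooth T P.z) j d).re - 1) (by linarith)
    have h9 : 1 + ((X (smooth T P.z) j d).re - 1) = (X (smooth T P.z) j d).re := by ring
    rw [h9] at h8
    refine le_trans ?_ h8
    apply mul_le_mul_of_nonneg_right _ (sq_nonneg _)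
    linarith
  -- quadratic form
  have hJ := P.smooth_im hn2 T hT (1 / 4000) hκ
  set J := ∑ k, (X (smooth T P.z) k 1).im ^ 2 with hJdef
  have hq : 0 ≤ 475 / 1000 * Rs - 525 / 1000 * Is + 45 / 100 * ((n : ℝ) - 1) * J := by
    have hX : ∀ d ∈ Ico 1 n, ∀ j, X (fun i => smooth T P.z i - chi n i) j d
        = X (smooth T P.z) j d - 1 := by
      intro d hd j
      rw [Finset.mem_Ico] at hd
      exact X_sub_chi (smooth T P.z) j hd.1 hd.2
    have hX1 : ∀ k, X (fun i => smooth T P.z i - chi n i) k 1 = X (smooth T P.z) k 1 - 1 :=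
      fun k => X_sub_chi (smooth T P.z) k (le_refl 1) (by omega)
    have h := qform (by omega) (fun i => smooth T P.z i - chi n i) (by
      rw [← P.smooth_im_sum hn2 T hT]
      apply Finset.sum_congr rfl
      intro k _
      rw [hX1, Complex.sub_im, Complex.one_im, sub_zero])
    have e1 : ∑ d ∈ Ico 1 n, ∑ j, (X (fun i => smooth T P.z i - chi n i) j d).re ^ 2 = Rs := by
      apply Finset.sum_congr rfl
      intro d hd
      apply Finset.sum_congr rfl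
      intro j _
      rw [hX d hd, Complex.sub_re, Complex.one_re]
    have e2 : ∑ d ∈ Ico 1 n, ∑ j, (X (fun i => smooth T P.z i - chi n i) j d).im ^ 2 = Is := by
      apply Finset.sum_congr rfl
      intro d hd
      apply Finset.sum_congr rfl
      intro j _
      rw [hX d hd, Complex.sub_im, Complex.one_im, sub_zero]
    have e3 : ∑ k, (X (fun i => smooth T P.z i - chi n i) k 1).im ^ 2 = J := by
      apply Finset.sum_congr rfl
      intro k _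
      rw [hX1, Complex.sub_im, Complex.one_im, sub_zero]
    rw [e1, e2, e3] at h
    exact h
  have hy : ((n : ℝ) - 1) * J ≤ 20005 / 10000 * (((n : ℝ) - 1) * P.L0) := by
    have : J ≤ 20005 / 10000 * P.L0 := by
      refine hJ.trans (le_of_eq ?_)
      ring
    nlinarith
  have hnL : (n : ℝ) * P.L0 ≤ 101 / 100 * (((n : ℝ) - 1) * P.L0) := by nlinarith
  have hw : 0 ≤ ((n : ℝ) - 1) * P.L0 := by
    apply mul_nonneg _ hL0
    linarith
  rw [hG, hN] at hfirst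
  rw [hG] at hRG
  set w := ((n : ℝ) - 1) * P.L0 with hwdef
  set y := ((n : ℝ) - 1) * J with hydef
  have hq' : 0 ≤ 475 / 1000 * Rs - 525 / 1000 * Is + 45 / 100 * y := by
    rw [hydef]; linarith
  have hf' : ∑ d ∈ Ico 1 n, ∑ j, Real.log ‖X P.z j d‖
      ≤ - w - (2 * P.G (Ico 1 D) + P.G (Icc D (n - D)))
        + 1 / 2 * (2 * P.N (Ico 1 D) + P.N (Icc D (n - D))) := by
    rw [hwdef]; linarith
  have hΔ2 : Δ ≤ 1 / 10300 * (P.G (Ico 1 D) + P.N (Ico 1 D))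
      + 1 / 199000 * (7 / 2 * P.G (Icc D (n - D)) + 2 * Is) := by
    linarith
  have hIs1 : Is ≤ 475 / 525 * Rs + 450 / 525 * y := by linarith
  have hIs2 : 10205 / 20000 * Is ≤ 9258 / 10000 * (2 * P.G (Ico 1 D) + P.G (Icc D (n - D)))
      + 8835 / 10000 * w := by
    linarith
  linarith

end LCore

theorem local_core : ∃ ε : ℝ, 0 < ε ∧ ∃ N : ℕ, ∀ (n : ℕ) [NeZero n], N ≤ n → ∀ P : Loc n ε,
    ∑ d ∈ Ico 1 n, ∑ j, Real.log ‖X P.z j d‖ ≤ 0 := by
  obtain ⟨C3, hC3, hmicro⟩ := micro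
  obtain ⟨C4, hC4, hmd⟩ := macro_diff
  set δ : ℝ := min (1 / 200) (1 / (50 * C3)) with hδ
  have hδ0 : 0 < δ := by rw [hδ]; positivity
  have hδ1 : δ ≤ 1 / 200 := min_le_left _ _
  have hδ2 : C3 * δ ≤ 1 / 50 := by
    have : δ ≤ 1 / (50 * C3) := min_le_right _ _
    calc C3 * δ ≤ C3 * (1 / (50 * C3)) := mul_le_mul_of_nonneg_left this hC3.le
      _ = 1 / 50 := by field_simp
  set η : ℝ := min (min (1 / 10 ^ 6) δ) (min (δ ^ 2 / (41600 * C4)) (1 / (200000 * C4))) with hη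
  have hη0 : 0 < η := by rw [hη]; positivity
  have hη1 : η ≤ 1 / 10 ^ 6 := (min_le_left _ _).trans (min_le_left _ _)
  have hη2 : η ≤ δ := (min_le_left _ _).trans (min_le_right _ _)
  have hη3 : η ≤ δ ^ 2 / (41600 * C4) := (min_le_right _ _).trans (min_le_left _ _)
  have hη4 : η ≤ 1 / (200000 * C4) := (min_le_right _ _).trans (min_le_right _ _)
  set ε : ℝ := min (η / 10 ^ 6) (1 / (50 * C3)) with hεd
  have hε0 : 0 < ε := by rw [hεd]; positivity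
  have hε1 : ε ≤ η / 10 ^ 6 := min_le_left _ _
  have hε2 : C3 * ε ≤ 1 / 50 := by
    have : ε ≤ 1 / (50 * C3) := min_le_right _ _
    calc C3 * ε ≤ C3 * (1 / (50 * C3)) := mul_le_mul_of_nonneg_left this hC3.le
      _ = 1 / 50 := by field_simp
  obtain ⟨N, hN⟩ := exists_nat_ge (2 / η)
  refine ⟨ε, hε0, max N 101, ?_⟩
  intro n _ hn P
  have hn1 : 101 ≤ n := (le_max_right _ _).trans hn
  have hnN : N ≤ n := (le_max_left _ _).trans hn
  have hnR : (101 : ℝ) ≤ n := by exact_mod_cast hn1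
  have hn0 : (0 : ℝ) < n := by linarith
  have hηn : 2 ≤ η * n := by
    have h1 : (N : ℝ) ≤ n := by exact_mod_cast hnN
    have h2 : 2 / η ≤ n := hN.trans h1
    rw [div_le_iff₀ hη0] at h2
    linarith
  have hδn : 2 ≤ δ * n := by nlinarith
  set T : ℕ := ⌊η * n⌋₊ with hTd
  set D : ℕ := ⌊δ * n⌋₊ with hDd
  have hT1 : (T : ℝ) ≤ η * n := Nat.floor_le (by positivity)
  have hT2 : η * n < T + 1 := Nat.lt_floor_add_one _
  have hD1 : (D : ℝ) ≤ δ * n := Nat.floor_le (by positivity)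
  have hD2 : δ * n < D + 1 := Nat.lt_floor_add_one _
  have hTge : η * n / 2 ≤ T := by linarith
  have hDge : δ * n / 2 ≤ D := by linarith
  have hTpos : (1 : ℝ) ≤ T := by linarith
  have hT : 1 ≤ T := by exact_mod_cast hTpos
  have hTD : T ≤ D := Nat.floor_le_floor (by nlinarith)
  have hDpos : (1 : ℝ) ≤ D := by linarith
  have hDn : (100 : ℝ) * D ≤ n := by nlinarith
  have hDn' : 100 * D ≤ n := by exact_mod_cast hDn
  have hε3 : ε ≤ 1 / 10 ^ 12 := by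
    refine hε1.trans ?_
    rw [div_le_div_iff₀ (by norm_num) (by norm_num)]
    linarith
  have hε4 : ε ≤ 1 / 100 := by linarith
  have hεn : ε * n ≤ η * n / 10 ^ 6 := by
    have := mul_le_mul_of_nonneg_right hε1 hn0.le
    linarith
  have hεT : ε * n ≤ T := by linarith
  have hεD : ε * n ≤ D := by
    have : (T : ℝ) ≤ D := by exact_mod_cast hTD
    linarith
  have hwin : ∀ j, P.R j D ≤ 2 * D := fun j =>
    (P.window hε0.le hε4 D (by exact_mod_cast hDpos) hDn' hεD j).1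
  have hwinT : ∀ j, P.R j T ≤ 2 * T := fun j =>
    (P.window hε0.le hε4 T hT (by omega) hεT j).1
  refine LCore.core P C3 C4 hC4 D T hn1 hT hTD hDn' hε4 ?_ ?_ ?_ ?_ hεT ?_
    (hmicro n ε P D hε0.le hε4 (by exact_mod_cast hDpos) hDn' hwin)
    (hmd n ε P T D hε0.le hε4 hT hTD hDn' hwinT)
  · -- C3 (D/n + ε^2)
    have h1 : (D : ℝ) / n ≤ δ := by rw [div_le_iff₀ hn0]; exact hD1
    have h2 : ε ^ 2 ≤ ε := by nlinarith
    calc C3 * ((D : ℝ) / n + ε ^ 2) ≤ C3 * (δ + ε) :=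
          mul_le_mul_of_nonneg_left (add_le_add h1 h2) hC3.le
      _ ≤ 1 / 25 := by linarith
  · -- C4 n T / D^2
    have h1 : (n : ℝ) * T / (D : ℝ) ^ 2 ≤ 4 * η / δ ^ 2 := by
      rw [div_le_div_iff₀ (by positivity) (by positivity)]
      have h2 : (δ * n / 2) ^ 2 ≤ (D : ℝ) ^ 2 := pow_le_pow_left₀ (by positivity) hDge 2
      have h3 : (n : ℝ) * T * δ ^ 2 ≤ n * (η * n) * δ ^ 2 := by
        apply mul_le_mul_of_nonneg_right _ (by positivity)
        exact mul_le_mul_of_nonneg_left hT1 hn0.le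
      calc (n : ℝ) * T * δ ^ 2 ≤ n * (η * n) * δ ^ 2 := h3
        _ = 4 * η * (δ * n / 2) ^ 2 := by ring
        _ ≤ 4 * η * (D : ℝ) ^ 2 := mul_le_mul_of_nonneg_left h2 (by positivity)
    calc C4 * ((n : ℝ) * T / (D : ℝ) ^ 2) ≤ C4 * (4 * η / δ ^ 2) :=
          mul_le_mul_of_nonneg_left h1 hC4.le
      _ ≤ C4 * (4 * (δ ^ 2 / (41600 * C4)) / δ ^ 2) := by
          apply mul_le_mul_of_nonneg_left _ hC4.le
          apply div_le_div_of_nonneg_right _ (by positivity)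
          linarith
      _ = 1 / 10400 := by field_simp; norm_num
  · -- C4 (T/n)^2
    have h1 : (T : ℝ) / n ≤ η := by rw [div_le_iff₀ hn0]; exact hT1
    have h1' : 0 ≤ (T : ℝ) / n := by positivity
    have h2 : ((T : ℝ) / n) ^ 2 ≤ η := by nlinarith
    calc C4 * ((T : ℝ) / n) ^ 2 ≤ C4 * (1 / (200000 * C4)) :=
          mul_le_mul_of_nonneg_left (h2.trans hη4) hC4.le
      _ = 1 / 200000 := by field_simp
  · rw [div_le_iff₀ (by positivity)]
    have : (T : ℝ) ≤ D := by exact_mod_cast hTD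
    linarith
  · have h1 : ε * n / T ≤ 2 / 10 ^ 6 := by
      rw [div_le_iff₀ (by linarith)]
      linarith
    have h2 : (T : ℝ) / n ≤ η := by rw [div_le_iff₀ hn0]; exact hT1
    linarith

end EHP56
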