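import Pool.Agent.EHP56.Defs

/-!
# From the average to a uniform bound for the support function (module A4)

Let `H u = supp z u - Re (conj u * cen z)`, `A u = 1 - (H u + H (-u))/2 = 1 - (supp z u + supp z (-u))/2`,
`B u = (H u - H (-u))/2`, so the integrand is `F u = A u + 2 (B u)^2`.  `0 ≤ A u ≤ 1` for `‖u‖ = 1`
(width between `0` and `2`).  `H u - 1 = B u - A u`, so `(H u - 1)^2 ≤ 2 B^2 + 2 A^2 ≤ 2 B^2 + 2 A ≤ 2 F u`.
`H` is Lipschitz with constant `2` on the circle: `‖z i - cen z‖ ≤ 2` (average of distances), and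
`H u = max_i Re (conj u * (z i - cen z))`.  Also `0 ≤ H u ≤ 2`.

Let `‖u0‖ = 1` and `s = |H u0 - 1| ≤ 1`.  If `‖u - u0‖ ≤ s/4` then `|H u - 1| ≥ s/2`, so
`F u ≥ s^2/8`.  This holds on the arc `|θ - θ0| ≤ s/4` (`‖e^{iθ} - e^{iθ0}‖ ≤ |θ - θ0|`) whose length is `s/2`.
As `F ≥ 0`, the circle average is at least `(1/(2π)) (s/2) (s^2/8) = s^3/(32 π)`, and `32 π ≤ 200`.
(Use the periodicity of `θ ↦ F (e^{iθ})` to start the interval of integration at `θ0`, then the arc
`[θ0, θ0 + s/4]` of length `s/4` already gives `s^3/(64π)`; `64 π = 201.06...` is slightly too large, so use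
both sides `[θ0 - s/4, θ0 + s/4]`, start at `θ0 - π`.)
-/

namespace EHP56

open Finset

theorem sc_le_supp {n : ℕ} (z : Fin n → ℂ) (u : ℂ) (i : Fin n) :
    ((starRingEnd ℂ) u * z i).re ≤ supp z u :=
  le_ciSup (f := fun i => ((starRingEnd ℂ) u * z i).re) (Set.finite_range _).bddAbove i

theorem sc_exists_supp {n : ℕ} (hn : 2 ≤ n) (z : Fin n → ℂ) (u : ℂ) :
    ∃ i, supp z u = ((starRingEnd ℂ) u * z i).re := by
  have : Nonempty (Fin n) := ⟨⟨0, by omega⟩⟩
  obtain ⟨i, hi⟩ := exists_eq_ciSup_of_finite (f := fun i => ((starRingEnd ℂ) u * z i).re)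
  exact ⟨i, hi.symm⟩

theorem sc_continuous_supp {n : ℕ} (hn : 2 ≤ n) (z : Fin n → ℂ) : Continuous (supp z) := by
  have : Nonempty (Fin n) := ⟨⟨0, by omega⟩⟩
  have h : supp z = fun u => Finset.univ.sup' Finset.univ_nonempty
      (fun i => ((starRingEnd ℂ) u * z i).re) := by
    funext u
    rw [supp, Finset.sup'_univ_eq_ciSup]
  rw [h]
  refine Continuous.finset_sup'_apply _ fun i _ => ?_
  exact Complex.continuous_re.comp (Complex.continuous_conj.mul continuous_const)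

theorem sc_sub_cen {n : ℕ} (hn : 2 ≤ n) (z : Fin n → ℂ) (hd : ∀ i j, ‖z i - z j‖ ≤ 2) (i : Fin n) :
    ‖z i - cen z‖ ≤ 2 := by
  have hn0 : (n : ℂ) ≠ 0 := by
    have : n ≠ 0 := by omega
    exact_mod_cast this
  have hn1 : (0 : ℝ) < n := by
    have : 0 < n := by omega
    exact_mod_cast this
  have h1 : z i - cen z = (∑ j, (z i - z j)) / n := by
    rw [Finset.sum_sub_distrib, Finset.sum_const, Finset.card_univ, Fintype.card_fin, cen,
      nsmul_eq_mul]
    field_simp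
  rw [h1, norm_div, Complex.norm_natCast, div_le_iff₀ hn1]
  calc ‖∑ j, (z i - z j)‖ ≤ ∑ j, ‖z i - z j‖ := norm_sum_le _ _
    _ ≤ ∑ _j : Fin n, (2 : ℝ) := Finset.sum_le_sum fun j _ => hd i j
    _ = 2 * n := by
        rw [Finset.sum_const, Finset.card_univ, Fintype.card_fin, nsmul_eq_mul]
        ring

/-- support function from the centroid -/
noncomputable def scH {n : ℕ} (z : Fin n → ℂ) (u : ℂ) : ℝ :=
  supp z u - ((starRingEnd ℂ) u * cen z).re

theorem scH_le {n : ℕ} (hn : 2 ≤ n) (z : Fin n → ℂ) (hd : ∀ i j, ‖z i - z j‖ ≤ 2) (u v : ℂ) :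
    scH z u - scH z v ≤ 2 * ‖u - v‖ := by
  obtain ⟨i, hi⟩ := sc_exists_supp hn z u
  have h1 := sc_le_supp z v i
  have h2 : scH z u - scH z v ≤ ((starRingEnd ℂ) (u - v) * (z i - cen z)).re := by
    rw [scH, scH, hi]
    have h3 : ((starRingEnd ℂ) (u - v) * (z i - cen z)).re =
        ((starRingEnd ℂ) u * z i).re - ((starRingEnd ℂ) u * cen z).re
          - (((starRingEnd ℂ) v * z i).re - ((starRingEnd ℂ) v * cen z).re) := by
      rw [← Complex.sub_re, ← Complex.sub_re, ← Complex.sub_re]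
      congr 1
      rw [map_sub]
      ring
    rw [h3]
    linarith
  refine h2.trans ((Complex.re_le_norm _).trans ?_)
  rw [norm_mul, RCLike.norm_conj, mul_comm]
  exact mul_le_mul_of_nonneg_right (sc_sub_cen hn z hd i) (norm_nonneg _)

theorem scH_lip {n : ℕ} (hn : 2 ≤ n) (z : Fin n → ℂ) (hd : ∀ i j, ‖z i - z j‖ ≤ 2) (u v : ℂ) :
    |scH z u - scH z v| ≤ 2 * ‖u - v‖ := by
  rw [abs_le]
  constructor
  · have := scH_le hn z hd v u
    rw [norm_sub_rev] at this
    linarith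
  · exact scH_le hn z hd u v

theorem scH_nonneg {n : ℕ} (hn : 2 ≤ n) (z : Fin n → ℂ) (u : ℂ) : 0 ≤ scH z u := by
  have hn0 : (n : ℂ) ≠ 0 := by
    have : n ≠ 0 := by omega
    exact_mod_cast this
  have hn1 : (0 : ℝ) < n := by
    have : 0 < n := by omega
    exact_mod_cast this
  have h1 : (n : ℝ) * ((starRingEnd ℂ) u * cen z).re = ∑ i, ((starRingEnd ℂ) u * z i).re := by
    rw [← Complex.re_sum, ← Finset.mul_sum, ← Complex.re_ofReal_mul]
    congr 1
    rw [cen]
    push_cast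
    field_simp
  have h2 : ∑ i, ((starRingEnd ℂ) u * z i).re ≤ n * supp z u := by
    calc ∑ i, ((starRingEnd ℂ) u * z i).re ≤ ∑ _i : Fin n, supp z u :=
          Finset.sum_le_sum fun i _ => sc_le_supp z u i
      _ = n * supp z u := by
          rw [Finset.sum_const, Finset.card_univ, Fintype.card_fin, nsmul_eq_mul]
  rw [← h1] at h2
  have := le_of_mul_le_mul_left h2 hn1
  rw [scH]
  linarith

theorem scH_le_two {n : ℕ} (hn : 2 ≤ n) (z : Fin n → ℂ) (hd : ∀ i j, ‖z i - z j‖ ≤ 2) {u : ℂ}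
    (hu : ‖u‖ = 1) : scH z u ≤ 2 := by
  have h1 := scH_le hn z hd u 0
  have h2 : scH z 0 = 0 := by
    obtain ⟨i, hi⟩ := sc_exists_supp hn z 0
    rw [scH, hi]
    simp
  rw [h2, sub_zero, sub_zero, hu] at h1
  linarith

theorem sc_width {n : ℕ} (hn : 2 ≤ n) (z : Fin n → ℂ) (hd : ∀ i j, ‖z i - z j‖ ≤ 2) {u : ℂ}
    (hu : ‖u‖ = 1) : 0 ≤ supp z u + supp z (-u) ∧ supp z u + supp z (-u) ≤ 2 := by
  constructor
  · have h1 := sc_le_supp z u ⟨0, by omega⟩
    have h2 := sc_le_supp z (-u) ⟨0, by omega⟩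
    rw [map_neg, neg_mul, Complex.neg_re] at h2
    linarith
  · obtain ⟨i, hi⟩ := sc_exists_supp hn z u
    obtain ⟨j, hj⟩ := sc_exists_supp hn z (-u)
    have h1 : supp z u + supp z (-u) = ((starRingEnd ℂ) u * (z i - z j)).re := by
      rw [hi, hj, ← Complex.add_re]
      congr 1
      rw [map_neg]
      ring
    rw [h1]
    refine (Complex.re_le_norm _).trans ?_
    rw [norm_mul, RCLike.norm_conj, hu, one_mul]
    exact hd i j

/-- the integrand -/
noncomputable def scF {n : ℕ} (z : Fin n → ℂ) (u : ℂ) : ℝ :=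
  (1 - (supp z u + supp z (-u)) / 2)
    + 2 * (((starRingEnd ℂ) u * cen z).re - (supp z u - supp z (-u)) / 2) ^ 2

theorem scF_ge {n : ℕ} (hn : 2 ≤ n) (z : Fin n → ℂ) (hd : ∀ i j, ‖z i - z j‖ ≤ 2) {u : ℂ}
    (hu : ‖u‖ = 1) : (scH z u - 1) ^ 2 / 2 ≤ scF z u := by
  obtain ⟨h1, h2⟩ := sc_width hn z hd hu
  set A := 1 - (supp z u + supp z (-u)) / 2 with hA
  set B := ((starRingEnd ℂ) u * cen z).re - (supp z u - supp z (-u)) / 2 with hB
  have h3 : scH z u - 1 = -B - A := by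
    rw [scH, hA, hB]
    ring
  have hA0 : 0 ≤ A := by rw [hA]; linarith
  have hA1 : A ≤ 1 := by rw [hA]; linarith
  have h4 : scF z u = A + 2 * B ^ 2 := rfl
  rw [h3, h4]
  nlinarith [sq_nonneg (B - A), mul_nonneg hA0 (sub_nonneg.2 hA1), sq_nonneg B]

theorem sc_continuous_F {n : ℕ} (hn : 2 ≤ n) (z : Fin n → ℂ) : Continuous (scF z) := by
  have h1 := sc_continuous_supp hn z
  have h2 : Continuous fun u => supp z (-u) := h1.comp continuous_neg
  have h3 : Continuous fun u : ℂ => ((starRingEnd ℂ) u * cen z).re :=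
    Complex.continuous_re.comp (Complex.continuous_conj.mul continuous_const)
  unfold scF
  fun_prop

theorem sc_circle_norm (θ : ℝ) : ‖circleMap 0 1 θ‖ = 1 := by
  simp [circleMap]

theorem sc_circle_dist (θ θ₀ : ℝ) : ‖circleMap 0 1 θ - circleMap 0 1 θ₀‖ ≤ |θ - θ₀| := by
  have h1 : circleMap 0 1 θ - circleMap 0 1 θ₀ =
      circleMap 0 1 θ₀ * (Complex.exp (Complex.I * ((θ - θ₀ : ℝ) : ℂ)) - 1) := by
    simp only [circleMap, zero_add, Complex.ofReal_one, one_mul]
    rw [mul_sub, mul_one, ← Complex.exp_add]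
    congr 2
    push_cast
    ring
  rw [h1, norm_mul, sc_circle_norm, one_mul]
  exact Real.norm_exp_I_mul_ofReal_sub_one_le

theorem support_close {n : ℕ} (hn : 2 ≤ n) (z : Fin n → ℂ) (hd : ∀ i j, ‖z i - z j‖ ≤ 2) (L : ℝ)
    (h : Real.circleAverage
          (fun u : ℂ => (1 - (supp z u + supp z (-u)) / 2)
            + 2 * (((starRingEnd ℂ) u * cen z).re - (supp z u - supp z (-u)) / 2) ^ 2) 0 1 ≤ L) :
    ∀ u : ℂ, ‖u‖ = 1 → |supp z u - ((starRingEnd ℂ) u * cen z).re - 1| ^ 3 ≤ 200 * L := by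
  intro u hu
  change Real.circleAverage (scF z) 0 1 ≤ L at h
  set s := |scH z u - 1| with hs
  change s ^ 3 ≤ 200 * L
  have hs0 : 0 ≤ s := abs_nonneg _
  have hs1 : s ≤ 1 := by
    rw [hs, abs_le]
    have h1 := scH_nonneg hn z u
    have h2 := scH_le_two hn z hd hu
    constructor <;> linarith
  set θ₀ := Complex.arg u with hθ₀
  have hu0 : circleMap 0 1 θ₀ = u := by
    simp only [circleMap, zero_add, Complex.ofReal_one, one_mul]
    have := Complex.norm_mul_exp_arg_mul_I u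
    rwa [hu, Complex.ofReal_one, one_mul] at this
  set f : ℝ → ℝ := fun θ => scF z (circleMap 0 1 θ) with hf
  have hfc : Continuous f := (sc_continuous_F hn z).comp (continuous_circleMap 0 1)
  have hf0 : ∀ θ, 0 ≤ f θ := fun θ =>
    le_trans (by positivity) (scF_ge hn z hd (sc_circle_norm θ))
  have hper : Function.Periodic f (2 * Real.pi) := by
    intro θ
    simp only [hf]
    rw [periodic_circleMap 0 1 θ]
  have hpi := Real.pi_gt_three
  have hpi' := Real.pi_lt_d2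
  have h1 : ∫ θ in (0 : ℝ)..(2 * Real.pi), f θ = ∫ θ in (θ₀ - Real.pi)..(θ₀ + Real.pi), f θ := by
    have h2 := hper.intervalIntegral_add_eq 0 (θ₀ - Real.pi)
    rw [zero_add] at h2
    rw [h2]
    congr 1
    ring
  have h3 : ∫ θ in (θ₀ - s / 4)..(θ₀ + s / 4), f θ ≤
      ∫ θ in (θ₀ - Real.pi)..(θ₀ + Real.pi), f θ :=
    intervalIntegral.integral_mono_interval (by linarith) (by linarith) (by linarith)
      (Filter.Eventually.of_forall hf0) (hfc.intervalIntegrable _ _)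
  have h4 : ∫ _θ in (θ₀ - s / 4)..(θ₀ + s / 4), s ^ 2 / 8 ≤
      ∫ θ in (θ₀ - s / 4)..(θ₀ + s / 4), f θ := by
    refine intervalIntegral.integral_mono_on (by linarith) (by simp) (hfc.intervalIntegrable _ _)
      fun θ hθ => ?_
    have h5 : |θ - θ₀| ≤ s / 4 := by
      rw [abs_le]
      constructor
      · linarith [hθ.1]
      · linarith [hθ.2]
    have h6 := scH_lip hn z hd (circleMap 0 1 θ) u
    have h7 : ‖circleMap 0 1 θ - u‖ ≤ s / 4 := by
      rw [← hu0]
      exact (sc_circle_dist θ θ₀).trans h5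
    have h8 : s / 2 ≤ |scH z (circleMap 0 1 θ) - 1| := by
      have h9 : s ≤ |scH z (circleMap 0 1 θ) - 1| + |scH z (circleMap 0 1 θ) - scH z u| := by
        rw [hs]
        have h10 : scH z u - 1 = (scH z (circleMap 0 1 θ) - 1)
            - (scH z (circleMap 0 1 θ) - scH z u) := by ring
        rw [h10]
        exact abs_sub _ _
      linarith
    have h11 := scF_ge hn z hd (sc_circle_norm θ)
    rw [← sq_abs] at h11
    simp only [hf]
    nlinarith
  have h5 : ∫ _θ in (θ₀ - s / 4)..(θ₀ + s / 4), s ^ 2 / 8 = s ^ 3 / 16 := by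
    rw [intervalIntegral.integral_const, smul_eq_mul]
    ring
  rw [Real.circleAverage_def, smul_eq_mul, h1] at h
  have h6 : s ^ 3 / 16 ≤ 2 * Real.pi * L := by
    have h7 : ∫ θ in (θ₀ - Real.pi)..(θ₀ + Real.pi), f θ ≤ 2 * Real.pi * L := by
      have h8 : (0 : ℝ) < 2 * Real.pi := by positivity
      rwa [inv_mul_le_iff₀ h8] at h
    linarith
  have hL : 0 ≤ L := by
    have h8 : 0 ≤ s ^ 3 := by positivity
    by_contra hneg
    push Not at hneg
    have : 2 * Real.pi * L < 0 := mul_neg_of_pos_of_neg (by positivity) hneg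
    linarith
  nlinarith

end EHP56
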