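import Pool.Agent.EHP56.Normals

/-!
# A strictly convex polygon winds once around an interior point (module A6)

Let `Z k = z k - p`.  The hypothesis says `Im (Z (k+1) * conj (Z k)) > 0` for all `k` (cyclically), since
`orient a b p = orient p a b = Im ((b - a) conj (a - p)) = Im (B conj A)`, `A = a - p`, `B = b - p`.  So `Z k ≠ 0`
and `α k = arg (Z (k+1) / Z k) ∈ (0, π)`.  Put `φ 0 = arg (Z 0)`, `φ (k+1) = φ k + α k` for `k < m`.
Then `Z k = ‖Z k‖ e^{i φ k}` and `φ` is strictly increasing.  It remains to show `φ m - φ 0 < 2π`.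

Suppose not and let `k ≤ m` be minimal with `φ k - φ 0 ≥ 2π`.  As all gaps are `< π`, `k ≥ 2`, and
`φ (k-1) < φ 0 + 2π ≤ φ k < φ (k-1) + π`.  Hence `Z 0 = a Z (k-1) + b Z k` with `a, b ≥ 0`:
explicitly with `s = φ 0 + 2π - φ (k-1) ∈ (0, π)`, `t = φ k - φ 0 - 2π ∈ [0, π)`, `s + t = α (k-1) ∈ (0, π)`:
`e^{iφ 0} sin (s+t) = e^{iφ(k-1)} sin t + e^{iφ k} sin s`.

Since `0 < k-1 < k` and `z` is convex, `0 < orient (z 0) (z (k-1)) (z k) = orient (z (k-1)) (z k) (z 0)`, and
`orient (A+p) (B+p) (p + aA + bB) = (1 - a - b) Im (B conj A)`, so `a + b < 1`.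
Now `orient (z 0) (z 1) ·` is affine and `z 0 = (1-a-b) p + a z (k-1) + b z k`, so
`0 = orient (z 0) (z 1) (z 0) = (1-a-b) orient (z 0) (z 1) p + a orient (z 0) (z 1) (z (k-1))
 + b orient (z 0) (z 1) (z k) > 0` (the last two orientations are `≥ 0` by `side_orient_nonneg`), contradiction.
-/

namespace EHP56

open Finset Pool.Agent.RegPoly

private theorem wind_trig (x s t : ℝ) :
    Complex.exp ((x : ℂ) * Complex.I) * (Real.sin (s + t) : ℂ)
      = Complex.exp (((x - s : ℝ) : ℂ) * Complex.I) * (Real.sin t : ℂ)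
        + Complex.exp (((x + t : ℝ) : ℂ) * Complex.I) * (Real.sin s : ℂ) := by
  have h1 : (((x - s : ℝ) : ℂ) * Complex.I) = (x : ℂ) * Complex.I + ((-s : ℝ) : ℂ) * Complex.I := by
    push_cast; ring
  have h2 : (((x + t : ℝ) : ℂ) * Complex.I) = (x : ℂ) * Complex.I + (t : ℂ) * Complex.I := by
    push_cast; ring
  rw [h1, h2, Complex.exp_add, Complex.exp_add, Complex.exp_mul_I ((-s : ℝ) : ℂ),
    Complex.exp_mul_I (t : ℂ), Real.sin_add]
  push_cast
  rw [Complex.cos_neg, Complex.sin_neg]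
  ring

/-- the angle condition in terms of vectors `w k = z k - p` and a lift `ψ` of the arguments -/
private theorem wind_core (m : ℕ) (w : ℕ → ℂ) (ψ : ℕ → ℝ)
    (hcross : ∀ k, 0 < (w k).re * (w (k + 1)).im - (w k).im * (w (k + 1)).re)
    (hw : ∀ k, w k = (‖w k‖ : ℂ) * Complex.exp ((ψ k : ℂ) * Complex.I))
    (hα : ∀ k, 0 < ψ (k + 1) - ψ k ∧ ψ (k + 1) - ψ k < Real.pi)
    (hconv : ∀ l, 1 ≤ l → l + 1 ≤ m → 0 < orient (w 0) (w l) (w (l + 1)))
    (hside : ∀ l, l ≤ m → 0 ≤ orient (w 0) (w 1) (w l)) :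
    ψ m - ψ 0 < 2 * Real.pi := by
  by_contra hcon
  push Not at hcon
  classical
  have hex : ∃ k, 2 * Real.pi ≤ ψ k - ψ 0 := ⟨m, hcon⟩
  set k := Nat.find hex with hkdef
  have hk : 2 * Real.pi ≤ ψ k - ψ 0 := Nat.find_spec hex
  have hkm : k ≤ m := Nat.find_min' hex hcon
  have hπ := Real.pi_pos
  have hk0 : k ≠ 0 := by
    intro h
    rw [h] at hk
    linarith
  obtain ⟨l, hl⟩ : ∃ l, k = l + 1 := ⟨k - 1, by omega⟩
  have hlmin : ψ l - ψ 0 < 2 * Real.pi := by
    have := Nat.find_min hex (m := l) (by rw [← hkdef]; omega)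
    push Not at this
    exact this
  have hl1 : 1 ≤ l := by
    by_contra h
    have hl0 : l = 0 := by omega
    rw [hl, hl0] at hk
    have := (hα 0).2
    simp only [zero_add] at this hk
    linarith
  rw [hl] at hk hkm
  set s : ℝ := ψ 0 + 2 * Real.pi - ψ l with hs
  set t : ℝ := ψ (l + 1) - ψ 0 - 2 * Real.pi with ht
  have hs0 : 0 < s := by rw [hs]; linarith
  have ht0 : 0 ≤ t := by rw [ht]; linarith
  have hst : s + t = ψ (l + 1) - ψ l := by rw [hs, ht]; ring
  have hst0 : 0 < s + t := by rw [hst]; exact (hα l).1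
  have hstπ : s + t < Real.pi := by rw [hst]; exact (hα l).2
  have hsin : 0 < Real.sin (s + t) := Real.sin_pos_of_pos_of_lt_pi hst0 hstπ
  have hsins : 0 ≤ Real.sin s := (Real.sin_pos_of_pos_of_lt_pi hs0 (by linarith)).le
  have hsint : 0 ≤ Real.sin t := Real.sin_nonneg_of_nonneg_of_le_pi ht0 (by linarith)
  have htrig := wind_trig (ψ 0 + 2 * Real.pi) s t
  have e1 : ψ 0 + 2 * Real.pi - s = ψ l := by rw [hs]; ring
  have e2 : ψ 0 + 2 * Real.pi + t = ψ (l + 1) := by rw [ht]; ring
  rw [e1, e2] at htrig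
  have e3 : Complex.exp (((ψ 0 + 2 * Real.pi : ℝ) : ℂ) * Complex.I)
      = Complex.exp ((ψ 0 : ℂ) * Complex.I) := by
    have : (((ψ 0 + 2 * Real.pi : ℝ) : ℂ) * Complex.I)
        = (ψ 0 : ℂ) * Complex.I + 2 * Real.pi * Complex.I := by
      push_cast; ring
    rw [this, Complex.exp_add, Complex.exp_two_pi_mul_I, mul_one]
  rw [e3] at htrig
  -- nonvanishing
  have hne : ∀ j, w j ≠ 0 := by
    intro j h
    have := hcross j
    rw [h] at this
    simp at this
  have hnl : 0 < ‖w l‖ := norm_pos_iff.mpr (hne l)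
  have hnl1 : 0 < ‖w (l + 1)‖ := norm_pos_iff.mpr (hne (l + 1))
  set a : ℝ := ‖w 0‖ * Real.sin t / (Real.sin (s + t) * ‖w l‖) with ha
  set b : ℝ := ‖w 0‖ * Real.sin s / (Real.sin (s + t) * ‖w (l + 1)‖) with hb
  have ha0 : 0 ≤ a := by rw [ha]; positivity
  have hb0 : 0 ≤ b := by rw [hb]; positivity
  have hcomb : w 0 = (a : ℂ) * w l + (b : ℂ) * w (l + 1) := by
    have h1 : (a : ℂ) * w l = (‖w 0‖ : ℂ) * (Real.sin t : ℂ) / (Real.sin (s + t) : ℂ)
        * Complex.exp ((ψ l : ℂ) * Complex.I) := by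
      rw [hw l, ha]
      have h2 : ((‖w l‖ : ℝ) : ℂ) ≠ 0 := by exact_mod_cast hnl.ne'
      have h3 : ((Real.sin (s + t) : ℝ) : ℂ) ≠ 0 := by exact_mod_cast hsin.ne'
      push_cast at h3 ⊢
      field_simp
    have h1' : (b : ℂ) * w (l + 1) = (‖w 0‖ : ℂ) * (Real.sin s : ℂ) / (Real.sin (s + t) : ℂ)
        * Complex.exp ((ψ (l + 1) : ℂ) * Complex.I) := by
      rw [hw (l + 1), hb]
      have h2 : ((‖w (l + 1)‖ : ℝ) : ℂ) ≠ 0 := by exact_mod_cast hnl1.ne'
      have h3 : ((Real.sin (s + t) : ℝ) : ℂ) ≠ 0 := by exact_mod_cast hsin.ne'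
      push_cast at h3 ⊢
      field_simp
    have h3 : ((Real.sin (s + t) : ℝ) : ℂ) ≠ 0 := by exact_mod_cast hsin.ne'
    rw [h1, h1']
    calc w 0 = (‖w 0‖ : ℂ) * Complex.exp ((ψ 0 : ℂ) * Complex.I) := hw 0
      _ = (‖w 0‖ : ℂ) * (Complex.exp ((ψ 0 : ℂ) * Complex.I) * (Real.sin (s + t) : ℂ))
          / (Real.sin (s + t) : ℂ) := by field_simp
      _ = _ := by rw [htrig]; field_simp
  have hre : (w 0).re = a * (w l).re + b * (w (l + 1)).re := by
    rw [hcomb]; simp
  have him : (w 0).im = a * (w l).im + b * (w (l + 1)).im := by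
    rw [hcomb]; simp
  have hc1 := hconv l hl1 hkm
  have hcr := hcross l
  have hab : 0 < (1 - a - b) * ((w l).re * (w (l + 1)).im - (w l).im * (w (l + 1)).re) := by
    have : orient (w 0) (w l) (w (l + 1))
        = (1 - a - b) * ((w l).re * (w (l + 1)).im - (w l).im * (w (l + 1)).re) := by
      simp only [orient]
      rw [hre, him]; ring
    rw [← this]; exact hc1
  have hab1 : 0 < 1 - a - b := by
    by_contra hx
    push Not at hx
    have := mul_nonpos_of_nonpos_of_nonneg hx hcr.le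
    linarith
  have hc0 := hcross 0
  have hsl := hside l (by omega)
  have hsl1 := hside (l + 1) hkm
  simp only [zero_add] at hc0
  have hzero : (1 - a - b) * ((w 0).re * (w 1).im - (w 0).im * (w 1).re)
      + a * orient (w 0) (w 1) (w l) + b * orient (w 0) (w 1) (w (l + 1)) = 0 := by
    have hx : orient (w 0) (w 1) (w 0) = 0 := by simp only [orient]; ring
    have hy : orient (w 0) (w 1) (w 0) = (1 - a - b) * ((w 0).re * (w 1).im - (w 0).im * (w 1).re)
      + a * orient (w 0) (w 1) (w l) + b * orient (w 0) (w 1) (w (l + 1)) := by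
      simp only [orient]
      linear_combination ((w 1).re - (w 0).re) * him - ((w 1).im - (w 0).im) * hre
    rw [← hy]; exact hx
  have p1 := mul_pos hab1 hc0
  have p2 := mul_nonneg ha0 hsl
  have p3 := mul_nonneg hb0 hsl1
  linarith

theorem winding {m : ℕ} (hm : 2 ≤ m) (z : Fin (m + 1) → ℂ) (hc : ConvexPos z) (p : ℂ)
    (hp : ∀ k, 0 < orient (z k) (z (k + 1)) p) :
    ∃ φ : Fin (m + 1) → ℝ, StrictMono φ ∧ (∀ i j, φ i - φ j < 2 * Real.pi) ∧ (∀ i, z i ≠ p) ∧
      ∀ i, z i - p = (‖z i - p‖ : ℂ) * Complex.exp ((φ i : ℂ) * Complex.I) := by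
  set w : ℕ → ℂ := fun k => z (Fin.ofNat (m + 1) k) - p with hwdef
  have hsucc : ∀ k, Fin.ofNat (m + 1) (k + 1) = Fin.ofNat (m + 1) k + 1 := by
    intro k
    apply Fin.ext
    simp [Fin.ofNat, Fin.val_add]
  have hval : ∀ i : Fin (m + 1), Fin.ofNat (m + 1) i.val = i := by
    intro i
    apply Fin.ext
    simp [Fin.ofNat, Nat.mod_eq_of_lt i.isLt]
  have hcross : ∀ k, 0 < (w k).re * (w (k + 1)).im - (w k).im * (w (k + 1)).re := by
    intro k
    have h := hp (Fin.ofNat (m + 1) k)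
    rw [← hsucc] at h
    have : orient (z (Fin.ofNat (m + 1) k)) (z (Fin.ofNat (m + 1) (k + 1))) p
        = (w k).re * (w (k + 1)).im - (w k).im * (w (k + 1)).re := by
      simp only [orient, hwdef, Complex.sub_re, Complex.sub_im]
      ring
    rw [← this]; exact h
  have hne : ∀ j, w j ≠ 0 := by
    intro j h
    have := hcross j
    rw [h] at this
    simp at this
  set α : ℕ → ℝ := fun k => Complex.arg (w (k + 1) / w k) with hαdef
  have him : ∀ k, 0 < (w (k + 1) / w k).im := by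
    intro k
    have hn : 0 < Complex.normSq (w k) := Complex.normSq_pos.mpr (hne k)
    rw [Complex.div_im]
    have h := hcross k
    have : (w (k + 1)).im * (w k).re / Complex.normSq (w k)
        - (w (k + 1)).re * (w k).im / Complex.normSq (w k)
        = ((w k).re * (w (k + 1)).im - (w k).im * (w (k + 1)).re) / Complex.normSq (w k) := by
      ring
    rw [this]
    exact div_pos h hn
  have hα0 : ∀ k, 0 < α k ∧ α k < Real.pi := by
    intro k
    have h := him k
    constructor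
    · have h1 : 0 ≤ α k := Complex.arg_nonneg_iff.mpr h.le
      rcases h1.lt_or_eq with h2 | h2
      · exact h2
      · exfalso
        have h3 := Complex.arg_eq_zero_iff.mp h2.symm
        linarith [h3.2]
    · exact Complex.arg_lt_pi_iff.mpr (Or.inr h.ne')
  set ψ : ℕ → ℝ := fun k => Complex.arg (w 0) + ∑ j ∈ range k, α j with hψ
  have hψs : ∀ k, ψ (k + 1) = ψ k + α k := by
    intro k
    simp only [hψ, Finset.sum_range_succ]
    ring
  have hw : ∀ k, w k = (‖w k‖ : ℂ) * Complex.exp ((ψ k : ℂ) * Complex.I) := by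
    intro k
    induction k with
    | zero =>
      have : ψ 0 = Complex.arg (w 0) := by simp [hψ]
      rw [this, Complex.norm_mul_exp_arg_mul_I]
    | succ k ih =>
      have h1 : w (k + 1) = w k * (w (k + 1) / w k) := by
        field_simp [hne k]
      have h2 : w (k + 1) / w k = ((‖w (k + 1) / w k‖ : ℝ) : ℂ) * Complex.exp ((α k : ℂ) * Complex.I) :=
        (Complex.norm_mul_exp_arg_mul_I _).symm
      have h3 : (‖w (k + 1)‖ : ℝ) = ‖w k‖ * ‖w (k + 1) / w k‖ := by
        rw [norm_div]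
        have := norm_ne_zero_iff.mpr (hne k)
        field_simp
      have h4 : Complex.exp ((ψ (k + 1) : ℂ) * Complex.I)
          = Complex.exp ((ψ k : ℂ) * Complex.I) * Complex.exp ((α k : ℂ) * Complex.I) := by
        rw [hψs, ← Complex.exp_add]
        congr 1
        push_cast; ring
      rw [h4, h3]
      calc w (k + 1) = w k * (w (k + 1) / w k) := h1
        _ = ((‖w k‖ : ℂ) * Complex.exp ((ψ k : ℂ) * Complex.I))
            * (((‖w (k + 1) / w k‖ : ℝ) : ℂ) * Complex.exp ((α k : ℂ) * Complex.I)) := by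
          rw [← ih, ← h2]
        _ = _ := by push_cast; ring
  have hor : ∀ i j k, orient (w i) (w j) (w k)
      = orient (z (Fin.ofNat (m + 1) i)) (z (Fin.ofNat (m + 1) j)) (z (Fin.ofNat (m + 1) k)) := by
    intro i j k
    simp only [orient, hwdef, Complex.sub_re, Complex.sub_im]
    ring
  have hconv : ∀ l, 1 ≤ l → l + 1 ≤ m → 0 < orient (w 0) (w l) (w (l + 1)) := by
    intro l hl hlm
    rw [hor]
    apply hc
    · rw [Fin.lt_def]
      simp only [Fin.ofNat]
      rw [Nat.zero_mod, Nat.mod_eq_of_lt (by omega)]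
      omega
    · rw [Fin.lt_def]
      simp only [Fin.ofNat]
      rw [Nat.mod_eq_of_lt (by omega), Nat.mod_eq_of_lt (by omega)]
      omega
  have hside : ∀ l, l ≤ m → 0 ≤ orient (w 0) (w 1) (w l) := by
    intro l hl
    rw [hor]
    have h1 : Fin.ofNat (m + 1) 1 = Fin.ofNat (m + 1) 0 + 1 := hsucc 0
    rw [h1]
    exact side_orient_nonneg hm z hc _ _
  have hmono : StrictMono ψ := by
    apply strictMono_nat_of_lt_succ
    intro k
    rw [hψs]
    linarith [(hα0 k).1]
  have htot : ψ m - ψ 0 < 2 * Real.pi := by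
    apply wind_core m w ψ hcross hw _ hconv hside
    intro k
    rw [hψs]
    have := hα0 k
    constructor <;> linarith [this.1, this.2]
  have hwz : ∀ i : Fin (m + 1), w i.val = z i - p := by
    intro i
    simp only [hwdef]
    rw [hval]
  refine ⟨fun i => ψ i.val, ?_, ?_, ?_, ?_⟩
  · intro i j hij
    exact hmono hij
  · intro i j
    have h1 : ψ i.val ≤ ψ m := hmono.monotone (by omega)
    have h2 : ψ 0 ≤ ψ j.val := hmono.monotone (by omega)
    show ψ i.val - ψ j.val < 2 * Real.pi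
    linarith
  · intro i h
    have := hne i.val
    rw [hwz, h, sub_self] at this
    exact this rfl
  · intro i
    have := hw i.val
    rw [hwz] at this
    exact this

end EHP56
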