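import Pool.Agent.EHP56.MacroAvg
import Pool.Agent.EHP56.SupportClose
import Pool.Agent.EHP56.Chord
import Pool.Agent.EHP56.Winding
import Pool.Agent.EHP56.CircleEnergy
import Pool.Agent.EHP56.Equidist

/-!
# The macro step (module A10)

Let `n = m + 1`, `S = ∑_{i,j} log ‖z i - z j‖ ≥ n log n`.  By `macro_avg` the circle average is
`≤ (n + n log n)/(n(n-1)) = (1 + log n)/(n-1) =: L`, and `L → 0`.  By `support_close`
`|H u - 1| ≤ η` with `η = (200 L)^{1/3} → 0`.  For `n` large `η ≤ 1/1000`; `θ = √(5η)`.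
`chord` gives `‖z i - z j‖ ≤ (1+θ) ‖U i - U j‖`, `U i = (z i - cen z)/‖z i - cen z‖`, so
`S ≤ n(n-1) log (1+θ) + ∑_{i,j} log ‖U i - U j‖ ≤ n² θ + ∑_{i,j} log ‖U i - U j‖`
(for `i ≠ j`, `‖z i - z j‖ > 0`, hence `U i ≠ U j`).  By `winding` (`p = cen z`, `orient_cen_pos`),
`U i = e^{i φ i}` with `φ` strictly monotone of span `< 2π`, so `circle_energy` gives
`n log n ≤ S ≤ n² θ + n log n - (1/8) ∑_{i,j} (δ_i - δ_j)^2`, i.e. `∑ (δ_i - δ_j)^2 ≤ 8 θ n²`.
`equidist` gives `β` with `|δ_i - β|^3 ≤ 800 θ`.  Put `b = cen z`, `u = e^{-iβ}`: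
`‖u (z k - b) - e^{2π i k/n}‖ ≤ | ‖z k - b‖ - 1 | + |δ_k - β| ≤ η + (800 θ)^{1/3}` and
`‖u nrm z k - e^{2π i k/n}‖ ≤ ‖nrm z k - (z k - b)‖ + ... ≤ θ + η + (800 θ)^{1/3}`, which tends to zero.
-/

namespace EHP56

open Finset Pool.Agent.RegPoly

/-- a strictly convex polygon with at least three vertices has distinct vertices -/
theorem macro_inj {m : ℕ} (hm : 2 ≤ m) (z : Fin (m + 1) → ℂ) (hc : ConvexPos z) :
    Function.Injective z := by
  have key : ∀ i j : Fin (m + 1), i < j → z i ≠ z j := by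
    intro i j hij he
    by_cases h0 : i.val = 0
    · by_cases h1 : j.val = m
      · -- middle index 1
        have hk1 : i < (⟨1, by omega⟩ : Fin (m + 1)) := by
          rw [Fin.lt_def]; change i.val < 1; omega
        have hk2 : (⟨1, by omega⟩ : Fin (m + 1)) < j := by
          rw [Fin.lt_def]; change 1 < j.val; omega
        have h := hc i ⟨1, by omega⟩ j hk1 hk2
        rw [orient, he] at h
        simp at h
      · have hk2 : j < (⟨m, by omega⟩ : Fin (m + 1)) := by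
          rw [Fin.lt_def]; change j.val < m; omega
        have h := hc i j ⟨m, by omega⟩ hij hk2
        rw [orient, he] at h
        simp at h
    · have hk1 : (⟨0, by omega⟩ : Fin (m + 1)) < i := by
        rw [Fin.lt_def]; change 0 < i.val; omega
      have h := hc ⟨0, by omega⟩ i j hk1 hij
      rw [orient, he] at h
      have : ((z j).re - (z ⟨0, by omega⟩).re) * ((z j).im - (z ⟨0, by omega⟩).im)
        - ((z j).im - (z ⟨0, by omega⟩).im) * ((z j).re - (z ⟨0, by omega⟩).re) = 0 := by ring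
      rw [this] at h
      exact lt_irrefl _ h
  intro i j he
  by_contra hne
  rcases lt_or_gt_of_ne hne with h | h
  · exact key i j h he
  · exact key j i h he.symm

/-- the threshold -/
theorem macro_threshold (c : ℝ) (hc : 0 < c) : ∃ N : ℕ, ∀ m : ℕ, N ≤ m →
    200 * ((1 + Real.log ((m : ℝ) + 1)) / m) ≤ c := by
  refine ⟨⌈(800 / c) ^ 2⌉₊ + 2, fun m hm => ?_⟩
  have h1 : (800 / c) ^ 2 ≤ (m : ℝ) := by
    have := Nat.le_ceil ((800 / c) ^ 2)
    have h2 : ((⌈(800 / c) ^ 2⌉₊ + 2 : ℕ) : ℝ) ≤ (m : ℝ) := by exact_mod_cast hm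
    push_cast at h2
    linarith
  have hm2 : (2 : ℝ) ≤ m := by
    have : 2 ≤ m := by omega
    exact_mod_cast this
  have hm0 : (0 : ℝ) < m := by linarith
  set s := Real.sqrt ((m : ℝ) + 1) with hs
  have hs2 : s ^ 2 = (m : ℝ) + 1 := Real.sq_sqrt (by linarith)
  have hs0 : 0 < s := Real.sqrt_pos.mpr (by linarith)
  have hlog : Real.log ((m : ℝ) + 1) ≤ 2 * s - 2 := by
    rw [← hs2, Real.log_pow]
    have := Real.log_le_sub_one_of_pos hs0
    push_cast
    linarith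
  have hs3 : 800 / c ≤ s := by
    rw [hs]
    apply Real.le_sqrt_of_sq_le
    linarith
  have hs4 : 800 ≤ c * s := by
    rw [div_le_iff₀ hc] at hs3
    linarith
  rw [← mul_div_assoc, div_le_iff₀ hm0]
  have h5 : 200 * (1 + Real.log ((m : ℝ) + 1)) ≤ 400 * s := by linarith
  have h6 : (m : ℝ) + 1 ≤ 2 * m := by linarith
  have h7 : 800 * s ≤ c * s ^ 2 := by nlinarith
  rw [hs2] at h7
  have h8 : c * ((m : ℝ) + 1) ≤ c * (2 * m) := mul_le_mul_of_nonneg_left h6 hc.le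
  linarith

/-- comparing cubes -/
theorem macro_cube {x y : ℝ} (hy : 0 ≤ y) (h : |x| ^ 3 ≤ y ^ 3) : |x| ≤ y :=
  le_of_pow_le_pow_left₀ (by norm_num) hy h

theorem macro_exp_close (x y : ℝ) :
    ‖Complex.exp ((x : ℂ) * Complex.I) - Complex.exp ((y : ℂ) * Complex.I)‖ ≤ |x - y| := by
  have h1 : Complex.exp ((x : ℂ) * Complex.I) - Complex.exp ((y : ℂ) * Complex.I)
      = Complex.exp ((y : ℂ) * Complex.I) * (Complex.exp (Complex.I * ((x - y : ℝ) : ℂ)) - 1) := by
    rw [mul_sub, mul_one, ← Complex.exp_add]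
    congr 2
    push_cast
    ring
  rw [h1, norm_mul, Complex.norm_exp_ofReal_mul_I, one_mul]
  exact Real.norm_exp_I_mul_ofReal_sub_one_le

theorem macro_step (ε : ℝ) (hε : 0 < ε) : ∃ N : ℕ, ∀ m : ℕ, N ≤ m → ∀ z : Fin (m + 1) → ℂ,
    ConvexPos z → (∀ i j, ‖z i - z j‖ ≤ 2) →
    ((m : ℝ) + 1) * Real.log ((m : ℝ) + 1) ≤ ∑ i, ∑ j, Real.log ‖z i - z j‖ →
    ∃ b u : ℂ, ‖u‖ = 1 ∧
      (∀ k : Fin (m + 1), ‖u * (z k - b)
        - Complex.exp (2 * (Real.pi : ℂ) * Complex.I * ((k : ℕ) : ℂ) / ((m : ℂ) + 1))‖ ≤ ε) ∧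
      (∀ k : Fin (m + 1), ‖u * nrm z k
        - Complex.exp (2 * (Real.pi : ℂ) * Complex.I * ((k : ℕ) : ℂ) / ((m : ℂ) + 1))‖ ≤ ε) := by
  -- parameters
  obtain ⟨t, ht0, ht1, htε⟩ : ∃ t : ℝ, 0 < t ∧ t ≤ 1 / 10 ∧ 12 * t ≤ ε := by
    refine ⟨min (1 / 10) (ε / 12), by positivity, min_le_left _ _, ?_⟩
    have := min_le_right (1 / 10 : ℝ) (ε / 12)
    linarith
  set η : ℝ := t ^ 6 / 5 with hη
  have hη0 : 0 < η := by positivity
  have hsqrt : Real.sqrt (5 * η) = t ^ 3 := by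
    have : 5 * η = (t ^ 3) ^ 2 := by rw [hη]; ring
    rw [this, Real.sqrt_sq (by positivity)]
  have ht3 : t ^ 3 ≤ t := by
    have : t ^ 3 ≤ t ^ 1 := pow_le_pow_of_le_one ht0.le (by linarith) (by norm_num)
    simpa using this
  have ht6 : t ^ 6 ≤ t := by
    have : t ^ 6 ≤ t ^ 1 := pow_le_pow_of_le_one ht0.le (by linarith) (by norm_num)
    simpa using this
  have hη1 : η ≤ 1 / 1000 := by
    have : t ^ 6 ≤ (1 / 10) ^ 6 := pow_le_pow_left₀ ht0.le ht1 6
    rw [hη]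
    norm_num at this ⊢
    linarith
  obtain ⟨N, hN⟩ := macro_threshold (η ^ 3) (by positivity)
  refine ⟨N + 2, fun m hm z hc hd hS => ?_⟩
  have hm2 : 2 ≤ m := by omega
  have hmN := hN m (by omega)
  have hinj := macro_inj hm2 z hc
  have hmR : (2 : ℝ) ≤ m := by exact_mod_cast hm2
  have hm0 : (0 : ℝ) < m := by linarith
  -- the average
  have havg := macro_avg (by omega : 2 ≤ m + 1) z hinj hd
  set A := Real.circleAverage
          (fun u : ℂ => (1 - (supp z u + supp z (-u)) / 2)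
            + 2 * (((starRingEnd ℂ) u * cen z).re - (supp z u - supp z (-u)) / 2) ^ 2) 0 1 with hA
  have hA1 : A ≤ (1 + Real.log ((m : ℝ) + 1)) / m := by
    rw [le_div_iff₀ hm0]
    push_cast at havg
    have h1 : ((m : ℝ) + 1) * (A * m) ≤ ((m : ℝ) + 1) * (1 + Real.log ((m : ℝ) + 1)) := by
      have : ((m : ℝ) + 1) * ((m : ℝ) + 1 - 1) * A = ((m : ℝ) + 1) * (A * m) := by ring
      nlinarith
    exact le_of_mul_le_mul_left h1 (by linarith)
  have hsup := support_close (by omega : 2 ≤ m + 1) z hd _ hA1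
  have hH : ∀ u : ℂ, ‖u‖ = 1 → |supp z u - ((starRingEnd ℂ) u * cen z).re - 1| ≤ η := by
    intro u hu
    exact macro_cube hη0.le ((hsup u hu).trans hmN)
  obtain ⟨hrad, hnrm, hchord⟩ := chord hm2 z hc η hη0.le hη1 hH
  rw [hsqrt] at hnrm hchord
  -- winding
  obtain ⟨φ, hmono, hspan, hne, hφ⟩ := winding hm2 z hc (cen z) (orient_cen_pos hm2 z hc)
  have hU : ∀ i, (z i - cen z) / (‖z i - cen z‖ : ℂ) = Complex.exp ((φ i : ℂ) * Complex.I) := by
    intro i
    have h0 : (‖z i - cen z‖ : ℂ) ≠ 0 := by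
      have : ‖z i - cen z‖ ≠ 0 := norm_ne_zero_iff.mpr (sub_ne_zero.mpr (hne i))
      exact_mod_cast this
    rw [div_eq_iff h0, mul_comm]
    exact hφ i
  have hθ0 : 0 ≤ t ^ 3 := by positivity
  have hlog : ∀ i j, Real.log ‖z i - z j‖ ≤ t ^ 3
      + Real.log ‖Complex.exp ((φ i : ℂ) * Complex.I) - Complex.exp ((φ j : ℂ) * Complex.I)‖ := by
    intro i j
    by_cases hij : i = j
    · subst hij
      simp only [sub_self, norm_zero, Real.log_zero, add_zero]
      exact hθ0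
    · have hpos : 0 < ‖z i - z j‖ := norm_pos_iff.mpr (sub_ne_zero.mpr (fun h => hij (hinj h)))
      have h1 := hchord i j
      rw [hU i, hU j] at h1
      set D := ‖Complex.exp ((φ i : ℂ) * Complex.I) - Complex.exp ((φ j : ℂ) * Complex.I)‖ with hD
      have h2 : D ≠ 0 := by
        intro h
        rw [h, mul_zero] at h1
        linarith
      have h3 : (1 + t ^ 3 : ℝ) ≠ 0 := by positivity
      have h4 := Real.log_le_log hpos h1
      rw [Real.log_mul h3 h2] at h4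
      have h5 : Real.log (1 + t ^ 3) ≤ t ^ 3 := by
        have := Real.log_le_sub_one_of_pos (show 0 < 1 + t ^ 3 by positivity)
        linarith
      linarith
  have hsum : ∑ i, ∑ j, Real.log ‖z i - z j‖ ≤ ((m : ℝ) + 1) ^ 2 * t ^ 3
      + ∑ i, ∑ j, Real.log ‖Complex.exp ((φ i : ℂ) * Complex.I)
          - Complex.exp ((φ j : ℂ) * Complex.I)‖ := by
    calc ∑ i, ∑ j, Real.log ‖z i - z j‖
        ≤ ∑ i : Fin (m + 1), ∑ j : Fin (m + 1), (t ^ 3
          + Real.log ‖Complex.exp ((φ i : ℂ) * Complex.I)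
            - Complex.exp ((φ j : ℂ) * Complex.I)‖) :=
          Finset.sum_le_sum (fun i _ => Finset.sum_le_sum (fun j _ => hlog i j))
      _ = _ := by
          simp only [Finset.sum_add_distrib, Finset.sum_const, Finset.card_univ, Fintype.card_fin,
            nsmul_eq_mul]
          push_cast
          ring
  have hce := circle_energy (by omega : 2 ≤ m + 1) φ hmono hspan
  have hquad : ∑ i : Fin (m + 1), ∑ j : Fin (m + 1),
      ((φ i - 2 * Real.pi * (i : ℕ) / ((m + 1 : ℕ) : ℝ))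
        - (φ j - 2 * Real.pi * (j : ℕ) / ((m + 1 : ℕ) : ℝ))) ^ 2
      ≤ (8 * t ^ 3) * ((m + 1 : ℕ) : ℝ) ^ 2 := by
    set Q := ∑ i : Fin (m + 1), ∑ j : Fin (m + 1),
      ((φ i - 2 * Real.pi * (i : ℕ) / ((m + 1 : ℕ) : ℝ))
        - (φ j - 2 * Real.pi * (j : ℕ) / ((m + 1 : ℕ) : ℝ))) ^ 2 with hQ
    clear_value Q
    push_cast at hce ⊢
    linarith
  obtain ⟨β, hβ⟩ := equidist (by omega : 1 ≤ m + 1) φ hmono hspan _ hquad
  have hβ1 : ∀ i : Fin (m + 1), |φ i - 2 * Real.pi * (i : ℕ) / ((m : ℝ) + 1) - β| ≤ 10 * t := by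
    intro i
    apply macro_cube (by positivity)
    have := hβ i
    push_cast at this
    have h2 : (10 * t) ^ 3 = 1000 * t ^ 3 := by ring
    rw [h2]
    nlinarith
  -- conclusion
  have hunorm : ‖Complex.exp (((-β : ℝ) : ℂ) * Complex.I)‖ = 1 := Complex.norm_exp_ofReal_mul_I _
  have hpos : ∀ k : Fin (m + 1), ‖Complex.exp (((-β : ℝ) : ℂ) * Complex.I) * (z k - cen z)
        - Complex.exp (2 * (Real.pi : ℂ) * Complex.I * ((k : ℕ) : ℂ) / ((m : ℂ) + 1))‖
      ≤ η + 10 * t := by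
    intro k
    have e1 : Complex.exp (2 * (Real.pi : ℂ) * Complex.I * ((k : ℕ) : ℂ) / ((m : ℂ) + 1))
        = Complex.exp (((2 * Real.pi * (k : ℕ) / ((m : ℝ) + 1) : ℝ) : ℂ) * Complex.I) := by
      congr 1
      push_cast
      ring
    have e2 : Complex.exp (((-β : ℝ) : ℂ) * Complex.I) * (z k - cen z)
        = (‖z k - cen z‖ : ℂ) * Complex.exp (((φ k - β : ℝ) : ℂ) * Complex.I) := by
      conv_lhs => rw [hφ k]
      rw [mul_left_comm, ← Complex.exp_add]
      congr 2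
      push_cast
      ring
    rw [e1, e2]
    set E := Complex.exp (((φ k - β : ℝ) : ℂ) * Complex.I) with hE
    set F := Complex.exp (((2 * Real.pi * (k : ℕ) / ((m : ℝ) + 1) : ℝ) : ℂ) * Complex.I) with hF
    have h1 : (‖z k - cen z‖ : ℂ) * E - F = ((‖z k - cen z‖ - 1 : ℝ) : ℂ) * E + (E - F) := by
      push_cast
      ring
    rw [h1]
    refine (norm_add_le _ _).trans ?_
    rw [norm_mul, Complex.norm_real, hE, Complex.norm_exp_ofReal_mul_I, mul_one, Real.norm_eq_abs]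
    refine add_le_add (hrad k) ?_
    rw [hF]
    refine (macro_exp_close _ _).trans ?_
    have : φ k - β - 2 * Real.pi * (k : ℕ) / ((m : ℝ) + 1)
      = φ k - 2 * Real.pi * (k : ℕ) / ((m : ℝ) + 1) - β := by ring
    rw [this]
    exact hβ1 k
  have hηt : η ≤ t := by
    rw [hη]
    have : (0 : ℝ) ≤ t ^ 6 := by positivity
    linarith
  refine ⟨cen z, Complex.exp (((-β : ℝ) : ℂ) * Complex.I), hunorm, fun k => ?_, fun k => ?_⟩
  · refine (hpos k).trans ?_
    linarith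
  · have h1 : Complex.exp (((-β : ℝ) : ℂ) * Complex.I) * nrm z k
        - Complex.exp (2 * (Real.pi : ℂ) * Complex.I * ((k : ℕ) : ℂ) / ((m : ℂ) + 1))
        = (Complex.exp (((-β : ℝ) : ℂ) * Complex.I) * (z k - cen z)
          - Complex.exp (2 * (Real.pi : ℂ) * Complex.I * ((k : ℕ) : ℂ) / ((m : ℂ) + 1)))
          - Complex.exp (((-β : ℝ) : ℂ) * Complex.I) * (z k - cen z - nrm z k) := by ring
    rw [h1]
    refine (norm_sub_le _ _).trans ?_
    rw [norm_mul (Complex.exp (((-β : ℝ) : ℂ) * Complex.I)) (z k - cen z - nrm z k), hunorm,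
      one_mul]
    have := hnrm k
    have := hpos k
    linarith

end EHP56
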