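import Pool.Agent.EHP56.AvgLog
import Pool.Agent.EHP56.Energy1D

/-!
# The averaged energy inequality (module A3)

Put `x_i(u) = Re (conj u * z i)`.  For `i ≠ j`, `log ‖z i - z j‖ = log 2 +` (circle average of
`log |x_i(u) - x_j(u)|`) by `circleAverage_log_re`.  So
`∑_{i,j} log ‖z i - z j‖ = n(n-1) log 2 + circleAverage (u ↦ ∑_{i ≠ j} log |x_i(u) - x_j(u)|)`.

For all `u` on the circle apart from finitely many the `x_i(u)` are pairwise distinct.  For such `u` put
`M = supp z u = max_i x_i(u)`, `- supp z (-u) = min_i x_i(u)`,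
`a = (supp z u + supp z (-u))/2 > 0` (half the width), `c = (supp z u - supp z (-u))/2`.  Then
`|x_i - c| ≤ a ≤ 1` (`a ≤ 1` since `x_i - x_j ≤ ‖z i - z j‖ ≤ 2`), and `energy_1d` gives
`∑_{i ≠ j} log |x_i - x_j| ≤ n(n-1) log (a/2) + n + 2n log n - 2(1-1/n) (∑ (x_i - c)/a)^2`.
Here `log (a/2) ≤ - (1 - a) - log 2`, `∑ (x_i - c) = n (Re (conj u * cen z) - c)` and `a ≤ 1`, so
`≤ - n(n-1) log 2 - n(n-1)(1-a) + n + 2n log n - 2n(n-1) (Re (conj u * cen z) - c)^2`.

Monotonicity of the circle average (`circleAverage_mono`-type lemma, in a.e. form: rewrite as an interval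
integral over `[0, 2π]` and use `intervalIntegral.integral_mono_ae` or change the function at finitely many
points).  The function on the right hand side is continuous in `u` (`supp z` is a finite supremum of
continuous functions, see `Finset.sup'`/`ciSup` or prove it Lipschitz).
-/

namespace EHP56

open Finset

private lemma macroAvg_supp_continuous {n : ℕ} (hn : 2 ≤ n) (z : Fin n → ℂ) :
    Continuous (supp z) := by
  have : NeZero n := ⟨by omega⟩
  have h : supp z = fun u : ℂ => (Finset.univ : Finset (Fin n)).sup' Finset.univ_nonempty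
      (fun i => ((starRingEnd ℂ) u * z i).re) := by
    funext u
    rw [supp, Finset.sup'_univ_eq_ciSup]
  rw [h]
  refine Continuous.finset_sup'_apply _ ?_
  intro i _
  exact Complex.continuous_re.comp ((Complex.continuous_conj).mul continuous_const)

/-- the orthogonality relation on the circle has at most two solutions -/
private lemma macroAvg_zero {u w : ℂ} (hu : ‖u‖ = 1) (hw : w ≠ 0)
    (h : ((starRingEnd ℂ) u * w).re = 0) :
    u = Complex.I * (w / ‖w‖) ∨ u = -(Complex.I * (w / ‖w‖)) := by
  have hw' : (‖w‖ : ℂ) ≠ 0 := by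
    exact_mod_cast norm_ne_zero_iff.mpr hw
  have huu : u * (starRingEnd ℂ) u = 1 := by
    rw [Complex.mul_conj, Complex.normSq_eq_norm_sq, hu]
    norm_num
  have hww : w * (starRingEnd ℂ) w = (‖w‖ : ℂ) ^ 2 := by
    rw [Complex.mul_conj, Complex.normSq_eq_norm_sq]
    push_cast
    ring
  have h2 : (starRingEnd ℂ) u * w + u * (starRingEnd ℂ) w = 0 := by
    have h3 : (((starRingEnd ℂ) u * w).re : ℂ)
        = ((starRingEnd ℂ) u * w + u * (starRingEnd ℂ) w) / 2 := by
      rw [Complex.re_eq_add_conj, map_mul, Complex.conj_conj]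
    rw [h] at h3
    have h4 : ((starRingEnd ℂ) u * w + u * (starRingEnd ℂ) w) / 2 = 0 := by
      rw [← h3]
      simp
    have h5 : (starRingEnd ℂ) u * w + u * (starRingEnd ℂ) w
        = 2 * (((starRingEnd ℂ) u * w + u * (starRingEnd ℂ) w) / 2) := by ring
    rw [h5, h4, mul_zero]
  have h6 : w ^ 2 + u ^ 2 * (‖w‖ : ℂ) ^ 2 = 0 := by
    have : (u * w) * ((starRingEnd ℂ) u * w + u * (starRingEnd ℂ) w)
        = w ^ 2 + u ^ 2 * (‖w‖ : ℂ) ^ 2 := by
      linear_combination (w ^ 2) * huu + (u ^ 2) * hww
    rw [← this, h2, mul_zero]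
  have h7 : (u - Complex.I * (w / ‖w‖)) * (u + Complex.I * (w / ‖w‖)) = 0 := by
    have h8 : (u - Complex.I * (w / ‖w‖)) * (u + Complex.I * (w / ‖w‖))
        = (w ^ 2 + u ^ 2 * (‖w‖ : ℂ) ^ 2) / (‖w‖ : ℂ) ^ 2 := by
      field_simp
      linear_combination (-(w ^ 2)) * Complex.I_sq
    rw [h8, h6, zero_div]
  rcases mul_eq_zero.mp h7 with h9 | h9
  · left
    exact sub_eq_zero.mp h9
  · right
    exact eq_neg_of_add_eq_zero_left h9

/-- the pointwise inequality in a direction in which the projections are distinct -/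
private lemma macroAvg_pointwise {n : ℕ} (hn : 2 ≤ n) (z : Fin n → ℂ)
    (hd : ∀ i j, ‖z i - z j‖ ≤ 2) {u : ℂ} (hu : ‖u‖ = 1)
    (hx : Function.Injective fun i => ((starRingEnd ℂ) u * z i).re) :
    ∑ i, ∑ j, Real.log |((starRingEnd ℂ) u * (z i - z j)).re|
      ≤ (n : ℝ) + 2 * n * Real.log n - (n : ℝ) * ((n : ℝ) - 1) * Real.log 2
        - (n : ℝ) * ((n : ℝ) - 1) * ((1 - (supp z u + supp z (-u)) / 2)
            + 2 * (((starRingEnd ℂ) u * cen z).re - (supp z u - supp z (-u)) / 2) ^ 2) := by
  have : NeZero n := ⟨by omega⟩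
  have hn2 : (2 : ℝ) ≤ n := by exact_mod_cast hn
  have hn0 : (0 : ℝ) < n := by linarith
  set x : Fin n → ℝ := fun i => ((starRingEnd ℂ) u * z i).re with hxdef
  have hdiff : ∀ i j, ((starRingEnd ℂ) u * (z i - z j)).re = x i - x j := by
    intro i j
    rw [mul_sub, Complex.sub_re]
  have hM : ∀ i, x i ≤ supp z u := fun i =>
    le_ciSup (f := fun i => ((starRingEnd ℂ) u * z i).re) (Set.finite_range _).bddAbove i
  have hneg : ∀ i, ((starRingEnd ℂ) (-u) * z i).re = - x i := by
    intro i
    rw [map_neg, neg_mul, Complex.neg_re]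
  have hm : ∀ i, - x i ≤ supp z (-u) := by
    intro i
    rw [← hneg i]
    exact le_ciSup (f := fun i => ((starRingEnd ℂ) (-u) * z i).re) (Set.finite_range _).bddAbove i
  obtain ⟨i₀, hi₀⟩ : ∃ i, x i = supp z u :=
    exists_eq_ciSup_of_finite (f := fun i => ((starRingEnd ℂ) u * z i).re)
  obtain ⟨j₀, hj₀⟩ : ∃ j, - x j = supp z (-u) := by
    obtain ⟨j, hj⟩ := exists_eq_ciSup_of_finite (f := fun i => ((starRingEnd ℂ) (-u) * z i).re)
    exact ⟨j, by rw [← hneg j]; exact hj⟩
  set a : ℝ := (supp z u + supp z (-u)) / 2 with ha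
  set c : ℝ := (supp z u - supp z (-u)) / 2 with hc
  have ha1 : a ≤ 1 := by
    have h1 : x i₀ - x j₀ ≤ 2 := by
      rw [← hdiff]
      calc ((starRingEnd ℂ) u * (z i₀ - z j₀)).re ≤ ‖(starRingEnd ℂ) u * (z i₀ - z j₀)‖ :=
            Complex.re_le_norm _
        _ = ‖z i₀ - z j₀‖ := by rw [norm_mul, Complex.norm_conj, hu, one_mul]
        _ ≤ 2 := hd _ _
    rw [ha]
    linarith
  have ha0 : 0 < a := by
    have h01 : (⟨0, by omega⟩ : Fin n) ≠ ⟨1, by omega⟩ := by
      intro h
      simp at h
    have hne : x ⟨0, by omega⟩ ≠ x ⟨1, by omega⟩ := fun h => h01 (hx h)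
    rcases lt_or_gt_of_ne hne with h | h
    · have h2 := hM ⟨1, by omega⟩
      have h3 := hm ⟨0, by omega⟩
      rw [ha]
      linarith
    · have h2 := hM ⟨0, by omega⟩
      have h3 := hm ⟨1, by omega⟩
      rw [ha]
      linarith
  have hE := energy_1d hn x hx c a ha0 (by
    intro i
    rw [abs_le]
    constructor
    · have := hm i
      rw [ha, hc]
      linarith
    · have := hM i
      rw [ha, hc]
      linarith)
  have hsum : ∑ i, (x i - c) / a = n * (((starRingEnd ℂ) u * cen z).re - c) / a := by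
    rw [← Finset.sum_div, Finset.sum_sub_distrib, Finset.sum_const, Finset.card_univ,
      Fintype.card_fin, nsmul_eq_mul, mul_sub]
    congr 2
    have h1 : (n : ℂ) * cen z = ∑ i, z i := by
      rw [cen]
      have : (n : ℂ) ≠ 0 := by exact_mod_cast hn0.ne'
      field_simp
    have h2 : (n : ℝ) * ((starRingEnd ℂ) u * cen z).re = ((starRingEnd ℂ) u * (n * cen z)).re := by
      rw [← Complex.re_ofReal_mul]
      congr 1
      push_cast
      ring
    rw [h2, h1, Finset.mul_sum, Complex.re_sum]
  set e : ℝ := ((starRingEnd ℂ) u * cen z).re - c with he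
  rw [hsum] at hE
  have hlog : Real.log (a / 2) ≤ (a - 1) - Real.log 2 := by
    rw [Real.log_div ha0.ne' two_ne_zero]
    have := Real.log_le_sub_one_of_pos ha0
    linarith
  have hnn : 0 ≤ (n : ℝ) * ((n : ℝ) - 1) := by
    apply mul_nonneg hn0.le
    linarith
  have h1 : (n : ℝ) * ((n : ℝ) - 1) * Real.log (a / 2)
      ≤ (n : ℝ) * ((n : ℝ) - 1) * ((a - 1) - Real.log 2) :=
    mul_le_mul_of_nonneg_left hlog hnn
  have h2 : 2 * (1 - 1 / (n : ℝ)) * (n * e / a) ^ 2
      = (n : ℝ) * ((n : ℝ) - 1) * (2 * (e ^ 2 / a ^ 2)) := by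
    field_simp
  have h3 : e ^ 2 ≤ e ^ 2 / a ^ 2 := by
    rw [le_div_iff₀ (by positivity)]
    have : a ^ 2 ≤ 1 := by
      nlinarith
    nlinarith [sq_nonneg e]
  have h4 : (n : ℝ) * ((n : ℝ) - 1) * (2 * e ^ 2)
      ≤ (n : ℝ) * ((n : ℝ) - 1) * (2 * (e ^ 2 / a ^ 2)) :=
    mul_le_mul_of_nonneg_left (by linarith) hnn
  rw [h2] at hE
  have h5 : ∑ i, ∑ j, Real.log |((starRingEnd ℂ) u * (z i - z j)).re|
      = ∑ i, ∑ j, Real.log |x i - x j| := by
    refine Finset.sum_congr rfl fun i _ => Finset.sum_congr rfl fun j _ => ?_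
    rw [hdiff]
  rw [h5]
  nlinarith [hE, h1, h4]

theorem macro_avg {n : ℕ} (hn : 2 ≤ n) (z : Fin n → ℂ) (hinj : Function.Injective z)
    (hd : ∀ i j, ‖z i - z j‖ ≤ 2) :
    ∑ i, ∑ j, Real.log ‖z i - z j‖
      ≤ (n : ℝ) + 2 * n * Real.log n
        - (n : ℝ) * ((n : ℝ) - 1) * Real.circleAverage
          (fun u : ℂ => (1 - (supp z u + supp z (-u)) / 2)
            + 2 * (((starRingEnd ℂ) u * cen z).re - (supp z u - supp z (-u)) / 2) ^ 2) 0 1 := by
  have : NeZero n := ⟨by omega⟩
  have hn2 : (2 : ℝ) ≤ n := by exact_mod_cast hn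
  have hn0 : (0 : ℝ) < n := by linarith
  set F : ℂ → ℝ := fun u => ∑ i, ∑ j, Real.log |((starRingEnd ℂ) u * (z i - z j)).re| with hF
  set H : ℂ → ℝ := fun u => (1 - (supp z u + supp z (-u)) / 2)
            + 2 * (((starRingEnd ℂ) u * cen z).re - (supp z u - supp z (-u)) / 2) ^ 2 with hH
  set K : ℝ := (n : ℝ) + 2 * n * Real.log n - (n : ℝ) * ((n : ℝ) - 1) * Real.log 2 with hK
  set G : ℂ → ℝ := fun u => K - (n : ℝ) * ((n : ℝ) - 1) * H u with hG
  have hHc : Continuous H := by
    have hs := macroAvg_supp_continuous hn z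
    have hs' : Continuous fun u : ℂ => supp z (-u) := hs.comp continuous_neg
    have hc : Continuous fun u : ℂ => ((starRingEnd ℂ) u * cen z).re :=
      Complex.continuous_re.comp ((Complex.continuous_conj).mul continuous_const)
    rw [hH]
    fun_prop
  have hHi : CircleIntegrable H 0 1 := hHc.continuousOn.circleIntegrable zero_le_one
  have hGi : CircleIntegrable G 0 1 := by
    apply ContinuousOn.circleIntegrable zero_le_one
    apply Continuous.continuousOn
    rw [hG]
    fun_prop
  -- the average of `G`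
  have hGavg : Real.circleAverage G 0 1
      = K - (n : ℝ) * ((n : ℝ) - 1) * Real.circleAverage H 0 1 := by
    rw [hG]
    have hi2 : CircleIntegrable (fun u : ℂ => (n : ℝ) * ((n : ℝ) - 1) * H u) 0 1 := by
      apply ContinuousOn.circleIntegrable zero_le_one
      apply Continuous.continuousOn
      fun_prop
    rw [Real.circleAverage_fun_sub (circleIntegrable_const _ _ _) hi2]
    rw [Real.circleAverage_const]
    congr 1
    have := Real.circleAverage_fun_smul (a := (n : ℝ) * ((n : ℝ) - 1)) (f := H) (c := 0) (R := 1)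
    simpa [smul_eq_mul] using this
  -- the average of `F`
  have hFi : CircleIntegrable F 0 1 := by
    have : ∀ i ∈ (Finset.univ : Finset (Fin n)), CircleIntegrable
        (fun u : ℂ => ∑ j, Real.log |((starRingEnd ℂ) u * (z i - z j)).re|) 0 1 := by
      intro i _
      have h2 := CircleIntegrable.sum (c := 0) (R := 1) (Finset.univ : Finset (Fin n))
        (f := fun j => fun u : ℂ => Real.log |((starRingEnd ℂ) u * (z i - z j)).re|)
        (fun j _ => circleIntegrable_log_re _)
      convert h2 using 1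
      funext u
      simp
    have h3 := CircleIntegrable.sum (c := 0) (R := 1) (Finset.univ : Finset (Fin n)) this
    convert h3 using 1
    funext u
    simp [hF]
  have hFavg : Real.circleAverage F 0 1
      = ∑ i, ∑ j, Real.log ‖z i - z j‖ - (n : ℝ) * ((n : ℝ) - 1) * Real.log 2 := by
    have e1 : Real.circleAverage F 0 1 = ∑ i, ∑ j, Real.circleAverage
        (fun u : ℂ => Real.log |((starRingEnd ℂ) u * (z i - z j)).re|) 0 1 := by
      rw [hF]
      rw [Real.circleAverage_fun_sum]
      · refine Finset.sum_congr rfl fun i _ => ?_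
        rw [Real.circleAverage_fun_sum]
        intro j _
        exact circleIntegrable_log_re _
      · intro i _
        have h2 := CircleIntegrable.sum (c := 0) (R := 1) (Finset.univ : Finset (Fin n))
          (f := fun j => fun u : ℂ => Real.log |((starRingEnd ℂ) u * (z i - z j)).re|)
          (fun j _ => circleIntegrable_log_re _)
        convert h2 using 1
        funext u
        simp
    have e2 : ∀ i j, Real.circleAverage
        (fun u : ℂ => Real.log |((starRingEnd ℂ) u * (z i - z j)).re|) 0 1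
        = Real.log ‖z i - z j‖ - if i = j then 0 else Real.log 2 := by
      intro i j
      by_cases hij : i = j
      · subst hij
        simp [Real.circleAverage_const]
      · rw [if_neg hij, circleAverage_log_re]
        intro h
        exact hij (hinj (sub_eq_zero.mp h))
    rw [e1]
    simp_rw [e2]
    have e3 : ∀ i : Fin n, ∑ j, (Real.log ‖z i - z j‖ - if i = j then 0 else Real.log 2)
        = ∑ j, Real.log ‖z i - z j‖ - ((n : ℝ) - 1) * Real.log 2 := by
      intro i
      rw [Finset.sum_sub_distrib]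
      congr 1
      have e4 : ∀ j : Fin n, (if i = j then (0 : ℝ) else Real.log 2)
          = Real.log 2 - if i = j then Real.log 2 else 0 := by
        intro j
        split_ifs <;> ring
      simp_rw [e4]
      rw [Finset.sum_sub_distrib, Finset.sum_const, Finset.card_univ, Fintype.card_fin,
        Finset.sum_ite_eq, if_pos (Finset.mem_univ i), nsmul_eq_mul]
      ring
    simp_rw [e3]
    rw [Finset.sum_sub_distrib, Finset.sum_const, Finset.card_univ, Fintype.card_fin, nsmul_eq_mul]
    ring
  -- the exceptional directions form a finite set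
  set bad : Set ℂ := ⋃ i : Fin n, ⋃ j : Fin n,
    {Complex.I * ((z i - z j) / ‖z i - z j‖), -(Complex.I * ((z i - z j) / ‖z i - z j‖))} with hbad
  have hfin : bad.Finite := by
    rw [hbad]
    exact Set.finite_iUnion fun i => Set.finite_iUnion fun j => Set.toFinite _
  have hcongr : F =ᶠ[Filter.codiscreteWithin (Metric.sphere 0 |(1 : ℝ)|)]
      (fun u => min (F u) (G u)) := by
    have hmem := compl_finite_mem_codiscreteWithin (s := Metric.sphere (0 : ℂ) |(1 : ℝ)|) hfin
    filter_upwards [hmem, Filter.self_mem_codiscreteWithin (Metric.sphere (0 : ℂ) |(1 : ℝ)|)]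
      with u hu husph
    have hu1 : ‖u‖ = 1 := by
      simpa using husph
    have hx : Function.Injective fun i => ((starRingEnd ℂ) u * z i).re := by
      intro i j hij
      by_contra hne
      apply hu
      have hzne : z i - z j ≠ 0 := fun h => hne (hinj (sub_eq_zero.mp h))
      have h0 : ((starRingEnd ℂ) u * (z i - z j)).re = 0 := by
        rw [mul_sub, Complex.sub_re]
        exact sub_eq_zero.mpr hij
      have := macroAvg_zero hu1 hzne h0
      rw [hbad]
      simp only [Set.mem_iUnion]
      exact ⟨i, j, this⟩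
    have := macroAvg_pointwise hn z hd hu1 hx
    exact (min_eq_left this).symm
  have hminI : CircleIntegrable (fun u => min (F u) (G u)) 0 1 :=
    CircleIntegrable.congr_codiscreteWithin hcongr hFi
  have hle : Real.circleAverage F 0 1 ≤ Real.circleAverage G 0 1 := by
    rw [Real.circleAverage_congr_codiscreteWithin hcongr one_ne_zero]
    exact Real.circleAverage_mono hminI hGi fun u _ => min_le_right _ _
  rw [hFavg, hGavg] at hle
  linarith

end EHP56
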