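import Pool.Agent.EHP56.Kernel
import Pool.Agent.EHP56.GFun

/-!
# Short blocks: pointwise estimates (module B3a)

Fix `P`, `j`, `d` with `1 ≤ d`, `100 d ≤ n`, `0 ≤ ε ≤ 1/100`.  Write `q_l = P.q (j+l)`, `p_l`, `r_l`, `ell_l`,
`R = P.R j d = ∑_{l<d} r_l`, `u = P.u j d = (1/d) ∑ q_l`, `Γ m = ∑_{l<m} (q_l - 1)` (`gam` below),
`x = Re X`, `β = beta n d`, `τ_l = tau n d l`, `|τ_l| ≤ π d/n ≤ 0.0315`, `1 ≤ dβ ≤ 1 + 2 (d/n)^2`.

Facts: `(1 - ε²) r ≤ q ≤ r`, more precisely `Re c ≥ 1 - ε²/2` (`‖c-1‖² = 2 - 2 Re c`), `|p| ≤ ε r`,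
`p² ≤ 2 r ell`, so `(∑|p_l|)^2 ≤ R ∑ 2 ell_l` and `∑ |p_l| ≤ ε R`, `R ≤ 1.0001 d u`.

1. `|β cos τ_l - 1/d| ≤ (1/d)(|dβ - 1| + dβ τ²/2) ≤ 7 d/n²`.
   `x - u = ∑ (β cos τ_l - 1/d) q_l - β ∑ p_l sin τ_l`, so `|x - u| ≤ 7 (d/n)² u + (dβ)(1/d) ε R (πd/n) ≤ u/100`.
2. Because `∑_l (β cos τ_l - 1/d) = 0` (`kernel_cos`) one can replace `q_l` by `q_l - 1`.  Abel summation
   (`abel_bound`) with `A = 7d/n²`, `B = 20/n²` (`|β (cos τ_{l+1} - cos τ_l)| ≤ (1.001/d)(2π/n)(πd/n)`):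
   `(∑ (β cos τ_l - 1/d)(q_l - 1))^2 ≤ 2A² Γ(d)² + 2B² d ∑_{m<d} Γ(m)²`, and
   `(β ∑ p sin τ)^2 ≤ (1.001/d)² (πd/n)² 2R ∑ ell ≤ (20/n²) R ∑ ell`.  This gives `block_xi`.
3. `∑_l sin τ_l = 0` (`kernel_sin`), so `β ∑ q_l sin τ_l = β ∑ (q_l - 1) sin τ_l`, Abel with `A = πd/n`, `B = 2π/n`:
   `(β ∑ q sin τ)^2 ≤ (1.01/d²)(2 (πd/n)² Γ(d)² + 2 (2π/n)² d ∑ Γ(m)²)`;
   `(β ∑ p cos τ)^2 ≤ (1.01/d²) 2R ∑ ell`.  Divide by `x² ≥ (0.99 u)²`.  `R ≤ 1.0001 d u`:  `block_im`.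
4. Crude: `|β ∑ q sin τ| ≤ 1.001 u πd/n`, `|β ∑ p cos τ| ≤ 1.001 ε R/d ≤ 1.01 ε u`, so `|Im X/x| ≤ 4 d/n + 2ε`: `block_im'`.
-/

namespace EHP56

open Finset

theorem abel_bound (a s : ℕ → ℝ) (d : ℕ) (A B : ℝ) (hA0 : 0 ≤ A) (hB0 : 0 ≤ B)
    (hA : ∀ l, l < d → |s l| ≤ A) (hB : ∀ l, l + 1 < d → |s (l + 1) - s l| ≤ B) :
    (∑ l ∈ range d, a l * s l) ^ 2
      ≤ 2 * A ^ 2 * (∑ l ∈ range d, a l) ^ 2
        + 2 * B ^ 2 * d * ∑ m ∈ range d, (∑ l ∈ range m, a l) ^ 2 := by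
  rcases d with _ | d
  · simp
  have key : ∀ k : ℕ, ∑ l ∈ range (k + 1), a l * s l
      = (∑ l ∈ range (k + 1), a l) * s k
        - ∑ m ∈ range k, (∑ l ∈ range (m + 1), a l) * (s (m + 1) - s m) := by
    intro k
    induction k with
    | zero => simp
    | succ k ih =>
      rw [sum_range_succ, ih,
        sum_range_succ (fun m => (∑ l ∈ range (m + 1), a l) * (s (m + 1) - s m)),
        sum_range_succ a (k + 1)]
      ring
  rw [key d]
  have h1 : ((∑ l ∈ range (d + 1), a l) * s d) ^ 2 ≤ A ^ 2 * (∑ l ∈ range (d + 1), a l) ^ 2 := by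
    have h := hA d (Nat.lt_succ_self d)
    have h2 : s d ^ 2 ≤ A ^ 2 := by
      rw [← sq_abs (s d)]
      exact pow_le_pow_left₀ (abs_nonneg _) h 2
    rw [mul_pow]
    nlinarith [sq_nonneg (∑ l ∈ range (d + 1), a l)]
  have h2 : (∑ m ∈ range d, (∑ l ∈ range (m + 1), a l) * (s (m + 1) - s m)) ^ 2
      ≤ B ^ 2 * ((d + 1 : ℕ) : ℝ) * ∑ m ∈ range (d + 1), (∑ l ∈ range m, a l) ^ 2 := by
    have hcs := Finset.sum_mul_sq_le_sq_mul_sq (range d) (fun m => ∑ l ∈ range (m + 1), a l)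
      (fun m => s (m + 1) - s m)
    have e1 : ∑ m ∈ range (d + 1), (∑ l ∈ range m, a l) ^ 2
        = ∑ m ∈ range d, (∑ l ∈ range (m + 1), a l) ^ 2 := by
      rw [sum_range_succ' (fun m => (∑ l ∈ range m, a l) ^ 2)]
      simp
    have e2 : ∑ m ∈ range d, (s (m + 1) - s m) ^ 2 ≤ (d : ℝ) * B ^ 2 := by
      calc ∑ m ∈ range d, (s (m + 1) - s m) ^ 2 ≤ ∑ _m ∈ range d, B ^ 2 := by
            refine sum_le_sum fun m hm => ?_
            rw [← sq_abs (s (m + 1) - s m)]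
            exact pow_le_pow_left₀ (abs_nonneg _)
              (hB m (by have := mem_range.1 hm; omega)) 2
        _ = (d : ℝ) * B ^ 2 := by simp
    have e3 : 0 ≤ ∑ m ∈ range d, (∑ l ∈ range (m + 1), a l) ^ 2 :=
      sum_nonneg fun m _ => sq_nonneg _
    rw [e1]
    calc (∑ m ∈ range d, (∑ l ∈ range (m + 1), a l) * (s (m + 1) - s m)) ^ 2
        ≤ (∑ m ∈ range d, (∑ l ∈ range (m + 1), a l) ^ 2)
          * ∑ m ∈ range d, (s (m + 1) - s m) ^ 2 := hcs
      _ ≤ (∑ m ∈ range d, (∑ l ∈ range (m + 1), a l) ^ 2) * ((d : ℝ) * B ^ 2) :=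
          mul_le_mul_of_nonneg_left e2 e3
      _ ≤ (∑ m ∈ range d, (∑ l ∈ range (m + 1), a l) ^ 2) * (((d + 1 : ℕ) : ℝ) * B ^ 2) := by
          refine mul_le_mul_of_nonneg_left ?_ e3
          refine mul_le_mul_of_nonneg_right ?_ (sq_nonneg _)
          push_cast
          linarith
      _ = B ^ 2 * ((d + 1 : ℕ) : ℝ) * ∑ m ∈ range d, (∑ l ∈ range (m + 1), a l) ^ 2 := by ring
  nlinarith [sq_nonneg ((∑ l ∈ range (d + 1), a l) * s d
    + ∑ m ∈ range d, (∑ l ∈ range (m + 1), a l) * (s (m + 1) - s m))]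

variable {n : ℕ} [NeZero n] {ε : ℝ}

/-- `gam P j m = ∑_{l<m} (q (j+l) - 1)` -/
noncomputable def gam (P : Loc n ε) (j : ZMod n) (m : ℕ) : ℝ :=
  ∑ l ∈ range m, (P.q (j + (l : ZMod n)) - 1)

/-- sum of `ell` over a block -/
noncomputable def ellsum (P : Loc n ε) (j : ZMod n) (d : ℕ) : ℝ :=
  ∑ l ∈ range d, P.ell (j + (l : ZMod n))

private theorem mb_sq (P : Loc n ε) (k : ZMod n) : (P.c k).re ^ 2 + (P.c k).im ^ 2 = 1 := by
  have h2 : ‖P.c k‖ ^ 2 = 1 := by rw [P.c_norm k]; norm_num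
  rw [← Complex.normSq_eq_norm_sq, Complex.normSq_apply] at h2
  linarith [sq (P.c k).re, sq (P.c k).im]

private theorem mb_re_le (P : Loc n ε) (k : ZMod n) : (P.c k).re ≤ 1 := by
  nlinarith [mb_sq P k, sq_nonneg (P.c k).im]

private theorem mb_im_abs (P : Loc n ε) (k : ZMod n) : |(P.c k).im| ≤ ε := by
  have h := Complex.abs_im_le_norm (P.c k - 1)
  have e : (P.c k - 1).im = (P.c k).im := by simp
  rw [e] at h
  exact h.trans (P.c_close k)

private theorem mb_eps (P : Loc n ε) : 0 ≤ ε :=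
  (norm_nonneg _).trans (P.c_close 0)

private theorem mb_re_ge (P : Loc n ε) (k : ZMod n) : 1 - ε ^ 2 / 2 ≤ (P.c k).re := by
  have h : ‖P.c k - 1‖ ^ 2 ≤ ε ^ 2 := pow_le_pow_left₀ (norm_nonneg _) (P.c_close k) 2
  rw [← Complex.normSq_eq_norm_sq, Complex.normSq_apply] at h
  have e1 : (P.c k - 1).re = (P.c k).re - 1 := by simp
  have e2 : (P.c k - 1).im = (P.c k).im := by simp
  rw [e1, e2] at h
  nlinarith [mb_sq P k]

theorem ell_nonneg (P : Loc n ε) (k : ZMod n) : 0 ≤ P.ell k :=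
  mul_nonneg (P.r_pos k).le (by linarith [mb_re_le P k])

private theorem mb_re_pos (P : Loc n ε) (hε : ε ≤ 1 / 100) (k : ZMod n) :
    9999 / 10000 ≤ (P.c k).re := by
  have h := mb_re_ge P k
  have h0 := mb_eps P
  nlinarith

theorem q_pos (P : Loc n ε) (hε : ε ≤ 1 / 100) (k : ZMod n) : 0 < P.q k :=
  mul_pos (P.r_pos k) (by linarith [mb_re_pos P hε k])

theorem u_pos (P : Loc n ε) (hε : ε ≤ 1 / 100) (j : ZMod n) {d : ℕ} (h1 : 1 ≤ d) :
    0 < P.u j d := by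
  unfold Loc.u
  refine div_pos (sum_pos (fun l _ => q_pos P hε _) ⟨0, by simp; omega⟩) ?_
  exact_mod_cast h1

theorem gam_eq (P : Loc n ε) (j : ZMod n) {m : ℕ} (h1 : 1 ≤ m) :
    gam P j m = m * (P.u j m - 1) := by
  have hm : (m : ℝ) ≠ 0 := by
    have : (1 : ℝ) ≤ m := by exact_mod_cast h1
    positivity
  unfold gam Loc.u
  rw [sum_sub_distrib]
  simp only [sum_const, card_range, nsmul_eq_mul, mul_one]
  field_simp

/-- `R` and `d u` are comparable -/
theorem R_le_u (P : Loc n ε) (hε0 : 0 ≤ ε) (hε : ε ≤ 1 / 100) (j : ZMod n) {d : ℕ} (h1 : 1 ≤ d) :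
    (d : ℝ) * P.u j d ≤ P.R j d ∧ P.R j d ≤ 101 / 100 * (d * P.u j d) := by
  have hd : (d : ℝ) ≠ 0 := by
    have : (1 : ℝ) ≤ d := by exact_mod_cast h1
    positivity
  have e : (d : ℝ) * P.u j d = ∑ l ∈ range d, P.q (j + (l : ZMod n)) := by
    unfold Loc.u
    field_simp
  rw [e]
  unfold Loc.R
  constructor
  · refine sum_le_sum fun l _ => ?_
    unfold Loc.q
    nlinarith [P.r_pos (j + (l : ZMod n)), mb_re_le P (j + (l : ZMod n))]
  · rw [mul_sum]
    refine sum_le_sum fun l _ => ?_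
    unfold Loc.q
    nlinarith [P.r_pos (j + (l : ZMod n)), mb_re_pos P hε (j + (l : ZMod n))]

private theorem mb_du (P : Loc n ε) (j : ZMod n) {d : ℕ} (h1 : 1 ≤ d) :
    ∑ l ∈ range d, P.q (j + (l : ZMod n)) = (d : ℝ) * P.u j d := by
  have hd : (d : ℝ) ≠ 0 := by
    have : (1 : ℝ) ≤ d := by exact_mod_cast h1
    positivity
  unfold Loc.u
  field_simp

private theorem mb_p_sq (P : Loc n ε) (k : ZMod n) : P.p k ^ 2 ≤ P.r k * (2 * P.ell k) := by
  unfold Loc.p Loc.ell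
  have h := mb_sq P k
  have hr := P.r_pos k
  have h1 := mb_re_le P k
  have e : (P.r k * (P.c k).im) ^ 2 = P.r k ^ 2 * ((1 - (P.c k).re) * (1 + (P.c k).re)) := by
    have : (P.c k).im ^ 2 = (1 - (P.c k).re) * (1 + (P.c k).re) := by nlinarith
    rw [mul_pow, this]
  rw [e]
  have h2 : (1 - (P.c k).re) * (1 + (P.c k).re) ≤ (1 - (P.c k).re) * 2 :=
    mul_le_mul_of_nonneg_left (by linarith) (by linarith)
  calc P.r k ^ 2 * ((1 - (P.c k).re) * (1 + (P.c k).re))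
      ≤ P.r k ^ 2 * ((1 - (P.c k).re) * 2) := mul_le_mul_of_nonneg_left h2 (sq_nonneg _)
    _ = P.r k * (2 * (P.r k * (1 - (P.c k).re))) := by ring

private theorem mb_p_abs (P : Loc n ε) (k : ZMod n) : |P.p k| ≤ ε * P.r k := by
  unfold Loc.p
  rw [abs_mul, abs_of_pos (P.r_pos k), mul_comm]
  exact mul_le_mul_of_nonneg_right (mb_im_abs P k) (P.r_pos k).le

/-- the weighted sum of the `p` -/
private theorem mb_psum_abs (P : Loc n ε) (j : ZMod n) (d : ℕ) (w : ℕ → ℝ) (W : ℝ) (hW : 0 ≤ W)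
    (hw : ∀ l, l < d → |w l| ≤ W) :
    |∑ l ∈ range d, P.p (j + (l : ZMod n)) * w l| ≤ W * (ε * P.R j d) := by
  calc |∑ l ∈ range d, P.p (j + (l : ZMod n)) * w l|
      ≤ ∑ l ∈ range d, |P.p (j + (l : ZMod n)) * w l| := abs_sum_le_sum_abs _ _
    _ ≤ ∑ l ∈ range d, (ε * P.r (j + (l : ZMod n))) * W := by
        refine sum_le_sum fun l hl => ?_
        rw [abs_mul]
        exact mul_le_mul (mb_p_abs P _) (hw l (mem_range.1 hl)) (abs_nonneg _)
          (mul_nonneg (mb_eps P) (P.r_pos _).le)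
    _ = W * (ε * P.R j d) := by
        unfold Loc.R
        rw [← sum_mul, ← mul_sum]
        ring

private theorem mb_psum_sq (P : Loc n ε) (j : ZMod n) (d : ℕ) (w : ℕ → ℝ) (W : ℝ) (hW : 0 ≤ W)
    (hw : ∀ l, l < d → |w l| ≤ W) :
    (∑ l ∈ range d, P.p (j + (l : ZMod n)) * w l) ^ 2 ≤ W ^ 2 * (2 * (P.R j d * ellsum P j d)) := by
  have h1 : |∑ l ∈ range d, P.p (j + (l : ZMod n)) * w l|
      ≤ W * ∑ l ∈ range d, |P.p (j + (l : ZMod n))| := by
    calc |∑ l ∈ range d, P.p (j + (l : ZMod n)) * w l|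
        ≤ ∑ l ∈ range d, |P.p (j + (l : ZMod n)) * w l| := abs_sum_le_sum_abs _ _
      _ ≤ ∑ l ∈ range d, W * |P.p (j + (l : ZMod n))| := by
          refine sum_le_sum fun l hl => ?_
          rw [abs_mul, mul_comm]
          exact mul_le_mul_of_nonneg_right (hw l (mem_range.1 hl)) (abs_nonneg _)
      _ = W * ∑ l ∈ range d, |P.p (j + (l : ZMod n))| := by rw [← mul_sum]
  have h2 : (∑ l ∈ range d, |P.p (j + (l : ZMod n))|) ^ 2 ≤ P.R j d * (2 * ellsum P j d) := by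
    have hcs := Finset.sum_mul_sq_le_sq_mul_sq (range d)
      (fun l => Real.sqrt (P.r (j + (l : ZMod n))))
      (fun l => Real.sqrt (2 * P.ell (j + (l : ZMod n))))
    have e1 : ∑ l ∈ range d, |P.p (j + (l : ZMod n))|
        ≤ ∑ l ∈ range d, Real.sqrt (P.r (j + (l : ZMod n)))
          * Real.sqrt (2 * P.ell (j + (l : ZMod n))) := by
      refine sum_le_sum fun l _ => ?_
      rw [← Real.sqrt_mul (P.r_pos _).le]
      refine Real.le_sqrt_of_sq_le ?_
      rw [sq_abs]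
      exact mb_p_sq P _
    have e2 : ∑ l ∈ range d, Real.sqrt (P.r (j + (l : ZMod n))) ^ 2 = P.R j d := by
      unfold Loc.R
      refine sum_congr rfl fun l _ => ?_
      exact Real.sq_sqrt (P.r_pos _).le
    have e3 : ∑ l ∈ range d, Real.sqrt (2 * P.ell (j + (l : ZMod n))) ^ 2 = 2 * ellsum P j d := by
      unfold ellsum
      rw [mul_sum]
      refine sum_congr rfl fun l _ => ?_
      exact Real.sq_sqrt (mul_nonneg (by norm_num) (ell_nonneg P _))
    rw [e2, e3] at hcs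
    refine le_trans ?_ hcs
    exact pow_le_pow_left₀ (sum_nonneg fun l _ => abs_nonneg _) e1 2
  have h3 : (∑ l ∈ range d, P.p (j + (l : ZMod n)) * w l) ^ 2
      ≤ (W * ∑ l ∈ range d, |P.p (j + (l : ZMod n))|) ^ 2 := by
    rw [← sq_abs]
    exact pow_le_pow_left₀ (abs_nonneg _) h1 2
  refine h3.trans ?_
  rw [mul_pow]
  calc W ^ 2 * (∑ l ∈ range d, |P.p (j + (l : ZMod n))|) ^ 2
      ≤ W ^ 2 * (P.R j d * (2 * ellsum P j d)) := mul_le_mul_of_nonneg_left h2 (sq_nonneg _)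
    _ = W ^ 2 * (2 * (P.R j d * ellsum P j d)) := by ring

private theorem mb_nd {n d : ℕ} (h1 : 1 ≤ d) (h2 : 100 * d ≤ n) :
    (1 : ℝ) ≤ d ∧ (0 : ℝ) < n ∧ 0 < (d : ℝ) / n ∧ (d : ℝ) / n ≤ 1 / 100 := by
  have a1 : (1 : ℝ) ≤ d := by exact_mod_cast h1
  have a2 : (100 : ℝ) * d ≤ n := by exact_mod_cast h2
  have a3 : (0 : ℝ) < n := by linarith
  refine ⟨a1, a3, by positivity, ?_⟩
  rw [div_le_iff₀ a3]
  linarith

private theorem mb_tau_abs {n d : ℕ} (h1 : 1 ≤ d) (h2 : 100 * d ≤ n) {l : ℕ} (hl : l < d) :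
    |tau n d l| ≤ Real.pi * ((d : ℝ) / n) := by
  obtain ⟨a1, a3, a4, a5⟩ := mb_nd h1 h2
  unfold tau
  have hl' : (l : ℝ) + 1 ≤ d := by exact_mod_cast hl
  have hl0 : (0 : ℝ) ≤ l := by positivity
  have e : Real.pi * (2 * (l : ℝ) + 1 - (d : ℝ)) / (n : ℝ)
      = Real.pi * ((2 * (l : ℝ) + 1 - (d : ℝ)) / n) := by ring
  rw [e, abs_mul, abs_of_pos Real.pi_pos, abs_div, abs_of_pos a3]
  refine mul_le_mul_of_nonneg_left ?_ Real.pi_pos.le
  refine div_le_div_of_nonneg_right ?_ a3.le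
  rw [abs_le]
  constructor <;> linarith

private theorem mb_tau_succ {n : ℕ} (d l : ℕ) :
    tau n d (l + 1) - tau n d l = 2 * Real.pi / n := by
  unfold tau
  push_cast
  ring

private theorem mb_pi_sq : Real.pi ^ 2 ≤ 98697 / 10000 := by
  have h := Real.pi_lt_d6
  have h0 := Real.pi_pos
  nlinarith

private theorem mb_beta {n d : ℕ} [NeZero n] (h1 : 1 ≤ d) (h2 : 100 * d ≤ n) :
    1 ≤ (d : ℝ) * beta n d ∧ (d : ℝ) * beta n d ≤ 1 + 2 * ((d : ℝ) / n) ^ 2 ∧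
      (d : ℝ) * beta n d ≤ 10002 / 10000 ∧ 0 < beta n d := by
  obtain ⟨a1, a3, a4, a5⟩ := mb_nd h1 h2
  have b1 := beta_lower (n := n) h1 (by omega : d < n)
  have b2 := beta_upper_small (n := n) h1 h2
  refine ⟨b1, b2, ?_, beta_pos (n := n) h1 (by omega)⟩
  nlinarith

private theorem mb_coef {n d : ℕ} [NeZero n] (h1 : 1 ≤ d) (h2 : 100 * d ≤ n) {l : ℕ} (hl : l < d) :
    |beta n d * Real.cos (tau n d l) - 1 / d| ≤ 5 * ((d : ℝ) / n) ^ 2 / d := by
  obtain ⟨a1, a3, a4, a5⟩ := mb_nd h1 h2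
  obtain ⟨b1, b2, b3, b4⟩ := mb_beta (n := n) h1 h2
  have hd0 : (0 : ℝ) < d := by linarith
  have e : beta n d * Real.cos (tau n d l) - 1 / d
      = ((d : ℝ) * beta n d * Real.cos (tau n d l) - 1) / d := by
    field_simp
  rw [e, abs_div, abs_of_pos hd0]
  refine div_le_div_of_nonneg_right ?_ hd0.le
  have t1 := mb_tau_abs h1 h2 hl
  have t2 : tau n d l ^ 2 ≤ (Real.pi * ((d : ℝ) / n)) ^ 2 := by
    rw [← sq_abs]
    exact pow_le_pow_left₀ (abs_nonneg _) t1 2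
  have t3 : tau n d l ^ 2 ≤ 98697 / 10000 * ((d : ℝ) / n) ^ 2 := by
    refine t2.trans ?_
    rw [mul_pow]
    exact mul_le_mul_of_nonneg_right mb_pi_sq (sq_nonneg _)
  have c1 := Real.one_sub_sq_div_two_le_cos (x := tau n d l)
  have c2 := Real.cos_le_one (tau n d l)
  have c3 : 0 ≤ Real.cos (tau n d l) := by nlinarith [sq_nonneg ((d : ℝ) / n)]
  rw [abs_le]
  constructor
  · have : Real.cos (tau n d l) ≤ (d : ℝ) * beta n d * Real.cos (tau n d l) := by nlinarith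
    nlinarith [sq_nonneg ((d : ℝ) / n)]
  · have : (d : ℝ) * beta n d * Real.cos (tau n d l) ≤ (d : ℝ) * beta n d := by nlinarith
    nlinarith [sq_nonneg ((d : ℝ) / n)]

private theorem mb_x_sub_u (P : Loc n ε) (j : ZMod n) {d : ℕ} (h1 : 1 ≤ d) (h2 : 100 * d ≤ n) :
    (X P.z j d).re - P.u j d
      = (∑ l ∈ range d, P.q (j + (l : ZMod n)) * (beta n d * Real.cos (tau n d l) - 1 / d))
        - beta n d * ∑ l ∈ range d, P.p (j + (l : ZMod n)) * Real.sin (tau n d l) := by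
  rw [Loc.X_re P j h1 (by omega : d < n)]
  unfold Loc.u
  rw [sum_sub_distrib, mul_sub, mul_sum, sum_div]
  have : ∑ l ∈ range d, P.q (j + (l : ZMod n)) * (beta n d * Real.cos (tau n d l) - 1 / d)
      = ∑ l ∈ range d, beta n d * (P.q (j + (l : ZMod n)) * Real.cos (tau n d l))
        - ∑ l ∈ range d, P.q (j + (l : ZMod n)) / d := by
    rw [← sum_sub_distrib]
    refine sum_congr rfl fun l _ => ?_
    ring
  rw [this]
  ring

theorem block_close (P : Loc n ε) (hε0 : 0 ≤ ε) (hε : ε ≤ 1 / 100) (j : ZMod n) {d : ℕ} (h1 : 1 ≤ d)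
    (h2 : 100 * d ≤ n) : |(X P.z j d).re - P.u j d| ≤ P.u j d / 100 := by
  obtain ⟨a1, a3, a4, a5⟩ := mb_nd h1 h2
  obtain ⟨b1, b2, b3, b4⟩ := mb_beta (n := n) h1 h2
  have hd0 : (0 : ℝ) < d := by linarith
  have hu := u_pos P hε j h1
  obtain ⟨r1, r2⟩ := R_le_u P hε0 hε j h1
  rw [mb_x_sub_u P j h1 h2]
  have e1 : |∑ l ∈ range d, P.q (j + (l : ZMod n)) * (beta n d * Real.cos (tau n d l) - 1 / d)|
      ≤ 5 * ((d : ℝ) / n) ^ 2 * P.u j d := by
    calc |∑ l ∈ range d, P.q (j + (l : ZMod n)) * (beta n d * Real.cos (tau n d l) - 1 / d)|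
        ≤ ∑ l ∈ range d,
          |P.q (j + (l : ZMod n)) * (beta n d * Real.cos (tau n d l) - 1 / d)| :=
          abs_sum_le_sum_abs _ _
      _ ≤ ∑ l ∈ range d, P.q (j + (l : ZMod n)) * (5 * ((d : ℝ) / n) ^ 2 / d) := by
          refine sum_le_sum fun l hl => ?_
          rw [abs_mul, abs_of_pos (q_pos P hε _)]
          exact mul_le_mul_of_nonneg_left (mb_coef h1 h2 (mem_range.1 hl)) (q_pos P hε _).le
      _ = 5 * ((d : ℝ) / n) ^ 2 * P.u j d := by
          rw [← sum_mul, mb_du P j h1]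
          field_simp
  have e2 : |∑ l ∈ range d, P.p (j + (l : ZMod n)) * Real.sin (tau n d l)|
      ≤ (Real.pi * ((d : ℝ) / n)) * (ε * P.R j d) := by
    refine mb_psum_abs P j d _ _ (by positivity) fun l hl => ?_
    exact (Real.abs_sin_le_abs).trans (mb_tau_abs h1 h2 hl)
  have e3 : |beta n d * ∑ l ∈ range d, P.p (j + (l : ZMod n)) * Real.sin (tau n d l)|
      ≤ 1 / 1000 * P.u j d := by
    rw [abs_mul, abs_of_pos b4]
    have hR0 : 0 ≤ P.R j d := le_trans (by positivity) r1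
    have s1 : Real.pi * ((d : ℝ) / n) ≤ 315 / 10000 := by
      have := Real.pi_lt_d2
      have hp := Real.pi_pos
      nlinarith
    have s2 : ε * P.R j d ≤ 1 / 100 * (101 / 100 * (d * P.u j d)) :=
      mul_le_mul hε r2 hR0 (by norm_num)
    have s3 : (Real.pi * ((d : ℝ) / n)) * (ε * P.R j d)
        ≤ 315 / 10000 * (1 / 100 * (101 / 100 * (d * P.u j d))) :=
      mul_le_mul s1 s2 (mul_nonneg hε0 hR0) (by norm_num)
    calc beta n d * |∑ l ∈ range d, P.p (j + (l : ZMod n)) * Real.sin (tau n d l)|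
        ≤ beta n d * (315 / 10000 * (1 / 100 * (101 / 100 * (d * P.u j d)))) :=
          mul_le_mul_of_nonneg_left (e2.trans s3) b4.le
      _ = (d * beta n d) * (315 / 10000 * (1 / 100 * (101 / 100 * P.u j d))) := by ring
      _ ≤ 10002 / 10000 * (315 / 10000 * (1 / 100 * (101 / 100 * P.u j d))) :=
          mul_le_mul_of_nonneg_right b3 (by positivity)
      _ ≤ 1 / 1000 * P.u j d := by nlinarith
  have e4 : 5 * ((d : ℝ) / n) ^ 2 * P.u j d ≤ 5 / 10000 * P.u j d := by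
    refine mul_le_mul_of_nonneg_right ?_ hu.le
    nlinarith
  calc _ ≤ |∑ l ∈ range d, P.q (j + (l : ZMod n)) * (beta n d * Real.cos (tau n d l) - 1 / d)|
      + |beta n d * ∑ l ∈ range d, P.p (j + (l : ZMod n)) * Real.sin (tau n d l)| := abs_sub _ _
    _ ≤ 5 / 10000 * P.u j d + 1 / 1000 * P.u j d := add_le_add (e1.trans e4) e3
    _ ≤ P.u j d / 100 := by linarith

private theorem mb_cos_sub (a b : ℝ) : |Real.cos a - Real.cos b| ≤ |a + b| / 2 * |a - b| := by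
  rw [Real.cos_sub_cos, abs_mul, abs_mul, abs_neg, abs_two]
  have h1 : |Real.sin ((a + b) / 2)| ≤ |a + b| / 2 := by
    refine (Real.abs_sin_le_abs).trans ?_
    rw [abs_div, abs_two]
  have h2 : |Real.sin ((a - b) / 2)| ≤ |a - b| / 2 := by
    refine (Real.abs_sin_le_abs).trans ?_
    rw [abs_div, abs_two]
  calc 2 * |Real.sin ((a + b) / 2)| * |Real.sin ((a - b) / 2)|
      ≤ 2 * (|a + b| / 2) * (|a - b| / 2) := by gcongr
    _ = |a + b| / 2 * |a - b| := by ring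

private theorem mb_sin_sub (a b : ℝ) : |Real.sin a - Real.sin b| ≤ |a - b| := by
  rw [Real.sin_sub_sin, abs_mul, abs_mul, abs_two]
  have h2 : |Real.sin ((a - b) / 2)| ≤ |a - b| / 2 := by
    refine (Real.abs_sin_le_abs).trans ?_
    rw [abs_div, abs_two]
  have h1 := Real.abs_cos_le_one ((a + b) / 2)
  calc 2 * |Real.sin ((a - b) / 2)| * |Real.cos ((a + b) / 2)|
      ≤ 2 * (|a - b| / 2) * 1 := by gcongr
    _ = |a - b| := by ring

theorem block_xi (P : Loc n ε) (hε0 : 0 ≤ ε) (hε : ε ≤ 1 / 100) (j : ZMod n) {d : ℕ} (h1 : 1 ≤ d)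
    (h2 : 100 * d ≤ n) :
    ((X P.z j d).re - P.u j d) ^ 2
      ≤ 1600 / (n : ℝ) ^ 4 * ((d : ℝ) ^ 2 * gam P j d ^ 2 + d * ∑ m ∈ range d, gam P j m ^ 2)
        + 50 / (n : ℝ) ^ 2 * (P.R j d * ellsum P j d) := by
  obtain ⟨a1, a3, a4, a5⟩ := mb_nd h1 h2
  obtain ⟨b1, b2, b3, b4⟩ := mb_beta (n := n) h1 h2
  have hd0 : (0 : ℝ) < d := by linarith
  obtain ⟨r1, r2⟩ := R_le_u P hε0 hε j h1
  have hu := u_pos P hε j h1
  have hR0 : 0 ≤ P.R j d := le_trans (by positivity) r1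
  have hE0 : 0 ≤ ellsum P j d := sum_nonneg fun l _ => ell_nonneg P _
  have hS0 : 0 ≤ ∑ m ∈ range d, gam P j m ^ 2 := sum_nonneg fun m _ => sq_nonneg _
  rw [mb_x_sub_u P j h1 h2]
  -- replace q by q - 1
  have z0 : ∑ l ∈ range d, (beta n d * Real.cos (tau n d l) - 1 / (d : ℝ)) = 0 := by
    rw [sum_sub_distrib, kernel_cos h1 (by omega : d < n)]
    simp only [sum_const, card_range, nsmul_eq_mul]
    field_simp
    ring
  have z1 : ∑ l ∈ range d, P.q (j + (l : ZMod n)) * (beta n d * Real.cos (tau n d l) - 1 / d)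
      = ∑ l ∈ range d, (P.q (j + (l : ZMod n)) - 1)
        * (beta n d * Real.cos (tau n d l) - 1 / d) := by
    rw [← sub_eq_zero, ← sum_sub_distrib]
    rw [← z0]
    refine sum_congr rfl fun l _ => ?_
    ring
  rw [z1]
  have hab := abel_bound (fun l => P.q (j + (l : ZMod n)) - 1)
    (fun l => beta n d * Real.cos (tau n d l) - 1 / d) d (7 * d / (n : ℝ) ^ 2) (20 / (n : ℝ) ^ 2)
    (by positivity) (by positivity)
    (by
      intro l hl
      refine (mb_coef h1 h2 hl).trans ?_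
      have : 5 * ((d : ℝ) / n) ^ 2 / d = 5 * d / (n : ℝ) ^ 2 := by field_simp
      rw [this]
      gcongr
      norm_num)
    (by
      intro l hl
      have e : beta n d * Real.cos (tau n d (l + 1)) - 1 / (d : ℝ)
          - (beta n d * Real.cos (tau n d l) - 1 / d)
          = beta n d * (Real.cos (tau n d (l + 1)) - Real.cos (tau n d l)) := by ring
      simp only [e]
      rw [abs_mul, abs_of_pos b4]
      have c1 := mb_cos_sub (tau n d (l + 1)) (tau n d l)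
      rw [mb_tau_succ] at c1
      have c2 : |tau n d (l + 1) + tau n d l| / 2 ≤ Real.pi * ((d : ℝ) / n) := by
        have t1 := mb_tau_abs h1 h2 hl
        have t2 := mb_tau_abs h1 h2 (by omega : l < d)
        have t3 := abs_add_le (tau n d (l + 1)) (tau n d l)
        linarith
      have c3 : |2 * Real.pi / (n : ℝ)| = 2 * Real.pi / n :=
        abs_of_nonneg (by positivity)
      rw [c3] at c1
      calc beta n d * |Real.cos (tau n d (l + 1)) - Real.cos (tau n d l)|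
          ≤ beta n d * (Real.pi * ((d : ℝ) / n) * (2 * Real.pi / n)) := by
            refine mul_le_mul_of_nonneg_left (c1.trans ?_) b4.le
            exact mul_le_mul_of_nonneg_right c2 (by positivity)
        _ = (d * beta n d) * (2 * Real.pi ^ 2) / (n : ℝ) ^ 2 := by
            field_simp
        _ ≤ 20 / (n : ℝ) ^ 2 := by
            refine div_le_div_of_nonneg_right ?_ (by positivity)
            have := mb_pi_sq
            nlinarith [sq_nonneg Real.pi])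
  have hg : ∀ m, (∑ l ∈ range m, (P.q (j + (l : ZMod n)) - 1)) = gam P j m := fun m => rfl
  simp only [hg] at hab
  have hps := mb_psum_sq P j d (fun l => Real.sin (tau n d l)) (Real.pi * ((d : ℝ) / n))
    (by positivity) (fun l hl => (Real.abs_sin_le_abs).trans (mb_tau_abs h1 h2 hl))
  have hps2 : (beta n d * ∑ l ∈ range d, P.p (j + (l : ZMod n)) * Real.sin (tau n d l)) ^ 2
      ≤ 20 / (n : ℝ) ^ 2 * (P.R j d * ellsum P j d) := by
    rw [mul_pow]
    calc beta n d ^ 2 * (∑ l ∈ range d, P.p (j + (l : ZMod n)) * Real.sin (tau n d l)) ^ 2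
        ≤ beta n d ^ 2 * ((Real.pi * ((d : ℝ) / n)) ^ 2 * (2 * (P.R j d * ellsum P j d))) :=
          mul_le_mul_of_nonneg_left hps (sq_nonneg _)
      _ = (d * beta n d) ^ 2 * Real.pi ^ 2 * 2 / (n : ℝ) ^ 2 * (P.R j d * ellsum P j d) := by
          field_simp
      _ ≤ 20 / (n : ℝ) ^ 2 * (P.R j d * ellsum P j d) := by
          refine mul_le_mul_of_nonneg_right ?_ (mul_nonneg hR0 hE0)
          refine div_le_div_of_nonneg_right ?_ (by positivity)
          have hp := mb_pi_sq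
          have hb : (d * beta n d) ^ 2 ≤ 10005 / 10000 := by nlinarith
          calc (d * beta n d) ^ 2 * Real.pi ^ 2 * 2
              ≤ 10005 / 10000 * (98697 / 10000) * 2 := by gcongr
            _ ≤ 20 := by norm_num
  have hsq : ∀ s t : ℝ, (s - t) ^ 2 ≤ 2 * s ^ 2 + 2 * t ^ 2 := fun s t => by
    nlinarith [sq_nonneg (s + t)]
  refine (hsq _ _).trans ?_
  have hab2 : 2 * (7 * (d : ℝ) / (n : ℝ) ^ 2) ^ 2 * gam P j d ^ 2
      + 2 * (20 / (n : ℝ) ^ 2) ^ 2 * d * ∑ m ∈ range d, gam P j m ^ 2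
      ≤ 800 / (n : ℝ) ^ 4 * ((d : ℝ) ^ 2 * gam P j d ^ 2 + d * ∑ m ∈ range d, gam P j m ^ 2) := by
    have e1 : 2 * (7 * (d : ℝ) / (n : ℝ) ^ 2) ^ 2 * gam P j d ^ 2
        = 98 / (n : ℝ) ^ 4 * ((d : ℝ) ^ 2 * gam P j d ^ 2) := by
      field_simp
      ring
    have e2 : 2 * (20 / (n : ℝ) ^ 2) ^ 2 * d * ∑ m ∈ range d, gam P j m ^ 2
        = 800 / (n : ℝ) ^ 4 * (d * ∑ m ∈ range d, gam P j m ^ 2) := by
      field_simp
      ring
    rw [e1, e2, mul_add]
    refine add_le_add ?_ le_rfl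
    refine mul_le_mul_of_nonneg_right ?_ (by positivity)
    gcongr
    norm_num
  have hfin := hab.trans hab2
  have hRE : 0 ≤ P.R j d * ellsum P j d := mul_nonneg hR0 hE0
  have e5 : 2 * (20 / (n : ℝ) ^ 2 * (P.R j d * ellsum P j d))
      ≤ 50 / (n : ℝ) ^ 2 * (P.R j d * ellsum P j d) := by
    have : 2 * (20 / (n : ℝ) ^ 2 * (P.R j d * ellsum P j d))
        = 40 / (n : ℝ) ^ 2 * (P.R j d * ellsum P j d) := by ring
    rw [this]
    refine mul_le_mul_of_nonneg_right ?_ hRE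
    gcongr
    norm_num
  calc _ ≤ 2 * (800 / (n : ℝ) ^ 4
        * ((d : ℝ) ^ 2 * gam P j d ^ 2 + d * ∑ m ∈ range d, gam P j m ^ 2))
      + 2 * (20 / (n : ℝ) ^ 2 * (P.R j d * ellsum P j d)) :=
        add_le_add (mul_le_mul_of_nonneg_left hfin (by norm_num))
          (mul_le_mul_of_nonneg_left hps2 (by norm_num))
    _ ≤ 2 * (800 / (n : ℝ) ^ 4
        * ((d : ℝ) ^ 2 * gam P j d ^ 2 + d * ∑ m ∈ range d, gam P j m ^ 2))
      + 50 / (n : ℝ) ^ 2 * (P.R j d * ellsum P j d) := add_le_add le_rfl e5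
    _ = _ := by ring

private theorem mb_im_eq (P : Loc n ε) (j : ZMod n) {d : ℕ} (h1 : 1 ≤ d) (h2 : 100 * d ≤ n) :
    (X P.z j d).im
      = beta n d * (∑ l ∈ range d, P.q (j + (l : ZMod n)) * Real.sin (tau n d l))
        + beta n d * ∑ l ∈ range d, P.p (j + (l : ZMod n)) * Real.cos (tau n d l) := by
  rw [Loc.X_im P j h1 (by omega : d < n), sum_add_distrib, mul_add]

theorem block_im (P : Loc n ε) (hε0 : 0 ≤ ε) (hε : ε ≤ 1 / 100) (j : ZMod n) {d : ℕ} (h1 : 1 ≤ d)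
    (h2 : 100 * d ≤ n) :
    ((X P.z j d).im / (X P.z j d).re) ^ 2
      ≤ 200 / ((n : ℝ) ^ 2 * P.u j d ^ 2) * (gam P j d ^ 2 + 1 / d * ∑ m ∈ range d, gam P j m ^ 2)
        + 5 / (d * P.u j d) * ellsum P j d := by
  obtain ⟨a1, a3, a4, a5⟩ := mb_nd h1 h2
  obtain ⟨b1, b2, b3, b4⟩ := mb_beta (n := n) h1 h2
  have hd0 : (0 : ℝ) < d := by linarith
  obtain ⟨r1, r2⟩ := R_le_u P hε0 hε j h1
  have hu := u_pos P hε j h1
  have hR0 : 0 ≤ P.R j d := le_trans (by positivity) r1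
  have hE0 : 0 ≤ ellsum P j d := sum_nonneg fun l _ => ell_nonneg P _
  have hS0 : 0 ≤ ∑ m ∈ range d, gam P j m ^ 2 := sum_nonneg fun m _ => sq_nonneg _
  have hbc := block_close P hε0 hε j h1 h2
  have hx : 99 / 100 * P.u j d ≤ (X P.z j d).re := by
    have := (abs_le.1 hbc).1
    linarith
  have hb2 : beta n d ^ 2 ≤ 10005 / 10000 / (d : ℝ) ^ 2 := by
    rw [le_div_iff₀ (by positivity)]
    have : beta n d ^ 2 * (d : ℝ) ^ 2 = (d * beta n d) ^ 2 := by ring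
    rw [this]
    nlinarith
  -- the first sum
  have z1 : ∑ l ∈ range d, P.q (j + (l : ZMod n)) * Real.sin (tau n d l)
      = ∑ l ∈ range d, (P.q (j + (l : ZMod n)) - 1) * Real.sin (tau n d l) := by
    rw [← sub_eq_zero, ← sum_sub_distrib]
    rw [← kernel_sin (n := n) h1 (by omega : d < n)]
    refine sum_congr rfl fun l _ => ?_
    ring
  have hab := abel_bound (fun l => P.q (j + (l : ZMod n)) - 1)
    (fun l => Real.sin (tau n d l)) d (Real.pi * ((d : ℝ) / n)) (2 * Real.pi / n)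
    (by positivity) (by positivity)
    (fun l hl => (Real.abs_sin_le_abs).trans (mb_tau_abs h1 h2 hl))
    (by
      intro l hl
      refine (mb_sin_sub _ _).trans ?_
      rw [mb_tau_succ, abs_of_nonneg (by positivity)])
  have hg : ∀ m, (∑ l ∈ range m, (P.q (j + (l : ZMod n)) - 1)) = gam P j m := fun m => rfl
  simp only [hg] at hab
  rw [← z1] at hab
  have hps := mb_psum_sq P j d (fun l => Real.cos (tau n d l)) 1 (by norm_num)
    (fun l _ => Real.abs_cos_le_one _)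
  have f1 : (beta n d * ∑ l ∈ range d, P.q (j + (l : ZMod n)) * Real.sin (tau n d l)) ^ 2
      ≤ 80 / (n : ℝ) ^ 2 * (gam P j d ^ 2 + 1 / d * ∑ m ∈ range d, gam P j m ^ 2) := by
    rw [mul_pow]
    have hnn : 0 ≤ 2 * (Real.pi * ((d : ℝ) / n)) ^ 2 * gam P j d ^ 2
        + 2 * (2 * Real.pi / n) ^ 2 * d * ∑ m ∈ range d, gam P j m ^ 2 := by positivity
    calc beta n d ^ 2 * (∑ l ∈ range d, P.q (j + (l : ZMod n)) * Real.sin (tau n d l)) ^ 2
        ≤ 10005 / 10000 / (d : ℝ) ^ 2 * (2 * (Real.pi * ((d : ℝ) / n)) ^ 2 * gam P j d ^ 2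
        + 2 * (2 * Real.pi / n) ^ 2 * d * ∑ m ∈ range d, gam P j m ^ 2) :=
          mul_le_mul hb2 hab (sq_nonneg _) (by positivity)
      _ = (2001 / 1000 * Real.pi ^ 2) / (n : ℝ) ^ 2 * gam P j d ^ 2
          + (8004 / 1000 * Real.pi ^ 2) / (n : ℝ) ^ 2
            * (1 / d * ∑ m ∈ range d, gam P j m ^ 2) := by
          field_simp
          ring
      _ ≤ 80 / (n : ℝ) ^ 2 * gam P j d ^ 2
          + 80 / (n : ℝ) ^ 2 * (1 / d * ∑ m ∈ range d, gam P j m ^ 2) := by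
          have hp := mb_pi_sq
          refine add_le_add ?_ ?_
          · refine mul_le_mul_of_nonneg_right ?_ (sq_nonneg _)
            refine div_le_div_of_nonneg_right ?_ (by positivity)
            nlinarith
          · refine mul_le_mul_of_nonneg_right ?_ (by positivity)
            refine div_le_div_of_nonneg_right ?_ (by positivity)
            nlinarith
      _ = _ := by ring
  have f2 : (beta n d * ∑ l ∈ range d, P.p (j + (l : ZMod n)) * Real.cos (tau n d l)) ^ 2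
      ≤ 2025 / 1000 * (P.u j d / d * ellsum P j d) := by
    rw [mul_pow]
    calc beta n d ^ 2 * (∑ l ∈ range d, P.p (j + (l : ZMod n)) * Real.cos (tau n d l)) ^ 2
        ≤ 10005 / 10000 / (d : ℝ) ^ 2 * (1 ^ 2 * (2 * (P.R j d * ellsum P j d))) :=
          mul_le_mul hb2 hps (sq_nonneg _) (by positivity)
      _ ≤ 10005 / 10000 / (d : ℝ) ^ 2
          * (1 ^ 2 * (2 * (101 / 100 * (d * P.u j d) * ellsum P j d))) := by
          gcongr
      _ = 2 * (101 / 100) * (10005 / 10000) * (P.u j d / d * ellsum P j d) := by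
          field_simp
      _ ≤ 2025 / 1000 * (P.u j d / d * ellsum P j d) := by
          refine mul_le_mul_of_nonneg_right (by norm_num) (by positivity)
  have f3 : (X P.z j d).im ^ 2
      ≤ 160 / (n : ℝ) ^ 2 * (gam P j d ^ 2 + 1 / d * ∑ m ∈ range d, gam P j m ^ 2)
        + 405 / 100 * (P.u j d / d * ellsum P j d) := by
    rw [mb_im_eq P j h1 h2]
    have hsq : ∀ s t : ℝ, (s + t) ^ 2 ≤ 2 * s ^ 2 + 2 * t ^ 2 := fun s t => by
      nlinarith [sq_nonneg (s - t)]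
    refine (hsq _ _).trans ?_
    calc _ ≤ 2 * (80 / (n : ℝ) ^ 2 * (gam P j d ^ 2 + 1 / d * ∑ m ∈ range d, gam P j m ^ 2))
        + 2 * (2025 / 1000 * (P.u j d / d * ellsum P j d)) :=
          add_le_add (mul_le_mul_of_nonneg_left f1 (by norm_num))
            (mul_le_mul_of_nonneg_left f2 (by norm_num))
      _ = _ := by ring
  rw [div_pow, div_le_iff₀ (by nlinarith)]
  have hx2 : 9801 / 10000 * P.u j d ^ 2 ≤ (X P.z j d).re ^ 2 := by nlinarith
  have hT0 : 0 ≤ gam P j d ^ 2 + 1 / d * ∑ m ∈ range d, gam P j m ^ 2 := by positivity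
  refine f3.trans ?_
  have hnn : 0 ≤ 200 / ((n : ℝ) ^ 2 * P.u j d ^ 2)
      * (gam P j d ^ 2 + 1 / d * ∑ m ∈ range d, gam P j m ^ 2)
      + 5 / (d * P.u j d) * ellsum P j d := by positivity
  calc 160 / (n : ℝ) ^ 2 * (gam P j d ^ 2 + 1 / d * ∑ m ∈ range d, gam P j m ^ 2)
        + 405 / 100 * (P.u j d / d * ellsum P j d)
      ≤ 196 / (n : ℝ) ^ 2 * (gam P j d ^ 2 + 1 / d * ∑ m ∈ range d, gam P j m ^ 2)
        + 49 / 10 * (P.u j d / d * ellsum P j d) := by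
        refine add_le_add ?_ ?_
        · refine mul_le_mul_of_nonneg_right ?_ hT0
          gcongr
          norm_num
        · refine mul_le_mul_of_nonneg_right (by norm_num) (by positivity)
    _ ≤ (200 / ((n : ℝ) ^ 2 * P.u j d ^ 2)
      * (gam P j d ^ 2 + 1 / d * ∑ m ∈ range d, gam P j m ^ 2)
      + 5 / (d * P.u j d) * ellsum P j d) * (9801 / 10000 * P.u j d ^ 2) := by
        have e1 : (200 / ((n : ℝ) ^ 2 * P.u j d ^ 2)
          * (gam P j d ^ 2 + 1 / d * ∑ m ∈ range d, gam P j m ^ 2)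
          + 5 / (d * P.u j d) * ellsum P j d) * (9801 / 10000 * P.u j d ^ 2)
          = 200 * (9801 / 10000) / (n : ℝ) ^ 2
            * (gam P j d ^ 2 + 1 / d * ∑ m ∈ range d, gam P j m ^ 2)
          + 5 * (9801 / 10000) * (P.u j d / d * ellsum P j d) := by
          field_simp
        rw [e1]
        refine add_le_add ?_ ?_
        · refine mul_le_mul_of_nonneg_right ?_ hT0
          gcongr
          norm_num
        · refine mul_le_mul_of_nonneg_right (by norm_num) (by positivity)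
    _ ≤ _ := mul_le_mul_of_nonneg_left hx2 hnn

theorem block_im' (P : Loc n ε) (hε0 : 0 ≤ ε) (hε : ε ≤ 1 / 100) (j : ZMod n) {d : ℕ} (h1 : 1 ≤ d)
    (h2 : 100 * d ≤ n) :
    ((X P.z j d).im / (X P.z j d).re) ^ 2 ≤ 40 * ((d : ℝ) / n) ^ 2 + 10 * ε ^ 2 := by
  obtain ⟨a1, a3, a4, a5⟩ := mb_nd h1 h2
  obtain ⟨b1, b2, b3, b4⟩ := mb_beta (n := n) h1 h2
  have hd0 : (0 : ℝ) < d := by linarith
  obtain ⟨r1, r2⟩ := R_le_u P hε0 hε j h1
  have hu := u_pos P hε j h1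
  have hR0 : 0 ≤ P.R j d := le_trans (by positivity) r1
  have hbc := block_close P hε0 hε j h1 h2
  have hx : 99 / 100 * P.u j d ≤ (X P.z j d).re := by
    have := (abs_le.1 hbc).1
    linarith
  have f1 : |beta n d * ∑ l ∈ range d, P.q (j + (l : ZMod n)) * Real.sin (tau n d l)|
      ≤ 4 * ((d : ℝ) / n) * P.u j d := by
    rw [abs_mul, abs_of_pos b4]
    have s1 : |∑ l ∈ range d, P.q (j + (l : ZMod n)) * Real.sin (tau n d l)|
        ≤ (Real.pi * ((d : ℝ) / n)) * (d * P.u j d) := by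
      calc |∑ l ∈ range d, P.q (j + (l : ZMod n)) * Real.sin (tau n d l)|
          ≤ ∑ l ∈ range d, |P.q (j + (l : ZMod n)) * Real.sin (tau n d l)| :=
            abs_sum_le_sum_abs _ _
        _ ≤ ∑ l ∈ range d, P.q (j + (l : ZMod n)) * (Real.pi * ((d : ℝ) / n)) := by
            refine sum_le_sum fun l hl => ?_
            rw [abs_mul, abs_of_pos (q_pos P hε _)]
            exact mul_le_mul_of_nonneg_left
              ((Real.abs_sin_le_abs).trans (mb_tau_abs h1 h2 (mem_range.1 hl)))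
              (q_pos P hε _).le
        _ = (Real.pi * ((d : ℝ) / n)) * (d * P.u j d) := by
            rw [← sum_mul, mb_du P j h1]
            ring
    calc beta n d * |∑ l ∈ range d, P.q (j + (l : ZMod n)) * Real.sin (tau n d l)|
        ≤ beta n d * ((Real.pi * ((d : ℝ) / n)) * (d * P.u j d)) :=
          mul_le_mul_of_nonneg_left s1 b4.le
      _ = ((d * beta n d) * Real.pi) * (((d : ℝ) / n) * P.u j d) := by ring
      _ ≤ 4 * (((d : ℝ) / n) * P.u j d) := by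
          refine mul_le_mul_of_nonneg_right ?_ (by positivity)
          have := Real.pi_lt_d2
          have hp := Real.pi_pos
          nlinarith
      _ = _ := by ring
  have f2 : |beta n d * ∑ l ∈ range d, P.p (j + (l : ZMod n)) * Real.cos (tau n d l)|
      ≤ 102 / 100 * ε * P.u j d := by
    rw [abs_mul, abs_of_pos b4]
    have s1 := mb_psum_abs P j d (fun l => Real.cos (tau n d l)) 1 (by norm_num)
      (fun l _ => Real.abs_cos_le_one _)
    calc beta n d * |∑ l ∈ range d, P.p (j + (l : ZMod n)) * Real.cos (tau n d l)|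
        ≤ beta n d * (1 * (ε * P.R j d)) := mul_le_mul_of_nonneg_left s1 b4.le
      _ ≤ beta n d * (1 * (ε * (101 / 100 * (d * P.u j d)))) := by gcongr
      _ = (d * beta n d) * (101 / 100) * (ε * P.u j d) := by ring
      _ ≤ 102 / 100 * (ε * P.u j d) := by
          refine mul_le_mul_of_nonneg_right ?_ (by positivity)
          nlinarith
      _ = _ := by ring
  have f3 : |(X P.z j d).im| ≤ (4 * ((d : ℝ) / n) + 102 / 100 * ε) * P.u j d := by
    rw [mb_im_eq P j h1 h2]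
    refine (abs_add_le _ _).trans ?_
    linarith
  have f4 : (X P.z j d).im ^ 2 ≤ ((4 * ((d : ℝ) / n) + 102 / 100 * ε) * P.u j d) ^ 2 := by
    rw [← sq_abs]
    exact pow_le_pow_left₀ (abs_nonneg _) f3 2
  rw [div_pow, div_le_iff₀ (by nlinarith)]
  refine f4.trans ?_
  have hx2 : 9801 / 10000 * P.u j d ^ 2 ≤ (X P.z j d).re ^ 2 := by nlinarith
  rw [mul_pow]
  have g1 : (4 * ((d : ℝ) / n) + 102 / 100 * ε) ^ 2
      ≤ (40 * ((d : ℝ) / n) ^ 2 + 10 * ε ^ 2) * (9801 / 10000) := by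
    nlinarith [sq_nonneg (4 * ((d : ℝ) / n) - 102 / 100 * ε), sq_nonneg ((d : ℝ) / n),
      sq_nonneg ε]
  calc (4 * ((d : ℝ) / n) + 102 / 100 * ε) ^ 2 * P.u j d ^ 2
      ≤ (40 * ((d : ℝ) / n) ^ 2 + 10 * ε ^ 2) * (9801 / 10000) * P.u j d ^ 2 :=
        mul_le_mul_of_nonneg_right g1 (sq_nonneg _)
    _ = (40 * ((d : ℝ) / n) ^ 2 + 10 * ε ^ 2) * (9801 / 10000 * P.u j d ^ 2) := by ring
    _ ≤ _ := mul_le_mul_of_nonneg_left hx2 (by positivity)

end EHP56
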