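import Pool.Agent.EHP56.Defs
import Pool.Agent.RegPoly.FiveSeven

/-!
# Sides and outward normals of a strictly convex polygon (module A5)

`orient a b c = Im ((c - b) * conj (b - a))` (`orient_eq_im` in RegPoly/FiveSeven), it is invariant under
cyclic shifts (`orient_cyc`), affine in each variable, and `ConvexPos z` says `0 < orient (z i) (z j) (z k)`
for `i < j < k`.

* `side_orient`: for all `k` and all `j ≠ k, k + 1`: `0 < orient (z k) (z (k+1)) (z j)`
  (cases `k < m`: `k + 1` is the true successor, then `j < k` or `j > k + 1`; and `k = m`, `k + 1 = 0`).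
* `side_orient_nonneg`: for all `j`, `0 ≤ orient (z k) (z (k+1)) (z j)` (zero if `j = k` or `j = k+1`).
* `orient_cen`: `orient a b (cen z) = (1/n) ∑ j, orient a b (z j)` by affinity, so `0 < orient (z k) (z (k+1)) (cen z)`.
* `nrm`: `conj (nrm z k) * w` has real part `- Im (conj e * w)/‖e‖`, `e = z (k+1) - z k`, so
  `Re (conj (nrm z k) * (z j - z k)) = - orient (z k) (z (k+1)) (z j) / ‖e‖ ≤ 0`,
  with equality for `j = k` and `j = k + 1`; hence `supp z (nrm z k) = Re (conj (nrm z k) * z k)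
  = Re (conj (nrm z k) * z (k+1))`.
-/

namespace EHP56

open Finset Pool.Agent.RegPoly

theorem side_orient {m : ℕ} (hm : 2 ≤ m) (z : Fin (m + 1) → ℂ) (hc : ConvexPos z) (k j : Fin (m + 1))
    (h1 : j ≠ k) (h2 : j ≠ k + 1) : 0 < orient (z k) (z (k + 1)) (z j) := by
  by_cases hk : k = Fin.last m
  · subst hk
    have h0 : (Fin.last m + 1 : Fin (m + 1)) = 0 := Fin.last_add_one m
    rw [h0] at h2 ⊢
    rw [orient_cyc]
    have hj0 : (0 : Fin (m + 1)) < j := Fin.pos_iff_ne_zero.mpr h2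
    have hjl : j < Fin.last m := lt_of_le_of_ne (Fin.le_last j) h1
    exact hc _ _ _ hj0 hjl
  · have hkl : k < Fin.last m := lt_of_le_of_ne (Fin.le_last k) hk
    have hv : (k + 1 : Fin (m + 1)).val = k.val + 1 := Fin.val_add_one_of_lt hkl
    rcases lt_or_gt_of_ne h1 with h | h
    · rw [← orient_cyc]
      apply hc _ _ _ h
      rw [Fin.lt_def, hv]; omega
    · apply hc
      · rw [Fin.lt_def, hv]; omega
      · rw [Fin.lt_def, hv]
        have h3 : k.val < j.val := h
        have h4 : j.val ≠ k.val + 1 := fun h5 => h2 (Fin.ext (by rw [hv, h5]))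
        omega

private theorem orient_self_left (a b : ℂ) : orient a b a = 0 := by
  simp only [orient]; ring

private theorem orient_self_right (a b : ℂ) : orient a b b = 0 := by
  simp only [orient]; ring

theorem side_orient_nonneg {m : ℕ} (hm : 2 ≤ m) (z : Fin (m + 1) → ℂ) (hc : ConvexPos z)
    (k j : Fin (m + 1)) : 0 ≤ orient (z k) (z (k + 1)) (z j) := by
  by_cases h1 : j = k
  · rw [h1, orient_self_left]
  by_cases h2 : j = k + 1
  · rw [h2, orient_self_right]
  exact (side_orient hm z hc k j h1 h2).le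

private theorem exists_third {m : ℕ} (hm : 2 ≤ m) (k : Fin (m + 1)) :
    ∃ j : Fin (m + 1), j ≠ k ∧ j ≠ k + 1 := by
  have hcard : ({k, k + 1} : Finset (Fin (m + 1))).card < (univ : Finset (Fin (m + 1))).card := by
    have h := Finset.card_le_two (a := k) (b := k + 1)
    rw [Finset.card_univ, Fintype.card_fin]; omega
  obtain ⟨j, -, hj⟩ := Finset.exists_mem_notMem_of_card_lt_card hcard
  refine ⟨j, ?_, ?_⟩ <;> rintro rfl <;> simp at hj

theorem side_ne {m : ℕ} (hm : 2 ≤ m) (z : Fin (m + 1) → ℂ) (hc : ConvexPos z) (k : Fin (m + 1)) :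
    z (k + 1) ≠ z k := by
  obtain ⟨j, h1, h2⟩ := exists_third hm k
  intro h
  have h3 := side_orient hm z hc k j h1 h2
  rw [h] at h3
  simp [orient] at h3

private theorem orient_cen_eq {m : ℕ} (z : Fin (m + 1) → ℂ) (a b : ℂ) :
    orient a b (cen z) = (∑ j, orient a b (z j)) / ((m + 1 : ℕ) : ℝ) := by
  have hn : ((m + 1 : ℕ) : ℝ) ≠ 0 := by positivity
  have hre : (cen z).re = (∑ j, (z j).re) / ((m + 1 : ℕ) : ℝ) := by
    unfold cen
    rw [← Complex.ofReal_natCast, Complex.div_ofReal_re, Complex.re_sum]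
  have him : (cen z).im = (∑ j, (z j).im) / ((m + 1 : ℕ) : ℝ) := by
    unfold cen
    rw [← Complex.ofReal_natCast, Complex.div_ofReal_im, Complex.im_sum]
  have hsum : ∑ j, orient a b (z j)
      = (b.re - a.re) * ((∑ j, (z j).im) - ((m + 1 : ℕ) : ℝ) * a.im)
        - (b.im - a.im) * ((∑ j, (z j).re) - ((m + 1 : ℕ) : ℝ) * a.re) := by
    simp only [orient]
    rw [Finset.sum_sub_distrib, ← Finset.mul_sum, ← Finset.mul_sum, Finset.sum_sub_distrib,
      Finset.sum_sub_distrib]
    simp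
  rw [hsum]
  simp only [orient]
  rw [hre, him]
  field_simp

theorem orient_cen_pos {m : ℕ} (hm : 2 ≤ m) (z : Fin (m + 1) → ℂ) (hc : ConvexPos z)
    (k : Fin (m + 1)) : 0 < orient (z k) (z (k + 1)) (cen z) := by
  rw [orient_cen_eq]
  apply div_pos _ (by positivity)
  obtain ⟨j, h1, h2⟩ := exists_third hm k
  exact Finset.sum_pos' (fun i _ => side_orient_nonneg hm z hc k i)
    ⟨j, Finset.mem_univ j, side_orient hm z hc k j h1 h2⟩

theorem nrm_norm {m : ℕ} (hm : 2 ≤ m) (z : Fin (m + 1) → ℂ) (hc : ConvexPos z) (k : Fin (m + 1)) :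
    ‖nrm z k‖ = 1 := by
  have h : ‖z (k + 1) - z k‖ ≠ 0 := norm_ne_zero_iff.mpr (sub_ne_zero.mpr (side_ne hm z hc k))
  unfold nrm
  rw [norm_div, norm_mul, Complex.norm_I, one_mul, Complex.norm_real, Real.norm_eq_abs,
    abs_of_nonneg (norm_nonneg _), div_self h]

private theorem nrm_inner {m : ℕ} (hm : 2 ≤ m) (z : Fin (m + 1) → ℂ) (hc : ConvexPos z)
    (k j : Fin (m + 1)) : ((starRingEnd ℂ) (nrm z k) * (z j - z k)).re
      = - orient (z k) (z (k + 1)) (z j) / ‖z (k + 1) - z k‖ := by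
  have h : ‖z (k + 1) - z k‖ ≠ 0 := norm_ne_zero_iff.mpr (sub_ne_zero.mpr (side_ne hm z hc k))
  have h1 : nrm z k = ((-(1 / ‖z (k + 1) - z k‖) : ℝ) : ℂ) * (Complex.I * (z (k + 1) - z k)) := by
    unfold nrm
    have h2 : ((‖z (k + 1) - z k‖ : ℝ) : ℂ) ≠ 0 := by exact_mod_cast h
    push_cast
    field_simp
    rw [Complex.I_sq]
    ring
  rw [h1]
  simp only [orient, map_mul, Complex.conj_ofReal, Complex.conj_I, map_sub, Complex.mul_re,
    Complex.mul_im, Complex.sub_re, Complex.sub_im, Complex.ofReal_re, Complex.ofReal_im,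
    Complex.neg_re, Complex.neg_im, Complex.I_re, Complex.I_im, Complex.conj_re, Complex.conj_im]
  field_simp
  ring

theorem nrm_support {m : ℕ} (hm : 2 ≤ m) (z : Fin (m + 1) → ℂ) (hc : ConvexPos z)
    (k j : Fin (m + 1)) : ((starRingEnd ℂ) (nrm z k) * (z j - z k)).re ≤ 0 := by
  rw [nrm_inner hm z hc]
  apply div_nonpos_of_nonpos_of_nonneg _ (norm_nonneg _)
  linarith [side_orient_nonneg hm z hc k j]

theorem supp_nrm {m : ℕ} (hm : 2 ≤ m) (z : Fin (m + 1) → ℂ) (hc : ConvexPos z) (k : Fin (m + 1)) :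
    supp z (nrm z k) = ((starRingEnd ℂ) (nrm z k) * z k).re ∧
    supp z (nrm z k) = ((starRingEnd ℂ) (nrm z k) * z (k + 1)).re := by
  have hle : ∀ j, ((starRingEnd ℂ) (nrm z k) * z j).re ≤ ((starRingEnd ℂ) (nrm z k) * z k).re := by
    intro j
    have h := nrm_support hm z hc k j
    rw [mul_sub, Complex.sub_re] at h
    linarith
  have hbdd : BddAbove (Set.range fun i => ((starRingEnd ℂ) (nrm z k) * z i).re) :=
    Set.finite_range _ |>.bddAbove
  have h1 : supp z (nrm z k) = ((starRingEnd ℂ) (nrm z k) * z k).re := by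
    unfold supp
    apply le_antisymm
    · exact ciSup_le hle
    · exact le_ciSup (f := fun i => ((starRingEnd ℂ) (nrm z k) * z i).re) hbdd k
  have h2 : ((starRingEnd ℂ) (nrm z k) * z (k + 1)).re = ((starRingEnd ℂ) (nrm z k) * z k).re := by
    have h := nrm_inner hm z hc k (k + 1)
    rw [orient_self_right, neg_zero, zero_div, mul_sub, Complex.sub_re] at h
    linarith
  exact ⟨h1, by rw [h2, h1]⟩

end EHP56
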