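import Pool.Agent.EHP56.Defs

/-!
# Product of the distances of the roots of unity (module C0)

`∏_{d=1}^{n-1} ‖χ(d) - 1‖ = n` (evaluate `(X^n - 1)/(X - 1) = ∏_{d=1}^{n-1} (X - χ d)` at `X = 1`; Mathlib:
`X_pow_sub_one_eq_prod`, `IsPrimitiveRoot...`, or search for `prod_one_sub_pow_eq_order` / `IsPrimitiveRoot.prod_one_sub...`),
and `‖χ(d) - 1‖ = 2 sin (π d / n)`.
-/

namespace EHP56

open Finset

private theorem rp_norm (n : ℕ) (hn : 1 ≤ n) (d : ℕ) (hd : d ≤ n) :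
    ‖Complex.exp (2 * Real.pi * Complex.I * d / n) - 1‖ = 2 * Real.sin (Real.pi * d / n) := by
  have hn0 : (0 : ℝ) < n := by exact_mod_cast hn
  have h1 : (2 * Real.pi * Complex.I * d / n : ℂ) = Complex.I * ((2 * Real.pi * d / n : ℝ) : ℂ) := by
    push_cast
    ring
  rw [h1, Complex.norm_exp_I_mul_ofReal_sub_one]
  have h2 : 2 * Real.pi * d / n / 2 = Real.pi * d / n := by ring
  rw [h2, Real.norm_of_nonneg]
  apply mul_nonneg zero_le_two
  apply Real.sin_nonneg_of_nonneg_of_le_pi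
  · have := Real.pi_pos
    positivity
  · rw [div_le_iff₀ hn0]
    have : (d : ℝ) ≤ n := by exact_mod_cast hd
    exact mul_le_mul_of_nonneg_left this Real.pi_pos.le

theorem norm_chi_sub_one (n : ℕ) [NeZero n] (d : ℕ) (hd : d ≤ n) :
    ‖chi n (d : ZMod n) - 1‖ = 2 * Real.sin (Real.pi * d / n) := by
  rw [← rp_norm n (NeZero.one_le) d hd, chi]
  have := ZMod.stdAddChar_coe (N := n) (d : ℤ)
  rw [Int.cast_natCast] at this
  rw [this]
  push_cast
  rfl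

theorem sum_log_sin (n : ℕ) (hn : 1 ≤ n) :
    ∑ d ∈ Ico 1 n, Real.log (2 * Real.sin (Real.pi * (d : ℝ) / n)) = Real.log n := by
  obtain ⟨m, rfl⟩ : ∃ m, n = m + 1 := ⟨n - 1, by omega⟩
  have hprim := Complex.isPrimitiveRoot_exp (m + 1) (Nat.succ_ne_zero m)
  have h1 := hprim.prod_one_sub_pow_eq_order
  have h2 : ∀ k ∈ range m, ‖1 - Complex.exp (2 * Real.pi * Complex.I / ((m + 1 : ℕ) : ℂ)) ^ (k + 1)‖ =
      2 * Real.sin (Real.pi * ((k + 1 : ℕ) : ℝ) / ((m + 1 : ℕ) : ℝ)) := by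
    intro k hk
    rw [← rp_norm (m + 1) hn (k + 1) (by have := mem_range.1 hk; omega), norm_sub_rev, ← Complex.exp_nat_mul]
    congr 3
    ring
  have h3 : ∀ k ∈ range m, 0 < Real.sin (Real.pi * ((k + 1 : ℕ) : ℝ) / ((m + 1 : ℕ) : ℝ)) := by
    intro k hk
    have hk' := mem_range.1 hk
    have hn0 : (0 : ℝ) < ((m + 1 : ℕ) : ℝ) := by positivity
    apply Real.sin_pos_of_pos_of_lt_pi
    · have := Real.pi_pos
      positivity
    · rw [div_lt_iff₀ hn0]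
      have : ((k + 1 : ℕ) : ℝ) < ((m + 1 : ℕ) : ℝ) := by exact_mod_cast (by omega : k + 1 < m + 1)
      exact mul_lt_mul_of_pos_left this Real.pi_pos
  rw [Finset.sum_Ico_eq_sum_range, Nat.add_sub_cancel]
  have h4 : ∏ k ∈ range m, (2 * Real.sin (Real.pi * ((k + 1 : ℕ) : ℝ) / ((m + 1 : ℕ) : ℝ))) =
      ((m + 1 : ℕ) : ℝ) := by
    rw [← Finset.prod_congr rfl h2, ← norm_prod, h1]
    rw [← Nat.cast_succ, Complex.norm_natCast]
  have h5 : Real.log ((m + 1 : ℕ) : ℝ) =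
      ∑ k ∈ range m, Real.log (2 * Real.sin (Real.pi * ((k + 1 : ℕ) : ℝ) / ((m + 1 : ℕ) : ℝ))) := by
    have h6 : ∏ k ∈ range m, (2 * Real.sin (Real.pi * ((k + 1 : ℕ) : ℝ) / ((m + 1 : ℕ) : ℝ))) =
      ((m + 1 : ℕ) : ℝ) := h4
    calc Real.log ((m + 1 : ℕ) : ℝ)
        = Real.log (∏ k ∈ range m, (2 * Real.sin (Real.pi * ((k + 1 : ℕ) : ℝ) / ((m + 1 : ℕ) : ℝ)))) :=
          congrArg Real.log h6.symm
      _ = _ := by
          apply Real.log_prod
          intro k hk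
          have := h3 k hk
          exact ne_of_gt (mul_pos two_pos this)
  rw [h5]
  apply Finset.sum_congr rfl
  intro k _
  rw [add_comm 1 k]

theorem sum_log_chi (n : ℕ) [NeZero n] :
    ∑ d ∈ Ico 1 n, Real.log ‖chi n (d : ZMod n) - 1‖ = Real.log n := by
  rw [← sum_log_sin n NeZero.one_le]
  apply Finset.sum_congr rfl
  intro d hd
  rw [norm_chi_sub_one n d (mem_Ico.1 hd).2.le]

end EHP56
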