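import Pool.Agent.EHP56.Kernel
import Pool.Agent.EHP56.GFun

/-!
# Averaging over index shifts (modules B2, B5)

* `X_smooth`: `smooth (j+d) - smooth j = (1/T) ∑_t χ(-t) (f (j+t+d) - f (j+t))
  = (1/T) ∑_t χ(-t) X f (j+t) d (χ (j+t+d) - χ (j+t)) = (1/T) ∑_t X f (j+t) d (χ (j+d) - χ j)`.
* `jensen`: convexity of `g` (`g_convex`, `ConvexOn.map_sum_le`) for the average of `Re X (j+t) d`, then sum over `j`
  and shift the summation index.
* `smooth_one`: `X (smooth T z) k 1 = (1/T) ∑_t r c (k+t)`.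
* `smooth_close`: by `X_eq_kernel` and `∑ β e^{iτ} = 1`, `X (smooth) j d - 1 = ∑_l β e^{iτ} (X (smooth) (j+l) 1 - 1)`,
  so for `2d ≤ n` the norm is `≤ d β_d max_k ‖X (smooth) k 1 - 1‖ ≤ (π/2) (κ + (1+κ) ε)`, because
  `X (smooth) k 1 - 1 = (R k T/T - 1) + (1/T) ∑ r (c - 1)`.  For `2d > n` use `X_symm`.
* `smooth_im`: `Im X (smooth) k 1 = (1/T) ∑_t p (k+t)`, `(∑ p)^2 ≤ (∑ r)(∑ p^2/r)`, `p^2/r = r (Im c)^2 ≤ 2 ell`
  (`(Im c)^2 = 1 - (Re c)^2 ≤ 2 (1 - Re c)`), so the square is `≤ (R/T)(1/T) ∑_t 2 ell (k+t)`; sum over `k`.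
* `smooth_im_sum`: `∑_k (1/T) ∑_t p (k+t) = ∑_k p k = 0` (`sum_im`).
-/

namespace EHP56

open Finset

variable {n : ℕ} [NeZero n]

/-- shifting the summation index -/
theorem sum_shift {M : Type*} [AddCommMonoid M] (F : ZMod n → M) (a : ZMod n) :
    ∑ j, F (j + a) = ∑ j, F j := Equiv.sum_comp (Equiv.addRight a) F

theorem X_smooth (T : ℕ) (hT : 1 ≤ T) (f : ZMod n → ℂ) (j : ZMod n) {d : ℕ} (h1 : 1 ≤ d) (h2 : d < n) :
    X (smooth T f) j d = (∑ t ∈ range T, X f (j + (t : ZMod n)) d) / (T : ℂ) := by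
  have hne := chi_sub_ne j h1 h2
  have e : ∀ t ∈ range T, chi n (-(t : ZMod n)) * f (j + (d : ZMod n) + (t : ZMod n))
      - chi n (-(t : ZMod n)) * f (j + (t : ZMod n))
      = X f (j + (t : ZMod n)) d * (chi n (j + (d : ZMod n)) - chi n j) := by
    intro t _
    have hne' := chi_sub_ne (j + (t : ZMod n)) h1 h2
    have e1 : f (j + (t : ZMod n) + (d : ZMod n)) - f (j + (t : ZMod n))
        = X f (j + (t : ZMod n)) d * (chi n (j + (t : ZMod n) + (d : ZMod n)) - chi n (j + (t : ZMod n))) := by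
      unfold X
      rw [div_mul_cancel₀ _ hne']
    have e2 : chi n (-(t : ZMod n)) * (chi n (j + (t : ZMod n) + (d : ZMod n)) - chi n (j + (t : ZMod n)))
        = chi n (j + (d : ZMod n)) - chi n j := by
      rw [mul_sub, ← chi_add, ← chi_add]
      congr 2 <;> ring
    rw [← mul_sub, show j + (d : ZMod n) + (t : ZMod n) = j + (t : ZMod n) + (d : ZMod n) by ring, e1,
      mul_left_comm, e2]
  unfold X smooth
  rw [← sub_div, ← Finset.sum_sub_distrib, Finset.sum_congr rfl e, ← Finset.sum_mul,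
    div_div, mul_comm (T : ℂ), ← div_div, mul_div_assoc, div_self hne, mul_one]
  rfl

theorem X_smooth_re (T : ℕ) (hT : 1 ≤ T) (f : ZMod n → ℂ) (j : ZMod n) {d : ℕ} (h1 : 1 ≤ d) (h2 : d < n) :
    (X (smooth T f) j d).re = (∑ t ∈ range T, (X f (j + (t : ZMod n)) d).re) / (T : ℝ) := by
  rw [X_smooth T hT f j h1 h2, Complex.div_natCast_re, Complex.re_sum]

theorem jensen (T : ℕ) (hT : 1 ≤ T) (f : ZMod n → ℂ) {d : ℕ} (h1 : 1 ≤ d) (h2 : d < n)
    (hre : ∀ j, 0 < (X f j d).re) :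
    ∑ j, g (X (smooth T f) j d).re ≤ ∑ j, g (X f j d).re := by
  have hT0 : (0 : ℝ) < T := by exact_mod_cast hT
  have h : ∀ j, g (X (smooth T f) j d).re
      ≤ ∑ t ∈ range T, (1 / (T : ℝ)) * g (X f (j + (t : ZMod n)) d).re := by
    intro j
    rw [X_smooth_re T hT f j h1 h2]
    have hj := g_convex.map_sum_le (t := range T) (w := fun _ => 1 / (T : ℝ))
      (p := fun t : ℕ => (X f (j + (t : ZMod n)) d).re) (fun _ _ => by positivity)
      (by rw [Finset.sum_const, Finset.card_range, nsmul_eq_mul]; field_simp)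
      (fun t _ => hre _)
    simp only [smul_eq_mul] at hj
    rw [← Finset.mul_sum] at hj
    rw [div_eq_mul_one_div, mul_comm]
    exact hj
  calc ∑ j, g (X (smooth T f) j d).re
      ≤ ∑ j, ∑ t ∈ range T, (1 / (T : ℝ)) * g (X f (j + (t : ZMod n)) d).re :=
        Finset.sum_le_sum fun j _ => h j
    _ = ∑ t ∈ range T, (1 / (T : ℝ)) * ∑ j, g (X f j d).re := by
        rw [Finset.sum_comm]
        refine Finset.sum_congr rfl fun t _ => ?_
        rw [← Finset.mul_sum, sum_shift (fun j => g (X f j d).re) (t : ZMod n)]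
    _ = ∑ j, g (X f j d).re := by
        rw [Finset.sum_const, Finset.card_range, nsmul_eq_mul]
        field_simp

theorem Loc.smooth_one {ε : ℝ} (P : Loc n ε) (hn : 2 ≤ n) (T : ℕ) (hT : 1 ≤ T) (k : ZMod n) :
    X (smooth T P.z) k 1
      = (∑ t ∈ range T, (P.r (k + (t : ZMod n)) : ℂ) * P.c (k + (t : ZMod n))) / (T : ℂ) := by
  rw [X_smooth T hT P.z k (le_refl 1) (by omega)]
  congr 1
  exact Finset.sum_congr rfl fun t _ => P.X_one hn _

theorem Loc.smooth_one_close {ε : ℝ} (P : Loc n ε) (hn : 2 ≤ n) (T : ℕ) (hT : 1 ≤ T) (κ : ℝ)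
    (hκ : ∀ k, |P.R k T / T - 1| ≤ κ) (k : ZMod n) :
    ‖X (smooth T P.z) k 1 - 1‖ ≤ κ + (1 + κ) * ε := by
  have hT0 : (0 : ℝ) < T := by exact_mod_cast hT
  have hTc : (T : ℂ) ≠ 0 := by exact_mod_cast hT0.ne'
  have hε := Loc.eps_nonneg P
  have e : X (smooth T P.z) k 1 - 1 = ((P.R k T / T - 1 : ℝ) : ℂ)
      + (∑ t ∈ range T, (P.r (k + (t : ZMod n)) : ℂ) * (P.c (k + (t : ZMod n)) - 1)) / (T : ℂ) := by
    rw [P.smooth_one hn T hT k]
    simp only [mul_sub, mul_one, Finset.sum_sub_distrib, Loc.R]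
    push_cast
    ring
  rw [e]
  refine (norm_add_le _ _).trans ?_
  have hk := hκ k
  have hk2 : P.R k T / T ≤ 1 + κ := by
    have := (abs_le.1 hk).2
    linarith
  refine add_le_add (by rw [Complex.norm_real]; exact hk) ?_
  rw [norm_div, Complex.norm_natCast]
  have h3 : ‖∑ t ∈ range T, (P.r (k + (t : ZMod n)) : ℂ) * (P.c (k + (t : ZMod n)) - 1)‖
      ≤ P.R k T * ε := by
    refine (norm_sum_le _ _).trans ?_
    unfold Loc.R
    rw [Finset.sum_mul]
    refine Finset.sum_le_sum fun t _ => ?_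
    rw [norm_mul, Complex.norm_real, Real.norm_eq_abs, abs_of_pos (P.r_pos _)]
    exact mul_le_mul_of_nonneg_left (P.c_close _) (P.r_pos _).le
  calc ‖∑ t ∈ range T, (P.r (k + (t : ZMod n)) : ℂ) * (P.c (k + (t : ZMod n)) - 1)‖ / (T : ℝ)
      ≤ P.R k T * ε / T := by gcongr
    _ = P.R k T / T * ε := by ring
    _ ≤ (1 + κ) * ε := mul_le_mul_of_nonneg_right hk2 hε

theorem Loc.smooth_close_half {ε : ℝ} (P : Loc n ε) (hn : 2 ≤ n) (T : ℕ) (hT : 1 ≤ T) (κ : ℝ)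
    (hκ : ∀ k, |P.R k T / T - 1| ≤ κ) (j : ZMod n) {d : ℕ} (h1 : 1 ≤ d) (h2 : 2 * d ≤ n) :
    ‖X (smooth T P.z) j d - 1‖ ≤ 2 * (κ + (1 + κ) * ε) := by
  have hlt : d < n := by omega
  have hε := Loc.eps_nonneg P
  have hκ0 : 0 ≤ κ := (abs_nonneg _).trans (hκ 0)
  have hδ : 0 ≤ κ + (1 + κ) * ε := by positivity
  have e : X (smooth T P.z) j d - 1 = ∑ l ∈ range d, (beta n d : ℂ)
      * Complex.exp ((tau n d l : ℂ) * Complex.I) * (X (smooth T P.z) (j + (l : ZMod n)) 1 - 1) := by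
    simp only [mul_sub, mul_one, Finset.sum_sub_distrib]
    rw [kernel_one h1 hlt, ← X_eq_kernel _ _ h1 hlt]
  have hb := beta_pos h1 hlt
  rw [e]
  calc ‖∑ l ∈ range d, (beta n d : ℂ)
      * Complex.exp ((tau n d l : ℂ) * Complex.I) * (X (smooth T P.z) (j + (l : ZMod n)) 1 - 1)‖
      ≤ ∑ l ∈ range d, beta n d * (κ + (1 + κ) * ε) := by
        refine (norm_sum_le _ _).trans (Finset.sum_le_sum fun l _ => ?_)
        rw [norm_mul, norm_mul, Complex.norm_real, Complex.norm_exp_ofReal_mul_I, mul_one,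
          Real.norm_eq_abs, abs_of_pos hb]
        exact mul_le_mul_of_nonneg_left (P.smooth_one_close hn T hT κ hκ _) hb.le
    _ = (d * beta n d) * (κ + (1 + κ) * ε) := by
        rw [Finset.sum_const, Finset.card_range, nsmul_eq_mul]; ring
    _ ≤ 2 * (κ + (1 + κ) * ε) := by
        refine mul_le_mul_of_nonneg_right ((beta_upper h1 h2).trans ?_) hδ
        have := Real.pi_lt_d2
        linarith

theorem Loc.smooth_close {ε : ℝ} (P : Loc n ε) (hn : 2 ≤ n) (T : ℕ) (hT : 1 ≤ T) (κ : ℝ)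
    (hκ : ∀ k, |P.R k T / T - 1| ≤ κ) (j : ZMod n) {d : ℕ} (h1 : 1 ≤ d) (h2 : d < n) :
    ‖X (smooth T P.z) j d - 1‖ ≤ 2 * (κ + (1 + κ) * ε) := by
  rcases Nat.lt_or_ge n (2 * d) with h | h
  · rw [← X_symm (smooth T P.z) j h2.le]
    exact P.smooth_close_half hn T hT κ hκ _ (by omega) (by omega)
  · exact P.smooth_close_half hn T hT κ hκ _ h1 h

theorem Loc.smooth_one_im {ε : ℝ} (P : Loc n ε) (hn : 2 ≤ n) (T : ℕ) (hT : 1 ≤ T) (k : ZMod n) :
    (X (smooth T P.z) k 1).im = (∑ t ∈ range T, P.p (k + (t : ZMod n))) / (T : ℝ) := by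
  rw [P.smooth_one hn T hT k, Complex.div_natCast_im, Complex.im_sum]
  congr 1
  exact Finset.sum_congr rfl fun t _ => by rw [Complex.im_ofReal_mul]; rfl

theorem Loc.smooth_im {ε : ℝ} (P : Loc n ε) (hn : 2 ≤ n) (T : ℕ) (hT : 1 ≤ T) (κ : ℝ)
    (hκ : ∀ k, |P.R k T / T - 1| ≤ κ) :
    ∑ k, (X (smooth T P.z) k 1).im ^ 2 ≤ (1 + κ) * (2 * P.L0) := by
  have hT0 : (0 : ℝ) < T := by exact_mod_cast hT
  have hκ0 : 0 ≤ κ := (abs_nonneg _).trans (hκ 0)
  have hc : ∀ k, (P.c k).re ^ 2 + (P.c k).im ^ 2 = 1 := by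
    intro k
    have h := P.c_norm k
    have h2 : ‖P.c k‖ ^ 2 = 1 := by rw [h]; norm_num
    rw [← Complex.normSq_eq_norm_sq, Complex.normSq_apply] at h2
    nlinarith
  have hc1 : ∀ k, (P.c k).re ≤ 1 := fun k => by nlinarith [hc k, sq_nonneg (P.c k).im]
  have hell : ∀ k, 0 ≤ P.ell k := fun k =>
    mul_nonneg (P.r_pos k).le (by linarith [hc1 k])
  have hp : ∀ k, P.r k * (P.c k).im ^ 2 ≤ 2 * P.ell k := by
    intro k
    have h1 : (P.c k).im ^ 2 ≤ 2 * (1 - (P.c k).re) := by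
      have := hc k
      nlinarith [hc1 k, sq_nonneg (1 - (P.c k).re)]
    have := mul_le_mul_of_nonneg_left h1 (P.r_pos k).le
    unfold Loc.ell
    linarith
  have h : ∀ k, (X (smooth T P.z) k 1).im ^ 2
      ≤ ∑ t ∈ range T, (1 + κ) * (1 / (T : ℝ)) * (2 * P.ell (k + (t : ZMod n))) := by
    intro k
    rw [P.smooth_one_im hn T hT k, div_pow, ← Finset.mul_sum]
    have hcs := Finset.sum_sq_le_sum_mul_sum_of_sq_eq_mul (range T)
      (r := fun t : ℕ => P.p (k + (t : ZMod n))) (f := fun t : ℕ => P.r (k + (t : ZMod n)))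
      (g := fun t : ℕ => P.r (k + (t : ZMod n)) * (P.c (k + (t : ZMod n))).im ^ 2)
      (fun t _ => (P.r_pos _).le) (fun t _ => mul_nonneg (P.r_pos _).le (sq_nonneg _))
      (fun t _ => by unfold Loc.p; ring)
    have hk2 : P.R k T ≤ (1 + κ) * T := by
      have := (abs_le.1 (hκ k)).2
      rw [sub_le_iff_le_add, div_le_iff₀ hT0] at this
      linarith
    have hS : 0 ≤ ∑ t ∈ range T, 2 * P.ell (k + (t : ZMod n)) :=
      Finset.sum_nonneg fun t _ => by have := hell (k + (t : ZMod n)); linarith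
    have h3 : ∑ t ∈ range T, P.r (k + (t : ZMod n)) * (P.c (k + (t : ZMod n))).im ^ 2
        ≤ ∑ t ∈ range T, 2 * P.ell (k + (t : ZMod n)) := Finset.sum_le_sum fun t _ => hp _
    have h4 : 0 ≤ P.R k T := Finset.sum_nonneg fun t _ => (P.r_pos _).le
    have h5 : (∑ t ∈ range T, P.p (k + (t : ZMod n))) ^ 2
        ≤ ((1 + κ) * T) * ∑ t ∈ range T, 2 * P.ell (k + (t : ZMod n)) :=
      hcs.trans ((mul_le_mul_of_nonneg_left h3 h4).trans (mul_le_mul_of_nonneg_right hk2 hS))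
    rw [div_le_iff₀ (by positivity)]
    refine h5.trans (le_of_eq ?_)
    field_simp
  calc ∑ k, (X (smooth T P.z) k 1).im ^ 2
      ≤ ∑ k, ∑ t ∈ range T, (1 + κ) * (1 / (T : ℝ)) * (2 * P.ell (k + (t : ZMod n))) :=
        Finset.sum_le_sum fun k _ => h k
    _ = ∑ t ∈ range T, (1 + κ) * (1 / (T : ℝ)) * (2 * P.L0) := by
        rw [Finset.sum_comm]
        refine Finset.sum_congr rfl fun t _ => ?_
        rw [← Finset.mul_sum, ← Finset.mul_sum, sum_shift (fun k => P.ell k) (t : ZMod n)]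
        rfl
    _ = (1 + κ) * (2 * P.L0) := by
        rw [Finset.sum_const, Finset.card_range, nsmul_eq_mul]
        field_simp

theorem Loc.smooth_im_sum {ε : ℝ} (P : Loc n ε) (hn : 2 ≤ n) (T : ℕ) (hT : 1 ≤ T) :
    ∑ k, (X (smooth T P.z) k 1).im = 0 := by
  rw [Finset.sum_congr rfl fun k _ => P.smooth_one_im hn T hT k, ← Finset.sum_div, Finset.sum_comm,
    Finset.sum_congr rfl fun t _ => sum_shift (fun k => P.p k) ((t : ℕ) : ZMod n)]
  have : ∑ k, P.p k = 0 := P.sum_im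
  rw [this]; simp

end EHP56
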